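import Pool.Agent.Helper10.RC.Intr

/-!
# Points of a cover of `G_m ^ 2` on a coset of a subtorus of codimension one
-/

set_option autoImplicit false

namespace Pool.Agent.Helper40.RC

open Pool.Agent.Helper10.RC MvPolynomial NumberField

/-- The substitution `t_j = g_j z ^ a_j`, cleared of denominators by `z ^ m`. -/
noncomputable def sb {K : Type} [Field K] (g : Fin 2 → K) (a : Fin 2 → ℤ) (m : ℕ)
    (f : MvPolynomial (Fin 2) K) : MvPolynomial (Fin 1) K :=
  ∑ β ∈ f.support, monomial (Finsupp.single 0 ((m : ℤ) + ∑ j, a j * β j).toNat)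
    (coeff β f * ∏ j, g j ^ β j)

theorem eval_sb {K : Type} [Field K] (g : Fin 2 → K) (a : Fin 2 → ℤ) (m : ℕ)
    (f : MvPolynomial (Fin 2) K) (hm : ∀ β ∈ f.support, 0 ≤ (m : ℤ) + ∑ j, a j * β j)
    (z : K) (hz : z ≠ 0) :
    eval (fun _ => z) (sb g a m f) = z ^ m * eval (fun j => g j * z ^ a j) f := by
  unfold sb
  rw [map_sum, eval_eq', Finset.mul_sum]
  refine Finset.sum_congr rfl fun β hβ => ?_
  have h := hm β hβ
  rw [eval_monomial, Finsupp.prod_single_index (by simp)]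
  have h1 : z ^ ((m : ℤ) + ∑ j, a j * β j).toNat = z ^ ((m : ℤ) + ∑ j, a j * β j) := by
    rw [← zpow_natCast, Int.toNat_of_nonneg h]
  rw [h1, zpow_add₀ hz, zpow_natCast]
  have h2 : ∏ j, (g j * z ^ a j) ^ β j = (∏ j, g j ^ β j) * z ^ (∑ j, a j * (β j : ℤ)) := by
    simp only [mul_pow, Finset.prod_mul_distrib, Fin.sum_univ_two, Fin.prod_univ_two]
    rw [zpow_add₀ hz, zpow_mul, zpow_mul, zpow_natCast, zpow_natCast]
  rw [h2]
  ring

theorem exists_sb {K : Type} [Field K] (P : Pl K 2) (hP : P.Monic) (g : Fin 2 → K)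
    (a : Fin 2 → ℤ) : ∃ (M : ℕ) (Q : Pl K 1), Q.Monic ∧ ∀ (z y : K), z ≠ 0 →
      evh (fun _ => z) (z ^ M * y) Q =
        z ^ (M * P.natDegree) * evh (fun j => g j * z ^ a j) y P := by
  classical
  set δ := P.natDegree with hδ
  obtain ⟨M, hM⟩ : ∃ M : ℕ, ∀ k ∈ Finset.range δ, ∀ β ∈ (P.coeff k).support,
      0 ≤ (M : ℤ) + ∑ j, a j * β j := by
    refine ⟨∑ k ∈ Finset.range δ, ∑ β ∈ (P.coeff k).support, (∑ j, a j * (β j : ℤ)).natAbs, ?_⟩
    intro k hk β hβ
    have h1 : (∑ j, a j * (β j : ℤ)).natAbs ≤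
        ∑ k ∈ Finset.range δ, ∑ β ∈ (P.coeff k).support, (∑ j, a j * (β j : ℤ)).natAbs :=
      (Finset.single_le_sum (f := fun β : Fin 2 →₀ ℕ => (∑ j, a j * (β j : ℤ)).natAbs)
        (fun _ _ => Nat.zero_le _) hβ).trans
      (Finset.single_le_sum (f := fun k => ∑ β ∈ (P.coeff k).support,
        (∑ j, a j * (β j : ℤ)).natAbs) (fun _ _ => Nat.zero_le _) hk)
    omega
  refine ⟨M, Polynomial.X ^ δ + ∑ k : Fin δ, Polynomial.C (sb g a (M * (δ - k)) (P.coeff k)) *
    Polynomial.X ^ (k : ℕ), ?_, ?_⟩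
  · exact Polynomial.monic_X_pow_add (Polynomial.degree_sum_fin_lt _)
  · intro z y hz
    have hPs : P = Polynomial.X ^ δ + ∑ k : Fin δ, Polynomial.C (P.coeff k) *
        Polynomial.X ^ (k : ℕ) := by
      conv_lhs => rw [hP.as_sum]
      rw [← hδ, Finset.sum_range]
    have hev : evh (fun j => g j * z ^ a j) y P = y ^ δ +
        ∑ k : Fin δ, eval (fun j => g j * z ^ a j) (P.coeff k) * y ^ (k : ℕ) := by
      conv_lhs => rw [hPs]
      simp only [evh, map_add, map_sum, map_mul, map_pow, Polynomial.coe_eval₂RingHom,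
        Polynomial.eval₂_X, Polynomial.eval₂_C]
    rw [hev]
    simp only [evh, map_add, map_sum, map_mul, map_pow, Polynomial.coe_eval₂RingHom,
        Polynomial.eval₂_X, Polynomial.eval₂_C]
    rw [mul_add, Finset.mul_sum]
    congr 1
    · rw [mul_pow, ← pow_mul]
    · refine Finset.sum_congr rfl fun k _ => ?_
      have hk := k.2
      rw [eval_sb g a _ _ _ z hz]
      · rw [mul_pow, ← pow_mul]
        have h1 : M * δ = M * (δ - k) + M * k := by
          rw [← mul_add]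
          congr 1
          omega
        rw [h1, pow_add]
        ring
      · intro β hβ
        have h1 := hM k (Finset.mem_range.2 hk) β hβ
        have h2 : M ≤ M * (δ - (k : ℕ)) := Nat.le_mul_of_pos_right _ (by omega)
        have h3 : (M : ℤ) ≤ ((M * (δ - (k : ℕ)) : ℕ) : ℤ) := by exact_mod_cast h2
        linarith

/-- The theorem `curves_two` with the one-dimensional statement as a hypothesis. -/
theorem curves_two_of (K : Type) [Field K] [NumberField K]
    (hone : ∀ (S : Finset (FinitePlace K)) (B : FinitePlace K → ℝ), {v | B v ≠ 0}.Finite →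
      ∀ P : Pl K 1, P.Monic →
      ∃ (F : Set (K × K)) (𝒞 : Finset (K × ℕ × Polynomial K)), F.Finite ∧
        (∀ c ∈ 𝒞, c.1 ≠ 0 ∧ 1 ≤ c.2.1 ∧
          ∀ t : K, evh (fun _ => c.1 * t ^ c.2.1) (c.2.2.eval t) P = 0) ∧
        ∀ z y : K, z ≠ 0 → (∀ v : FinitePlace K, v ∉ S → |Real.log (v z)| ≤ B v) →
          evh (fun _ => z) y P = 0 →
          (z, y) ∈ F ∨ ∃ c ∈ 𝒞, ∃ t : K, t ≠ 0 ∧ z = c.1 * t ^ c.2.1 ∧ y = c.2.2.eval t)
    (S : Finset (FinitePlace K))
    (B : FinitePlace K → ℝ) (hB : {v | B v ≠ 0}.Finite) (P : Pl K 2) (hP : P.Monic)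
    (α : Fin 2 → ℤ) (hα : α ≠ 0) (d : K) :
    ∃ (F : Set ((Fin 2 → K) × K)) (𝒞 : Finset ((Fin 2 → K) × (Fin 2 → ℤ) × Polynomial K × ℕ)),
      F.Finite ∧ (∀ c ∈ 𝒞, (∀ j, c.1 j ≠ 0) ∧ c.2.1 ≠ 0 ∧
        ∀ t : K, t ≠ 0 → evh (fun j => c.1 j * t ^ c.2.1 j)
          (c.2.2.1.eval t / t ^ c.2.2.2) P = 0) ∧
      ∀ (u : Fin 2 → K) (y : K), (∀ j, u j ≠ 0) →
        (∀ v : FinitePlace K, v ∉ S → ∀ j, |Real.log (v (u j))| ≤ B v) →
        ∏ j, u j ^ α j = d → evh u y P = 0 →
        (u, y) ∈ F ∨ ∃ c ∈ 𝒞, ∃ t : K, t ≠ 0 ∧ (∀ j, u j = c.1 j * t ^ c.2.1 j) ∧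
          y = c.2.2.1.eval t / t ^ c.2.2.2 := by
  classical
  -- the primitive vector
  obtain ⟨m, p, q, x, w, hm, h0, h1, hb⟩ : ∃ (m : ℕ) (p q x w : ℤ), 0 < m ∧
      α 0 = m * p ∧ α 1 = m * q ∧ p * x + q * w = 1 := by
    have hg : 0 < Int.gcd (α 0) (α 1) := by
      rw [Int.gcd_pos_iff]
      by_contra hcon
      push Not at hcon
      apply hα
      funext j
      fin_cases j
      · exact hcon.1
      · exact hcon.2
    refine ⟨Int.gcd (α 0) (α 1), α 0 / Int.gcd (α 0) (α 1), α 1 / Int.gcd (α 0) (α 1),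
      Int.gcdA (α 0) (α 1), Int.gcdB (α 0) (α 1), hg, ?_, ?_, ?_⟩
    · exact (Int.mul_ediv_cancel' (Int.gcd_dvd_left ..)).symm
    · exact (Int.mul_ediv_cancel' (Int.gcd_dvd_right ..)).symm
    · have h2 := Int.gcd_eq_gcd_ab (α 0) (α 1)
      have hp : α 0 = (Int.gcd (α 0) (α 1) : ℤ) * (α 0 / Int.gcd (α 0) (α 1)) :=
        (Int.mul_ediv_cancel' (Int.gcd_dvd_left ..)).symm
      have hq : α 1 = (Int.gcd (α 0) (α 1) : ℤ) * (α 1 / Int.gcd (α 0) (α 1)) :=
        (Int.mul_ediv_cancel' (Int.gcd_dvd_right ..)).symm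
      have hg' : (Int.gcd (α 0) (α 1) : ℤ) ≠ 0 := by exact_mod_cast hg.ne'
      apply mul_left_cancel₀ hg'
      rw [mul_one]
      conv_rhs => rw [h2]
      rw [mul_add, ← mul_assoc, ← mul_assoc, ← hp, ← hq]
  have hm0 : (m : ℤ) ≠ 0 := by exact_mod_cast hm.ne'
  set a : Fin 2 → ℤ := ![-q, p] with ha
  have ha0 : a ≠ 0 := by
    intro h
    have e0 := congrFun h 0
    have e1 := congrFun h 1
    simp only [ha, Matrix.cons_val_zero, Matrix.cons_val_one, Pi.zero_apply] at e0 e1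
    have hq0 : q = 0 := by omega
    rw [hq0, e1] at hb
    simp at hb
  -- the new bounds
  set B' : FinitePlace K → ℝ := fun v => (|(w : ℝ)| + |(x : ℝ)|) * |B v| with hB'
  have hB'f : {v | B' v ≠ 0}.Finite := by
    refine hB.subset fun v hv => ?_
    intro h
    apply hv
    simp only [hB', h, abs_zero, mul_zero]
  -- the substitution for each root of unity class
  set g : K → Fin 2 → K := fun η => ![η ^ x, η ^ w] with hg
  have hsb := fun η => exists_sb P hP (g η) a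
  choose M Q hQ1 hQ2 using hsb
  have hcur := fun η => hone S B' hB'f (Q η) (hQ1 η)
  choose F 𝒞 hF h𝒞 hpt using hcur
  set E : Finset K := (Polynomial.nthRoots m d).toFinset.filter (· ≠ 0) with hE
  set c' : K → (K × ℕ × Polynomial K) → ((Fin 2 → K) × (Fin 2 → ℤ) × Polynomial K × ℕ) :=
    fun η c => (fun j => g η j * c.1 ^ a j, fun j => (c.2.1 : ℤ) * a j,
      Polynomial.C ((c.1 ^ M η)⁻¹) * c.2.2, c.2.1 * M η) with hc'
  have hg0 : ∀ η : K, η ≠ 0 → ∀ j, g η j ≠ 0 := by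
    intro η hη j
    fin_cases j
    · exact zpow_ne_zero _ hη
    · exact zpow_ne_zero _ hη
  refine ⟨⋃ η ∈ E, (fun s : K × K => ((fun j => g η j * s.1 ^ a j), s.2 / s.1 ^ M η)) '' F η,
    E.biUnion fun η => (𝒞 η).image (c' η), ?_, ?_, ?_⟩
  · exact Set.Finite.biUnion (Finset.finite_toSet E) fun η _ => (hF η).image _
  · intro c hc
    obtain ⟨η, hη, hc⟩ := Finset.mem_biUnion.1 hc
    obtain ⟨c, hcc, rfl⟩ := Finset.mem_image.1 hc
    obtain ⟨hc1, hc2, hc3⟩ := h𝒞 η c hcc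
    have hη0 : η ≠ 0 := (Finset.mem_filter.1 hη).2
    refine ⟨?_, ?_, ?_⟩
    · intro j
      exact mul_ne_zero (hg0 η hη0 j) (zpow_ne_zero _ hc1)
    · intro h
      apply ha0
      funext j
      have := congrFun h j
      simp only [hc', Pi.zero_apply] at this
      have h3 : ((c.2.1 : ℕ) : ℤ) ≠ 0 := by
        have : c.2.1 ≠ 0 := by omega
        exact_mod_cast this
      exact (mul_eq_zero.1 this).resolve_left h3
    · intro t ht
      have hz : c.1 * t ^ c.2.1 ≠ 0 := mul_ne_zero hc1 (pow_ne_zero _ ht)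
      have key := hQ2 η (c.1 * t ^ c.2.1)
        ((c.1 ^ M η)⁻¹ * c.2.2.eval t / t ^ (c.2.1 * M η)) hz
      have e1 : (c.1 * t ^ c.2.1) ^ M η *
          ((c.1 ^ M η)⁻¹ * c.2.2.eval t / t ^ (c.2.1 * M η)) = c.2.2.eval t := by
        rw [mul_pow, ← pow_mul]
        have h4 : c.1 ^ M η ≠ 0 := pow_ne_zero _ hc1
        have h5 : t ^ (c.2.1 * M η) ≠ 0 := pow_ne_zero _ ht
        field_simp
      rw [e1, hc3 t] at key
      have e2 := (mul_eq_zero.1 key.symm).resolve_left (pow_ne_zero _ hz)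
      have e3 : (fun j => (c' η c).1 j * t ^ (c' η c).2.1 j) =
          fun j => g η j * (c.1 * t ^ c.2.1) ^ a j := by
        funext j
        simp only [hc']
        rw [mul_zpow, zpow_mul, zpow_natCast, mul_assoc]
      have e4 : (c' η c).2.2.1.eval t / t ^ (c' η c).2.2.2 =
          (c.1 ^ M η)⁻¹ * c.2.2.eval t / t ^ (c.2.1 * M η) := by
        simp only [hc', Polynomial.eval_mul, Polynomial.eval_C]
      rw [e3, e4]
      exact e2
  · intro u y hu hv hud hev
    have hu0 := hu 0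
    have hu1 := hu 1
    set η : K := u 0 ^ p * u 1 ^ q with hη
    set z : K := u 0 ^ (-w) * u 1 ^ x with hz
    have hη0 : η ≠ 0 := mul_ne_zero (zpow_ne_zero _ hu0) (zpow_ne_zero _ hu1)
    have hz0 : z ≠ 0 := mul_ne_zero (zpow_ne_zero _ hu0) (zpow_ne_zero _ hu1)
    have hηm : η ^ m = d := by
      rw [← hud, Fin.prod_univ_two, h0, h1, hη, mul_pow, ← zpow_natCast, ← zpow_natCast,
        ← zpow_mul, ← zpow_mul, mul_comm p, mul_comm q]
    have hηE : η ∈ E := by
      rw [hE, Finset.mem_filter, Multiset.mem_toFinset, Polynomial.mem_nthRoots hm]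
      exact ⟨hηm, hη0⟩
    have hgu : (fun j => g η j * z ^ a j) = u := by
      funext j
      fin_cases j
      · show η ^ x * z ^ (-q) = u 0
        rw [hη, hz, mul_zpow, mul_zpow, ← zpow_mul, ← zpow_mul, ← zpow_mul, ← zpow_mul]
        have e : u 0 ^ (p * x) * u 1 ^ (q * x) * (u 0 ^ (-w * -q) * u 1 ^ (x * -q)) =
            u 0 ^ (p * x + -w * -q) * u 1 ^ (q * x + x * -q) := by
          rw [zpow_add₀ hu0, zpow_add₀ hu1]
          ring
        rw [e]
        have e5 : p * x + -w * -q = 1 := by linarith [hb, mul_comm w q, neg_mul_neg w q]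
        have e6 : q * x + x * -q = 0 := by ring
        rw [e5, e6, zpow_one, zpow_zero, mul_one]
      · show η ^ w * z ^ p = u 1
        rw [hη, hz, mul_zpow, mul_zpow, ← zpow_mul, ← zpow_mul, ← zpow_mul, ← zpow_mul]
        have e : u 0 ^ (p * w) * u 1 ^ (q * w) * (u 0 ^ (-w * p) * u 1 ^ (x * p)) =
            u 0 ^ (p * w + -w * p) * u 1 ^ (q * w + x * p) := by
          rw [zpow_add₀ hu0, zpow_add₀ hu1]
          ring
        rw [e]
        have e5 : q * w + x * p = 1 := by linarith [hb, mul_comm x p]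
        have e6 : p * w + -w * p = 0 := by ring
        rw [e5, e6, zpow_one, zpow_zero, one_mul]
    have hzv : ∀ v : FinitePlace K, v ∉ S → |Real.log (v z)| ≤ B' v := by
      intro v hvS
      have b0 := hv v hvS 0
      have b1 := hv v hvS 1
      have hv0 : v (u 0) ≠ 0 := (map_ne_zero v).2 hu0
      have hv1 : v (u 1) ≠ 0 := (map_ne_zero v).2 hu1
      rw [hz, map_mul, map_zpow₀, map_zpow₀,
        Real.log_mul (zpow_ne_zero _ hv0) (zpow_ne_zero _ hv1), Real.log_zpow, Real.log_zpow]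
      have hBv : B v ≤ |B v| := le_abs_self _
      have hc0 : |((-w : ℤ) : ℝ) * Real.log (v (u 0))| ≤ |(w : ℝ)| * |B v| := by
        rw [abs_mul]
        push_cast
        rw [abs_neg]
        exact mul_le_mul_of_nonneg_left (b0.trans hBv) (abs_nonneg _)
      have hc1 : |(x : ℝ) * Real.log (v (u 1))| ≤ |(x : ℝ)| * |B v| := by
        rw [abs_mul]
        exact mul_le_mul_of_nonneg_left (b1.trans hBv) (abs_nonneg _)
      refine (abs_add_le _ _).trans ?_
      simp only [hB']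
      rw [add_mul]
      exact add_le_add hc0 hc1
    have hpz := hQ2 η z y hz0
    rw [hgu, hev, mul_zero] at hpz
    rcases hpt η z (z ^ M η * y) hz0 hzv hpz with h | ⟨c, hc, t, ht, hzt, hyt⟩
    · left
      refine Set.mem_biUnion hηE ⟨(z, z ^ M η * y), h, ?_⟩
      simp only
      rw [hgu, mul_div_cancel_left₀ _ (pow_ne_zero _ hz0)]
    · right
      refine ⟨c' η c, Finset.mem_biUnion.2 ⟨η, hηE, Finset.mem_image_of_mem _ hc⟩, t, ht, ?_, ?_⟩
      · intro j
        have e : g η j * z ^ a j = u j := congrFun hgu j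
        rw [← e, hzt]
        simp only [hc']
        rw [mul_zpow, zpow_mul, zpow_natCast, mul_assoc]
      · have hc1 := (h𝒞 η c hc).1
        simp only [hc', Polynomial.eval_mul, Polynomial.eval_C]
        rw [← hyt, hzt, mul_pow, ← pow_mul]
        have h4 : c.1 ^ M η ≠ 0 := pow_ne_zero _ hc1
        have h5 : t ^ (c.2.1 * M η) ≠ 0 := pow_ne_zero _ ht
        field_simp

end Pool.Agent.Helper40.RC
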