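import Mathlib

/-!
# Dyadic intervals with many primes in a residue class
-/

set_option autoImplicit false

namespace Pool.Agent.Helper40.EK

open Finset ArithmeticFunction ArithmeticFunction.vonMangoldt

/-- the primes of a residue class in a dyadic interval -/
def blk (D b j : ℕ) : Finset ℕ :=
  (Finset.Ioc (2 ^ j) (2 ^ (j + 1))).filter (fun p => p.Prime ∧ p % D = b % D)

/-- prime part of the series -/
noncomputable def hh {D : ℕ} (a : ZMod D) (x : ℝ) (n : ℕ) : ℝ :=
  (if n.Prime then residueClass a n else 0) / (n : ℝ) ^ x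

lemma hh_nonneg {D : ℕ} (a : ZMod D) (x : ℝ) (n : ℕ) : 0 ≤ hh a x n := by
  unfold hh
  apply div_nonneg _ (by positivity)
  split_ifs
  · exact residueClass_nonneg a n
  · exact le_rfl

lemma block_le {D b : ℕ} (j : ℕ) {x : ℝ} (hx : 1 < x) :
    ∑ n ∈ Finset.Ioc (2 ^ j) (2 ^ (j + 1)), hh (b : ZMod D) x n ≤
      ((blk D b j).card : ℝ) * ((j + 1) * Real.log 2 / ((2 : ℝ) ^ j) ^ x) := by
  have h1 : ∑ n ∈ Finset.Ioc (2 ^ j) (2 ^ (j + 1)), hh (b : ZMod D) x n =
      ∑ n ∈ blk D b j, hh (b : ZMod D) x n := by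
    unfold blk
    rw [Finset.sum_filter]
    apply Finset.sum_congr rfl
    intro n _
    split_ifs with h
    · rfl
    · unfold hh
      by_cases hp : n.Prime
      · rw [if_pos hp]
        have : ¬ ((n : ZMod D) = (b : ZMod D)) := by
          intro h2
          rw [ZMod.natCast_eq_natCast_iff] at h2
          exact h ⟨hp, h2⟩
        unfold residueClass
        rw [Set.indicator_of_notMem (by simpa using this), zero_div]
      · rw [if_neg hp, zero_div]
  rw [h1, ← nsmul_eq_mul]
  apply Finset.sum_le_card_nsmul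
  intro n hn
  unfold blk at hn
  rw [Finset.mem_filter, Finset.mem_Ioc] at hn
  obtain ⟨⟨h2, h3⟩, hp, _⟩ := hn
  unfold hh
  rw [if_pos hp]
  have h4 : residueClass (b : ZMod D) n ≤ (j + 1) * Real.log 2 := by
    refine (residueClass_le _ n).trans ?_
    rw [vonMangoldt_apply_prime hp]
    have h5 : Real.log n ≤ Real.log ((2 : ℝ) ^ (j + 1)) := by
      apply Real.log_le_log (by exact_mod_cast hp.pos)
      exact_mod_cast h3
    rw [Real.log_pow] at h5
    push_cast at h5
    exact h5
  have h6 : ((2 : ℝ) ^ j) ^ x ≤ (n : ℝ) ^ x := by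
    apply Real.rpow_le_rpow (by positivity) _ (by linarith)
    exact_mod_cast h2.le
  have h7 : 0 < ((2 : ℝ) ^ j) ^ x := by positivity
  have h8 : 0 ≤ (j + 1) * Real.log 2 := by
    have := Real.log_pos (by norm_num : (1 : ℝ) < 2); positivity
  calc residueClass (b : ZMod D) n / (n : ℝ) ^ x ≤ ((j + 1) * Real.log 2) / (n : ℝ) ^ x := by
        gcongr
    _ ≤ _ := by gcongr

lemma dyadic_split {J M : ℕ} (hJM : J ≤ M) (f : ℕ → ℝ) :
    ∑ n ∈ Finset.Ioc 0 (2 ^ M), f n = ∑ n ∈ Finset.Ioc 0 (2 ^ J), f n +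
      ∑ j ∈ Finset.Ico J M, ∑ n ∈ Finset.Ioc (2 ^ j) (2 ^ (j + 1)), f n := by
  induction M, hJM using Nat.le_induction with
  | base => simp
  | succ M hM ih =>
    rw [Finset.sum_Ico_succ_top hM, ← add_assoc, ← ih]
    rw [← Finset.sum_union]
    · congr 1
      ext n
      simp only [Finset.mem_union, Finset.mem_Ioc]
      have : 2 ^ M ≤ 2 ^ (M + 1) := Nat.pow_le_pow_right (by norm_num) (by omega)
      have h0 : 0 < 2 ^ M := by positivity
      omega
    · rw [Finset.disjoint_left]
      intro n h1 h2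
      rw [Finset.mem_Ioc] at h1 h2
      omega

lemma one_sub_rpow {t : ℝ} (ht0 : 0 ≤ t) (ht1 : t ≤ 1) : t / 2 ≤ 1 - (2 : ℝ) ^ (-t) := by
  have h := (convexOn_rpow_left (b := (1 / 2 : ℝ)) (by norm_num)).2 (Set.mem_univ (0 : ℝ))
    (Set.mem_univ (1 : ℝ)) (show 0 ≤ 1 - t by linarith) ht0 (by ring)
  simp only [smul_eq_mul, mul_zero, mul_one, zero_add, Real.rpow_zero, Real.rpow_one] at h
  have h2 : (2 : ℝ) ^ (-t) = (1 / 2 : ℝ) ^ t := by
    rw [Real.rpow_neg (by norm_num), one_div, Real.inv_rpow (by norm_num)]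
  rw [h2]
  linarith

theorem exists_dyadic_primes {D : ℕ} (hD : 0 < D) (b : ℕ) (hb : Nat.Coprime b D) (J : ℕ) :
    ∃ j ≥ J, (2:ℝ) ^ j / (10 * D.totient * j) ≤
      (((Finset.Ioc (2^j) (2^(j+1))).filter (fun p => p.Prime ∧ p % D = b % D)).card : ℝ) := by
  by_contra hcon
  push Not at hcon
  have : NeZero D := ⟨hD.ne'⟩
  have ha : IsUnit (b : ZMod D) := (ZMod.isUnit_iff_coprime b D).mpr hb
  obtain ⟨C, hC⟩ := LSeries_residueClass_lower_bound ha
  set φ : ℝ := (D.totient : ℝ) with hφ
  have hφ0 : 0 < φ := by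
    rw [hφ]; exact_mod_cast Nat.totient_pos.mpr hD
  set J1 := max J 1 with hJ1
  -- constants
  have hsum := summable_residueClass_non_primes_div (b : ZMod D)
  set C0 : ℝ := ∑' n : ℕ, (if n.Prime then 0 else residueClass (b : ZMod D) n) / n with hC0
  set C1 : ℝ := ∑ n ∈ Finset.Ioc 0 (2 ^ J1), hh (b : ZMod D) 1 n with hC1
  have hl2 : 0 < Real.log 2 := Real.log_pos (by norm_num)
  -- bound for the series
  have key : ∀ x : ℝ, x ∈ Set.Ioc (1 : ℝ) 2 →
      ∑' n : ℕ, residueClass (b : ZMod D) n / (n : ℝ) ^ x ≤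
        C0 + C1 + (2 * Real.log 2 / (10 * φ)) * (2 / (x - 1)) := by
    rintro x ⟨hx1, hx2⟩
    have ht0 : 0 < x - 1 := by linarith
    set r : ℝ := (2 : ℝ) ^ (-(x - 1)) with hr
    have hr0 : 0 < r := by positivity
    have hr1 : (x - 1) / 2 ≤ 1 - r := one_sub_rpow ht0.le (by linarith)
    have hnn : ∀ n : ℕ, 0 ≤ residueClass (b : ZMod D) n / (n : ℝ) ^ x := fun n =>
      div_nonneg (residueClass_nonneg _ n) (by positivity)
    apply Real.tsum_le_of_sum_range_le hnn
    intro N
    -- enlarge to a power of two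
    obtain ⟨M, hM⟩ : ∃ M, J1 ≤ M ∧ N ≤ 2 ^ M := by
      refine ⟨max J1 N, le_max_left _ _, ?_⟩
      exact (Nat.lt_two_pow_self (n := N)).le.trans
        (Nat.pow_le_pow_right (by norm_num) (le_max_right _ _))
    have h1 : ∑ n ∈ range N, residueClass (b : ZMod D) n / (n : ℝ) ^ x ≤
        ∑ n ∈ Finset.Ioc 0 (2 ^ M), residueClass (b : ZMod D) n / (n : ℝ) ^ x := by
      have h2 : ∑ n ∈ range N, residueClass (b : ZMod D) n / (n : ℝ) ^ x =
          ∑ n ∈ (range N).filter (fun n => n ≠ 0), residueClass (b : ZMod D) n / (n : ℝ) ^ x := by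
        rw [Finset.sum_filter]
        apply Finset.sum_congr rfl
        intro n _
        split_ifs with h
        · rfl
        · push Not at h
          rw [h, residueClass_apply_zero, zero_div]
      rw [h2]
      apply Finset.sum_le_sum_of_subset_of_nonneg
      · intro n hn
        rw [Finset.mem_filter, Finset.mem_range] at hn
        rw [Finset.mem_Ioc]
        omega
      · intro n _ _; exact hnn n
    refine h1.trans ?_
    have h3 : ∑ n ∈ Finset.Ioc 0 (2 ^ M), residueClass (b : ZMod D) n / (n : ℝ) ^ x ≤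
        ∑ n ∈ Finset.Ioc (0 : ℕ) (2 ^ M),
          ((if n.Prime then 0 else residueClass (b : ZMod D) n) / (n : ℝ)) +
          ∑ n ∈ Finset.Ioc 0 (2 ^ M), hh (b : ZMod D) x n := by
      rw [← Finset.sum_add_distrib]
      apply Finset.sum_le_sum
      intro n hn
      rw [Finset.mem_Ioc] at hn
      unfold hh
      by_cases hp : n.Prime
      · rw [if_pos hp, if_pos hp, zero_div, zero_add]
      · rw [if_neg hp, if_neg hp, zero_div, add_zero]
        apply div_le_div_of_nonneg_left (residueClass_nonneg _ n) (by exact_mod_cast hn.1)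
        conv_lhs => rw [← Real.rpow_one (n : ℝ)]
        exact Real.rpow_le_rpow_of_exponent_le (by exact_mod_cast hn.1) hx1.le
    refine h3.trans ?_
    have h4 : ∑ n ∈ Finset.Ioc (0 : ℕ) (2 ^ M), ((if n.Prime then 0 else
        residueClass (b : ZMod D) n) / (n : ℝ)) ≤ C0 := by
      apply hsum.sum_le_tsum
      intro n _
      apply div_nonneg _ (by positivity)
      split_ifs
      · exact le_rfl
      · exact residueClass_nonneg _ n
    rw [dyadic_split hM.1 (hh (b : ZMod D) x)]
    have h5 : ∑ n ∈ Finset.Ioc 0 (2 ^ J1), hh (b : ZMod D) x n ≤ C1 := by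
      rw [hC1]
      apply Finset.sum_le_sum
      intro n hn
      rw [Finset.mem_Ioc] at hn
      unfold hh
      apply div_le_div_of_nonneg_left
      · split_ifs
        · exact residueClass_nonneg _ n
        · exact le_rfl
      · rw [Real.rpow_one]; exact_mod_cast hn.1
      · exact Real.rpow_le_rpow_of_exponent_le (by exact_mod_cast hn.1) hx1.le
    have h6 : ∑ j ∈ Finset.Ico J1 M, ∑ n ∈ Finset.Ioc (2 ^ j) (2 ^ (j + 1)),
        hh (b : ZMod D) x n ≤ (2 * Real.log 2 / (10 * φ)) * (2 / (x - 1)) := by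
      have h7 : ∀ j ∈ Finset.Ico J1 M, ∑ n ∈ Finset.Ioc (2 ^ j) (2 ^ (j + 1)),
          hh (b : ZMod D) x n ≤ (2 * Real.log 2 / (10 * φ)) * r ^ j := by
        intro j hj
        rw [Finset.mem_Ico] at hj
        have hj1 : 1 ≤ j := le_trans (le_max_right _ _) hj.1
        have hjr : (1 : ℝ) ≤ j := by exact_mod_cast hj1
        refine (block_le j hx1).trans ?_
        have hN := (hcon j (le_trans (le_max_left _ _) hj.1)).le
        have h8 : ((2 : ℝ) ^ j) ^ x = 2 ^ j * (1 / r ^ j) := by
          rw [hr, ← Real.rpow_natCast, ← Real.rpow_natCast, ← Real.rpow_mul (by norm_num),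
            ← Real.rpow_mul (by norm_num), one_div, ← Real.rpow_neg (by norm_num),
            ← Real.rpow_add (by norm_num)]
          congr 1
          ring
        calc ((blk D b j).card : ℝ) * ((j + 1) * Real.log 2 / ((2 : ℝ) ^ j) ^ x)
            ≤ ((2:ℝ) ^ j / (10 * φ * j)) * ((j + 1) * Real.log 2 / ((2 : ℝ) ^ j) ^ x) := by
              apply mul_le_mul_of_nonneg_right hN
              positivity
          _ = (Real.log 2 / (10 * φ)) * r ^ j * ((j + 1) / j) := by
              rw [h8]; field_simp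
          _ ≤ (Real.log 2 / (10 * φ)) * r ^ j * 2 := by
              apply mul_le_mul_of_nonneg_left _ (by positivity)
              rw [div_le_iff₀ (by linarith)]
              linarith
          _ = _ := by ring
      refine (Finset.sum_le_sum h7).trans ?_
      rw [← Finset.mul_sum]
      apply mul_le_mul_of_nonneg_left _ (by positivity)
      have h9 : ∑ j ∈ Finset.Ico J1 M, r ^ j ≤ ∑ j ∈ range M, r ^ j := by
        apply Finset.sum_le_sum_of_subset_of_nonneg
        · intro j hj
          rw [Finset.mem_Ico] at hj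
          exact Finset.mem_range.mpr hj.2
        · intro j _ _; positivity
      have h10 : (∑ j ∈ range M, r ^ j) * (1 - r) = 1 - r ^ M := geom_sum_mul_neg r M
      have h11 : ∑ j ∈ range M, r ^ j ≤ 2 / (x - 1) := by
        rw [le_div_iff₀ ht0]
        have h12 : (∑ j ∈ range M, r ^ j) * ((x - 1) / 2) ≤ (∑ j ∈ range M, r ^ j) * (1 - r) :=
          mul_le_mul_of_nonneg_left hr1 (Finset.sum_nonneg fun j _ => by positivity)
        have h13 : 0 ≤ r ^ M := by positivity
        linarith
      exact h9.trans h11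
    linarith
  -- contradiction
  have hlog : Real.log 2 ≤ 0.7 := by have := Real.log_two_lt_d9; linarith
  have h1 : ∀ x : ℝ, x ∈ Set.Ioc (1 : ℝ) 2 → 0.7 / φ ≤ (C + C0 + C1) * (x - 1) := by
    intro x hx
    have ht0 : 0 < x - 1 := by linarith [hx.1]
    have h2 := (hC hx).trans (key x hx)
    have h3 : (φ⁻¹ / (x - 1) - C) * (x - 1) ≤
        (C0 + C1 + (2 * Real.log 2 / (10 * φ)) * (2 / (x - 1))) * (x - 1) :=
      mul_le_mul_of_nonneg_right h2 ht0.le
    have h4 : (φ⁻¹ / (x - 1) - C) * (x - 1) = 1 / φ - C * (x - 1) := by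
      field_simp
    have h5 : (C0 + C1 + (2 * Real.log 2 / (10 * φ)) * (2 / (x - 1))) * (x - 1) =
        (C0 + C1) * (x - 1) + 0.4 * Real.log 2 / φ := by
      field_simp
      ring
    rw [h4, h5] at h3
    have h6 : 0.4 * Real.log 2 / φ ≤ 0.3 / φ := by
      apply div_le_div_of_nonneg_right _ hφ0.le
      linarith
    have h7 : 0.7 / φ = 1 / φ - 0.3 / φ := by ring
    rw [h7]
    linarith
  have h2 := h1 2 ⟨by norm_num, le_rfl⟩
  set A := C + C0 + C1 with hA
  have hA0 : 0 < A := by
    have : 0 < 0.7 / φ := by positivity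
    linarith
  have h3 : 0.7 / φ ≤ A := by linarith
  have h4 := h1 (1 + (0.7 / φ) / (2 * A)) ⟨by
      have : 0 < (0.7 / φ) / (2 * A) := by positivity
      linarith, by
      have : (0.7 / φ) / (2 * A) ≤ 1 := by
        rw [div_le_one (by positivity)]
        linarith
      linarith⟩
  have h5 : A * (1 + (0.7 / φ) / (2 * A) - 1) = (0.7 / φ) / 2 := by
    field_simp
    ring
  rw [h5] at h4
  have : 0 < 0.7 / φ := by positivity
  linarith

end Pool.Agent.Helper40.EK
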