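import Mathlib

/-!
Linear algebra over the complex numbers: a real Lie algebra of skew Hermitian matrices with a
diagonal maximal abelian subspace contains two elements `X`, `Y` such that every common
eigenvector of `X` and `Y` is an eigenvector of the whole algebra.
-/

set_option linter.unusedSectionVars false

namespace Pool.Agent.Skew.LieTwo

open Matrix

variable {n : Type*} [Fintype n] [DecidableEq n]

/-- The complex span `S + i S` of a real subspace of complex matrices. -/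
def cpx (S : Submodule ℝ (Matrix n n ℂ)) : Submodule ℂ (Matrix n n ℂ) where
  carrier := {Z | ∃ A ∈ S, ∃ B ∈ S, Z = A + Complex.I • B}
  add_mem' := by
    rintro _ _ ⟨A, hA, B, hB, rfl⟩ ⟨A', hA', B', hB', rfl⟩
    refine ⟨A + A', S.add_mem hA hA', B + B', S.add_mem hB hB', ?_⟩
    rw [smul_add]; abel
  zero_mem' := ⟨0, S.zero_mem, 0, S.zero_mem, by simp⟩
  smul_mem' := by
    rintro c _ ⟨A, hA, B, hB, rfl⟩
    refine ⟨c.re • A - c.im • B, S.sub_mem (S.smul_mem _ hA) (S.smul_mem _ hB),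
      c.im • A + c.re • B, S.add_mem (S.smul_mem _ hA) (S.smul_mem _ hB), ?_⟩
    ext p q
    simp only [Matrix.smul_apply, Matrix.add_apply, Matrix.sub_apply, smul_eq_mul,
      Complex.real_smul]
    have h : c = (c.re : ℂ) + (c.im : ℂ) * Complex.I := (Complex.re_add_im c).symm
    have h2 : Complex.I * Complex.I = -1 := Complex.I_mul_I
    generalize hre : (c.re : ℂ) = a at *
    generalize him : (c.im : ℂ) = b at *
    rw [h]
    linear_combination (b * B p q) * h2

theorem mem_cpx_of_mem {S : Submodule ℝ (Matrix n n ℂ)} {A : Matrix n n ℂ} (hA : A ∈ S) :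
    A ∈ cpx S := ⟨A, hA, 0, S.zero_mem, by simp⟩

theorem cpx_comm {S : Submodule ℝ (Matrix n n ℂ)}
    (hbr : ∀ X ∈ S, ∀ Y ∈ S, X * Y - Y * X ∈ S) {Z W : Matrix n n ℂ} (hZ : Z ∈ cpx S)
    (hW : W ∈ cpx S) : Z * W - W * Z ∈ cpx S := by
  obtain ⟨A, hA, B, hB, rfl⟩ := hZ
  obtain ⟨C, hC, D, hD, rfl⟩ := hW
  refine ⟨(A * C - C * A) - (B * D - D * B), S.sub_mem (hbr _ hA _ hC) (hbr _ hB _ hD),
    (A * D - D * A) + (B * C - C * B), S.add_mem (hbr _ hA _ hD) (hbr _ hB _ hC), ?_⟩
  have h2 : Complex.I * Complex.I = -1 := Complex.I_mul_I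
  simp only [add_mul, mul_add, smul_mul_assoc, mul_smul_comm, smul_add, smul_sub, smul_smul, h2,
    neg_smul, one_smul]
  abel

theorem cpx_star {S : Submodule ℝ (Matrix n n ℂ)} (hsk : ∀ X ∈ S, Xᴴ = -X)
    {Z : Matrix n n ℂ} (hZ : Z ∈ cpx S) : Zᴴ ∈ cpx S := by
  obtain ⟨A, hA, B, hB, rfl⟩ := hZ
  refine ⟨-A, S.neg_mem hA, B, hB, ?_⟩
  rw [conjTranspose_add, conjTranspose_smul, hsk _ hA, hsk _ hB]
  simp

theorem sub_star_mem {S : Submodule ℝ (Matrix n n ℂ)} (hsk : ∀ X ∈ S, Xᴴ = -X)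
    {Z : Matrix n n ℂ} (hZ : Z ∈ cpx S) : Z - Zᴴ ∈ S := by
  obtain ⟨A, hA, B, hB, rfl⟩ := hZ
  have : A + Complex.I • B - (A + Complex.I • B)ᴴ = (2 : ℝ) • A := by
    rw [conjTranspose_add, conjTranspose_smul, hsk _ hA, hsk _ hB]
    simp only [Complex.star_def, Complex.conj_I, smul_neg, neg_smul, neg_neg]
    rw [two_smul]; abel
  rw [this]
  exact S.smul_mem _ hA

/-- A complex subspace of matrices which is stable under multiplication by the weight function
`w` is stable under restriction to a level of `w`. -/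
theorem proj_mem (S : Submodule ℂ (Matrix n n ℂ)) (w : n → n → ℂ)
    (hw : ∀ Z ∈ S, (Matrix.of fun p q => w p q * Z p q) ∈ S) (c : ℂ) :
    ∀ Z ∈ S, (Matrix.of fun p q => if w p q = c then Z p q else 0) ∈ S := by
  classical
  have key : ∀ s : Finset ℂ, c ∉ s → ∀ Z ∈ S,
      (Matrix.of fun p q => (∏ a ∈ s, (w p q - a) / (c - a)) * Z p q) ∈ S := by
    intro s
    induction s using Finset.induction_on with
    | empty => intro _ Z hZ; simpa using! hZ
    | insert a s ha ih =>
      intro hc Z hZ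
      have hca : c - a ≠ 0 := by
        intro h; exact hc (by rw [sub_eq_zero.1 h]; exact Finset.mem_insert_self _ _)
      have hcs : c ∉ s := fun h => hc (Finset.mem_insert_of_mem h)
      have h1 := ih hcs Z hZ
      have h2 := hw _ h1
      have h3 : (Matrix.of fun p q => (∏ b ∈ insert a s, (w p q - b) / (c - b)) * Z p q) =
          (1 / (c - a)) • ((Matrix.of fun p q => w p q *
            (Matrix.of fun p q => (∏ b ∈ s, (w p q - b) / (c - b)) * Z p q) p q) -
            a • (Matrix.of fun p q => (∏ b ∈ s, (w p q - b) / (c - b)) * Z p q)) := by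
        ext p q
        simp only [Matrix.of_apply, Matrix.smul_apply, Matrix.sub_apply, smul_eq_mul]
        rw [Finset.prod_insert ha]
        field_simp
      rw [h3]
      exact S.smul_mem _ (S.sub_mem h2 (S.smul_mem _ h1))
  intro Z hZ
  set s : Finset ℂ := (Finset.univ.image fun x : n × n => w x.1 x.2).erase c with hs
  have h1 := key s (by simp [hs]) Z hZ
  convert h1 using 1
  ext p q
  simp only [Matrix.of_apply]
  split_ifs with h
  · rw [Finset.prod_eq_one, one_mul]
    intro a ha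
    have hac : c - a ≠ 0 := by
      intro h'; rw [hs, Finset.mem_erase] at ha; exact ha.1 (sub_eq_zero.1 h').symm
    rw [h, div_self hac]
  · rw [Finset.prod_eq_zero (i := w p q), zero_mul]
    · rw [hs, Finset.mem_erase]
      exact ⟨h, Finset.mem_image.2 ⟨(p, q), Finset.mem_univ _, rfl⟩⟩
    · simp

/-- Avoiding finitely many hyperplanes. -/
theorem exists_generic (t : Submodule ℝ (Matrix n n ℂ)) :
    ∃ X ∈ t, ∀ p q r s : n, (X p p).im - (X q q).im - (X r r).im + (X s s).im = 0 →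
      ∀ T ∈ t, (T p p).im - (T q q).im - (T r r).im + (T s s).im = 0 := by
  classical
  let φ : n × n × n × n → (t →ₗ[ℝ] ℝ) := fun a =>
    { toFun := fun T => ((T : Matrix n n ℂ) a.1 a.1).im - ((T : Matrix n n ℂ) a.2.1 a.2.1).im -
        ((T : Matrix n n ℂ) a.2.2.1 a.2.2.1).im + ((T : Matrix n n ℂ) a.2.2.2 a.2.2.2).im
      map_add' := by intro x y; simp; ring
      map_smul' := by intro c x; simp; ring }
  let s : Finset (Submodule ℝ t) :=
    (Finset.univ.filter fun a => φ a ≠ 0).image fun a => LinearMap.ker (φ a)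
  have hs : (⊤ : Submodule ℝ t) ∉ s := by
    intro h
    obtain ⟨a, ha, h2⟩ := Finset.mem_image.1 h
    rw [Finset.mem_filter] at ha
    exact ha.2 (LinearMap.ker_eq_top.1 h2)
  have h := Subspace.biUnion_ne_univ_of_top_notMem hs
  obtain ⟨X, hX⟩ := (Set.ne_univ_iff_exists_notMem _).1 h
  refine ⟨X, X.2, fun p q r s' h0 T hT => ?_⟩
  by_contra hne
  apply hX
  have hφ : φ (p, q, r, s') ≠ 0 := by
    intro h0
    have := LinearMap.congr_fun h0 ⟨T, hT⟩
    exact hne this
  refine Set.mem_iUnion₂.2 ⟨LinearMap.ker (φ (p, q, r, s')), ?_, ?_⟩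
  · exact Finset.mem_image.2 ⟨_, Finset.mem_filter.2 ⟨Finset.mem_univ _, hφ⟩, rfl⟩
  · exact h0

theorem diag_mul {D : Matrix n n ℂ} (hD : ∀ p q, p ≠ q → D p q = 0) (Z : Matrix n n ℂ) (p q : n) :
    (D * Z) p q = D p p * Z p q := by
  rw [Matrix.mul_apply, Finset.sum_eq_single p]
  · intro r _ hr; rw [hD p r (Ne.symm hr), zero_mul]
  · simp

theorem mul_diag {D : Matrix n n ℂ} (hD : ∀ p q, p ≠ q → D p q = 0) (Z : Matrix n n ℂ) (p q : n) :
    (Z * D) p q = Z p q * D q q := by
  rw [Matrix.mul_apply, Finset.sum_eq_single q]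
  · intro r _ hr; rw [hD r q hr, mul_zero]
  · simp

/-- The matrix `Z` only has nonzero entries at places of level `a`. -/
def Lev (x : n → ℝ) (a : ℝ) (Z : Matrix n n ℂ) : Prop := ∀ p q, Z p q ≠ 0 → x p - x q = a

theorem Lev.mul {x : n → ℝ} {a b : ℝ} {Z W : Matrix n n ℂ} (hZ : Lev x a Z) (hW : Lev x b W) :
    Lev x (a + b) (Z * W) := by
  intro p q h
  rw [Matrix.mul_apply] at h
  obtain ⟨r, -, hr⟩ := Finset.exists_ne_zero_of_sum_ne_zero h
  have h1 := hZ p r (left_ne_zero_of_mul hr)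
  have h2 := hW r q (right_ne_zero_of_mul hr)
  linarith

theorem Lev.star {x : n → ℝ} {a : ℝ} {Z : Matrix n n ℂ} (hZ : Lev x a Z) : Lev x (-a) Zᴴ := by
  intro p q h
  rw [conjTranspose_apply] at h
  have := hZ q p (fun h' => h (by rw [h']; simp))
  linarith

theorem Lev.sub {x : n → ℝ} {a : ℝ} {Z W : Matrix n n ℂ} (hZ : Lev x a Z) (hW : Lev x a W) :
    Lev x a (Z - W) := by
  intro p q h
  by_cases h1 : Z p q = 0
  · apply hW p q
    intro h2; apply h; simp [h1, h2]
  · exact hZ p q h1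

theorem Lev.smul {x : n → ℝ} {a : ℝ} {Z : Matrix n n ℂ} (c : ℂ) (hZ : Lev x a Z) :
    Lev x a (c • Z) := by
  intro p q h
  apply hZ p q
  intro h2; apply h; simp [h2]

/-- The Hilbert Schmidt norm squared. -/
def nsq (A : Matrix n n ℂ) : ℝ := ∑ p, ∑ q, Complex.normSq (A p q)

theorem trace_nsq (A : Matrix n n ℂ) : (A * Aᴴ).trace = (nsq A : ℂ) := by
  simp only [Matrix.trace, Matrix.diag_apply, Matrix.mul_apply, conjTranspose_apply, nsq,
    Complex.ofReal_sum]
  refine Finset.sum_congr rfl fun p _ => Finset.sum_congr rfl fun q _ => ?_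
  exact Complex.mul_conj _

theorem trace_aux (M A B : Matrix n n ℂ) :
    (M * (A * B - B * A)).trace = ((M * A - A * M) * B).trace := by
  rw [mul_sub, sub_mul, Matrix.trace_sub, Matrix.trace_sub, mul_assoc, ← mul_assoc M B A,
    Matrix.trace_mul_comm (M * B) A, mul_assoc]

theorem nsq_nonneg (A : Matrix n n ℂ) : 0 ≤ nsq A :=
  Finset.sum_nonneg fun _ _ => Finset.sum_nonneg fun _ _ => Complex.normSq_nonneg _

theorem eq_zero_of_nsq {A : Matrix n n ℂ} (h : nsq A = 0) : A = 0 := by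
  ext p q
  have h1 := (Finset.sum_eq_zero_iff_of_nonneg fun p _ =>
    Finset.sum_nonneg fun q _ => Complex.normSq_nonneg (A p q)).1 h p (Finset.mem_univ _)
  have h2 := (Finset.sum_eq_zero_iff_of_nonneg fun q _ => Complex.normSq_nonneg (A p q)).1 h1 q
    (Finset.mem_univ _)
  simpa using Complex.normSq_eq_zero.1 h2

/-- The standing hypotheses. -/
structure Setup (g t : Submodule ℝ (Matrix n n ℂ)) (X : Matrix n n ℂ) : Prop where
  hbr : ∀ X ∈ g, ∀ Y ∈ g, X * Y - Y * X ∈ g
  hsk : ∀ X ∈ g, Xᴴ = -X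
  htg : t ≤ g
  hdiag : ∀ T ∈ t, ∀ p q, p ≠ q → T p q = 0
  hmax : ∀ Z ∈ g, (∀ T ∈ t, T * Z = Z * T) → Z ∈ t
  hX : X ∈ t
  hgen : ∀ p q r s : n, (X p p).im - (X q q).im - (X r r).im + (X s s).im = 0 →
      ∀ T ∈ t, (T p p).im - (T q q).im - (T r r).im + (T s s).im = 0

namespace Setup

variable {g t : Submodule ℝ (Matrix n n ℂ)} {X : Matrix n n ℂ} (S : Setup g t X)
include S

theorem diag_im {T : Matrix n n ℂ} (hT : T ∈ t) (p : n) :
    T p p = Complex.I * ((T p p).im : ℂ) := by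
  have h := S.hsk T (S.htg hT)
  have h1 : (Tᴴ) p p = (-T) p p := by rw [h]
  rw [conjTranspose_apply, Matrix.neg_apply] at h1
  have h2 := congrArg Complex.re h1
  simp at h2
  apply Complex.ext <;> simp
  linarith

theorem mem_t {A : Matrix n n ℂ} (hA : A ∈ g) (hl : Lev (fun p => (X p p).im) 0 A) : A ∈ t := by
  apply S.hmax A hA
  intro T hT
  ext p q
  rw [diag_mul (S.hdiag T hT), mul_diag (S.hdiag T hT)]
  by_cases h : A p q = 0
  · rw [h]; ring
  · have h1 := hl p q h
    have h2 := S.hgen p q q q (by linarith) T hT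
    rw [S.diag_im hT p, S.diag_im hT q]
    have h3 : (T p p).im = (T q q).im := by linarith
    rw [h3]; ring

theorem half_mem {Z : Matrix n n ℂ} (hZ : Z ∈ cpx g) : (1 / 2 : ℝ) • (Z - Zᴴ) ∈ g :=
  g.smul_mem _ (sub_star_mem S.hsk hZ)

theorem lev_half {x : n → ℝ} {Z : Matrix n n ℂ} (hZ : Lev x 0 Z) :
    Lev x 0 ((1 / 2 : ℝ) • (Z - Zᴴ)) := by
  have h1 : Lev x 0 Zᴴ := by have := hZ.star; rwa [neg_zero] at this
  intro p q h
  apply (hZ.sub h1) p q
  intro h2; apply h
  rw [Matrix.smul_apply, h2, smul_zero]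

theorem mem_tC {Z : Matrix n n ℂ} (hZ : Z ∈ cpx g) (hl : Lev (fun p => (X p p).im) 0 Z) :
    Z ∈ cpx t := by
  have hZ' : (-Complex.I) • Z ∈ cpx g := (cpx g).smul_mem _ hZ
  refine ⟨_, S.mem_t (S.half_mem hZ) (S.lev_half hl), _,
    S.mem_t (S.half_mem hZ') (S.lev_half (hl.smul _)), ?_⟩
  ext p q
  simp only [Matrix.add_apply, Matrix.smul_apply, Matrix.sub_apply, conjTranspose_apply,
    Complex.real_smul, smul_eq_mul, Complex.star_def, map_mul, map_neg, Complex.conj_I]
  push_cast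
  linear_combination ((Z p q + (starRingEnd ℂ) (Z q p)) / 2) * Complex.I_mul_I

theorem tC_diag {H : Matrix n n ℂ} (hH : H ∈ cpx t) (p q : n) (hpq : p ≠ q) : H p q = 0 := by
  obtain ⟨A, hA, B, hB, rfl⟩ := hH
  simp [S.hdiag A hA p q hpq, S.hdiag B hB p q hpq]

theorem tC_lev {H : Matrix n n ℂ} (hH : H ∈ cpx t) (p q r s : n)
    (h : (X p p).im - (X q q).im = (X r r).im - (X s s).im) :
    H p p - H q q = H r r - H s s := by
  obtain ⟨A, hA, B, hB, rfl⟩ := hH
  have h1 := S.hgen p q r s (by linarith) A hA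
  have h2 := S.hgen p q r s (by linarith) B hB
  simp only [Matrix.add_apply, Matrix.smul_apply, smul_eq_mul]
  rw [S.diag_im hA p, S.diag_im hA q, S.diag_im hA r, S.diag_im hA s,
    S.diag_im hB p, S.diag_im hB q, S.diag_im hB r, S.diag_im hB s]
  have h1' : ((A p p).im : ℂ) - (A q q).im - (A r r).im + (A s s).im = 0 := by
    exact_mod_cast congrArg Complex.ofReal h1
  have h2' : ((B p p).im : ℂ) - (B q q).im - (B r r).im + (B s s).im = 0 := by
    exact_mod_cast congrArg Complex.ofReal h2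
  linear_combination Complex.I * h1' + Complex.I * Complex.I * h2'

theorem tC_comm {H W : Matrix n n ℂ} (hH : H ∈ cpx t) {a : ℝ}
    (hW : Lev (fun p => (X p p).im) a W) {p₀ q₀ : n} (h0 : (X p₀ p₀).im - (X q₀ q₀).im = a) :
    H * W - W * H = (H p₀ p₀ - H q₀ q₀) • W := by
  ext p q
  rw [Matrix.sub_apply, diag_mul (S.tC_diag hH), mul_diag (S.tC_diag hH), Matrix.smul_apply,
    smul_eq_mul]
  by_cases h : W p q = 0
  · rw [h]; ring
  · have h1 := hW p q h
    have h2 := S.tC_lev hH p q p₀ q₀ (by simp only at h1; linarith)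
    rw [← h2]; ring

theorem root_unique {a : ℝ} (ha : a ≠ 0) {Y Z : Matrix n n ℂ} (hY : Y ∈ cpx g) (hZ : Z ∈ cpx g)
    (hYl : Lev (fun p => (X p p).im) a Y) (hZl : Lev (fun p => (X p p).im) a Z) (hY0 : Y ≠ 0) :
    ∃ c : ℂ, Z = c • Y := by
  obtain ⟨p₀, q₀, h0⟩ : ∃ p₀ q₀, Y p₀ q₀ ≠ 0 := by
    by_contra hcon
    push Not at hcon
    exact hY0 (by ext p q; simp [hcon p q])
  have hx0 := hYl p₀ q₀ h0
  have hYs : Yᴴ ∈ cpx g := cpx_star S.hsk hY
  have hYsl := hYl.star
  have hYn : 0 < nsq Y := lt_of_le_of_ne (nsq_nonneg Y) (fun h => hY0 (eq_zero_of_nsq h.symm))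
  -- the coroot
  set H := Y * Yᴴ - Yᴴ * Y with hHdef
  have hHg : H ∈ cpx g := cpx_comm S.hbr hY hYs
  have hHl : Lev (fun p => (X p p).im) 0 H := by
    have h1 := hYl.mul hYsl
    have h2 := hYsl.mul hYl
    rw [add_neg_cancel] at h1
    rw [neg_add_cancel] at h2
    exact h1.sub h2
  have hHt : H ∈ cpx t := S.mem_tC hHg hHl
  have hHs : Hᴴ = H := by
    rw [hHdef]; simp [conjTranspose_sub, conjTranspose_mul]
  set c := H p₀ p₀ - H q₀ q₀ with hc
  have hcY : H * Y - Y * H = c • Y := S.tC_comm hHt hYl hx0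
  have e1 : c * (nsq Y : ℂ) = (nsq H : ℂ) := by
    rw [← trace_nsq, ← trace_nsq, hHs]
    have : (c • Y * Yᴴ).trace = ((H * Y - Y * H) * Yᴴ).trace := by rw [hcY]
    rw [smul_mul_assoc, Matrix.trace_smul, smul_eq_mul] at this
    rw [this]
    have h3 : H * H = H * (Y * Yᴴ) - H * (Yᴴ * Y) := by
      rw [← mul_sub, ← hHdef]
    rw [h3, sub_mul, Matrix.trace_sub, Matrix.trace_sub, mul_assoc, mul_assoc,
      Matrix.trace_mul_comm Y (H * Yᴴ), mul_assoc]
  have hXm : X ∈ cpx t := mem_cpx_of_mem S.hX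
  have e2 : (Complex.I * a) * (nsq Y : ℂ) = (X * H).trace := by
    have h4 := S.tC_comm hXm hYl hx0
    have h5 : X p₀ p₀ - X q₀ q₀ = Complex.I * a := by
      rw [S.diag_im S.hX p₀, S.diag_im S.hX q₀, ← hx0]
      push_cast; ring
    rw [h5] at h4
    have : ((Complex.I * a) • Y * Yᴴ).trace = ((X * Y - Y * X) * Yᴴ).trace := by rw [h4]
    rw [smul_mul_assoc, Matrix.trace_smul, smul_eq_mul, trace_nsq] at this
    rw [this, hHdef, mul_sub, sub_mul, Matrix.trace_sub, Matrix.trace_sub, mul_assoc, mul_assoc,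
      Matrix.trace_mul_comm Y (X * Yᴴ), mul_assoc]
  have hH0 : nsq H ≠ 0 := by
    intro h
    rw [eq_zero_of_nsq h, mul_zero, Matrix.trace_zero] at e2
    have : (Complex.I * a) * (nsq Y : ℂ) ≠ 0 := by
      apply mul_ne_zero (mul_ne_zero Complex.I_ne_zero _) _
      · exact_mod_cast ha
      · exact_mod_cast hYn.ne'
    exact this e2
  have hHn : 0 < nsq H := lt_of_le_of_ne (nsq_nonneg H) (Ne.symm hH0)
  have hcr : c = ((nsq H / nsq Y : ℝ) : ℂ) := by
    have : (nsq Y : ℂ) ≠ 0 := by exact_mod_cast hYn.ne'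
    push_cast
    field_simp
    exact e1
  have hcpos : 0 < nsq H / nsq Y := div_pos hHn hYn
  -- reduction to the orthogonal case
  set μ : ℂ := (Z * Yᴴ).trace / (Y * Yᴴ).trace with hμ
  refine ⟨μ, ?_⟩
  rw [← sub_eq_zero]
  set W := Z - μ • Y with hW
  have hWg : W ∈ cpx g := (cpx g).sub_mem hZ ((cpx g).smul_mem _ hY)
  have hWl : Lev (fun p => (X p p).im) a W := hZl.sub (hYl.smul _)
  have hWtr : (W * Yᴴ).trace = 0 := by
    rw [hW, sub_mul, Matrix.trace_sub, smul_mul_assoc, Matrix.trace_smul, smul_eq_mul, hμ]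
    have : (Y * Yᴴ).trace ≠ 0 := by rw [trace_nsq]; exact_mod_cast hYn.ne'
    field_simp
    ring
  set K := W * Yᴴ - Yᴴ * W with hK
  have hKg : K ∈ cpx g := cpx_comm S.hbr hWg hYs
  have hKl : Lev (fun p => (X p p).im) 0 K := by
    have h1 := hWl.mul hYsl
    have h2 := hYsl.mul hWl
    rw [add_neg_cancel] at h1
    rw [neg_add_cancel] at h2
    exact h1.sub h2
  have hKt : K ∈ cpx t := S.mem_tC hKg hKl
  have hKst : Kᴴ ∈ cpx t := cpx_star (fun T hT => S.hsk T (S.htg hT)) hKt
  have hK0 : K = 0 := by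
    have h4 := S.tC_comm hKst hWl hx0
    have h5 : (Kᴴ * K).trace = 0 := by
      have : (Kᴴ * K).trace = ((Kᴴ * W - W * Kᴴ) * Yᴴ).trace := trace_aux Kᴴ W Yᴴ
      rw [this, h4, smul_mul_assoc, Matrix.trace_smul, hWtr, smul_zero]
    rw [Matrix.trace_mul_comm, trace_nsq] at h5
    exact eq_zero_of_nsq (by exact_mod_cast h5)
  have hHW : H * W - W * H = c • W := S.tC_comm hHt hWl hx0
  set L := Y * W - W * Y with hL
  have hLc : Yᴴ * L - L * Yᴴ = -(c • W) := by
    have h6 : Yᴴ * L - L * Yᴴ = -(H * W - W * H) + (K * Y - Y * K) := by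
      rw [hL, hHdef, hK]; noncomm_ring
    rw [h6, hHW, hK0]; simp
  have hLtr : (L * Lᴴ).trace = (W * (Yᴴ * L - L * Yᴴ)ᴴ).trace := by
    have h7 : (Yᴴ * L - L * Yᴴ)ᴴ = Lᴴ * Y - Y * Lᴴ := by
      simp [conjTranspose_sub, conjTranspose_mul]
    rw [h7, mul_sub, Matrix.trace_sub]
    conv_lhs => rw [hL]
    rw [sub_mul, Matrix.trace_sub]
    congr 1
    · rw [mul_assoc, Matrix.trace_mul_comm, mul_assoc, hL]
    · rw [mul_assoc, hL]
  rw [hLc, trace_nsq, conjTranspose_neg, conjTranspose_smul, mul_neg, mul_smul_comm,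
    Matrix.trace_neg, Matrix.trace_smul, trace_nsq, hcr, Complex.star_def, Complex.conj_ofReal,
    smul_eq_mul] at hLtr
  have h8 : nsq L = -((nsq H / nsq Y) * nsq W) := by exact_mod_cast hLtr
  have h9 : nsq W = 0 := by
    have h10 := nsq_nonneg L
    have h11 := nsq_nonneg W
    rcases h11.eq_or_lt with h | h
    · exact h.symm
    · have := mul_pos hcpos h
      linarith
  exact eq_zero_of_nsq h9

/-- Restriction of an element of the complexified algebra to a level stays in the algebra. -/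
theorem level_mem {Z : Matrix n n ℂ} (hZ : Z ∈ cpx g) (a : ℝ) :
    (Matrix.of fun p q => if (X p p).im - (X q q).im = a then Z p q else 0) ∈ cpx g := by
  have hw : ∀ Z ∈ cpx g, (Matrix.of fun p q => (X p p - X q q) * Z p q) ∈ cpx g := by
    intro Z hZ
    have h1 := cpx_comm S.hbr (mem_cpx_of_mem (S.htg S.hX)) hZ
    convert h1 using 1
    ext p q
    rw [Matrix.sub_apply, diag_mul (S.hdiag X S.hX), mul_diag (S.hdiag X S.hX), Matrix.of_apply]
    ring
  have h := proj_mem (cpx g) (fun p q => X p p - X q q) hw (Complex.I * a) Z hZ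
  convert h using 1
  ext p q
  simp only [Matrix.of_apply]
  have h5 : X p p - X q q = Complex.I * (((X p p).im - (X q q).im : ℝ) : ℂ) := by
    rw [S.diag_im S.hX p, S.diag_im S.hX q]
    simp; ring
  have h6 : (X p p).im - (X q q).im = a ↔ X p p - X q q = Complex.I * a := by
    rw [h5, mul_right_inj' Complex.I_ne_zero, Complex.ofReal_inj]
  simp only [h6]

theorem level_lev (Z : Matrix n n ℂ) (a : ℝ) :
    Lev (fun p => (X p p).im) a
      (Matrix.of fun p q => if (X p p).im - (X q q).im = a then Z p q else 0) := by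
  intro p q h
  simp only [Matrix.of_apply] at h
  by_contra h2
  exact h (if_neg h2)

theorem core : ∃ Y ∈ g, ∀ v : n → ℂ, v ≠ 0 → (∃ α : ℂ, X *ᵥ v = α • v) →
    (∃ β : ℂ, Y *ᵥ v = β • v) → ∀ Z ∈ g, ∃ γ : ℂ, Z *ᵥ v = γ • v := by
  classical
  have hch : ∀ a : ℝ, ∃ Y ∈ cpx g, Lev (fun p => (X p p).im) a Y ∧
      (Y = 0 → ∀ Z ∈ cpx g, Lev (fun p => (X p p).im) a Z → Z = 0) := by
    intro a
    by_cases h : ∃ Y ∈ cpx g, Lev (fun p => (X p p).im) a Y ∧ Y ≠ 0
    · obtain ⟨Y, h1, h2, h3⟩ := h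
      exact ⟨Y, h1, h2, fun h4 => absurd h4 h3⟩
    · push Not at h
      exact ⟨0, (cpx g).zero_mem, fun p q h => absurd rfl h, fun _ Z hZ hl => h Z hZ hl⟩
  choose Y hYg hYl hY0 using hch
  let R : Finset ℝ := (Finset.univ.image fun a : n × n => (X a.1 a.1).im - (X a.2 a.2).im).filter
    (fun a => 0 < a)
  refine ⟨∑ a ∈ R, (Y a - (Y a)ᴴ), g.sum_mem fun a _ => sub_star_mem S.hsk (hYg a), ?_⟩
  rintro v hv ⟨l, hl⟩ ⟨β, hβ⟩ Z hZ
  obtain ⟨p₁, hp₁⟩ : ∃ p, v p ≠ 0 := by
    by_contra h; push Not at h; exact hv (funext h)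
  -- the level of `v`
  have hXv : ∀ p, (X *ᵥ v) p = X p p * v p := by
    intro p
    rw [Matrix.mulVec, dotProduct, Finset.sum_eq_single p]
    · intro r _ hr; rw [S.hdiag X S.hX p r (Ne.symm hr), zero_mul]
    · simp
  have hlev : ∀ p, v p ≠ 0 → (X p p).im = (X p₁ p₁).im := by
    intro p hp
    have h1 := congrFun hl p
    have h2 := congrFun hl p₁
    rw [hXv, Pi.smul_apply, smul_eq_mul] at h1 h2
    rw [mul_right_cancel₀ hp h1, mul_right_cancel₀ hp₁ h2]
  have hsum : ∀ (a : ℝ) (W : Matrix n n ℂ), Lev (fun p => (X p p).im) a W → ∀ p,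
      (W *ᵥ v) p ≠ 0 → (X p p).im = (X p₁ p₁).im + a := by
    intro a W hW p h
    rw [Matrix.mulVec, dotProduct] at h
    obtain ⟨r, -, hr⟩ := Finset.exists_ne_zero_of_sum_ne_zero h
    have h1 := hW p r (left_ne_zero_of_mul hr)
    have h2 := hlev r (right_ne_zero_of_mul hr)
    simp only at h1
    linarith
  have htot : ∀ p, ((∑ a ∈ R, (Y a - (Y a)ᴴ)) *ᵥ v) p =
      ∑ a ∈ R, ((Y a *ᵥ v) p - ((Y a)ᴴ *ᵥ v) p) := by
    intro p
    rw [Matrix.sum_mulVec, Finset.sum_apply]
    refine Finset.sum_congr rfl fun a _ => ?_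
    rw [Matrix.sub_mulVec, Pi.sub_apply]
  have hkill : ∀ a ∈ R, Y a *ᵥ v = 0 ∧ (Y a)ᴴ *ᵥ v = 0 := by
    intro a ha
    have ha0 : 0 < a := (Finset.mem_filter.1 ha).2
    constructor
    · ext p
      rw [Pi.zero_apply]
      by_contra h
      have h1 := hsum a (Y a) (hYl a) p h
      have h2 := congrFun hβ p
      rw [htot, Finset.sum_eq_single a] at h2
      · have h3 : v p = 0 := by
          by_contra h4
          have := hlev p h4
          linarith
        have h5 : ((Y a)ᴴ *ᵥ v) p = 0 := by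
          by_contra h4
          have := hsum (-a) _ (hYl a).star p h4
          linarith
        rw [h5, Pi.smul_apply, h3, smul_zero, sub_zero] at h2
        exact h h2
      · intro b hb hba
        have hb0 : 0 < b := (Finset.mem_filter.1 hb).2
        have h5 : ((Y b)ᴴ *ᵥ v) p = 0 := by
          by_contra h4
          have := hsum (-b) _ (hYl b).star p h4
          linarith
        have h6 : (Y b *ᵥ v) p = 0 := by
          by_contra h4
          have := hsum b _ (hYl b) p h4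
          exact hba (by linarith)
        rw [h5, h6, sub_zero]
      · intro h'; exact absurd ha h'
    · ext p
      rw [Pi.zero_apply]
      by_contra h
      have h1 := hsum (-a) _ (hYl a).star p h
      have h2 := congrFun hβ p
      rw [htot, Finset.sum_eq_single a] at h2
      · have h3 : v p = 0 := by
          by_contra h4
          have := hlev p h4
          linarith
        have h5 : ((Y a) *ᵥ v) p = 0 := by
          by_contra h4
          have := hsum a _ (hYl a) p h4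
          linarith
        rw [h5, Pi.smul_apply, h3, smul_zero, zero_sub, neg_eq_zero] at h2
        exact h h2
      · intro b hb hba
        have hb0 : 0 < b := (Finset.mem_filter.1 hb).2
        have h5 : ((Y b)ᴴ *ᵥ v) p = 0 := by
          by_contra h4
          have := hsum (-b) _ (hYl b).star p h4
          exact hba (by linarith)
        have h6 : (Y b *ᵥ v) p = 0 := by
          by_contra h4
          have := hsum b _ (hYl b) p h4
          linarith
        rw [h5, h6, sub_zero]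
      · intro h'; exact absurd ha h'
  -- all root elements kill `v`
  have hroot : ∀ (a : ℝ) (W : Matrix n n ℂ), a ∈ R → W ∈ cpx g →
      Lev (fun p => (X p p).im) a W → ∃ c : ℂ, W = c • Y a := by
    intro a W ha hW hWl
    by_cases h : Y a = 0
    · exact ⟨0, by rw [hY0 a h W hW hWl]; simp⟩
    · exact S.root_unique (Finset.mem_filter.1 ha).2.ne' (hYg a) hW (hYl a) hWl h
  have hZc : Z ∈ cpx g := mem_cpx_of_mem hZ
  have hZ0 := S.level_mem hZc 0
  have hZ0t := S.mem_tC hZ0 (S.level_lev Z 0)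
  have hcomp : ∀ p, (Z *ᵥ v) p = ((Matrix.of fun p' q => if (X p' p').im - (X q q).im =
      (X p p).im - (X p₁ p₁).im then Z p' q else 0) *ᵥ v) p := by
    intro p
    rw [Matrix.mulVec, Matrix.mulVec, dotProduct, dotProduct]
    refine Finset.sum_congr rfl fun q _ => ?_
    by_cases hq : v q = 0
    · rw [hq, mul_zero, mul_zero]
    · rw [Matrix.of_apply, if_pos (by rw [hlev q hq])]
  refine ⟨(Matrix.of fun p q => if (X p p).im - (X q q).im = 0 then Z p q else 0) p₁ p₁, ?_⟩
  ext p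
  rw [hcomp p, Pi.smul_apply, smul_eq_mul]
  rcases lt_trichotomy ((X p p).im - (X p₁ p₁).im) 0 with h | h | h
  · -- negative level
    have hvp : v p = 0 := by
      by_contra h4
      have := hlev p h4
      linarith
    rw [hvp, mul_zero]
    set a := (X p p).im - (X p₁ p₁).im with ha
    set W := (Matrix.of fun p' q => if (X p' p').im - (X q q).im = a then Z p' q else 0) with hW
    have hWg : W ∈ cpx g := S.level_mem hZc a
    have hWl : Lev (fun p => (X p p).im) a W := S.level_lev Z a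
    have haR : -a ∈ R := by
      refine Finset.mem_filter.2 ⟨Finset.mem_image.2 ⟨(p₁, p), Finset.mem_univ _, ?_⟩, by linarith⟩
      rw [ha]; ring
    obtain ⟨c, hc⟩ := hroot (-a) Wᴴ haR (cpx_star S.hsk hWg) hWl.star
    have h7 : W = (star c) • (Y (-a))ᴴ := by
      rw [← conjTranspose_smul, ← hc, conjTranspose_conjTranspose]
    rw [h7, Matrix.smul_mulVec, (hkill _ haR).2, smul_zero, Pi.zero_apply]
  · rw [h]
    have h1 : ∀ q, ((Matrix.of fun p q => if (X p p).im - (X q q).im = 0 then Z p q else 0) *ᵥ v) q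
        = (Matrix.of fun p q => if (X p p).im - (X q q).im = 0 then Z p q else 0) q q * v q := by
      intro q
      rw [Matrix.mulVec, dotProduct, Finset.sum_eq_single q]
      · intro r _ hr; rw [S.tC_diag hZ0t q r (Ne.symm hr), zero_mul]
      · simp
    rw [h1]
    have h2 := S.tC_lev hZ0t p p₁ p p (by rw [h]; ring)
    rw [sub_self, sub_eq_zero] at h2
    rw [h2]
  · have hvp : v p = 0 := by
      by_contra h4
      have := hlev p h4
      linarith
    rw [hvp, mul_zero]
    set a := (X p p).im - (X p₁ p₁).im with ha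
    set W := (Matrix.of fun p' q => if (X p' p').im - (X q q).im = a then Z p' q else 0) with hW
    have hWg : W ∈ cpx g := S.level_mem hZc a
    have hWl : Lev (fun p => (X p p).im) a W := S.level_lev Z a
    have haR : a ∈ R :=
      Finset.mem_filter.2 ⟨Finset.mem_image.2 ⟨(p, p₁), Finset.mem_univ _, rfl⟩, h⟩
    obtain ⟨c, hc⟩ := hroot a W haR hWg hWl
    rw [hc, Matrix.smul_mulVec, (hkill _ haR).1, smul_zero, Pi.zero_apply]

end Setup

end Pool.Agent.Skew.LieTwo
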