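import Mathlib
import Pool.Agent.Helper40.SkewLieCore

/-!
Two elements of a compact Lie algebra of operators without common eigenvector.
-/

namespace Pool.Agent.Skew

open Matrix Module.End
open scoped Function

/-- A commuting family of symmetric operators has an orthonormal basis of joint eigenvectors. -/
theorem joint_basis {V : Type*} [NormedAddCommGroup V] [InnerProductSpace ℂ V]
    [FiniteDimensional ℂ V] {ι : Type*} (T : ι → V →ₗ[ℂ] V) (hT : ∀ i, (T i).IsSymmetric)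
    (hC : Pairwise (Commute on T)) :
    ∃ (m : ℕ) (e : OrthonormalBasis (Fin m) ℂ V), ∀ p i, ∃ c : ℂ, T i (e p) = c • e p := by
  classical
  have hfam := LinearMap.IsSymmetric.orthogonalFamily_iInf_eigenspaces hT
  have hint := LinearMap.IsSymmetric.directSum_isInternal_of_pairwise_commute hT hC
  set A : (ι → ℂ) → Submodule ℂ V := fun χ => ⨅ j, eigenspace (T j) (χ j) with hA
  have hind : iSupIndep A := hfam.independent
  have hfin : {χ | A χ ≠ ⊥}.Finite := WellFoundedGT.finite_ne_bot_of_iSupIndep hind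
  have : Fintype {χ // A χ ≠ ⊥} := hfin.fintype
  have hint' : DirectSum.IsInternal (fun χ : {χ // A χ ≠ ⊥} => A χ) :=
    DirectSum.isInternal_ne_bot_iff.2 hint
  have hfam' : OrthogonalFamily ℂ (fun χ : {χ // A χ ≠ ⊥} => A χ) fun χ => (A χ).subtypeₗᵢ :=
    hfam.comp Subtype.val_injective
  let b := hint'.collectedOrthonormalBasis hfam' fun i => stdOrthonormalBasis ℂ (A i)
  refine ⟨_, b.reindex (Fintype.equivFin _), fun p i => ?_⟩
  rw [OrthonormalBasis.reindex_apply]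
  set a := (Fintype.equivFin _).symm p with ha
  have h := hint'.collectedOrthonormalBasis_mem hfam' (fun i => stdOrthonormalBasis ℂ (A i)) a
  have h2 := (Submodule.mem_iInf _).1 h i
  exact ⟨_, mem_eigenspace_iff.1 h2⟩

/-- A real Lie algebra of skew adjoint operators without invariant line contains two elements
without common eigenvector. -/
theorem lie_pair {V : Type*} [NormedAddCommGroup V] [InnerProductSpace ℂ V]
    [FiniteDimensional ℂ V] (𝔤 : Submodule ℝ (V →L[ℂ] V))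
    (hbr : ∀ X ∈ 𝔤, ∀ Y ∈ 𝔤, X * Y - Y * X ∈ 𝔤)
    (hskew : ∀ X ∈ 𝔤, ∀ u v : V, inner ℂ (X u) v = - inner ℂ u (X v))
    (hline : ¬ ∃ v : V, v ≠ 0 ∧ ∀ X ∈ 𝔤, ∃ α : ℂ, X v = α • v) :
    ∃ X ∈ 𝔤, ∃ Y ∈ 𝔤, ¬ ∃ v : V, v ≠ 0 ∧ (∃ α : ℂ, X v = α • v) ∧ (∃ β : ℂ, Y v = β • v) := by
  classical
  have : FiniteDimensional ℂ (V →L[ℂ] V) := inferInstance
  have : FiniteDimensional ℝ (V →L[ℂ] V) := FiniteDimensional.complexToReal _
  -- a maximal abelian subspace
  obtain ⟨t, ⟨htg, htab⟩, htmax⟩ : ∃ t : Submodule ℝ (V →L[ℂ] V),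
      (t ≤ 𝔤 ∧ ∀ A ∈ t, ∀ B ∈ t, A * B = B * A) ∧
      ∀ t' : Submodule ℝ (V →L[ℂ] V), (t' ≤ 𝔤 ∧ ∀ A ∈ t', ∀ B ∈ t', A * B = B * A) →
        t ≤ t' → t' ≤ t := by
    have hne : {t : Submodule ℝ (V →L[ℂ] V) | t ≤ 𝔤 ∧ ∀ A ∈ t, ∀ B ∈ t, A * B = B * A}.Nonempty :=
      ⟨⊥, bot_le, fun A hA B hB => by
        rw [Submodule.mem_bot] at hA hB; rw [hA, hB]⟩
    obtain ⟨t, ht, hmax⟩ := (wellFounded_gt (α := Submodule ℝ (V →L[ℂ] V))).has_min _ hne
    refine ⟨t, ht, fun t' ht' hle => ?_⟩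
    by_contra hcon
    exact hmax t' ht' (lt_of_le_not_ge hle hcon)
  have hmax : ∀ Z ∈ 𝔤, (∀ T ∈ t, T * Z = Z * T) → Z ∈ t := by
    intro Z hZ hcomm
    apply htmax (t ⊔ Submodule.span ℝ {Z}) ⟨?_, ?_⟩ le_sup_left
    · exact Submodule.mem_sup_right (Submodule.mem_span_singleton_self Z)
    · exact sup_le htg ((Submodule.span_singleton_le_iff_mem _ _).2 hZ)
    · intro A hA B hB
      obtain ⟨A1, hA1, A2, hA2, rfl⟩ := Submodule.mem_sup.1 hA
      obtain ⟨B1, hB1, B2, hB2, rfl⟩ := Submodule.mem_sup.1 hB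
      obtain ⟨a, rfl⟩ := Submodule.mem_span_singleton.1 hA2
      obtain ⟨b, rfl⟩ := Submodule.mem_span_singleton.1 hB2
      have h1 := htab A1 hA1 B1 hB1
      have h2 := hcomm A1 hA1
      have h3 := hcomm B1 hB1
      simp only [add_mul, mul_add, smul_mul_assoc, mul_smul_comm, h1, h2, h3, smul_add]
      rw [smul_comm a b]
      abel
  -- joint diagonalisation
  obtain ⟨m, e, he⟩ := joint_basis (fun T : t => Complex.I • ((T : V →L[ℂ] V) : V →ₗ[ℂ] V))
    (by
      intro T u v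
      simp only [LinearMap.smul_apply, ContinuousLinearMap.coe_coe, inner_smul_left,
        inner_smul_right, Complex.conj_I, hskew _ (htg T.2)]
      ring)
    (by
      intro T T' _
      have h := htab T T.2 T' T'.2
      apply LinearMap.ext
      intro v
      have h2 : (T : V →L[ℂ] V) ((T' : V →L[ℂ] V) v) = (T' : V →L[ℂ] V) ((T : V →L[ℂ] V) v) :=
        congrArg (fun A : V →L[ℂ] V => A v) h
      change Complex.I • (T : V →L[ℂ] V) (Complex.I • (T' : V →L[ℂ] V) v) =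
        Complex.I • (T' : V →L[ℂ] V) (Complex.I • (T : V →L[ℂ] V) v)
      rw [map_smul, map_smul, h2])
  have he' : ∀ T ∈ t, ∀ p, ∃ c : ℂ, T (e p) = c • e p := by
    intro T hT p
    obtain ⟨c, hc⟩ := he p ⟨T, hT⟩
    refine ⟨-Complex.I * c, ?_⟩
    simp only [LinearMap.smul_apply, ContinuousLinearMap.coe_coe] at hc
    rw [mul_smul, ← hc, smul_smul]
    simp
  -- passing to matrices
  let Φ : (V →L[ℂ] V) →ₗ[ℝ] Matrix (Fin m) (Fin m) ℂ :=
    { toFun := fun A => Matrix.of fun p q => inner ℂ (e p) (A (e q))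
      map_add' := by intro A B; ext p q; simp
      map_smul' := by
        intro c A; ext p q
        simp only [Matrix.of_apply, _root_.smul_apply, RingHom.id_apply,
          Matrix.smul_apply, Complex.real_smul]
        rw [← Complex.coe_smul, inner_smul_right] }
  have hΦ : ∀ A p q, Φ A p q = inner ℂ (e p) (A (e q)) := fun _ _ _ => rfl
  have hΦv : ∀ (A : V →L[ℂ] V) (v : V), Φ A *ᵥ (fun q => inner ℂ (e q) v) =
      fun p => inner ℂ (e p) (A v) := by
    intro A v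
    ext p
    rw [Matrix.mulVec, dotProduct]
    simp only [hΦ]
    conv_rhs => rw [← e.sum_repr' v, map_sum, inner_sum]
    refine Finset.sum_congr rfl fun q _ => ?_
    rw [map_smul, inner_smul_right]; ring
  have hΦmul : ∀ A B, Φ (A * B) = Φ A * Φ B := by
    intro A B
    ext p q
    have h := congrFun (hΦv A (B (e q))) p
    rw [Matrix.mulVec, dotProduct] at h
    rw [Matrix.mul_apply]
    exact h.symm
  have hext : ∀ u v : V, (∀ p, inner ℂ (e p) u = inner ℂ (e p) v) → u = v := by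
    intro u v h
    rw [← e.sum_repr' u, ← e.sum_repr' v]
    exact Finset.sum_congr rfl fun q _ => by rw [h q]
  have hΦinj : ∀ A B, Φ A = Φ B → A = B := by
    intro A B h
    ext v
    apply hext
    intro p
    rw [← congrFun (hΦv A v) p, ← congrFun (hΦv B v) p, h]
  have hΦdiag : ∀ T ∈ t, ∀ p q, p ≠ q → Φ T p q = 0 := by
    intro T hT p q hpq
    obtain ⟨c, hc⟩ := he' T hT q
    rw [hΦ, hc, inner_smul_right, e.inner_eq_zero hpq, mul_zero]
  obtain ⟨X', hX', hgen⟩ := LieTwo.exists_generic (t.map Φ)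
  obtain ⟨X, hXt, rfl⟩ := Submodule.mem_map.1 hX'
  have S : LieTwo.Setup (𝔤.map Φ) (t.map Φ) (Φ X) :=
    { hbr := by
        rintro _ ⟨A, hA, rfl⟩ _ ⟨B, hB, rfl⟩
        exact ⟨A * B - B * A, hbr A hA B hB, by rw [map_sub, hΦmul, hΦmul]⟩
      hsk := by
        rintro _ ⟨A, hA, rfl⟩
        ext p q
        rw [conjTranspose_apply, Matrix.neg_apply, hΦ, hΦ, Complex.star_def, inner_conj_symm,
          hskew A hA]
      htg := Submodule.map_mono htg
      hdiag := by
        rintro _ ⟨T, hT, rfl⟩ p q hpq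
        exact hΦdiag T hT p q hpq
      hmax := by
        rintro _ ⟨Z, hZ, rfl⟩ h
        refine ⟨Z, hmax Z hZ fun T hT => ?_, rfl⟩
        apply hΦinj
        rw [hΦmul, hΦmul]
        exact h _ ⟨T, hT, rfl⟩
      hX := hX'
      hgen := hgen }
  obtain ⟨Y', ⟨Y, hY, rfl⟩, hcore⟩ := S.core
  refine ⟨X, htg hXt, Y, hY, ?_⟩
  rintro ⟨v, hv, ⟨α, hα⟩, β, hβ⟩
  apply hline
  refine ⟨v, hv, fun Z hZ => ?_⟩
  have hv' : (fun q => inner ℂ (e q) v : Fin m → ℂ) ≠ 0 := by
    intro h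
    apply hv
    apply hext
    intro p
    rw [inner_zero_right]
    exact congrFun h p
  obtain ⟨γ, hγ⟩ := hcore _ hv' ⟨α, by
      rw [hΦv, hα]; ext p; simp⟩ ⟨β, by
      rw [hΦv, hβ]; ext p; simp⟩ (Φ Z) ⟨Z, hZ, rfl⟩
  refine ⟨γ, hext _ _ fun p => ?_⟩
  have := congrFun hγ p
  rw [hΦv, Pi.smul_apply, smul_eq_mul] at this
  rw [inner_smul_right]
  exact this

end Pool.Agent.Skew

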