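import Mathlib

/-!
# Polya-Vinogradov inequality for Jacobi symbols
-/

set_option autoImplicit false

namespace Pool.Agent.Helper40.EKPV

open Finset ZMod

/-- the Jacobi symbol as a function on residues -/
noncomputable def jf (N : ℕ) (x : ZMod N) : ℂ := ((jacobiSym (x.val : ℤ) N : ℤ) : ℂ)

lemma jf_intCast (N : ℕ) [NeZero N] (m : ℤ) : jf N (m : ZMod N) = ((jacobiSym m N : ℤ) : ℂ) := by
  unfold jf
  rw [ZMod.val_intCast, ← jacobiSym.mod_left m N]

lemma jf_mul (N : ℕ) [NeZero N] (x y : ZMod N) : jf N (x * y) = jf N x * jf N y := by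
  obtain ⟨a, rfl⟩ := ZMod.intCast_surjective x
  obtain ⟨b, rfl⟩ := ZMod.intCast_surjective y
  rw [← Int.cast_mul, jf_intCast, jf_intCast, jf_intCast, jacobiSym.mul_left]
  push_cast; rfl

lemma jf_one (N : ℕ) [NeZero N] : jf N 1 = 1 := by
  have h := jf_intCast N 1
  rw [Int.cast_one, jacobiSym.one_left] at h
  simpa using h

lemma jf_cases (N : ℕ) [NeZero N] (x : ZMod N) : jf N x = 0 ∨ jf N x = 1 ∨ jf N x = -1 := by
  unfold jf
  rcases jacobiSym.trichotomy (x.val : ℤ) N with h | h | h <;> rw [h] <;> simp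

lemma jf_norm (N : ℕ) [NeZero N] (x : ZMod N) : ‖jf N x‖ ≤ 1 := by
  rcases jf_cases N x with h | h | h <;> rw [h] <;> simp

lemma exists_unit {N : ℕ} [NeZero N] (hodd : Odd N) (hsq : Squarefree N) (h : ZMod N)
    (hh : ¬ IsUnit h) : ∃ u : (ZMod N)ˣ, (u : ZMod N) * h = h ∧ jf N u = -1 := by
  obtain ⟨k, rfl⟩ : ∃ k : ℕ, (k : ZMod N) = h := ⟨h.val, ZMod.natCast_zmod_val h⟩
  rw [ZMod.isUnit_iff_coprime] at hh
  obtain ⟨p, hp, hpk, hpN⟩ := Nat.Prime.not_coprime_iff_dvd.mp hh
  obtain ⟨M, rfl⟩ := hpN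
  have hcop : Nat.Coprime p M := Nat.coprime_of_squarefree_mul hsq
  have hpF : Fact p.Prime := ⟨hp⟩
  have hp2 : p ≠ 2 := by
    rintro rfl
    rw [← Nat.not_even_iff_odd] at hodd
    exact hodd (even_two.mul_right M)
  have hM0 : M ≠ 0 := by
    rintro rfl
    exact NeZero.ne (p * 0) (by simp)
  have : NeZero M := ⟨hM0⟩
  obtain ⟨a, ha⟩ := FiniteField.exists_nonsquare (F := ZMod p)
    (by rw [ZMod.ringChar_zmod_n]; exact hp2)
  obtain ⟨v, hv1, hv2⟩ := Nat.chineseRemainder hcop a.val 1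
  have hvp : ((v : ℕ) : ZMod p) = a := by
    have := (ZMod.natCast_eq_natCast_iff _ _ _).mpr hv1
    rw [this, ZMod.natCast_zmod_val]
  have hJp : jacobiSym (v : ℤ) p = -1 := by
    rw [← jacobiSym.legendreSym.to_jacobiSym, legendreSym.eq_neg_one_iff]
    rw [Int.cast_natCast, hvp]
    exact ha
  have hJM : jacobiSym (v : ℤ) M = 1 := by
    rw [← jacobiSym.one_left M]
    apply jacobiSym.mod_left'
    have := hv2
    unfold Nat.ModEq at this
    exact_mod_cast this
  have hJ : jacobiSym (v : ℤ) (p * M) = -1 := by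
    rw [jacobiSym.mul_right, hJp, hJM, mul_one]
  have hcv : Nat.Coprime v (p * M) := by
    by_contra hc
    have h1 : jacobiSym (v : ℤ) (p * M) = 0 := by
      rw [jacobiSym.eq_zero_iff_not_coprime, Int.gcd_natCast_natCast]
      exact hc
    rw [hJ] at h1
    norm_num at h1
  refine ⟨ZMod.unitOfCoprime v hcv, ?_, ?_⟩
  · rw [ZMod.coe_unitOfCoprime, ← Nat.cast_mul, ZMod.natCast_eq_natCast_iff]
    rw [← Nat.modEq_and_modEq_iff_modEq_mul hcop]
    constructor
    · have h1 : k ≡ 0 [MOD p] := (Nat.modEq_zero_iff_dvd).mpr hpk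
      exact ((Nat.ModEq.refl v).mul h1).trans (by simpa using h1.symm)
    · simpa using hv2.mul_right k
  · rw [ZMod.coe_unitOfCoprime]
    have := jf_intCast (p * M) (v : ℤ)
    rw [hJ] at this
    simpa using this

lemma dft_unit (N : ℕ) [NeZero N] (u : (ZMod N)ˣ) (k : ZMod N) :
    dft (jf N) ((u⁻¹ : (ZMod N)ˣ) * k) = jf N u * dft (jf N) k := by
  rw [← dft_comp_unitMul]
  have : (fun j => jf N (u.val * j)) = fun j => jf N u.val * jf N j := by
    funext j; exact jf_mul N _ _
  rw [this, dft_const_mul]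

lemma dft_jf {N : ℕ} [NeZero N] (hodd : Odd N) (hsq : Squarefree N) (h : ZMod N) :
    dft (jf N) h = jf N h * dft (jf N) 1 := by
  by_cases hh : IsUnit h
  · obtain ⟨u, rfl⟩ := hh
    have h1 := dft_unit N u⁻¹ 1
    rw [inv_inv, mul_one] at h1
    rw [h1]
    congr 1
    have h2 : jf N u * jf N (u⁻¹ : (ZMod N)ˣ) = 1 := by
      rw [← jf_mul, Units.mul_inv, jf_one]
    rcases jf_cases N u with h3 | h3 | h3
    · rw [h3, zero_mul] at h2
      exact absurd h2 zero_ne_one
    · rw [h3, one_mul] at h2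
      rw [h2, h3]
    · rw [h3, neg_one_mul] at h2
      rw [h3, ← h2, neg_neg]
  · obtain ⟨u, hu, huJ⟩ := exists_unit hodd hsq h hh
    have h1 := dft_unit N u h
    have h2 : ((u⁻¹ : (ZMod N)ˣ) : ZMod N) * h = h := by
      conv_lhs => rw [← hu]
      rw [← mul_assoc, Units.inv_mul, one_mul]
    rw [h2, huJ] at h1
    have h3 : jf N h = - jf N h := by
      conv_lhs => rw [← hu, jf_mul, huJ]
      ring
    have h4 : jf N h = 0 := by linear_combination h3 / 2
    have h5 : dft (jf N) h = 0 := by linear_combination h1 / 2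
    rw [h4, h5, zero_mul]

lemma norm_gauss {N : ℕ} [NeZero N] (hodd : Odd N) (hsq : Squarefree N) :
    ‖dft (jf N) 1‖ = Real.sqrt N := by
  have h1 := congr_fun (dft_dft (jf N)) 1
  have h2 : dft (jf N) = fun h => jf N h * dft (jf N) 1 := by
    funext h; exact dft_jf hodd hsq h
  have h3 : dft (dft (jf N)) 1 = dft (jf N) 1 * dft (jf N) 1 := by
    conv_lhs => rw [h2]
    rw [dft_mul_const]
  rw [h3] at h1
  have h4 : ‖jf N (-1)‖ = 1 := by
    have h5 : jf N (-1) * jf N (-1) = 1 := by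
      rw [← jf_mul]; simp [jf_one]
    rcases jf_cases N (-1) with h | h | h
    · rw [h] at h5; simp at h5
    · rw [h]; simp
    · rw [h]; simp
  have h5 : ‖dft (jf N) 1‖ * ‖dft (jf N) 1‖ = N := by
    rw [← norm_mul, h1]
    simp [h4]
  rw [eq_comm, Real.sqrt_eq_iff_mul_self_eq (by positivity) (by positivity)]
  exact h5.symm

lemma jf_expand {N : ℕ} [NeZero N] (hodd : Odd N) (hsq : Squarefree N) (m : ZMod N) :
    jf N m = (N : ℂ)⁻¹ * ∑ j : ZMod N, stdAddChar (j * m) * (jf N j * dft (jf N) 1) := by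
  have h1 : dft.symm (dft (jf N)) m = jf N m := by rw [LinearEquiv.symm_apply_apply]
  rw [← h1, invDFT_apply]
  simp only [smul_eq_mul]
  congr 1
  apply Finset.sum_congr rfl
  intro j _
  rw [dft_jf hodd hsq j]

/-- distance of an additive character value from one -/
lemma norm_char_sub_one {N : ℕ} [NeZero N] (v : ℕ) (hv : 0 < v) (hvN : v < N) :
    2 / ‖stdAddChar ((v : ℕ) : ZMod N) - 1‖ ≤ (N : ℝ) / 2 * (1 / v + 1 / (N - v)) := by
  have hN : (0 : ℝ) < N := by exact_mod_cast (hv.trans hvN)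
  have hv0 : (0 : ℝ) < v := by exact_mod_cast hv
  have hvN' : (v : ℝ) < N := by exact_mod_cast hvN
  have h0 : (stdAddChar ((v : ℕ) : ZMod N) : ℂ) =
      Complex.exp (Complex.I * ((2 * Real.pi * v / N : ℝ) : ℂ)) := by
    have := stdAddChar_coe (N := N) (v : ℤ)
    rw [Int.cast_natCast] at this
    rw [this]
    congr 1
    push_cast
    ring
  rw [h0, Complex.norm_exp_I_mul_ofReal_sub_one]
  have hpi := Real.pi_pos
  have h1 : 2 * Real.pi * v / N / 2 = Real.pi * v / N := by ring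
  rw [h1, Real.norm_eq_abs, abs_mul, abs_two]
  have hsin : 0 < Real.sin (Real.pi * v / N) := by
    apply Real.sin_pos_of_pos_of_lt_pi (by positivity)
    rw [div_lt_iff₀ hN]
    exact mul_lt_mul_of_pos_left hvN' hpi
  rw [abs_of_pos hsin]
  have hNv : (0 : ℝ) < N - v := by linarith
  have key : 2 / (2 * Real.sin (Real.pi * v / N)) ≤ N / 2 * (1 / v) ∨
      2 / (2 * Real.sin (Real.pi * v / N)) ≤ N / 2 * (1 / (N - v)) := by
    rcases le_total (2 * (v : ℝ)) N with h | h
    · left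
      have h2 : 2 / Real.pi * (Real.pi * v / N) ≤ Real.sin (Real.pi * v / N) := by
        apply Real.mul_le_sin (by positivity)
        rw [div_le_div_iff₀ hN (by norm_num)]
        nlinarith
      have h3 : 2 / Real.pi * (Real.pi * v / N) = 2 * v / N := by field_simp
      rw [h3] at h2
      have h4 : (0 : ℝ) < 2 * v / N := by positivity
      calc 2 / (2 * Real.sin (Real.pi * v / N)) ≤ 2 / (2 * (2 * v / N)) := by gcongr
        _ = N / 2 * (1 / v) := by field_simp
    · right
      have h2 : 2 / Real.pi * (Real.pi * (N - v) / N) ≤ Real.sin (Real.pi * (N - v) / N) := by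
        apply Real.mul_le_sin (by positivity)
        rw [div_le_div_iff₀ hN (by norm_num)]
        nlinarith
      have h3 : 2 / Real.pi * (Real.pi * (N - v) / N) = 2 * (N - v) / N := by field_simp
      have h5 : Real.sin (Real.pi * (N - v) / N) = Real.sin (Real.pi * v / N) := by
        rw [← Real.sin_pi_sub]
        congr 1
        field_simp
        ring
      rw [h3, h5] at h2
      have h4 : (0 : ℝ) < 2 * (N - v) / N := by positivity
      calc 2 / (2 * Real.sin (Real.pi * v / N)) ≤ 2 / (2 * (2 * (N - v) / N)) := by gcongr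
        _ = N / 2 * (1 / (N - v)) := by field_simp
  rw [mul_add]
  have h6 : (0 : ℝ) ≤ N / 2 * (1 / v) := by positivity
  have h7 : (0 : ℝ) ≤ N / 2 * (1 / (N - v)) := by positivity
  rcases key with h | h <;> linarith

lemma norm_sum_char {N : ℕ} [NeZero N] (v : ℕ) (hv : 0 < v) (hvN : v < N) (a : ℤ) (t : ℕ) :
    ‖∑ i ∈ range t, stdAddChar (((v : ℕ) : ZMod N) * ((a + i : ℤ) : ZMod N))‖ ≤
      (N : ℝ) / 2 * (1 / v + 1 / (N - v)) := by
  refine le_trans ?_ (norm_char_sub_one v hv hvN)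
  set z : ℂ := stdAddChar ((v : ℕ) : ZMod N) with hz
  have hz1 : ‖z‖ = 1 := by
    rw [hz, stdAddChar_apply]
    exact Circle.norm_coe _
  have hne : z ≠ 1 := by
    intro h
    have h1 : (stdAddChar ((v : ℕ) : ZMod N) : ℂ) = stdAddChar (0 : ZMod N) := by
      rw [← hz, h, AddChar.map_zero_eq_one]
    have h2 := injective_stdAddChar h1
    rw [ZMod.natCast_eq_zero_iff] at h2
    exact absurd (Nat.le_of_dvd hv h2) (by omega)
  have h1 : ∀ i ∈ range t, stdAddChar (((v : ℕ) : ZMod N) * ((a + i : ℤ) : ZMod N)) =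
      stdAddChar (((v : ℕ) : ZMod N) * ((a : ℤ) : ZMod N)) * z ^ i := by
    intro i _
    rw [hz, ← AddChar.map_nsmul_eq_pow, ← AddChar.map_add_eq_mul]
    congr 1
    push_cast
    rw [nsmul_eq_mul]
    ring
  rw [Finset.sum_congr rfl h1, ← Finset.mul_sum, norm_mul]
  have h2 : ‖(stdAddChar (((v : ℕ) : ZMod N) * ((a : ℤ) : ZMod N)) : ℂ)‖ = 1 := by
    rw [stdAddChar_apply]; exact Circle.norm_coe _
  rw [h2, one_mul, geom_sum_eq hne, norm_div]
  have h3 : ‖z ^ t - 1‖ ≤ 2 := by
    refine (norm_sub_le _ _).trans ?_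
    rw [norm_pow, hz1]
    norm_num
  gcongr

lemma sum_inv (N : ℕ) (hN : 0 < N) :
    ∑ v ∈ Finset.Ico 1 N, ((1 : ℝ) / v + 1 / (N - v)) ≤ 2 * (1 + Real.log N) := by
  obtain ⟨n, rfl⟩ : ∃ n, N = n + 1 := ⟨N - 1, by omega⟩
  rw [Finset.sum_Ico_eq_sum_range, Nat.add_sub_cancel, Finset.sum_add_distrib]
  have h1 : ∑ i ∈ range n, (1 : ℝ) / ((1 + i : ℕ) : ℝ) = ((harmonic n : ℚ) : ℝ) := by
    unfold harmonic
    push_cast
    apply Finset.sum_congr rfl
    intro i _
    rw [one_div, add_comm]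
  have h2 : ∑ i ∈ range n, (1 : ℝ) / (((n + 1 : ℕ) : ℝ) - ((1 + i : ℕ) : ℝ)) =
      ∑ i ∈ range n, (1 : ℝ) / ((1 + i : ℕ) : ℝ) := by
    rw [← Finset.sum_range_reflect]
    apply Finset.sum_congr rfl
    intro i hi
    rw [Finset.mem_range] at hi
    congr 1
    have : ((n - 1 - i : ℕ) : ℝ) = (n : ℝ) - 1 - i := by
      rw [Nat.cast_sub (by omega), Nat.cast_sub (by omega)]
      simp
    push_cast
    rw [this]
    ring
  rw [h2, h1]
  have h3 := harmonic_le_one_add_log n
  have h4 : Real.log n ≤ Real.log ((n + 1 : ℕ) : ℝ) := by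
    rcases Nat.eq_zero_or_pos n with h | h
    · subst h; simp
    · apply Real.log_le_log (by exact_mod_cast h)
      exact_mod_cast Nat.le_succ n
  linarith

theorem squarefree_bound {N : ℕ} (hodd : Odd N) (hsq : Squarefree N) (hN1 : 1 < N)
    (a : ℤ) (t : ℕ) :
    |∑ i ∈ range t, (jacobiSym (a + i) N : ℝ)| ≤ Real.sqrt N * (1 + Real.log N) := by
  have : NeZero N := ⟨by omega⟩
  have hN : (0 : ℝ) < N := by exact_mod_cast (by omega : 0 < N)
  have h1 : ((∑ i ∈ range t, (jacobiSym (a + i) N : ℝ) : ℝ) : ℂ) =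
      ∑ i ∈ range t, jf N ((a + i : ℤ) : ZMod N) := by
    push_cast
    apply Finset.sum_congr rfl
    intro i _
    have := jf_intCast N (a + i)
    rw [← this]
    push_cast
    rfl
  rw [← Real.norm_eq_abs, ← Complex.norm_real, h1]
  have h2 : ∑ i ∈ range t, jf N ((a + i : ℤ) : ZMod N) =
      (N : ℂ)⁻¹ * dft (jf N) 1 * ∑ j : ZMod N, jf N j *
        ∑ i ∈ range t, stdAddChar (j * ((a + i : ℤ) : ZMod N)) := by
    rw [Finset.sum_congr rfl (fun (i : ℕ) _ => jf_expand hodd hsq ((a + (i : ℤ) : ℤ) : ZMod N))]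
    rw [← Finset.mul_sum, Finset.sum_comm, mul_assoc]
    congr 1
    rw [Finset.mul_sum]
    apply Finset.sum_congr rfl
    intro j _
    rw [Finset.mul_sum, Finset.mul_sum]
    apply Finset.sum_congr rfl
    intro i _
    ring
  rw [h2, norm_mul, norm_mul, norm_gauss hodd hsq]
  have h3 : ‖∑ j : ZMod N, jf N j * ∑ i ∈ range t, stdAddChar (j * ((a + i : ℤ) : ZMod N))‖ ≤
      ∑ v ∈ Finset.Ico 1 N, (N : ℝ) / 2 * (1 / v + 1 / (N - v)) := by
    refine (norm_sum_le _ _).trans ?_
    have h4 : ∀ j : ZMod N, ‖jf N j * ∑ i ∈ range t, stdAddChar (j * ((a + i : ℤ) : ZMod N))‖ ≤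
        if j.val = 0 then 0 else (N : ℝ) / 2 * (1 / (j.val : ℝ) + 1 / (N - (j.val : ℝ))) := by
      intro j
      split_ifs with hj
      · rw [ZMod.val_eq_zero] at hj
        subst hj
        have : jf N 0 = 0 := by
          have := jf_intCast N 0
          rw [jacobiSym.zero_left hN1] at this
          simpa using this
        rw [this, zero_mul, norm_zero]
      · rw [norm_mul]
        have h5 := norm_sum_char (N := N) j.val (Nat.pos_of_ne_zero hj) (ZMod.val_lt j) a t
        rw [ZMod.natCast_zmod_val] at h5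
        calc _ ≤ 1 * ‖∑ i ∈ range t, stdAddChar (j * ((a + i : ℤ) : ZMod N))‖ := by
              gcongr
              exact jf_norm N j
          _ ≤ _ := by rw [one_mul]; exact h5
    refine (Finset.sum_le_sum fun j _ => h4 j).trans ?_
    have h6 : ∑ j : ZMod N, (if j.val = 0 then 0 else
        (N : ℝ) / 2 * (1 / (j.val : ℝ) + 1 / (N - (j.val : ℝ)))) =
        ∑ v ∈ range N, (if v = 0 then 0 else
        (N : ℝ) / 2 * (1 / (v : ℝ) + 1 / (N - (v : ℝ)))) := by
      refine Finset.sum_bij' (fun j _ => j.val) (fun v _ => (v : ZMod N)) ?_ ?_ ?_ ?_ ?_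
      · intro j _; exact Finset.mem_range.mpr (ZMod.val_lt j)
      · intro v _; exact Finset.mem_univ _
      · intro j _; exact ZMod.natCast_zmod_val j
      · intro v hv; exact ZMod.val_cast_of_lt (Finset.mem_range.mp hv)
      · intro j _; rfl
    rw [h6, Finset.range_eq_Ico, Finset.sum_eq_sum_Ico_succ_bot (by omega : 0 < N)]
    rw [if_pos rfl, zero_add, zero_add]
    apply le_of_eq
    apply Finset.sum_congr rfl
    intro v hv
    rw [Finset.mem_Ico] at hv
    rw [if_neg (by omega)]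
  have h4 : ∑ v ∈ Finset.Ico 1 N, (N : ℝ) / 2 * (1 / v + 1 / (N - v)) ≤
      N * (1 + Real.log N) := by
    rw [← Finset.mul_sum]
    have := sum_inv N (by omega)
    calc (N : ℝ) / 2 * ∑ v ∈ Finset.Ico 1 N, ((1 : ℝ) / v + 1 / (N - v)) ≤
        (N : ℝ) / 2 * (2 * (1 + Real.log N)) := by gcongr
      _ = _ := by ring
  have h5 : ‖(N : ℂ)⁻¹‖ = (N : ℝ)⁻¹ := by simp
  rw [h5]
  calc (N : ℝ)⁻¹ * Real.sqrt N *
      ‖∑ j : ZMod N, jf N j * ∑ i ∈ range t, stdAddChar (j * ((a + i : ℤ) : ZMod N))‖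
      ≤ (N : ℝ)⁻¹ * Real.sqrt N * (N * (1 + Real.log N)) := by
        gcongr
        exact h3.trans h4
    _ = _ := by field_simp

/-- the bound over an interval of integers -/
lemma ico_bound {N : ℕ} (hodd : Odd N) (hsq : Squarefree N) (hN1 : 1 < N) (a b : ℤ) :
    |∑ m ∈ Finset.Ico a b, (jacobiSym m N : ℝ)| ≤ Real.sqrt N * (1 + Real.log N) := by
  have h := squarefree_bound hodd hsq hN1 a (b - a).toNat
  have h1 : ∑ m ∈ Finset.Ico a b, (jacobiSym m N : ℝ) =
      ∑ i ∈ range (b - a).toNat, (jacobiSym (a + i) N : ℝ) := by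
    symm
    refine Finset.sum_bij' (fun (i : ℕ) _ => a + (i : ℤ)) (fun (m : ℤ) _ => (m - a).toNat)
      ?_ ?_ ?_ ?_ ?_
    · intro i hi
      rw [Finset.mem_range] at hi
      rw [Finset.mem_Ico]
      omega
    · intro m hm
      rw [Finset.mem_Ico] at hm
      rw [Finset.mem_range]
      omega
    · intro i hi
      simp
    · intro m hm
      rw [Finset.mem_Ico] at hm
      show a + ((m - a).toNat : ℤ) = m
      omega
    · intro i _; rfl
  rw [h1]
  exact h

/-- multiples of a positive integer in an interval -/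
lemma dvd_bound {N : ℕ} (hodd : Odd N) (hsq : Squarefree N) (hN1 : 1 < N) (a b : ℤ)
    (e : ℕ) (he : 0 < e) :
    |∑ m ∈ (Finset.Ico a b).filter (fun m => (e : ℤ) ∣ m), (jacobiSym m N : ℝ)| ≤
      Real.sqrt N * (1 + Real.log N) := by
  rw [Int.Ico_filter_dvd_eq a b (by exact_mod_cast he : (0 : ℤ) < e), Finset.sum_map]
  simp only [Function.Embedding.coeFn_mk]
  have h1 : ∀ c d : ℤ, ∑ x ∈ Finset.Ico c d, (jacobiSym (x * e) N : ℝ) =
      (∑ x ∈ Finset.Ico c d, (jacobiSym x N : ℝ)) * (jacobiSym e N : ℝ) := by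
    intro c d
    rw [Finset.sum_mul]
    apply Finset.sum_congr rfl
    intro x _
    rw [jacobiSym.mul_left]
    push_cast; rfl
  rw [h1, abs_mul]
  have h2 : |(jacobiSym e N : ℝ)| ≤ 1 := by
    rcases jacobiSym.trichotomy (e : ℤ) N with h | h | h <;> rw [h] <;> simp
  calc _ ≤ (Real.sqrt N * (1 + Real.log N)) * 1 := by
        gcongr
        exact ico_bound hodd hsq hN1 _ _
    _ = _ := mul_one _

/-- Moebius detection of coprimality -/
lemma coprime_indicator (m : ℤ) {l : ℕ} (hl : 0 < l) :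
    (if m.gcd l = 1 then (1 : ℝ) else 0) =
      ∑ e ∈ l.divisors, if (e : ℤ) ∣ m then (ArithmeticFunction.moebius e : ℝ) else 0 := by
  have h1 := congrArg (fun f : ArithmeticFunction ℤ => f (m.gcd l))
    ArithmeticFunction.moebius_mul_coe_zeta
  simp only [ArithmeticFunction.one_apply] at h1
  rw [ArithmeticFunction.coe_mul_zeta_apply] at h1
  rw [← Finset.sum_filter]
  have h2 : l.divisors.filter (fun e : ℕ => (e : ℤ) ∣ m) = (m.gcd l).divisors := by
    ext e
    rw [Finset.mem_filter, Nat.mem_divisors, Nat.mem_divisors]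
    have hg : m.gcd l ≠ 0 := by
      intro h0
      rw [Int.gcd_eq_zero_iff] at h0
      have := h0.2
      omega
    constructor
    · rintro ⟨⟨h3, _⟩, h4⟩
      refine ⟨?_, hg⟩
      have := Int.dvd_gcd h4 (Int.natCast_dvd_natCast.mpr h3)
      exact_mod_cast this
    · rintro ⟨h3, _⟩
      refine ⟨⟨?_, hl.ne'⟩, ?_⟩
      · have := (Int.natCast_dvd_natCast.mpr h3).trans (Int.gcd_dvd_right m (l : ℤ))
        exact_mod_cast this
      · exact (Int.natCast_dvd_natCast.mpr h3).trans (Int.gcd_dvd_left m (l : ℤ))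
  rw [h2]
  have h3 : ((∑ i ∈ (m.gcd l).divisors, ArithmeticFunction.moebius i : ℤ) : ℝ) =
      ((if m.gcd l = 1 then 1 else 0 : ℤ) : ℝ) := by rw [h1]
  push_cast at h3
  rw [h3]

/-- Polya-Vinogradov for Jacobi symbols of nonsquare modulus. -/
theorem jacobi_sum_le {n : ℕ} (hodd : Odd n) (hns : ¬ IsSquare n) (a : ℤ) (t : ℕ) :
    |∑ i ∈ Finset.range t, (jacobiSym (a + i) n : ℝ)| ≤ 4 * Real.sqrt n * (1 + Real.log n) := by
  obtain ⟨N, l, hNl, hsq⟩ := Nat.sq_mul_squarefree n
  have hn0 : 0 < n := hodd.pos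
  have hl0 : 0 < l := by
    rcases Nat.eq_zero_or_pos l with h | h
    · subst h; simp at hNl; omega
    · exact h
  have hN0 : 0 < N := by
    rcases Nat.eq_zero_or_pos N with h | h
    · subst h; simp at hNl; omega
    · exact h
  have hN1 : 1 < N := by
    rcases Nat.lt_or_ge 1 N with h | h
    · exact h
    · exfalso
      have : N = 1 := by omega
      subst this
      exact hns ⟨l, by rw [← hNl]; ring⟩
  have hNodd : Odd N := by
    rw [← hNl] at hodd
    exact (Nat.odd_mul.mp hodd).2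
  have : NeZero N := ⟨hN0.ne'⟩
  have : NeZero l := ⟨hl0.ne'⟩
  set B := Real.sqrt N * (1 + Real.log N) with hB
  -- rewrite as an integer interval
  have h0 : ∑ i ∈ Finset.range t, (jacobiSym (a + i) n : ℝ) =
      ∑ m ∈ Finset.Ico a (a + t), (jacobiSym m n : ℝ) := by
    refine Finset.sum_bij' (fun (i : ℕ) _ => a + (i : ℤ)) (fun (m : ℤ) _ => (m - a).toNat)
      ?_ ?_ ?_ ?_ ?_
    · intro i hi
      rw [Finset.mem_range] at hi
      rw [Finset.mem_Ico]
      omega
    · intro m hm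
      rw [Finset.mem_Ico] at hm
      rw [Finset.mem_range]
      omega
    · intro i hi
      simp
    · intro m hm
      rw [Finset.mem_Ico] at hm
      show a + ((m - a).toNat : ℤ) = m
      omega
    · intro i _; rfl
  have h1 : ∀ m : ℤ, (jacobiSym m n : ℝ) =
      ∑ e ∈ l.divisors, (ArithmeticFunction.moebius e : ℝ) *
        (if (e : ℤ) ∣ m then (jacobiSym m N : ℝ) else 0) := by
    intro m
    have h2 : (jacobiSym m n : ℝ) = (if m.gcd l = 1 then (1 : ℝ) else 0) * (jacobiSym m N : ℝ) := by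
      rw [← hNl, jacobiSym.mul_right, jacobiSym.pow_right]
      split_ifs with hg
      · rw [jacobiSym.sq_one hg, one_mul, one_mul]
      · have : jacobiSym m l = 0 := jacobiSym.eq_zero_iff_not_coprime.mpr hg
        rw [this]; simp
    rw [h2, coprime_indicator m hl0, Finset.sum_mul]
    apply Finset.sum_congr rfl
    intro e _
    split_ifs <;> simp
  have h3 : ∑ m ∈ Finset.Ico a (a + t), (jacobiSym m n : ℝ) =
      ∑ e ∈ l.divisors, (ArithmeticFunction.moebius e : ℝ) *
        ∑ m ∈ (Finset.Ico a (a + t)).filter (fun m => (e : ℤ) ∣ m), (jacobiSym m N : ℝ) := by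
    rw [Finset.sum_congr rfl (fun m _ => h1 m), Finset.sum_comm]
    apply Finset.sum_congr rfl
    intro e _
    rw [Finset.mul_sum, Finset.sum_filter]
    apply Finset.sum_congr rfl
    intro m _
    split_ifs <;> simp
  have hB0 : 0 ≤ B := by
    rw [hB]
    have : 0 ≤ Real.log N := Real.log_natCast_nonneg N
    positivity
  have h4 : |∑ m ∈ Finset.Ico a (a + t), (jacobiSym m n : ℝ)| ≤ l * B := by
    rw [h3]
    refine (Finset.abs_sum_le_sum_abs _ _).trans ?_
    have h5 : ∀ e ∈ l.divisors, |(ArithmeticFunction.moebius e : ℝ) *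
        ∑ m ∈ (Finset.Ico a (a + t)).filter (fun m => (e : ℤ) ∣ m), (jacobiSym m N : ℝ)| ≤ B := by
      intro e he
      rw [abs_mul]
      have h6 : |(ArithmeticFunction.moebius e : ℝ)| ≤ 1 := by
        exact_mod_cast ArithmeticFunction.abs_moebius_le_one
      calc _ ≤ 1 * B := by
            gcongr
            exact dvd_bound hNodd hsq hN1 _ _ e (Nat.pos_of_mem_divisors he)
        _ = B := one_mul _
    refine (Finset.sum_le_card_nsmul _ _ _ h5).trans ?_
    rw [nsmul_eq_mul]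
    gcongr
    exact_mod_cast Nat.card_divisors_le_self l
  rw [h0]
  refine h4.trans ?_
  have h7 : Real.sqrt n = l * Real.sqrt N := by
    rw [← hNl]
    push_cast
    rw [Real.sqrt_mul (by positivity), Real.sqrt_sq (by positivity)]
  have h8 : Real.log N ≤ Real.log n := by
    apply Real.log_le_log (by exact_mod_cast hN0)
    have : N ≤ n := by
      rw [← hNl]
      exact Nat.le_mul_of_pos_left N (by positivity)
    exact_mod_cast this
  have h9 : 0 ≤ Real.log N := Real.log_natCast_nonneg N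
  rw [hB, h7]
  have h10 : (0 : ℝ) ≤ l * Real.sqrt N := by positivity
  nlinarith [mul_le_mul_of_nonneg_left h8 h10, mul_nonneg h10 (h9.trans h8)]

end Pool.Agent.Helper40.EKPV
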