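import Mathlib

/-!
# Points over finite fields: auxiliary facts
-/

set_option autoImplicit false
set_option linter.unusedSectionVars false

namespace Pool.Agent.Helper40.BB

open Polynomial

variable {k : Type} [Field k] [Finite k]

/-- `x` is fixed by the `n`-th power of Frobenius. -/
def InE (n : ℕ) (x : AlgebraicClosure k) : Prop := x ^ (Nat.card k ^ n) = x

/-- The Frobenius power as an algebra map. -/
lemma exists_frob (n : ℕ) : ∃ Φ : AlgebraicClosure k →ₐ[k] AlgebraicClosure k,
    ∀ x, Φ x = x ^ (Nat.card k ^ n) := by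
  have := Fintype.ofFinite k
  induction n with
  | zero => exact ⟨AlgHom.id k _, fun x => by simp⟩
  | succ n ih =>
    obtain ⟨Φ, hΦ⟩ := ih
    refine ⟨(FiniteField.frobeniusAlgHom k (AlgebraicClosure k)).comp Φ, fun x => ?_⟩
    rw [AlgHom.comp_apply, hΦ, FiniteField.coe_frobeniusAlgHom, Nat.card_eq_fintype_card]
    simp only
    rw [← pow_mul, pow_succ]

lemma InE.aeval {n : ℕ} {x : AlgebraicClosure k} (hx : InE n x) (A : k[X]) :
    InE n (Polynomial.aeval x A) := by
  obtain ⟨Φ, hΦ⟩ := exists_frob (k := k) n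
  unfold InE at *
  rw [← hΦ, ← Polynomial.aeval_algHom_apply, hΦ, hx]

lemma InE.mul {n : ℕ} {x y : AlgebraicClosure k} (hx : InE n x) (hy : InE n y) :
    InE n (x * y) := by
  unfold InE at *
  rw [mul_pow, hx, hy]

lemma InE.inv {n : ℕ} {x : AlgebraicClosure k} (hx : InE n x) : InE n x⁻¹ := by
  unfold InE at *
  rw [inv_pow, hx]

lemma InE.add {n : ℕ} {x y : AlgebraicClosure k} (hx : InE n x) (hy : InE n y) :
    InE n (x + y) := by
  obtain ⟨Φ, hΦ⟩ := exists_frob (k := k) n
  unfold InE at *
  rw [← hΦ, map_add, hΦ, hΦ, hx, hy]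

lemma InE.sub {n : ℕ} {x y : AlgebraicClosure k} (hx : InE n x) (hy : InE n y) :
    InE n (x - y) := by
  obtain ⟨Φ, hΦ⟩ := exists_frob (k := k) n
  unfold InE at *
  rw [← hΦ, map_sub, hΦ, hΦ, hx, hy]

lemma one_lt_q : 1 < Nat.card k := Finite.one_lt_card

/-- The finite set of fixed points. -/
noncomputable def EF (k : Type) [Field k] [Finite k] (n : ℕ) : Finset (AlgebraicClosure k) := by
  classical
  exact ((X ^ (Nat.card k ^ n) - X : k[X]).aroots (AlgebraicClosure k)).toFinset

lemma mem_EF {n : ℕ} (hn : n ≠ 0) {x : AlgebraicClosure k} : x ∈ EF k n ↔ InE n x := by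
  classical
  have hne : (X ^ (Nat.card k ^ n) - X : k[X]) ≠ 0 :=
    FiniteField.X_pow_card_pow_sub_X_ne_zero k hn one_lt_q
  unfold EF InE
  rw [Multiset.mem_toFinset, mem_aroots]
  simp [hne, sub_eq_zero]

lemma card_EF {n : ℕ} (hn : n ≠ 0) : (EF k n).card = Nat.card k ^ n := by
  classical
  have hsep : (X ^ (Nat.card k ^ n) - X : k[X]).Separable := by
    have hcast : ((Nat.card k ^ n : ℕ) : k) = 0 := by
      have := Fintype.ofFinite k
      rw [Nat.card_eq_fintype_card, Nat.cast_pow, FiniteField.cast_card_eq_zero, zero_pow hn]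
    rw [separable_def]
    have hd : derivative (X ^ (Nat.card k ^ n) - X : k[X]) = -1 := by
      rw [derivative_sub, derivative_X_pow, derivative_X, hcast]
      simp
    rw [hd]
    exact isCoprime_one_right.neg_right
  have h := card_rootSet_eq_natDegree (K := AlgebraicClosure k) hsep (IsAlgClosed.splits _)
  rw [FiniteField.X_pow_card_pow_sub_X_natDegree_eq k hn one_lt_q] at h
  rw [← h]
  simp_rw [rootSet_def, Finset.coe_sort_coe, Fintype.card_coe]
  unfold EF
  congr

lemma dvd_iff {x : AlgebraicClosure k} {f : k[X]} :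
    minpoly k x ∣ f ↔ Polynomial.aeval x f = 0 :=
  minpoly.dvd_iff

/-- Membership in terms of the degree of the minimal polynomial. -/
lemma InE_iff {n : ℕ} {x : AlgebraicClosure k} : InE n x ↔ (minpoly k x).natDegree ∣ n := by
  have hx : IsIntegral k x := Algebra.IsIntegral.isIntegral x
  rw [(minpoly.irreducible hx).natDegree_dvd_iff_dvd_X_pow_card_pow_sub_X, dvd_iff]
  unfold InE
  simp [sub_eq_zero]

/-- All elements of the field with `q ^ m` elements are polynomials in `x` when `x` has
degree `m`. -/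
lemma exists_poly {x y : AlgebraicClosure k} (hy : InE (minpoly k x).natDegree y) :
    ∃ C : k[X], Polynomial.aeval x C = y := by
  have hx : IsIntegral k x := Algebra.IsIntegral.isIntegral x
  set m := (minpoly k x).natDegree with hm
  have hm0 : m ≠ 0 := (minpoly.natDegree_pos hx).ne'
  have hfd : FiniteDimensional k (IntermediateField.adjoin k {x}) :=
    IntermediateField.adjoin.finiteDimensional hx
  have hfr : Module.finrank k (IntermediateField.adjoin k {x}) = m :=
    IntermediateField.adjoin.finrank hx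
  have hcard : Nat.card (IntermediateField.adjoin k {x}) = Nat.card k ^ m := by
    rw [Module.natCard_eq_pow_finrank (K := k), hfr]
  have hpoly : ∀ z ∈ IntermediateField.adjoin k {x}, ∃ C : k[X], Polynomial.aeval x C = z := by
    intro z hz
    have h1 := IntermediateField.adjoin_simple_toSubalgebra_of_isAlgebraic hx.isAlgebraic
    have h2 : z ∈ (IntermediateField.adjoin k {x}).toSubalgebra := hz
    rw [h1, Algebra.adjoin_singleton_eq_range_aeval] at h2
    obtain ⟨C, hC⟩ := h2
    exact ⟨C, hC⟩
  have hsub : ((IntermediateField.adjoin k {x} : Set (AlgebraicClosure k))) ⊆ (EF k m : Set _) := by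
    intro z hz
    obtain ⟨C, hC⟩ := hpoly z hz
    rw [Finset.mem_coe, mem_EF hm0, ← hC]
    exact (InE_iff.mpr (dvd_refl _)).aeval C
  have heq : ((IntermediateField.adjoin k {x} : Set (AlgebraicClosure k))) = (EF k m : Set _) := by
    apply Set.eq_of_subset_of_ncard_le hsub _ (Finset.finite_toSet _)
    rw [Set.ncard_coe_finset, card_EF hm0, ← hcard]
    exact le_rfl
  apply hpoly
  have : y ∈ (EF k m : Set (AlgebraicClosure k)) := by
    rw [Finset.mem_coe, mem_EF hm0]; exact hy
  rw [← heq] at this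
  exact this

/-! ### squares -/

lemma q_odd (hk : ringChar k ≠ 2) : Nat.card k % 2 = 1 := by
  have := Fintype.ofFinite k
  rw [Nat.card_eq_fintype_card]
  exact FiniteField.odd_card_of_char_ne_two hk

lemma two_ne (hk : ringChar k ≠ 2) : (2 : AlgebraicClosure k) ≠ 0 := by
  have h1 : (2 : k) ≠ 0 := Ring.two_ne_zero hk
  have h2 : (algebraMap k (AlgebraicClosure k)) 2 ≠ 0 := by
    rwa [Ne, map_eq_zero]
  rwa [map_ofNat] at h2

/-- number of square roots in `E_n` -/
lemma card_sqrt (hk : ringChar k ≠ 2) {n : ℕ} (hn : n ≠ 0) (a : AlgebraicClosure k) [DecidableEq (AlgebraicClosure k)] :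
    (((EF k n).filter (fun y => y ^ 2 = a)).card : ℤ) =
      1 + (if a = 0 then 0 else if a ^ ((Nat.card k ^ n - 1) / 2) = 1 then 1 else -1) := by
  by_cases ha : a = 0
  · subst ha
    have : (EF k n).filter (fun y => y ^ 2 = (0 : AlgebraicClosure k)) = {0} := by
      ext y
      rw [Finset.mem_filter, mem_EF hn, Finset.mem_singleton]
      constructor
      · rintro ⟨_, h⟩; exact pow_eq_zero_iff (two_ne_zero) |>.mp h
      · rintro rfl
        refine ⟨?_, by simp⟩
        unfold InE
        rw [zero_pow]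
        have := one_lt_q (k := k)
        positivity
    rw [this]; simp
  · rw [if_neg ha]
    obtain ⟨y0, hy0⟩ := IsAlgClosed.exists_pow_nat_eq a (n := 2) (by norm_num)
    have hy00 : y0 ≠ 0 := by
      rintro rfl; apply ha; rw [← hy0]; simp
    have h2 := two_ne hk
    have hneg : y0 ≠ -y0 := by
      intro h
      have h3 : 2 * y0 = 0 := by linear_combination h
      rcases mul_eq_zero.mp h3 with h4 | h4
      · exact h2 h4
      · exact hy00 h4
    have hodd : (Nat.card k ^ n - 1) = 2 * ((Nat.card k ^ n - 1) / 2) := by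
      have h5 : (Nat.card k ^ n) % 2 = 1 := by
        rw [Nat.pow_mod, q_odd hk, one_pow]
        rfl
      omega
    have hq1 : 1 ≤ Nat.card k ^ n := Nat.one_le_pow _ _ (by have := one_lt_q (k := k); omega)
    have hE : ∀ y, y ≠ 0 → y ^ 2 = a → (InE n y ↔ a ^ ((Nat.card k ^ n - 1) / 2) = 1) := by
      intro y hy hya
      rw [← hya, ← pow_mul, ← hodd]
      unfold InE
      constructor
      · intro h
        have h6 : y ^ (Nat.card k ^ n - 1) * y = y := by
          rw [← pow_succ, Nat.sub_add_cancel hq1, h]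
        exact mul_right_cancel₀ hy (by rw [h6, one_mul])
      · intro h
        rw [← Nat.sub_add_cancel hq1, pow_succ, h, one_mul]
    have hsq : ∀ y, y ^ 2 = a ↔ y = y0 ∨ y = -y0 := by
      intro y
      rw [← hy0]
      exact sq_eq_sq_iff_eq_or_eq_neg
    by_cases hs : a ^ ((Nat.card k ^ n - 1) / 2) = 1
    · rw [if_pos hs]
      have : (EF k n).filter (fun y => y ^ 2 = a) = {y0, -y0} := by
        ext y
        rw [Finset.mem_filter, mem_EF hn, Finset.mem_insert, Finset.mem_singleton]
        constructor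
        · rintro ⟨_, h⟩; exact (hsq y).mp h
        · intro h
          have h7 := (hsq y).mpr h
          have hy : y ≠ 0 := by
            rintro rfl; apply ha; rw [← h7]; simp
          exact ⟨(hE y hy h7).mpr hs, h7⟩
      rw [this, Finset.card_pair hneg]
      norm_num
    · rw [if_neg hs]
      have : (EF k n).filter (fun y => y ^ 2 = a) = ∅ := by
        rw [Finset.filter_eq_empty_iff]
        intro y hyE h7
        have hy : y ≠ 0 := by
          rintro rfl; apply ha; rw [← h7]; simp
        exact hs ((hE y hy h7).mp ((mem_EF hn).mp hyE))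
      rw [this]; simp

/-- The quadratic symbol of `A` modulo `π`. -/
noncomputable def eps (A π : k[X]) : ℤ := by
  classical
  exact if π ∣ A then 0 else if ∃ C, π ∣ A - C ^ 2 then 1 else -1

lemma parity (q m j : ℕ) (hq : q % 2 = 1) :
    ∃ c, (q ^ (m * j) - 1) / 2 = ((q ^ m - 1) / 2) * c ∧ c % 2 = j % 2 := by
  refine ⟨∑ i ∈ Finset.range j, (q ^ m) ^ i, ?_, ?_⟩
  · have hq1 : 1 ≤ q ^ m := Nat.one_le_pow _ _ (by omega)
    have h1 : (∑ i ∈ Finset.range j, (q ^ m) ^ i) * (q ^ m - 1) = (q ^ m) ^ j - 1 :=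
      geom_sum_mul_of_one_le hq1 j
    have h2 : q ^ m % 2 = 1 := by rw [Nat.pow_mod, hq, one_pow]; rfl
    have h3 : q ^ m - 1 = 2 * ((q ^ m - 1) / 2) := by omega
    rw [pow_mul, ← h1]
    conv_lhs => rw [h3]
    rw [← mul_assoc, mul_comm _ 2, mul_assoc, Nat.mul_div_cancel_left _ (by norm_num), mul_comm]
  · induction j with
    | zero => simp
    | succ j ih =>
      rw [Finset.sum_range_succ, Nat.add_mod, ih, Nat.pow_mod (q ^ m), Nat.pow_mod q, hq]
      simp [Nat.add_mod]

lemma chi_eq (hk : ringChar k ≠ 2) (A : k[X]) {x : AlgebraicClosure k} {n : ℕ} (hn : n ≠ 0)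
    (hmn : (minpoly k x).natDegree ∣ n) [DecidableEq (AlgebraicClosure k)] :
    ((if Polynomial.aeval x A = 0 then 0 else
      if (Polynomial.aeval x A) ^ ((Nat.card k ^ n - 1) / 2) = 1 then 1 else -1 : ℤ)) =
      eps A (minpoly k x) ^ (n / (minpoly k x).natDegree) := by
  classical
  have hx : IsIntegral k x := Algebra.IsIntegral.isIntegral x
  set m := (minpoly k x).natDegree with hm
  have hm0 : m ≠ 0 := (minpoly.natDegree_pos hx).ne'
  obtain ⟨j, rfl⟩ := hmn
  have hj : j ≠ 0 := by rintro rfl; simp at hn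
  rw [Nat.mul_div_cancel_left _ (Nat.pos_of_ne_zero hm0)]
  set a := Polynomial.aeval x A with ha
  unfold eps
  by_cases h0 : minpoly k x ∣ A
  · rw [if_pos h0, if_pos (dvd_iff.mp h0), zero_pow hj]
  · have ha0 : a ≠ 0 := fun h => h0 (dvd_iff.mpr h)
    rw [if_neg h0, if_neg ha0]
    obtain ⟨c, hc1, hc2⟩ := parity (Nat.card k) m j (q_odd hk)
    rw [hc1, pow_mul]
    have hq1 : 1 ≤ Nat.card k ^ m := Nat.one_le_pow _ _ (by have := one_lt_q (k := k); omega)
    have hodd : (Nat.card k ^ m - 1) = ((Nat.card k ^ m - 1) / 2) * 2 := by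
      have h5 : (Nat.card k ^ m) % 2 = 1 := by
        rw [Nat.pow_mod, q_odd hk, one_pow]
        rfl
      omega
    have haE : InE m a := (InE_iff.mpr (dvd_refl _)).aeval A
    have hpow : ∀ y : AlgebraicClosure k, y ≠ 0 → (InE m y ↔ y ^ (Nat.card k ^ m - 1) = 1) := by
      intro y hy
      unfold InE
      constructor
      · intro h
        have h6 : y ^ (Nat.card k ^ m - 1) * y = y := by
          rw [← pow_succ, Nat.sub_add_cancel hq1, h]
        exact mul_right_cancel₀ hy (by rw [h6, one_mul])
      · intro h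
        rw [← Nat.sub_add_cancel hq1, pow_succ, h, one_mul]
    set s := a ^ ((Nat.card k ^ m - 1) / 2) with hs
    have hs2 : s ^ 2 = 1 := by
      rw [hs, ← pow_mul, ← hodd]
      exact (hpow a ha0).mp haE
    have hiff : (∃ C, minpoly k x ∣ A - C ^ 2) ↔ s = 1 := by
      constructor
      · rintro ⟨C, hC⟩
        rw [dvd_iff, map_sub, map_pow, sub_eq_zero] at hC
        have hC' : a = (Polynomial.aeval x C) ^ 2 := hC
        have hC0 : Polynomial.aeval x C ≠ 0 := by
          intro h; apply ha0; rw [hC', h]; simp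
        rw [hs, hC', ← pow_mul, mul_comm 2, ← hodd]
        exact (hpow _ hC0).mp ((InE_iff.mpr (dvd_refl _)).aeval C)
      · intro h1
        obtain ⟨y, hy⟩ := IsAlgClosed.exists_pow_nat_eq a (n := 2) (by norm_num)
        have hy0 : y ≠ 0 := by
          rintro rfl; apply ha0; rw [← hy]; simp
        have hyE : InE m y := by
          rw [hpow y hy0, hodd, mul_comm, pow_mul, hy, ← hs, h1]
        obtain ⟨C, hC⟩ := exists_poly hyE
        refine ⟨C, ?_⟩
        rw [dvd_iff, map_sub, map_pow, hC, hy, ← ha, sub_self]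
    by_cases hs1 : s = 1
    · rw [if_pos (hiff.mpr hs1), hs1]
      simp
    · rw [if_neg (fun h => hs1 (hiff.mp h))]
      have hsm : s = -1 := by
        have h7 : (s - 1) * (s + 1) = 0 := by linear_combination hs2
        rcases mul_eq_zero.mp h7 with h8 | h8
        · exact absurd (sub_eq_zero.mp h8) hs1
        · exact eq_neg_of_add_eq_zero_left h8
      rw [hsm]
      have h2 := two_ne hk
      have hne : (-1 : AlgebraicClosure k) ≠ 1 := by
        intro h; apply h2; linear_combination -h
      rcases Nat.even_or_odd c with hce | hco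
      · have hje : Even j := by
          rw [Nat.even_iff] at hce ⊢; omega
        rw [hce.neg_one_pow, hje.neg_one_pow]; simp
      · have hjo : Odd j := by
          rw [Nat.odd_iff] at hco ⊢; omega
        rw [hco.neg_one_pow, hjo.neg_one_pow, if_neg hne]

/-- number of points -/
noncomputable def countPts {k : Type} [Field k] (A B : Polynomial k) (n : ℕ) : ℕ :=
  Nat.card {p : Fin 3 → AlgebraicClosure k // (∀ i, p i ^ (Nat.card k ^ n) = p i) ∧
    p 1 ^ 2 = Polynomial.aeval (p 0) A + p 2 * Polynomial.aeval (p 0) B}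

lemma countPts_eq_sum (A B : k[X]) {n : ℕ} (hn : n ≠ 0) [DecidableEq (AlgebraicClosure k)] :
    (countPts A B n : ℤ) = ∑ x ∈ EF k n, ∑ y ∈ EF k n, ∑ t ∈ EF k n,
      if y ^ 2 = Polynomial.aeval x A + t * Polynomial.aeval x B then 1 else 0 := by
  classical
  set T : Finset (AlgebraicClosure k × AlgebraicClosure k × AlgebraicClosure k) :=
    (EF k n ×ˢ (EF k n ×ˢ EF k n)).filter (fun p => p.2.1 ^ 2 =
      Polynomial.aeval p.1 A + p.2.2 * Polynomial.aeval p.1 B) with hT
  have h1 : countPts A B n = T.card := by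
    have hmem : ∀ x : AlgebraicClosure k × AlgebraicClosure k × AlgebraicClosure k, x ∈ T ↔
        (InE n x.1 ∧ InE n x.2.1 ∧ InE n x.2.2) ∧ x.2.1 ^ 2 =
          Polynomial.aeval x.1 A + x.2.2 * Polynomial.aeval x.1 B := by
      intro x
      rw [hT, Finset.mem_filter, Finset.mem_product, Finset.mem_product, mem_EF hn, mem_EF hn,
        mem_EF hn]
    have e : {p : Fin 3 → AlgebraicClosure k // (∀ i, p i ^ (Nat.card k ^ n) = p i) ∧
        p 1 ^ 2 = Polynomial.aeval (p 0) A + p 2 * Polynomial.aeval (p 0) B} ≃ {x // x ∈ T} :=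
      { toFun := fun p => ⟨(p.1 0, p.1 1, p.1 2), (hmem _).mpr
          ⟨⟨p.2.1 0, p.2.1 1, p.2.1 2⟩, p.2.2⟩⟩
        invFun := fun x => ⟨![x.1.1, x.1.2.1, x.1.2.2], by
          have h := (hmem x.1).mp x.2
          refine ⟨?_, h.2⟩
          intro i
          fin_cases i
          · exact h.1.1
          · exact h.1.2.1
          · exact h.1.2.2⟩
        left_inv := by
          intro p
          apply Subtype.ext
          funext i
          fin_cases i <;> rfl
        right_inv := by
          intro x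
          rfl }
    unfold countPts
    rw [Nat.card_congr e, Nat.card_eq_fintype_card, Fintype.card_coe]
  rw [h1, hT, Finset.card_filter]
  push_cast
  rw [Finset.sum_product]
  apply Finset.sum_congr rfl
  intro x _
  rw [Finset.sum_product]

lemma countPts_eq (hk : ringChar k ≠ 2) (A B : k[X]) {n : ℕ} (hn : n ≠ 0)
    [DecidableEq (AlgebraicClosure k)] :
    (countPts A B n : ℤ) = (Nat.card k : ℤ) ^ (2 * n) + (Nat.card k : ℤ) ^ n *
      ∑ x ∈ (EF k n).filter (fun x => Polynomial.aeval x B = 0),
        (if Polynomial.aeval x A = 0 then 0 else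
          if (Polynomial.aeval x A) ^ ((Nat.card k ^ n - 1) / 2) = 1 then 1 else -1) := by
  rw [countPts_eq_sum A B hn, Finset.sum_filter, Finset.mul_sum]
  have h1 : (Nat.card k : ℤ) ^ (2 * n) = ∑ _x ∈ EF k n, (Nat.card k : ℤ) ^ n := by
    rw [Finset.sum_const, card_EF hn, nsmul_eq_mul]
    push_cast
    rw [← pow_add]
    congr 1
    ring
  rw [h1, ← Finset.sum_add_distrib]
  apply Finset.sum_congr rfl
  intro x hx
  have hxE := (mem_EF hn).mp hx
  by_cases hB : Polynomial.aeval x B = 0
  · rw [if_pos hB, hB]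
    simp only [mul_zero, add_zero]
    have h2 : ∑ y ∈ EF k n, ∑ _t ∈ EF k n,
        (if y ^ 2 = Polynomial.aeval x A then (1 : ℤ) else 0) =
        (Nat.card k : ℤ) ^ n * (((EF k n).filter (fun y => y ^ 2 = Polynomial.aeval x A)).card : ℤ) := by
      rw [Finset.card_filter]
      push_cast
      rw [Finset.mul_sum]
      apply Finset.sum_congr rfl
      intro y _
      rw [Finset.sum_const, card_EF hn, nsmul_eq_mul]
      push_cast
      rfl
    rw [h2, card_sqrt hk hn]
    ring
  · rw [if_neg hB, mul_zero, add_zero]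
    have h2 : ∀ y ∈ EF k n, (∑ t ∈ EF k n,
        (if y ^ 2 = Polynomial.aeval x A + t * Polynomial.aeval x B then (1 : ℤ) else 0)) = 1 := by
      intro y hy
      have hyE := (mem_EF hn).mp hy
      have h3 : ∀ t, y ^ 2 = Polynomial.aeval x A + t * Polynomial.aeval x B ↔
          (y ^ 2 - Polynomial.aeval x A) * (Polynomial.aeval x B)⁻¹ = t := by
        intro t
        constructor
        · intro h; rw [h]; field_simp; ring
        · intro h; rw [← h]; field_simp; ring
      simp_rw [h3]
      rw [Finset.sum_ite_eq, if_pos]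
      rw [mem_EF hn]
      have hy2 : InE n (y ^ 2) := by rw [sq]; exact hyE.mul hyE
      exact (hy2.sub (hxE.aeval A)).mul (hxE.aeval B).inv
    rw [Finset.sum_congr rfl h2, Finset.sum_const, card_EF hn]
    simp

/-! ### grouping by minimal polynomials -/

/-- Monic irreducible divisors. -/
noncomputable def PiB (B : k[X]) : Finset k[X] := by
  classical
  exact ((B.aroots (AlgebraicClosure k)).toFinset).image (minpoly k)

lemma mem_PiB {B : k[X]} (hB : B ≠ 0) {π : k[X]} :
    π ∈ PiB B ↔ π.Monic ∧ Irreducible π ∧ π ∣ B := by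
  classical
  unfold PiB
  rw [Finset.mem_image]
  constructor
  · rintro ⟨x, hx, rfl⟩
    rw [Multiset.mem_toFinset, mem_aroots] at hx
    have hi : IsIntegral k x := Algebra.IsIntegral.isIntegral x
    exact ⟨minpoly.monic hi, minpoly.irreducible hi, dvd_iff.mpr hx.2⟩
  · rintro ⟨h1, h2, h3⟩
    obtain ⟨x, hx⟩ := IsAlgClosed.exists_aeval_eq_zero (AlgebraicClosure k) π
      (degree_pos_of_irreducible h2).ne'
    refine ⟨x, ?_, (minpoly.eq_of_irreducible_of_monic h2 hx h1).symm⟩
    rw [Multiset.mem_toFinset, mem_aroots]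
    obtain ⟨g, rfl⟩ := h3
    exact ⟨hB, by rw [map_mul, hx, zero_mul]⟩

lemma card_fiber {B : k[X]} (hB : B ≠ 0) {π : k[X]} (hπ : π ∈ PiB B)
    [DecidableEq (AlgebraicClosure k)] [DecidableEq k[X]] :
    ((B.aroots (AlgebraicClosure k)).toFinset.filter (fun x => minpoly k x = π)).card =
      π.natDegree := by
  obtain ⟨h1, h2, h3⟩ := (mem_PiB hB).mp hπ
  have heq : (B.aroots (AlgebraicClosure k)).toFinset.filter (fun x => minpoly k x = π) =
      (π.aroots (AlgebraicClosure k)).toFinset := by
    ext x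
    rw [Finset.mem_filter, Multiset.mem_toFinset, Multiset.mem_toFinset, mem_aroots, mem_aroots]
    constructor
    · rintro ⟨_, rfl⟩
      exact ⟨h1.ne_zero, minpoly.aeval k x⟩
    · rintro ⟨_, hx⟩
      obtain ⟨g, rfl⟩ := h3
      exact ⟨⟨hB, by rw [map_mul, hx, zero_mul]⟩,
        (minpoly.eq_of_irreducible_of_monic h2 hx h1).symm⟩
  rw [heq]
  have h := card_rootSet_eq_natDegree (K := AlgebraicClosure k)
    (PerfectField.separable_of_irreducible h2) (IsAlgClosed.splits _)
  rw [← h]
  simp_rw [rootSet_def, Finset.coe_sort_coe, Fintype.card_coe]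

theorem countPts_formula (hk : ringChar k ≠ 2) (A : k[X]) {B : k[X]} (hB : B ≠ 0) {n : ℕ}
    (hn : n ≠ 0) :
    (Nat.card k : ℤ) ^ (2 * n) - (countPts A B n : ℤ) = ∑ π ∈ PiB B,
      (if π.natDegree ∣ n then
        -((π.natDegree : ℤ) * eps A π ^ (n / π.natDegree) * (Nat.card k : ℤ) ^ n) else 0) := by
  classical
  rw [countPts_eq hk A B hn]
  have h1 : ∑ x ∈ (EF k n).filter (fun x => Polynomial.aeval x B = 0),
        (if Polynomial.aeval x A = 0 then 0 else
          if (Polynomial.aeval x A) ^ ((Nat.card k ^ n - 1) / 2) = 1 then (1 : ℤ) else -1) =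
      ∑ x ∈ (B.aroots (AlgebraicClosure k)).toFinset, (if (minpoly k x).natDegree ∣ n then
        eps A (minpoly k x) ^ (n / (minpoly k x).natDegree) else 0) := by
    rw [← Finset.sum_filter]
    apply Finset.sum_congr
    · ext x
      rw [Finset.mem_filter, Finset.mem_filter, mem_EF hn, InE_iff, Multiset.mem_toFinset,
        mem_aroots]
      tauto
    · intro x hx
      rw [Finset.mem_filter] at hx
      exact chi_eq hk A hn hx.2
  rw [h1]
  have h2 : ∀ x ∈ (B.aroots (AlgebraicClosure k)).toFinset, minpoly k x ∈ PiB B := by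
    intro x hx
    unfold PiB
    rw [Finset.mem_image]
    exact ⟨x, by convert hx, rfl⟩
  rw [← Finset.sum_fiberwise_of_maps_to h2]
  have h3 : ∀ π ∈ PiB B, (∑ x ∈ (B.aroots (AlgebraicClosure k)).toFinset.filter
      (fun x => minpoly k x = π), (if (minpoly k x).natDegree ∣ n then
        eps A (minpoly k x) ^ (n / (minpoly k x).natDegree) else 0)) =
      (π.natDegree : ℤ) * (if π.natDegree ∣ n then eps A π ^ (n / π.natDegree) else 0) := by
    intro π hπ
    have h4 : ∀ x ∈ (B.aroots (AlgebraicClosure k)).toFinset.filter (fun x => minpoly k x = π),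
        (if (minpoly k x).natDegree ∣ n then
        eps A (minpoly k x) ^ (n / (minpoly k x).natDegree) else 0) =
        (if π.natDegree ∣ n then eps A π ^ (n / π.natDegree) else 0) := by
      intro x hx
      rw [Finset.mem_filter] at hx
      rw [hx.2]
    rw [Finset.sum_congr rfl h4, Finset.sum_const, card_fiber hB hπ, nsmul_eq_mul]
  rw [Finset.sum_congr rfl h3, Finset.mul_sum, sub_add_cancel_left, ← Finset.sum_neg_distrib]
  apply Finset.sum_congr rfl
  intro π _
  split_ifs
  · ring
  · ring

end Pool.Agent.Helper40.BB
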