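import Mathlib
import Pool.Agent.Helper40.BBField

/-!
# The L-function of the pencil
-/

set_option autoImplicit false

namespace Pool.Agent.Helper40.BB

open Polynomial

/-- Uniqueness of solutions of `X F' = S F`. -/
lemma ode_unique {S F G : PowerSeries ℚ} (hS : PowerSeries.constantCoeff S = 0)
    (hF0 : PowerSeries.constantCoeff F = PowerSeries.constantCoeff G)
    (hF : PowerSeries.X * PowerSeries.derivative ℚ F = S * F)
    (hG : PowerSeries.X * PowerSeries.derivative ℚ G = S * G) : F = G := by
  ext n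
  induction n using Nat.strong_induction_on with
  | _ n ih =>
    rcases n with _ | n
    · simpa using hF0
    · have h1 := congrArg (PowerSeries.coeff (n + 1)) hF
      have h2 := congrArg (PowerSeries.coeff (n + 1)) hG
      rw [PowerSeries.coeff_succ_X_mul, PowerSeries.coeff_derivative] at h1 h2
      have h3 : PowerSeries.coeff (n + 1) (S * F) = PowerSeries.coeff (n + 1) (S * G) := by
        rw [PowerSeries.coeff_mul, PowerSeries.coeff_mul]
        apply Finset.sum_congr rfl
        rintro ⟨i, j⟩ hij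
        have hij' := Finset.HasAntidiagonal.mem_antidiagonal.mp hij
        simp only at hij' ⊢
        by_cases hi : i = 0
        · subst hi
          have : PowerSeries.coeff 0 S = 0 := by simpa using hS
          rw [this, zero_mul, zero_mul]
        · rw [ih j (by omega)]
      rw [h3, ← h2] at h1
      have h4 : ((n : ℚ) + 1) ≠ 0 := by positivity
      exact mul_right_cancel₀ h4 h1

/-- The logarithmic derivative series of one factor. -/
noncomputable def SS (q : ℚ) (m : ℕ) (e : ℤ) : PowerSeries ℚ :=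
  PowerSeries.mk (fun n => if n = 0 then 0 else if m ∣ n then
    -((m : ℚ) * (e : ℚ) ^ (n / m) * q ^ n) else 0)

/-- One factor. -/
noncomputable def fac (q : ℚ) (m : ℕ) (e : ℤ) : ℚ[X] := 1 - C ((e : ℚ) * q ^ m) * X ^ m

lemma fac_coe (q : ℚ) (m : ℕ) (e : ℤ) : (fac q m e : PowerSeries ℚ) =
    1 - PowerSeries.C ((e : ℚ) * q ^ m) * PowerSeries.X ^ m := by
  unfold fac
  rw [Polynomial.coe_sub, Polynomial.coe_one, Polynomial.coe_mul, Polynomial.coe_C,
    Polynomial.coe_pow, Polynomial.coe_X]

lemma fac_ode (q : ℚ) (m : ℕ) (hm : m ≠ 0) (e : ℤ) :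
    PowerSeries.X * PowerSeries.derivative ℚ (fac q m e : PowerSeries ℚ) =
      SS q m e * (fac q m e : PowerSeries ℚ) := by
  have hS : ∀ n, PowerSeries.coeff n (SS q m e * (fac q m e : PowerSeries ℚ)) =
      PowerSeries.coeff n (SS q m e) -
        (if m ≤ n then ((e : ℚ) * q ^ m) * PowerSeries.coeff (n - m) (SS q m e) else 0) := by
    intro n
    have h1 : SS q m e * (fac q m e : PowerSeries ℚ) =
        SS q m e - PowerSeries.X ^ m * (PowerSeries.C ((e : ℚ) * q ^ m) * SS q m e) := by
      rw [fac_coe]; ring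
    rw [h1, map_sub, PowerSeries.coeff_X_pow_mul']
    split_ifs
    · rw [PowerSeries.coeff_C_mul]
    · rfl
  have hSS : ∀ n, PowerSeries.coeff n (SS q m e) = if n = 0 then 0 else if m ∣ n then
      -((m : ℚ) * (e : ℚ) ^ (n / m) * q ^ n) else 0 := by
    intro n; unfold SS; rw [PowerSeries.coeff_mk]
  ext n
  rw [hS n]
  rcases n with _ | n
  · rw [PowerSeries.coeff_zero_X_mul, hSS, if_pos rfl, if_neg (by omega), sub_zero]
  · have hL : PowerSeries.coeff (n + 1) (fac q m e : PowerSeries ℚ) =
        if n + 1 = m then -((e : ℚ) * q ^ m) else 0 := by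
      rw [fac_coe, map_sub, PowerSeries.coeff_C_mul, PowerSeries.coeff_X_pow,
        PowerSeries.coeff_one]
      simp only [Nat.add_eq_zero_iff, one_ne_zero, and_false, if_false]
      split_ifs <;> ring
    have hn1 : ¬ (n + 1 = 0) := by omega
    rw [PowerSeries.coeff_succ_X_mul, PowerSeries.coeff_derivative, hL, hSS, if_neg hn1]
    by_cases hd : m ∣ n + 1
    · obtain ⟨j, hj⟩ := hd
      have hj0 : j ≠ 0 := by rintro rfl; simp at hj
      obtain ⟨i, rfl⟩ : ∃ i, j = i + 1 := ⟨j - 1, by omega⟩
      have hle : m ≤ n + 1 := by rw [hj]; exact Nat.le_mul_of_pos_right _ (by omega)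
      have hsub : n + 1 - m = m * i := by rw [hj, mul_add, mul_one, Nat.add_sub_cancel]
      have hdd : m ∣ n + 1 := ⟨i + 1, hj⟩
      rw [if_pos hdd, if_pos hle, hsub, hSS]
      have hdiv : (n + 1) / m = i + 1 := by
        rw [hj, Nat.mul_div_cancel_left _ (Nat.pos_of_ne_zero hm)]
      rw [hdiv]
      have hcast : ((n : ℚ) + 1) = (m : ℚ) * (i + 1) := by exact_mod_cast hj
      rcases i with _ | i
      · have hnm : n + 1 = m := by rw [hj]; ring
        rw [if_pos hnm, mul_zero, if_pos rfl, hcast, hnm]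
        push_cast
        ring
      · have hnm : ¬ (n + 1 = m) := by
          rw [hj]
          intro h
          have : m * (i + 1 + 1) = m * 1 := by rw [h, mul_one]
          have := Nat.eq_of_mul_eq_mul_left (Nat.pos_of_ne_zero hm) this
          omega
        have hmi : ¬ (m * (i + 1) = 0) := by positivity
        have hmd : m ∣ m * (i + 1) := ⟨i + 1, rfl⟩
        rw [if_neg hnm, if_neg hmi, if_pos hmd,
          Nat.mul_div_cancel_left _ (Nat.pos_of_ne_zero hm)]
        have hq : q ^ (n + 1) = q ^ m * q ^ (m * (i + 1)) := by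
          rw [hj, ← pow_add]; congr 1; ring
        rw [hq]
        ring
    · rw [if_neg hd]
      have hnm : ¬ (n + 1 = m) := by rintro rfl; exact hd (dvd_refl _)
      rw [if_neg hnm]
      by_cases hle : m ≤ n + 1
      · rw [if_pos hle, hSS]
        have h5 : ¬ (n + 1 - m = 0) := by omega
        have h6 : ¬ (m ∣ n + 1 - m) := by
          intro h
          have := (Nat.dvd_sub_self_right).mp h
          rcases this with h7 | h7
          · exact hd h7
          · omega
        rw [if_neg h5, if_neg h6]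
        ring
      · rw [if_neg hle]
        ring

lemma prod_ode {ι : Type*} (s : Finset ι) (f : ι → PowerSeries ℚ) (S : ι → PowerSeries ℚ)
    (h : ∀ i ∈ s, PowerSeries.X * PowerSeries.derivative ℚ (f i) = S i * f i) :
    PowerSeries.X * PowerSeries.derivative ℚ (∏ i ∈ s, f i) = (∑ i ∈ s, S i) * ∏ i ∈ s, f i := by
  classical
  induction s using Finset.induction_on with
  | empty => simp
  | insert a s ha ih =>
    rw [Finset.prod_insert ha, Finset.sum_insert ha, Derivation.leibniz]
    have h1 := h a (Finset.mem_insert_self a s)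
    have h2 := ih fun i hi => h i (Finset.mem_insert_of_mem hi)
    simp only [smul_eq_mul]
    calc PowerSeries.X * (f a * PowerSeries.derivative ℚ (∏ i ∈ s, f i) +
          (∏ i ∈ s, f i) * PowerSeries.derivative ℚ (f a))
        = f a * (PowerSeries.X * PowerSeries.derivative ℚ (∏ i ∈ s, f i)) +
          (∏ i ∈ s, f i) * (PowerSeries.X * PowerSeries.derivative ℚ (f a)) := by ring
      _ = _ := by rw [h1, h2]; ring

lemma fac_ne_zero (q : ℚ) {m : ℕ} (hm : m ≠ 0) (e : ℤ) : fac q m e ≠ 0 := by
  intro h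
  have h1 := congrArg (Polynomial.eval 0) h
  unfold fac at h1
  simp [hm] at h1

lemma fac_mult {q : ℚ} (hq : q ≠ 0) {m : ℕ} (hm : m ≠ 0) {e : ℤ} (he : e = 0 ∨ e = 1 ∨ e = -1) :
    (fac q m e).rootMultiplicity q⁻¹ = if e = 1 then 1 else 0 := by
  have hev : (fac q m e).eval q⁻¹ = 1 - e := by
    unfold fac
    simp only [eval_sub, eval_one, eval_mul, eval_C, eval_pow, eval_X]
    rw [mul_assoc, ← mul_pow, mul_inv_cancel₀ hq, one_pow, mul_one]
  rcases he with rfl | rfl | rfl
  · rw [if_neg (by norm_num), rootMultiplicity_eq_zero]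
    rw [IsRoot.def, hev]; norm_num
  · rw [if_pos rfl]
    have h0 : (fac q m 1).IsRoot q⁻¹ := by rw [IsRoot.def, hev]; norm_num
    have hpos : 0 < (fac q m 1).rootMultiplicity q⁻¹ :=
      (rootMultiplicity_pos (fac_ne_zero q hm 1)).mpr h0
    have hnot : ¬ 1 < (fac q m 1).rootMultiplicity q⁻¹ := by
      rw [one_lt_rootMultiplicity_iff_isRoot (fac_ne_zero q hm 1)]
      rintro ⟨_, h2⟩
      rw [IsRoot.def] at h2
      unfold fac at h2
      simp only [derivative_sub, derivative_one, derivative_C_mul, derivative_X_pow, zero_sub,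
        eval_neg, eval_mul, eval_C, eval_pow, eval_X] at h2
      have h3 : (m : ℚ) ≠ 0 := by exact_mod_cast hm
      have h4 : (q⁻¹) ^ (m - 1) ≠ 0 := pow_ne_zero _ (inv_ne_zero hq)
      have h5 : q ^ m ≠ 0 := pow_ne_zero _ hq
      apply absurd h2
      push_cast
      simp [h3, h5, hq]
    omega
  · rw [if_neg (by norm_num), rootMultiplicity_eq_zero]
    rw [IsRoot.def, hev]; norm_num

theorem Lfun {k : Type} [Field k] [Finite k] (hk : ringChar k ≠ 2) (A B : Polynomial k) (hB : B ≠ 0)
    (L : PowerSeries ℚ) (h0 : PowerSeries.constantCoeff L = 1)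
    (h1 : PowerSeries.X * PowerSeries.derivative ℚ L =
      PowerSeries.mk (fun n => if n = 0 then 0 else
        ((Nat.card k : ℚ) ^ (2 * n) - (countPts A B n : ℚ))) * L) :
    ∃ P : Polynomial ℚ, (P : PowerSeries ℚ) = L ∧ P ≠ 0 ∧
      P.rootMultiplicity ((Nat.card k : ℚ)⁻¹) =
        Set.ncard {π : Polynomial k | π.Monic ∧ Irreducible π ∧ π ∣ B ∧ ¬ π ∣ A ∧ ∃ C, π ∣ A - C ^ 2} := by
  classical
  set q : ℚ := (Nat.card k : ℚ) with hq
  have hq0 : q ≠ 0 := by
    have := one_lt_q (k := k)
    rw [hq]
    positivity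
  have hm0 : ∀ π ∈ PiB B, π.natDegree ≠ 0 := by
    intro π hπ
    exact (natDegree_pos_iff_degree_pos.mpr
      (degree_pos_of_irreducible ((mem_PiB hB).mp hπ).2.1)).ne'
  have heps : ∀ π : k[X], eps A π = 0 ∨ eps A π = 1 ∨ eps A π = -1 := by
    intro π
    unfold eps
    split_ifs <;> simp
  set P : ℚ[X] := ∏ π ∈ PiB B, fac q π.natDegree (eps A π) with hP
  have hPne : P ≠ 0 := Finset.prod_ne_zero_iff.mpr fun π hπ => fac_ne_zero q (hm0 π hπ) _
  have hcoe : (P : PowerSeries ℚ) = ∏ π ∈ PiB B, (fac q π.natDegree (eps A π) : PowerSeries ℚ) := by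
    rw [hP]
    exact map_prod (Polynomial.coeToPowerSeries.ringHom) _ _
  have hode := prod_ode (PiB B) (fun π => (fac q π.natDegree (eps A π) : PowerSeries ℚ))
    (fun π => SS q π.natDegree (eps A π)) (fun π hπ => fac_ode q _ (hm0 π hπ) _)
  rw [← hcoe] at hode
  have hS : PowerSeries.mk (fun n => if n = 0 then 0 else
        (q ^ (2 * n) - (countPts A B n : ℚ))) = ∑ π ∈ PiB B, SS q π.natDegree (eps A π) := by
    ext n
    rw [PowerSeries.coeff_mk, map_sum]
    unfold SS
    simp only [PowerSeries.coeff_mk]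
    by_cases hn : n = 0
    · simp [hn]
    · simp only [if_neg hn]
      have h2 := countPts_formula hk A hB hn
      have h3 := congrArg (Int.cast : ℤ → ℚ) h2
      push_cast at h3
      rw [hq]
      exact h3
  refine ⟨P, ?_, hPne, ?_⟩
  · apply ode_unique (S := PowerSeries.mk (fun n => if n = 0 then 0 else
        (q ^ (2 * n) - (countPts A B n : ℚ))))
    · simp
    · rw [h0, hcoe, map_prod]
      apply Finset.prod_eq_one
      intro π hπ
      rw [fac_coe]
      simp [hm0 π hπ]
    · rw [hS]; exact hode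
    · exact h1
  · have h4 : ∀ s ⊆ PiB B, (∏ π ∈ s, fac q π.natDegree (eps A π)).rootMultiplicity q⁻¹ =
        ∑ π ∈ s, (if eps A π = 1 then 1 else 0) := by
      intro s
      induction s using Finset.induction_on with
      | empty =>
        intro _
        simp
      | insert a s ha ih =>
        intro hs
        have ha2 : a ∈ PiB B := hs (Finset.mem_insert_self a s)
        have hs2 : s ⊆ PiB B := (Finset.subset_insert a s).trans hs
        rw [Finset.prod_insert ha, Finset.sum_insert ha, rootMultiplicity_mul, ih hs2,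
          fac_mult hq0 (hm0 a ha2) (heps a)]
        apply mul_ne_zero (fac_ne_zero q (hm0 a ha2) _)
        exact Finset.prod_ne_zero_iff.mpr fun π hπ => fac_ne_zero q (hm0 π (hs2 hπ)) _
    rw [hP, h4 _ (Finset.Subset.refl _), ← Finset.card_filter, ← Set.ncard_coe_finset]
    congr 1
    ext π
    rw [Finset.mem_coe, Finset.mem_filter, mem_PiB hB, Set.mem_ofPred_eq]
    unfold eps
    constructor
    · rintro ⟨⟨h5, h6, h7⟩, h8⟩
      refine ⟨h5, h6, h7, ?_, ?_⟩
      · intro h; rw [if_pos h] at h8; norm_num at h8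
      · by_contra h
        split_ifs at h8
        simp_all
    · rintro ⟨h5, h6, h7, h8, h9⟩
      refine ⟨⟨h5, h6, h7⟩, ?_⟩
      rw [if_neg h8, if_pos h9]

end Pool.Agent.Helper40.BB
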