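import Pool.Agent.Helper40.BBLowerC
import Pool.Agent.Helper62.BBPsi

set_option autoImplicit false
set_option linter.style.haveILetI false
set_option linter.unusedSectionVars false

namespace Pool.Agent.Helper40.BBLower

open Pool.Agent.Helper16 Pool.Agent.Helper16.BB Polynomial IntermediateField

theorem ringChar_ratFunc {k : Type} [Field k] (hk : ringChar k ≠ 2) : ringChar (RatFunc k) ≠ 2 := by
  intro h
  have h3 : (2 : RatFunc k) = 0 := by
    have := ringChar.Nat.cast_ringChar (R := RatFunc k)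
    rw [h] at this
    exact_mod_cast this
  apply Ring.two_ne_zero hk
  apply (algebraMap k (RatFunc k)).injective
  rw [map_zero, ← h3, map_ofNat]

theorem lower {k : Type} [Field k] (hk : ringChar k ≠ 2) (m : ℕ) (hm : 1 ≤ m)
    (F G : MvPolynomial (Fin 2) k) (hF : F.IsHomogeneous (2 * m)) (hG : G.IsHomogeneous (2 * m))
    (hG0 : G ≠ 0) (hsq : Squarefree (lin F G))
    (hNS : ∀ α : AlgebraicClosure k, ¬ IsSquare
      ((MvPolynomial.aeval ![Polynomial.X, 1] F : Polynomial k).map
        (algebraMap k (AlgebraicClosure k)) + Polynomial.C α *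
        (MvPolynomial.aeval ![Polynomial.X, 1] G : Polynomial k).map
          (algebraMap k (AlgebraicClosure k))))
    (T : Type) (c : T → Fin 2 → AlgebraicClosure k) (a : T → AlgebraicClosure k)
    (hc : ∀ s, c s ≠ 0) (hcG : ∀ s, MvPolynomial.aeval (c s) G = 0)
    (hcF : ∀ s, MvPolynomial.aeval (c s) F = a s ^ 2) (ha : ∀ s, a s ≠ 0)
    (hsplit : ∀ s (τ : AlgebraicClosure k ≃ₐ[k] AlgebraicClosure k) (e : AlgebraicClosure k),
      e ≠ 0 → (∀ i, τ (c s i) = e * c s i) → τ (a s) = e ^ m * a s)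
    (hnon : ∀ s s', s ≠ s' → ∀ (τ : AlgebraicClosure k ≃ₐ[k] AlgebraicClosure k)
      (e : AlgebraicClosure k), e ≠ 0 → ¬ ∀ i, τ (c s i) = e * c s' i) :
    LinearIndependent ℚ (fun s : T =>
      cls (curveW m) (curveEq (lin F G)) (curvePt (jc k (c s 0)) (jc k (c s 1)) (jc k (a s))) -
      cls (curveW m) (curveEq (lin F G)) (curvePt (jc k (c s 0)) (jc k (c s 1))
        (-(jc k (a s))))) :=
  lower_of_psi hk m hm F G hF hG hG0 hsq
    (fun _M _ _ x y hx hy hM => Pool.Agent.Helper62.BBPsi.exists_Psi (ringChar_ratFunc hk) m hm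
      (lin F G) (lin_hom hF hG) hsq.ne_zero hsq x y hx hy hM)
    hNS T c a hc hcG hcF ha hsplit hnon

end Pool.Agent.Helper40.BBLower
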