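import Mathlib
import Pool.Agent.Helper16.BBCover
import Pool.Agent.Helper16.BBCurveDefs
import Pool.Agent.Helper16.H1e

set_option autoImplicit false
set_option linter.style.haveILetI false
set_option linter.unusedSectionVars false

namespace Pool.Agent.Helper40.BBLower

open Pool.Agent.Helper16 Pool.Agent.Helper16.BB Polynomial IntermediateField

section twist

variable {K N : Type} [Field K] [Field N] [Algebra K N]

/-- The composite of a place with an automorphism. -/
theorem exists_twist_place (w : Place K N) (σ : N ≃ₐ[K] N)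
    (φ : w.resField →ₐ[K] AlgebraicClosure K) :
    ∃ (w' : Place K N) (φ' : w'.resField →ₐ[K] AlgebraicClosure K),
      (∀ f, w'.val f = w.val (σ f)) ∧
        ∀ f, w.val (σ f) ≤ 1 → φ' (w'.res f) = φ (w.res (σ f)) := by
  let w' : Place K N :=
    { val := w.val.comap (σ : N →+* N)
      surj := fun γ => by
        obtain ⟨x, hx⟩ := w.surj γ
        refine ⟨σ.symm x, ?_⟩
        rw [Valuation.comap_apply]
        change w.val (σ (σ.symm x)) = γ
        rw [AlgEquiv.apply_symm_apply, hx]
      triv := fun a ha => by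
        rw [Valuation.comap_apply]
        change w.val (σ (algebraMap K N a)) = 1
        rw [AlgEquiv.commutes, w.triv a ha] }
  have hval : ∀ f, w'.val f = w.val (σ f) := fun f => rfl
  let g : w'.ring →ₐ[K] w.ring :=
    { toFun := fun a => ⟨σ (a : N), a.2⟩
      map_one' := Subtype.ext (map_one _)
      map_mul' := fun a b => Subtype.ext (map_mul _ _ _)
      map_zero' := Subtype.ext (map_zero _)
      map_add' := fun a b => Subtype.ext (map_add _ _ _)
      commutes' := fun a => Subtype.ext (σ.commutes a) }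
  refine ⟨w', w'.redRes ((w.resRed φ).comp g), hval, fun f hf => ?_⟩
  have hf' : f ∈ w'.ring := hf
  rw [w'.redRes_res _ hf']
  change w.resRed φ (g ⟨f, hf'⟩) = _
  exact w.resRed_apply φ hf

end twist

section princ

variable {K N : Type} [Field K] [Field N] [Algebra K N]

theorem ord_zpow (w : Place K N) (f : N) (n : ℤ) : w.ord (f ^ n) = n * w.ord f := by
  unfold Place.ord
  rw [map_zpow₀, WithZero.log_zpow, smul_eq_mul]
  ring

/-- Clearing denominators in a rational combination of principal divisors. -/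
theorem exists_int_mult (D : Place K N →₀ ℚ)
    (hD : D ∈ Submodule.span ℚ {D : Place K N →₀ ℚ | ∃ f : N, f ≠ 0 ∧ ∀ w, D w = (w.ord f : ℚ)}) :
    ∃ (n : ℤ) (f : N), n ≠ 0 ∧ f ≠ 0 ∧ ∀ w, (n : ℚ) * D w = (w.ord f : ℚ) := by
  induction hD using Submodule.span_induction with
  | mem D h =>
    obtain ⟨f, hf, h⟩ := h
    exact ⟨1, f, one_ne_zero, hf, fun w => by rw [h w]; simp⟩
  | zero => exact ⟨1, 1, one_ne_zero, one_ne_zero, fun w => by simp [w.ord_one]⟩
  | add D₁ D₂ _ _ h₁ h₂ =>
    obtain ⟨n₁, f₁, hn₁, hf₁, h₁⟩ := h₁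
    obtain ⟨n₂, f₂, hn₂, hf₂, h₂⟩ := h₂
    refine ⟨n₁ * n₂, f₁ ^ n₂ * f₂ ^ n₁, mul_ne_zero hn₁ hn₂,
      mul_ne_zero (zpow_ne_zero _ hf₁) (zpow_ne_zero _ hf₂), fun w => ?_⟩
    rw [w.ord_mul (zpow_ne_zero _ hf₁) (zpow_ne_zero _ hf₂), ord_zpow w f₁, ord_zpow w f₂]
    push_cast
    rw [← h₁ w, ← h₂ w, Pi.add_apply]
    ring
  | smul r D _ h =>
    obtain ⟨n, f, hn, hf, h⟩ := h
    refine ⟨n * r.den, f ^ r.num, mul_ne_zero hn (by exact_mod_cast r.den_nz),
      zpow_ne_zero _ hf, fun w => ?_⟩
    rw [ord_zpow w f, Finsupp.smul_apply, smul_eq_mul]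
    push_cast
    rw [← h w]
    have h1 : (r.den : ℚ) * r = r.num := by
      rw [mul_comm]
      exact Rat.mul_den_eq_num r
    calc (n : ℚ) * r.den * (r * D w) = n * ((r.den : ℚ) * r) * D w := by ring
      _ = _ := by rw [h1]; ring

end princ

section const

variable (k : Type) [Field k]

/-- Automorphisms of the algebraic closure of `k(t)` restrict to the algebraic closure of `k`. -/
theorem exists_restr (σ : AlgebraicClosure (RatFunc k) ≃ₐ[RatFunc k] AlgebraicClosure (RatFunc k)) :
    ∃ τ : AlgebraicClosure k ≃ₐ[k] AlgebraicClosure k, ∀ a, jc k (τ a) = σ (jc k a) := by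
  letI : Algebra (AlgebraicClosure k) (AlgebraicClosure (RatFunc k)) :=
    (jc k).toRingHom.toAlgebra
  haveI : IsScalarTower k (AlgebraicClosure k) (AlgebraicClosure (RatFunc k)) :=
    IsScalarTower.of_algebraMap_eq fun a => ((jc k).commutes a).symm
  refine ⟨(σ.restrictScalars k).restrictNormal (AlgebraicClosure k), fun a => ?_⟩
  exact (σ.restrictScalars k).restrictNormal_commutes (AlgebraicClosure k) a

end const

section rat

variable (L : Type) [Field L]

theorem neg_X_transcendental : Transcendental L (-RatFunc.X : RatFunc L) := by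
  intro h
  apply ratFunc_X_transcendental L
  have := h.neg
  rwa [neg_neg] at this

/-- The involution `Y ↦ -Y` of `L(Y)`. -/
theorem exists_invol : ∃ σ : RatFunc L ≃ₐ[L] RatFunc L, σ RatFunc.X = -RatFunc.X := by
  let g := ratLift (k := L) (-RatFunc.X : RatFunc L) (neg_X_transcendental L)
  have hg : g RatFunc.X = -RatFunc.X := ratLift_X _ _
  have hgg : g.comp g = AlgHom.id L (RatFunc L) := by
    have h1 : (g.comp g : RatFunc L →ₐ[L] RatFunc L).toRingHom =
        (AlgHom.id L (RatFunc L)).toRingHom := by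
      apply ratFunc_hom_ext
      · intro a
        change (g.comp g) (algebraMap L (RatFunc L) a) = AlgHom.id L (RatFunc L) _
        rw [AlgHom.commutes, AlgHom.commutes]
      · change g (g RatFunc.X) = RatFunc.X
        rw [hg, map_neg, hg, neg_neg]
    ext a
    exact DFunLike.congr_fun h1 a
  exact ⟨AlgEquiv.ofAlgHom g g hgg hgg, hg⟩

end rat

section pt

variable {k : Type} [Field k] {m : ℕ} {F G : MvPolynomial (Fin 2) k}

theorem wB_weight (s : Fin ((fun _ : Unit => 1) () + 1) →₀ ℕ) :
    Finsupp.weight (wB fun _ : Unit => 1)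
      (s.mapDomain (Sigma.mk () : _ → Σ i, Fin ((fun _ : Unit => 1) i + 1)))
      = fun _ => s.sum fun _ n => n := by
  rw [Finsupp.weight_apply, Finsupp.sum_mapDomain_index]
  · funext u
    rw [Finsupp.sum, Finset.sum_apply, Finsupp.sum]
    refine Finset.sum_congr rfl fun i _ => ?_
    rw [Pi.smul_apply, wB]
    cases u
    simp
  · intro b
    simp
  · intro b a c
    rw [add_smul]

theorem lift1_hom {K : Type} [Field K] {P : MvPolynomial (Fin 2) K} (hP : P.IsHomogeneous (2 * m)) :
    ∀ _ : Unit, (lift1 P).IsWeightedHomogeneous (wB fun _ : Unit => 1) (2 • fun _ : Unit => m) := by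
  intro _ s hs
  obtain ⟨u, rfl, hu⟩ := MvPolynomial.coeff_rename_ne_zero _ _ _ hs
  rw [wB_weight]
  have h1 := hP hu
  funext v
  rw [Pi.smul_apply, smul_eq_mul, ← h1]
  rw [Finsupp.weight_apply]
  simp

theorem lin_hom (hF : F.IsHomogeneous (2 * m)) (hG : G.IsHomogeneous (2 * m)) :
    (lin F G).IsHomogeneous (2 * m) := by
  refine MvPolynomial.IsHomogeneous.add (hF.map _) ?_
  have := (MvPolynomial.isHomogeneous_C (Fin 2) (RatFunc.X : RatFunc k)).mul (hG.map (algebraMap k (RatFunc k)))
  rwa [zero_add] at this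

theorem aeval_lin {A : Type} [Field A] [Algebra k A] [Algebra (RatFunc k) A]
    [IsScalarTower k (RatFunc k) A] (z : Fin 2 → A) :
    MvPolynomial.aeval z (lin F G) = MvPolynomial.aeval z F +
      algebraMap (RatFunc k) A RatFunc.X * MvPolynomial.aeval z G := by
  rw [lin, map_add, map_mul, MvPolynomial.aeval_C, MvPolynomial.aeval_map_algebraMap,
    MvPolynomial.aeval_map_algebraMap]

theorem isPoint_curve {K : Type} [Field K] {P : MvPolynomial (Fin 2) K} (hP : P.IsHomogeneous (2 * m))
    {A : Type} [Field A] [Algebra K A] (x z y : A) (hxz : x ≠ 0 ∨ z ≠ 0)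
    (h : y ^ 2 = MvPolynomial.aeval ![x, z] P) : IsPoint (curveW m) (curveEq P) (curvePt x z y) := by
  rw [isPoint_iff (lift1_hom hP)]
  refine ⟨fun i => ?_, fun j => ?_⟩
  · rcases hxz with h | h
    · exact ⟨0, h⟩
    · exact ⟨1, h⟩
  · change y ^ 2 = MvPolynomial.aeval (fun b => curvePt x z y (Sum.inl b)) (lift1 P)
    rw [h, lift1, MvPolynomial.aeval_rename]
    congr 2
    funext i
    revert i
    rw [Fin.forall_fin_two]
    exact ⟨rfl, rfl⟩

theorem scale_curve {A : Type} [Field A] (c x z y : A) :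
    scale (curveW m) (fun _ => c) (curvePt x z y) = curvePt (c * x) (c * z) (c ^ m * y) := by
  funext j
  rcases j with ⟨⟨⟩, j⟩ | ⟨⟩
  · revert j
    rw [Fin.forall_fin_two]
    constructor
    · simp [scale, curveW, wC, curvePt]
    · simp [scale, curveW, wC, curvePt]
  · simp [scale, curveW, wC, curvePt]

end pt

end Pool.Agent.Helper40.BBLower
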