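import Pool.Agent.Helper40.BBLowerB
import Pool.Agent.Helper92.BBCurve

set_option autoImplicit false
set_option linter.style.haveILetI false
set_option linter.unusedSectionVars false

namespace Pool.Agent.Helper40.BBLower

open Pool.Agent.Helper16 Pool.Agent.Helper16.BB Polynomial IntermediateField

section field

variable {k : Type} [Field k]

theorem exists_L (k : Type) [Field k] : ∃ (L : Type) (_ : Field L) (_ : Algebra k L) (x : L),
    Transcendental k x ∧ IntermediateField.adjoin k {x} = ⊤ ∧ IsFunctionField k L :=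
  ⟨RatFunc k, inferInstance, inferInstance, RatFunc.X, transcendental_X k, RatFunc.adjoin_X,
    isFunctionField_ratFunc k⟩

/-- The function field of the pencil `y ^ 2 = F + t G` over `k(t)`. -/
theorem exists_model {L : Type} [Field L] [Algebra k L] (hL : IsFunctionField k L) (f g : L)
    (hg : g ≠ 0) :
    ∃ (N : Type) (_ : Field N) (_ : Algebra k N) (_ : Algebra L N) (_ : Algebra (RatFunc k) N)
      (_ : IsScalarTower k L N) (_ : IsScalarTower k (RatFunc k) N) (y : N) (σ : N ≃ₐ[L] N),
      IsFunctionField (RatFunc k) N ∧ Transcendental L y ∧ IntermediateField.adjoin L {y} = ⊤ ∧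
      σ y = -y ∧
      algebraMap (RatFunc k) N RatFunc.X * algebraMap L N g = y ^ 2 - algebraMap L N f := by
  set τ : RatFunc L := (RatFunc.X ^ 2 - algebraMap L (RatFunc L) f) / algebraMap L (RatFunc L) g
    with hτ
  have hg' : algebraMap L (RatFunc L) g ≠ 0 := by simpa using hg
  have hτtr : Transcendental k τ := by
    intro h
    have h1 : IsAlgebraic L τ := h.tower_top L
    apply ratFunc_X_transcendental L
    have h2 : IsAlgebraic L ((RatFunc.X : RatFunc L) ^ 2) := by
      have h3 : (RatFunc.X : RatFunc L) ^ 2 = τ * algebraMap L (RatFunc L) g +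
          algebraMap L (RatFunc L) f := by
        rw [hτ, div_mul_cancel₀ _ hg']
        ring
      rw [h3]
      exact (h1.mul (isAlgebraic_algebraMap g)).add (isAlgebraic_algebraMap f)
    exact IsAlgebraic.of_pow two_pos h2
  obtain ⟨N, _, _, _, _, _, _, e, heX, hN, -⟩ := exists_twist_algebra L hL τ hτtr
  obtain ⟨σ, hσ⟩ := exists_invol L
  refine ⟨N, _, _, _, _, inferInstance, inferInstance, e RatFunc.X, (e.symm.trans σ).trans e, hN,
    ?_, ?_, ?_, ?_⟩
  · intro h
    apply ratFunc_X_transcendental L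
    have h2 := h.algHom e.symm.toAlgHom
    simpa using h2
  · have h1 := congrArg (IntermediateField.map (e : RatFunc L →ₐ[L] N)) (RatFunc.adjoin_X (K := L))
    rw [IntermediateField.adjoin_map, Set.image_singleton] at h1
    rw [← AlgHom.fieldRange_eq_map, AlgHom.fieldRange_eq_top.2 e.surjective] at h1
    exact h1
  · change e (σ (e.symm (e RatFunc.X))) = _
    rw [AlgEquiv.symm_apply_apply, hσ, map_neg]
  · rw [heX, ← e.commutes g, ← map_mul, hτ, div_mul_cancel₀ _ hg', map_sub, map_pow, e.commutes]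

end field

section alg

theorem adjoin_pair {k L N : Type} [Field k] [Field L] [Field N] [Algebra k L] [Algebra L N]
    [Algebra k N] [Algebra (RatFunc k) N] [IsScalarTower k L N] [IsScalarTower k (RatFunc k) N]
    (x : L) (hxL : IntermediateField.adjoin k {x} = ⊤) (y : N)
    (hyN : IntermediateField.adjoin L {y} = ⊤) :
    IntermediateField.adjoin (RatFunc k) {algebraMap L N x, y} = ⊤ := by
  set E := IntermediateField.adjoin (RatFunc k) {algebraMap L N x, y} with hE
  have hX : algebraMap L N x ∈ E := IntermediateField.subset_adjoin _ _ (by simp)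
  have hy : y ∈ E := IntermediateField.subset_adjoin _ _ (by simp)
  have hL : ∀ b : L, algebraMap L N b ∈ E := by
    intro b
    have hb : b ∈ IntermediateField.adjoin k {x} := by rw [hxL]; trivial
    induction hb using IntermediateField.adjoin_induction with
    | mem a ha =>
      rw [Set.mem_singleton_iff.1 ha]
      exact hX
    | algebraMap a =>
      rw [← IsScalarTower.algebraMap_apply k L N, IsScalarTower.algebraMap_apply k (RatFunc k) N]
      exact E.algebraMap_mem _
    | add a b _ _ ha hb =>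
      rw [map_add]
      exact add_mem ha hb
    | inv a _ ha =>
      rw [map_inv₀]
      exact inv_mem ha
    | mul a b _ _ ha hb =>
      rw [map_mul]
      exact mul_mem ha hb
  rw [eq_top_iff]
  intro z _
  have hz : z ∈ IntermediateField.adjoin L {y} := by rw [hyN]; trivial
  induction hz using IntermediateField.adjoin_induction with
  | mem a ha =>
    rw [Set.mem_singleton_iff.1 ha]
    exact hy
  | algebraMap a => exact hL a
  | add a b _ _ ha hb => exact add_mem (ha trivial) (hb trivial)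
  | inv a _ ha => exact inv_mem (ha trivial)
  | mul a b _ _ ha hb => exact mul_mem (ha trivial) (hb trivial)

variable {K N : Type} [Field K] [Field N] [Algebra K N]

theorem isAlgebraic_aeval {X : N} (hX : IsAlgebraic K X) (P : K[X]) : IsAlgebraic K (aeval X P) := by
  have h1 : X ∈ algebraicClosure K N := mem_algebraicClosure_iff.2 hX
  have h2 : aeval X P ∈ algebraicClosure K N := by
    rw [aeval_eq_sum_range]
    exact sum_mem fun i _ => (algebraicClosure K N).toSubalgebra.smul_mem (pow_mem h1 i) _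
  exact mem_algebraicClosure_iff.1 h2

theorem not_algebraic (hN : IsFunctionField K N) {X y : N}
    (hM : IntermediateField.adjoin K {X, y} = ⊤) (hX : IsAlgebraic K X) (hy : IsAlgebraic K y) :
    False := by
  have h1 : IntermediateField.adjoin K {X, y} ≤ algebraicClosure K N := by
    rw [IntermediateField.adjoin_le_iff]
    rintro z (rfl | rfl)
    · exact mem_algebraicClosure_iff.2 hX
    · exact mem_algebraicClosure_iff.2 hy
  rw [hM] at h1
  haveI : Algebra.IsAlgebraic K N := ⟨fun z => mem_algebraicClosure_iff.1 (h1 trivial)⟩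
  have h2 := hN.2
  rw [trdeg_eq_zero (R := K) (A := N)] at h2
  exact zero_ne_one h2

end alg

section final

variable {k : Type} [Field k]

/-- Normalised points. -/
theorem lower_norm (hk : ringChar k ≠ 2) (m : ℕ) (hm : 1 ≤ m) (F G : MvPolynomial (Fin 2) k)
    (hF : F.IsHomogeneous (2 * m)) (hG : G.IsHomogeneous (2 * m)) (hG0 : G ≠ 0)
    (hsq : Squarefree (lin F G))
    (hPsi : ∀ (M : Type) [Field M] [Algebra (RatFunc k) M] (x y : M),
      Transcendental (RatFunc k) x → y ^ 2 = MvPolynomial.aeval ![x, 1] (lin F G) →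
      IntermediateField.adjoin (RatFunc k) {x, y} = ⊤ →
      ∃ Ψ : Quo (curveW m) (curveEq (lin F G)) →ₗ[ℚ] ((Place (RatFunc k) M →₀ ℚ) ⧸
        Submodule.span ℚ {D : Place (RatFunc k) M →₀ ℚ | ∃ f : M, f ≠ 0 ∧
          ∀ w, D w = (w.ord f : ℚ)}),
        ∀ (w : Place (RatFunc k) M) (z : CurveIx → AlgebraicClosure (RatFunc k)),
          IsSp (curveW m) (curveEq (lin F G)) w (curvePt x 1 y) z →
            Ψ (cls _ _ z) = Submodule.Quotient.mk (Finsupp.single w ((w.deg : ℚ)⁻¹)))
    (hNS : ∀ α : AlgebraicClosure k, ¬ IsSquare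
      ((MvPolynomial.aeval ![Polynomial.X, 1] F : Polynomial k).map
        (algebraMap k (AlgebraicClosure k)) + Polynomial.C α *
        (MvPolynomial.aeval ![Polynomial.X, 1] G : Polynomial k).map
          (algebraMap k (AlgebraicClosure k))))
    (T : Type) (p : T → Fin 2 → AlgebraicClosure k) (q : T → AlgebraicClosure k)
    (hp : ∀ s, p s 1 = 1 ∨ (p s 0 = 1 ∧ p s 1 = 0))
    (hpG : ∀ s, MvPolynomial.aeval (p s) G = 0) (hpF : ∀ s, MvPolynomial.aeval (p s) F = q s ^ 2)
    (hq : ∀ s, q s ≠ 0)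
    (hsplit : ∀ s (τ : AlgebraicClosure k ≃ₐ[k] AlgebraicClosure k),
      (∀ i, τ (p s i) = p s i) → τ (q s) = q s)
    (hnon : ∀ s s', s ≠ s' → ∀ (τ : AlgebraicClosure k ≃ₐ[k] AlgebraicClosure k),
      ¬ ∀ i, τ (p s i) = p s' i) :
    LinearIndependent ℚ (fun s : T =>
      cls (curveW m) (curveEq (lin F G)) (curvePt (jc k (p s 0)) (jc k (p s 1)) (jc k (q s))) -
      cls (curveW m) (curveEq (lin F G)) (curvePt (jc k (p s 0)) (jc k (p s 1))
        (-(jc k (q s))))) := by
  have h2 : (2 : k) ≠ 0 := Ring.two_ne_zero hk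
  have hKchar : ringChar (RatFunc k) ≠ 2 := by
    intro h
    have h3 : (2 : RatFunc k) = 0 := by
      have := ringChar.Nat.cast_ringChar (R := RatFunc k)
      rw [h] at this
      exact_mod_cast this
    apply h2
    apply (algebraMap k (RatFunc k)).injective
    rw [map_zero, ← h3, map_ofNat]
  have hGd : (MvPolynomial.aeval ![Polynomial.X, 1] G : Polynomial k) ≠ 0 :=
    Pool.Agent.Helper92.BBCurve.deh_ne_zero (2 * m) G hG hG0
  obtain ⟨L, _, _, x, hx, hxL, hL⟩ := exists_L k
  have hGx : aeval x (MvPolynomial.aeval ![Polynomial.X, 1] G : Polynomial k) ≠ 0 := by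
    intro h0
    exact hGd (transcendental_iff_injective.1 hx (by rw [h0, map_zero]))
  obtain ⟨N, _, _, _, _, _, _, y, σ, hN, hy, hyN, hσ, ht⟩ := exists_model hL
    (aeval x (MvPolynomial.aeval ![Polynomial.X, 1] F : Polynomial k))
    (aeval x (MvPolynomial.aeval ![Polynomial.X, 1] G : Polynomial k)) hGx
  set X : N := algebraMap L N x with hXdef
  have hdeh : ∀ P : MvPolynomial (Fin 2) k, algebraMap L N
      (aeval x (MvPolynomial.aeval ![Polynomial.X, 1] P : Polynomial k)) =
      MvPolynomial.aeval ![X, 1] P := by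
    intro P
    rw [← aeval_algebraMap_apply]
    exact Pool.Agent.Helper92.BBCurve.aeval_deh P X
  have hyeq : y ^ 2 = MvPolynomial.aeval ![X, 1] (lin F G) := by
    rw [hdeh, hdeh] at ht
    rw [aeval_lin, ht]
    ring
  have hlin0 : lin F G ≠ 0 := hsq.ne_zero
  have hlin := lin_hom hF hG
  have hM : IntermediateField.adjoin (RatFunc k) {X, y} = ⊤ := adjoin_pair x hxL y hyN
  have hXtr : Transcendental (RatFunc k) X := by
    intro hXa
    have h3 : IsAlgebraic (RatFunc k) (y ^ 2) := by
      rw [hyeq, ← Pool.Agent.Helper92.BBCurve.aeval_deh]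
      exact isAlgebraic_aeval hXa _
    exact not_algebraic hN hM hXa (IsAlgebraic.of_pow two_pos h3)
  obtain ⟨Ψ, hΨ⟩ := hPsi N X y hXtr hyeq hM
  refine core h2 hN m F G hF hG x hx hxL y hy hyN hGd hNS ht σ hσ Ψ hΨ T p q hpG hpF hq ?_
    hsplit hnon
  intro s
  have hpt : jc k (q s) ^ 2 = MvPolynomial.aeval ![jc k (p s 0), jc k (p s 1)] (lin F G) := by
    have hz : ![jc k (p s 0), jc k (p s 1)] = fun i => jc k (p s i) := by
      funext i
      revert i
      rw [Fin.forall_fin_two]
      exact ⟨rfl, rfl⟩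
    rw [aeval_lin, hz, aeval_comp_eq (jc k) (p s) F, aeval_comp_eq (jc k) (p s) G, hpF, hpG,
      map_zero, mul_zero, add_zero, map_pow]
  have hjq : jc k (q s) ≠ 0 := by simpa using hq s
  rcases hp s with h1 | ⟨h1, h3⟩
  · rw [h1, map_one] at hpt
    obtain ⟨w, φ, h4, h5, h6⟩ := Pool.Agent.Helper92.BBCurve.exists_affine hKchar m hm (lin F G)
      hlin hlin0 hsq X y hXtr hyeq hM _ _ hpt
    refine ⟨w, φ, Or.inl ⟨h1, h4, mem_of_res w y ?_, h5, h6⟩⟩
    intro h0
    rw [h0, map_zero] at h6
    exact hjq h6.symm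
  · rw [h1, h3, map_one, map_zero] at hpt
    obtain ⟨w, φ, h4, h5⟩ := Pool.Agent.Helper92.BBCurve.exists_inf hKchar m hm (lin F G)
      hlin hlin0 hsq X y hXtr hyeq hM _ hpt
    refine ⟨w, φ, Or.inr ⟨h1, h3, h4, mem_of_res w _ ?_, h5⟩⟩
    intro h0
    rw [h0, map_zero] at h5
    exact hjq h5.symm

theorem aeval_smul {A : Type} [Field A] [Algebra k A] {n : ℕ} {P : MvPolynomial (Fin 2) k}
    (hP : P.IsHomogeneous n) (l : A) (c : Fin 2 → A) :
    MvPolynomial.aeval (fun i => l * c i) P = l ^ n * MvPolynomial.aeval c P := by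
  have h1 := Pool.Agent.Helper92.BBCurve.aeval_hom n P hP l (c 0) (c 1)
  have h2 : ∀ v : Fin 2 → A, v = ![v 0, v 1] := by
    intro v
    funext i
    revert i
    rw [Fin.forall_fin_two]
    exact ⟨rfl, rfl⟩
  rw [h2 c, h2 fun i => l * ![c 0, c 1] i]
  exact h1

theorem lower_of_psi {k : Type} [Field k] (hk : ringChar k ≠ 2) (m : ℕ) (hm : 1 ≤ m)
    (F G : MvPolynomial (Fin 2) k) (hF : F.IsHomogeneous (2 * m)) (hG : G.IsHomogeneous (2 * m))
    (hG0 : G ≠ 0) (hsq : Squarefree (lin F G))
    (hPsi : ∀ (M : Type) [Field M] [Algebra (RatFunc k) M] (x y : M),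
      Transcendental (RatFunc k) x → y ^ 2 = MvPolynomial.aeval ![x, 1] (lin F G) →
      IntermediateField.adjoin (RatFunc k) {x, y} = ⊤ →
      ∃ Ψ : Quo (curveW m) (curveEq (lin F G)) →ₗ[ℚ] ((Place (RatFunc k) M →₀ ℚ) ⧸
        Submodule.span ℚ {D : Place (RatFunc k) M →₀ ℚ | ∃ f : M, f ≠ 0 ∧
          ∀ w, D w = (w.ord f : ℚ)}),
        ∀ (w : Place (RatFunc k) M) (z : CurveIx → AlgebraicClosure (RatFunc k)),
          IsSp (curveW m) (curveEq (lin F G)) w (curvePt x 1 y) z →
            Ψ (cls _ _ z) = Submodule.Quotient.mk (Finsupp.single w ((w.deg : ℚ)⁻¹)))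
    (hNS : ∀ α : AlgebraicClosure k, ¬ IsSquare
      ((MvPolynomial.aeval ![Polynomial.X, 1] F : Polynomial k).map
        (algebraMap k (AlgebraicClosure k)) + Polynomial.C α *
        (MvPolynomial.aeval ![Polynomial.X, 1] G : Polynomial k).map
          (algebraMap k (AlgebraicClosure k))))
    (T : Type) (c : T → Fin 2 → AlgebraicClosure k) (a : T → AlgebraicClosure k)
    (hc : ∀ s, c s ≠ 0) (hcG : ∀ s, MvPolynomial.aeval (c s) G = 0)
    (hcF : ∀ s, MvPolynomial.aeval (c s) F = a s ^ 2) (ha : ∀ s, a s ≠ 0)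
    (hsplit : ∀ s (τ : AlgebraicClosure k ≃ₐ[k] AlgebraicClosure k) (e : AlgebraicClosure k),
      e ≠ 0 → (∀ i, τ (c s i) = e * c s i) → τ (a s) = e ^ m * a s)
    (hnon : ∀ s s', s ≠ s' → ∀ (τ : AlgebraicClosure k ≃ₐ[k] AlgebraicClosure k)
      (e : AlgebraicClosure k), e ≠ 0 → ¬ ∀ i, τ (c s i) = e * c s' i) :
    LinearIndependent ℚ (fun s : T =>
      cls (curveW m) (curveEq (lin F G)) (curvePt (jc k (c s 0)) (jc k (c s 1)) (jc k (a s))) -
      cls (curveW m) (curveEq (lin F G)) (curvePt (jc k (c s 0)) (jc k (c s 1))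
        (-(jc k (a s))))) := by
  have hl : ∀ s, ∃ l : AlgebraicClosure k, l ≠ 0 ∧
      (l * c s 1 = 1 ∨ (l * c s 0 = 1 ∧ l * c s 1 = 0)) := by
    intro s
    by_cases h1 : c s 1 = 0
    · have h0 : c s 0 ≠ 0 := by
        intro h0
        apply hc s
        funext i
        revert i
        rw [Fin.forall_fin_two]
        exact ⟨h0, h1⟩
      exact ⟨(c s 0)⁻¹, inv_ne_zero h0, Or.inr ⟨inv_mul_cancel₀ h0, by rw [h1, mul_zero]⟩⟩
    · exact ⟨(c s 1)⁻¹, inv_ne_zero h1, Or.inl (inv_mul_cancel₀ h1)⟩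
  choose l hl0 hl using hl
  have hmain := lower_norm hk m hm F G hF hG hG0 hsq hPsi hNS T (fun s i => l s * c s i)
    (fun s => l s ^ m * a s) hl
    (fun s => by rw [aeval_smul hG, hcG, mul_zero])
    (fun s => by rw [aeval_smul hF, hcF, mul_pow, ← pow_mul, mul_comm 2 m])
    (fun s => mul_ne_zero (pow_ne_zero _ (hl0 s)) (ha s))
    (fun s τ h => by
      have h1 : ∀ i, τ (c s i) = (l s / τ (l s)) * c s i := by
        intro i
        have h2 := h i
        rw [map_mul] at h2
        have h3 : τ (l s) ≠ 0 := by simpa using hl0 s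
        rw [div_mul_eq_mul_div, eq_div_iff h3, mul_comm, h2]
      have h3 : τ (l s) ≠ 0 := by simpa using hl0 s
      have h4 := hsplit s τ _ (div_ne_zero (hl0 s) h3) h1
      rw [map_mul, map_pow, h4, div_pow, ← mul_assoc, mul_div_cancel₀ _ (pow_ne_zero m h3)])
    (fun s s' hss τ h => by
      have h3 : τ (l s) ≠ 0 := by simpa using hl0 s
      refine hnon s s' hss τ (l s' / τ (l s)) (div_ne_zero (hl0 s') h3) fun i => ?_
      have h2 := h i
      rw [map_mul] at h2
      rw [div_mul_eq_mul_div, eq_div_iff h3, mul_comm, h2])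
  convert hmain using 2 with s
  have hj0 : jc k (l s) ≠ 0 := by simpa using hl0 s
  have key : ∀ b : AlgebraicClosure k, b ^ 2 = a s ^ 2 →
      cls (curveW m) (curveEq (lin F G)) (curvePt (jc k (c s 0)) (jc k (c s 1)) (jc k b)) =
      cls (curveW m) (curveEq (lin F G)) (curvePt (jc k (l s * c s 0)) (jc k (l s * c s 1))
        (jc k (l s ^ m * b))) := by
    intro b hb
    have h1 : IsPoint (curveW m) (curveEq (lin F G))
        (curvePt (jc k (c s 0)) (jc k (c s 1)) (jc k b)) := by
      refine isPoint_jc hF hG ?_ (by rw [hcF, hb]) (hcG s)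
      by_contra hcon
      push Not at hcon
      apply hc s
      funext i
      revert i
      rw [Fin.forall_fin_two]
      exact hcon
    rw [← cls_scale (fun _ => jc k (l s)) (fun _ => hj0) _ h1, scale_curve, map_mul, map_mul,
      map_mul, map_pow]
  rw [key (a s) rfl]
  congr 1
  have h2 := key (-(a s)) (by rw [neg_sq])
  rw [map_neg] at h2
  rw [h2, mul_neg, map_neg]

end final

end Pool.Agent.Helper40.BBLower
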