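import Mathlib
import Pool.Agent.Helper26.Maz.Defs

/-!
# MAZ-CONV: holonomies and homomorphisms of the fundamental group
-/

set_option autoImplicit false

namespace Pool.Agent.Helper26.Maz

open CategoryTheory

namespace Conv

variable {X : Type*} [TopologicalSpace X] {Γ : Type*} [Group Γ] {D : Set X}

/-- A path staying in a set as a path of the set. -/
def cod {x y : X} (γ : Path x y) (h : ∀ t, γ t ∈ D) :
    Path (⟨x, by simpa using h 0⟩ : D) ⟨y, by simpa using h 1⟩ where
  toFun t := ⟨γ t, h t⟩
  continuous_toFun := γ.continuous.subtype_mk _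
  source' := by ext; simp
  target' := by ext; simp

theorem cod_trans {x y z : X} (γ : Path x y) (δ : Path y z) (h1 : ∀ t, γ t ∈ D)
    (h2 : ∀ t, δ t ∈ D) (h : ∀ t, (γ.trans δ) t ∈ D) :
    cod (γ.trans δ) h = (cod γ h1).trans (cod δ h2) := by
  ext t
  simp only [cod, Path.trans_apply, Path.coe_mk_mk]
  split_ifs <;> rfl

theorem cod_homot {x y : X} (γ γ' : Path x y) (F : Path.Homotopy γ γ') (hF : ∀ p, F p ∈ D)
    (h : ∀ t, γ t ∈ D) (h' : ∀ t, γ' t ∈ D) :
    (cod γ h).Homotopic (cod γ' h') := by
  refine ⟨⟨⟨⟨fun p => ⟨F p, hF p⟩, F.continuous.subtype_mk _⟩, ?_, ?_⟩, ?_⟩⟩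
  · intro t
    ext
    simp [cod]
  · intro t
    ext
    simp [cod]
  · intro t x hx
    ext
    rcases hx with rfl | rfl
    · simp [cod]
    · simp [cod]

/-- The class of a path. -/
def cls {a b : D} (γ : Path a b) : FundamentalGroupoid.mk a ⟶ FundamentalGroupoid.mk b :=
  Path.Homotopic.Quotient.mk γ

theorem cls_trans {a b c : D} (γ : Path a b) (δ : Path b c) :
    cls (γ.trans δ) = cls γ ≫ cls δ := rfl

theorem range_mem {x y : D} (γ : Path x y) (t : unitInterval) :
    (γ.map continuous_subtype_val) t ∈ D := by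
  simp

end Conv

open Conv

variable {X : Type*} [TopologicalSpace X] {Γ : Type*} [Group Γ]

theorem pi1_triv_of_hol {D : Set X} (hpc : IsPathConnected D) (y : D)
    (h : ∀ H : HolOn D Γ, H.Triv) (θ : FundamentalGroup D y →* Γ) : θ = 1 := by
  classical
  have hps : PathConnectedSpace D := isPathConnected_iff_pathConnectedSpace.1 hpc
  let P : ∀ x : D, FundamentalGroupoid.mk y ⟶ FundamentalGroupoid.mk x := fun x =>
    cls (PathConnectedSpace.somePath y x)
  let a : ∀ {u v : D}, (FundamentalGroupoid.mk u ⟶ FundamentalGroupoid.mk v) →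
      FundamentalGroup D y := fun {u v} g => (P u ≫ g ≫ Groupoid.inv (P v) : _)
  have ha : ∀ {u v w : D} (g : FundamentalGroupoid.mk u ⟶ FundamentalGroupoid.mk v)
      (g' : FundamentalGroupoid.mk v ⟶ FundamentalGroupoid.mk w), a (g ≫ g') = a g' * a g := by
    intro u v w g g'
    change P u ≫ (g ≫ g') ≫ Groupoid.inv (P w) =
      (P u ≫ g ≫ Groupoid.inv (P v)) ≫ (P v ≫ g' ≫ Groupoid.inv (P w))
    simp
  let H : HolOn D Γ :=
    { hol := fun {u v} γ => if hγ : ∀ t, γ t ∈ D then (θ (a (cls (cod γ hγ))))⁻¹ else 1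
      trans := by
        intro u v w γ δ h1 h2
        have h12 : ∀ t, (γ.trans δ) t ∈ D := by
          intro t
          rw [Path.trans_apply]
          split_ifs
          · exact h1 _
          · exact h2 _
        simp only [h1, h2, h12, implies_true, dite_true]
        rw [cod_trans γ δ h1 h2 h12, cls_trans, ha, map_mul, mul_inv_rev]
      homot := by
        intro u v γ γ' F hF
        have h1 : ∀ t, γ t ∈ D := by
          intro t
          have := hF (0, t)
          simpa using this
        have h2 : ∀ t, γ' t ∈ D := by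
          intro t
          have := hF (1, t)
          simpa using this
        simp only [h1, h2, implies_true, dite_true]
        have : cls (cod γ h1) = cls (cod γ' h2) :=
          Path.Homotopic.Quotient.eq.2 (cod_homot γ γ' F hF h1 h2)
        rw [this] }
  obtain ⟨p, hp⟩ := h H
  ext g
  -- every element of the group comes from a loop
  obtain ⟨ℓ, hℓ⟩ : ∃ ℓ : Path y y, g = cls ℓ := by
    obtain ⟨ℓ, hℓ⟩ := Path.Homotopic.Quotient.mk_surjective (FundamentalGroup.toPath g)
    exact ⟨ℓ, hℓ.symm⟩
  have hmem : ∀ t, (ℓ.map continuous_subtype_val) t ∈ D := range_mem ℓ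
  have h1 := hp (ℓ.map continuous_subtype_val) hmem
  rw [inv_mul_cancel] at h1
  have h2 : H.hol (ℓ.map continuous_subtype_val) =
      (θ (a (cls (cod (ℓ.map continuous_subtype_val) hmem))))⁻¹ := dif_pos hmem
  have h3 : cod (ℓ.map continuous_subtype_val) hmem = ℓ := by
    ext t
    simp [cod]
  rw [h2, h3, inv_eq_one] at h1
  let c : FundamentalGroup D y := cls (PathConnectedSpace.somePath y y)
  have h4 : a (cls ℓ) = c⁻¹ * g * c := by
    rw [hℓ]
    change (c : _) ≫ ((cls ℓ) ≫ Groupoid.inv c) = (c : _) ≫ ((cls ℓ) ≫ Groupoid.inv c)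
    rfl
  rw [h4, map_mul, map_mul, map_inv] at h1
  rw [MonoidHom.one_apply]
  have h5 := congrArg (fun z => θ c * z * (θ c)⁻¹) h1
  simpa [mul_assoc] using h5

theorem exists_pi1_of_hol {D : Set X} (hpc : IsPathConnected D) (y : D)
    (H : HolOn D Γ) (hH : ¬ H.Triv) : ∃ θ : FundamentalGroup D y →* Γ, θ ≠ 1 := by
  classical
  have hps : PathConnectedSpace D := isPathConnected_iff_pathConnectedSpace.1 hpc
  -- holonomy of classes
  let L : ∀ {u v : D}, Path.Homotopic.Quotient u v → Γ := fun {u v} =>
    Quotient.lift (fun γ : Path u v => H.hol (γ.map continuous_subtype_val)) (by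
      rintro γ γ' ⟨F⟩
      exact H.homot _ _ (F.map ⟨Subtype.val, continuous_subtype_val⟩) (fun p => (F p).2))
  have hL : ∀ {u v : D} (γ : Path u v),
      L (Path.Homotopic.Quotient.mk γ) = H.hol (γ.map continuous_subtype_val) := fun γ => rfl
  have hLt : ∀ {u v w : D} (g : Path.Homotopic.Quotient u v) (g' : Path.Homotopic.Quotient v w),
      L (g.trans g') = L g * L g' := by
    intro u v w g g'
    obtain ⟨γ, rfl⟩ := Path.Homotopic.Quotient.mk_surjective g
    obtain ⟨δ, rfl⟩ := Path.Homotopic.Quotient.mk_surjective g'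
    rw [← Path.Homotopic.Quotient.mk_trans, hL, hL, hL, Path.map_trans,
      H.trans _ _ (range_mem γ) (range_mem δ)]
  have hL1 : ∀ u : D, L (Path.Homotopic.Quotient.refl u) = 1 := by
    intro u
    have h := hLt (Path.Homotopic.Quotient.refl u) (Path.Homotopic.Quotient.refl u)
    rw [Path.Homotopic.Quotient.refl_trans] at h
    exact left_eq_mul.1 h
  let θ : FundamentalGroup D y →* Γ :=
    { toFun := fun g => (L (FundamentalGroup.toPath g))⁻¹
      map_one' := by
        rw [inv_eq_one]
        exact hL1 y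
      map_mul' := by
        intro g g'
        rw [← mul_inv_rev]
        congr 1
        exact hLt _ _ }
  refine ⟨θ, fun hθ => hH ?_⟩
  have hloop : ∀ g : Path.Homotopic.Quotient y y, L g = 1 := by
    intro g
    have h := DFunLike.congr_fun hθ (FundamentalGroup.fromPath g)
    rw [MonoidHom.one_apply] at h
    exact inv_eq_one.1 h
  refine ⟨fun x => if hx : x ∈ D then
    L (Path.Homotopic.Quotient.mk (PathConnectedSpace.somePath y ⟨x, hx⟩)) else 1, ?_⟩
  intro u v γ hγ
  have hu : u ∈ D := by simpa using hγ 0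
  have hv : v ∈ D := by simpa using hγ 1
  simp only [hu, hv, dite_true]
  have h1 : H.hol γ = L (Path.Homotopic.Quotient.mk (cod γ hγ)) := by
    rw [hL]
    congr 1
  have h2 := hloop ((((Path.Homotopic.Quotient.mk (PathConnectedSpace.somePath y ⟨u, hu⟩)).trans
    (Path.Homotopic.Quotient.mk (cod γ hγ)))).trans
    (Path.Homotopic.Quotient.mk (PathConnectedSpace.somePath y ⟨v, hv⟩)).symm)
  have h3 : L (Path.Homotopic.Quotient.mk (PathConnectedSpace.somePath y ⟨v, hv⟩)).symm =
      (L (Path.Homotopic.Quotient.mk (PathConnectedSpace.somePath y ⟨v, hv⟩)))⁻¹ := by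
    rw [eq_comm, inv_eq_iff_mul_eq_one, ← hLt, Path.Homotopic.Quotient.trans_symm, hL1]
  rw [hLt, hLt, h3, mul_inv_eq_one] at h2
  rw [h1, ← h2]
  group

end Pool.Agent.Helper26.Maz
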