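import Mathlib
import Pool.Agent.Helper28.JM.Defs

/-!
# Join-meet algebras (MP_c39200_al): intervals and private monomials
-/

set_option autoImplicit false

namespace Pool.Agent.Helper40.JM

open MvPolynomial Pool.Agent.Helper28.JM

/-- Membership in the rectangles of a sub-interval. -/
theorem mn_mono {Λ Λ' : Set Pt} (h : Λ' ⊆ Λ) : Mn Λ' ⊆ Mn Λ := by
  rintro R ⟨h1, h2, h3, h4⟩
  exact ⟨h1, h2, h h3, h h4⟩

/-- The retraction on the rectangle variables. -/
noncomputable def retY (K : Type*) [Field K] (S : Set (Pt × Pt)) :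
    MvPolynomial (Pt × Pt) K →ₐ[K] MvPolynomial (Pt × Pt) K :=
  open Classical in aeval fun R => if R ∈ S then X R else 0

/-- The retraction on the point variables. -/
noncomputable def retX (K : Type*) [Field K] (S : Set Pt) :
    MvPolynomial Pt K →ₐ[K] MvPolynomial Pt K :=
  open Classical in aeval fun w => if w ∈ S then X w else 0

theorem retY_of_mem (K : Type*) [Field K] (S : Set (Pt × Pt)) (p : MvPolynomial (Pt × Pt) K)
    (hp : p ∈ supported K S) : retY K S p = p := by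
  classical
  have h : ∀ p ∈ supported K S, retY K S p = p := by
    intro p hp
    rw [supported_eq_adjoin_X] at hp
    induction hp using Algebra.adjoin_induction with
    | mem x hx =>
      obtain ⟨R, hR, rfl⟩ := hx
      simp [retY, hR]
    | algebraMap r => simp [retY]
    | add x y _ _ hx hy => rw [map_add, hx, hy]
    | mul x y _ _ hx hy => rw [map_mul, hx, hy]
  exact h p hp

theorem retY_mem (K : Type*) [Field K] (S : Set (Pt × Pt)) (p : MvPolynomial (Pt × Pt) K) :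
    retY K S p ∈ supported K S := by
  classical
  induction p using MvPolynomial.induction_on with
  | C a => simp only [retY, algHom_C]; exact (supported K S).algebraMap_mem a
  | add p q hp hq => rw [map_add]; exact add_mem hp hq
  | mul_X p R hp =>
    rw [map_mul]
    refine mul_mem hp ?_
    simp only [retY, aeval_X]
    split_ifs with h
    · exact X_mem_supported.2 h
    · exact zero_mem _

theorem retY_hom (K : Type*) [Field K] (S : Set (Pt × Pt)) (p : MvPolynomial (Pt × Pt) K) (n : ℕ)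
    (hp : p.IsHomogeneous n) : (retY K S p).IsHomogeneous n := by
  classical
  have h := hp.aeval (fun R : Pt × Pt => if R ∈ S then (X R : MvPolynomial (Pt × Pt) K) else 0)
    (n := 1) (by
      intro R
      split_ifs
      · exact isHomogeneous_X K R
      · exact isHomogeneous_zero _ _ _)
  simpa [retY] using h

theorem phi_retY (K : Type*) [Field K] (Λ : Set Pt) (u v : Pt) (p : MvPolynomial (Pt × Pt) K)
    (hp : p ∈ supported K (Mn Λ)) :
    phi K (retY K (Mn (Λ ∩ Set.Icc u v)) p) = retX K (Set.Icc u v) (phi K p) := by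
  classical
  rw [supported_eq_adjoin_X] at hp
  induction hp using Algebra.adjoin_induction with
  | mem x hx =>
    obtain ⟨R, hR, rfl⟩ := hx
    obtain ⟨⟨a, b⟩, ⟨c, d⟩⟩ := R
    obtain ⟨h1, h2, h3, h4⟩ := hR
    simp only at h1 h2 h3 h4
    by_cases hm : ((a, b), (c, d)) ∈ Mn (Λ ∩ Set.Icc u v)
    · have hm' := hm
      obtain ⟨-, -, ⟨-, h5⟩, ⟨-, h6⟩⟩ := hm
      simp only [Set.mem_Icc, Prod.le_def] at h5 h6
      have h7 : ((a, b) : Pt) ∈ Set.Icc u v := by
        simp only [Set.mem_Icc, Prod.le_def]; omega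
      have h8 : ((c, d) : Pt) ∈ Set.Icc u v := by
        simp only [Set.mem_Icc, Prod.le_def]; omega
      have h9 : ((a, d) : Pt) ∈ Set.Icc u v := by
        simp only [Set.mem_Icc, Prod.le_def]; omega
      have h10 : ((c, b) : Pt) ∈ Set.Icc u v := by
        simp only [Set.mem_Icc, Prod.le_def]; omega
      simp only [retY, retX, phi, aeval_X, if_pos hm', fR, map_sub, map_mul, if_pos h7, if_pos h8,
        if_pos h9, if_pos h10]
    · have h5 : (((a, d) : Pt) ∉ Set.Icc u v) ∨ (((c, b) : Pt) ∉ Set.Icc u v) := by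
        by_contra hcon
        push Not at hcon
        exact hm ⟨h1, h2, ⟨h3, hcon.1⟩, ⟨h4, hcon.2⟩⟩
      have h6 : (((a, b) : Pt) ∉ Set.Icc u v) ∨ (((c, d) : Pt) ∉ Set.Icc u v) := by
        by_contra hcon
        push Not at hcon
        simp only [Set.mem_Icc, Prod.le_def] at hcon h5
        omega
      simp only [retY, retX, phi, aeval_X, if_neg hm, fR, map_sub, map_mul, map_zero]
      rcases h5 with h5 | h5 <;> rcases h6 with h6 | h6 <;>
        simp only [if_neg h5, if_neg h6, zero_mul, mul_zero, sub_zero]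
  | algebraMap r => simp [retY, retX, phi]
  | add x y _ _ hx hy => simp only [map_add, hx, hy]
  | mul x y _ _ hx hy => simp only [map_mul, hx, hy]

/-- Generation by quadrics passes to intervals. -/
theorem QG_restrict (K : Type*) [Field K] (Λ : Set Pt) (u v : Pt) (h : QG K Λ) :
    QG K (Λ ∩ Set.Icc u v) := by
  intro p hp hphi
  have hsub : Mn (Λ ∩ Set.Icc u v) ⊆ Mn Λ := mn_mono Set.inter_subset_left
  have h1 : p ∈ quadI K Λ := h p (supported_mono hsub hp) hphi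
  have h2 : retY K (Mn (Λ ∩ Set.Icc u v)) p ∈
      (quadI K Λ).map (retY K (Mn (Λ ∩ Set.Icc u v))) :=
    Ideal.mem_map_of_mem _ h1
  rw [retY_of_mem K _ p hp] at h2
  have h3 : (quadI K Λ).map (retY K (Mn (Λ ∩ Set.Icc u v))) ≤ quadI K (Λ ∩ Set.Icc u v) := by
    rw [quadI, Ideal.map_span, Ideal.span_le]
    rintro _ ⟨q, ⟨hq1, hq2, hq3⟩, rfl⟩
    refine Ideal.subset_span ⟨retY_mem K _ q, ?_, retY_hom K _ q 2 hq3⟩
    have h4 := phi_retY K Λ u v q hq1
    rw [hq2, map_zero] at h4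
    exact h4
  exact h3 h2

/-! ### Private monomials -/

/-- The diagonals of a rectangle: incomparable (`true`) or comparable (`false`). -/
noncomputable def dg (b : Bool) (R : Pt × Pt) : Pt →₀ ℕ :=
  bif b then Finsupp.single (R.1.1, R.2.2) 1 + Finsupp.single (R.2.1, R.1.2) 1
  else Finsupp.single R.1 1 + Finsupp.single R.2 1

/-- The sign of a diagonal. -/
def sg (K : Type*) [Field K] (b : Bool) : K := bif b then 1 else -1

theorem fR_eq (K : Type*) [Field K] (R : Pt × Pt) :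
    fR K R = monomial (dg true R) (sg K true) + monomial (dg false R) (sg K false) := by
  simp only [fR, dg, sg, cond_true, cond_false, X, monomial_mul, one_mul, map_neg, sub_eq_add_neg]

theorem step4 (a e f g h : Pt) (Y : Pt →₀ ℕ)
    (H : Finsupp.single a 1 + Y = Finsupp.single e 1 + (Finsupp.single f 1 +
      (Finsupp.single g 1 + Finsupp.single h 1))) :
    (a = e ∧ Y = Finsupp.single f 1 + (Finsupp.single g 1 + Finsupp.single h 1)) ∨
    (a = f ∧ Y = Finsupp.single e 1 + (Finsupp.single g 1 + Finsupp.single h 1)) ∨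
    (a = g ∧ Y = Finsupp.single e 1 + (Finsupp.single f 1 + Finsupp.single h 1)) ∨
    (a = h ∧ Y = Finsupp.single e 1 + (Finsupp.single f 1 + Finsupp.single g 1)) := by
  classical
  have hmem : a = e ∨ a = f ∨ a = g ∨ a = h := by
    by_contra hcon
    push Not at hcon
    obtain ⟨h1, h2, h3, h4⟩ := hcon
    have h5 := DFunLike.congr_fun H a
    simp [h1.symm, h2.symm, h3.symm, h4.symm] at h5
  rcases hmem with rfl | rfl | rfl | rfl
  · exact Or.inl ⟨rfl, add_left_cancel H⟩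
  · refine Or.inr (Or.inl ⟨rfl, add_left_cancel (H.trans ?_)⟩)
    abel
  · refine Or.inr (Or.inr (Or.inl ⟨rfl, add_left_cancel (H.trans ?_)⟩))
    abel
  · refine Or.inr (Or.inr (Or.inr ⟨rfl, add_left_cancel (H.trans ?_)⟩))
    abel

theorem step3 (a e f g : Pt) (Y : Pt →₀ ℕ)
    (H : Finsupp.single a 1 + Y = Finsupp.single e 1 + (Finsupp.single f 1 +
      Finsupp.single g 1)) :
    (a = e ∧ Y = Finsupp.single f 1 + Finsupp.single g 1) ∨
    (a = f ∧ Y = Finsupp.single e 1 + Finsupp.single g 1) ∨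
    (a = g ∧ Y = Finsupp.single e 1 + Finsupp.single f 1) := by
  classical
  have hmem : a = e ∨ a = f ∨ a = g := by
    by_contra hcon
    push Not at hcon
    obtain ⟨h1, h2, h3⟩ := hcon
    have h5 := DFunLike.congr_fun H a
    simp [h1.symm, h2.symm, h3.symm] at h5
  rcases hmem with rfl | rfl | rfl
  · exact Or.inl ⟨rfl, add_left_cancel H⟩
  · refine Or.inr (Or.inl ⟨rfl, add_left_cancel (H.trans ?_)⟩)
    abel
  · refine Or.inr (Or.inr ⟨rfl, add_left_cancel (H.trans ?_)⟩)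
    abel

theorem step2 (a b e f : Pt)
    (H : (Finsupp.single a 1 + Finsupp.single b 1 : Pt →₀ ℕ) =
      Finsupp.single e 1 + Finsupp.single f 1) :
    (a = e ∧ b = f) ∨ (a = f ∧ b = e) := by
  classical
  have hmem : a = e ∨ a = f := by
    by_contra hcon
    push Not at hcon
    obtain ⟨h1, h2⟩ := hcon
    have h5 := DFunLike.congr_fun H a
    simp [Finsupp.single_apply, h1.symm, h2.symm] at h5
  rcases hmem with rfl | rfl
  · exact Or.inl ⟨rfl, Finsupp.single_left_injective one_ne_zero (add_left_cancel H)⟩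
  · refine Or.inr ⟨rfl, ?_⟩
    have h6 : (Finsupp.single b 1 : Pt →₀ ℕ) = Finsupp.single e 1 := by
      refine add_left_cancel (H.trans ?_)
      abel
    exact Finsupp.single_left_injective one_ne_zero h6

/-- The arithmetic content of being a rectangle of the region. -/
def Good (x y : ℤ) (R : Pt × Pt) : Prop :=
  R.1.1 < R.2.1 ∧ R.1.2 < R.2.2 ∧ x ≤ R.1.1 ∧ y ≤ R.1.2 ∧ (R.1.1 = x → R.2.2 ≤ y + 2) ∧
    (R.1.2 = y → R.2.1 ≤ x + 2)

/-- The big rectangle of the bottom block. -/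
def R0 (x y : ℤ) : Pt × Pt := ((x, y), (x + 2, y + 2))


theorem perm4 (a b c d e f g h : Pt)
    (H : (Finsupp.single a 1 + Finsupp.single b 1 + (Finsupp.single c 1 + Finsupp.single d 1) :
      Pt →₀ ℕ) = Finsupp.single e 1 + Finsupp.single f 1 +
      (Finsupp.single g 1 + Finsupp.single h 1)) :
    ((a = e ∧ b = f) ∧ (c = g ∧ d = h)) ∨ ((a = e ∧ b = f) ∧ (c = h ∧ d = g)) ∨
    ((a = e ∧ b = g) ∧ (c = f ∧ d = h)) ∨ ((a = e ∧ b = g) ∧ (c = h ∧ d = f)) ∨
    ((a = e ∧ b = h) ∧ (c = f ∧ d = g)) ∨ ((a = e ∧ b = h) ∧ (c = g ∧ d = f)) ∨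
    ((a = f ∧ b = e) ∧ (c = g ∧ d = h)) ∨ ((a = f ∧ b = e) ∧ (c = h ∧ d = g)) ∨
    ((a = f ∧ b = g) ∧ (c = e ∧ d = h)) ∨ ((a = f ∧ b = g) ∧ (c = h ∧ d = e)) ∨
    ((a = f ∧ b = h) ∧ (c = e ∧ d = g)) ∨ ((a = f ∧ b = h) ∧ (c = g ∧ d = e)) ∨
    ((a = g ∧ b = e) ∧ (c = f ∧ d = h)) ∨ ((a = g ∧ b = e) ∧ (c = h ∧ d = f)) ∨
    ((a = g ∧ b = f) ∧ (c = e ∧ d = h)) ∨ ((a = g ∧ b = f) ∧ (c = h ∧ d = e)) ∨
    ((a = g ∧ b = h) ∧ (c = e ∧ d = f)) ∨ ((a = g ∧ b = h) ∧ (c = f ∧ d = e)) ∨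
    ((a = h ∧ b = e) ∧ (c = f ∧ d = g)) ∨ ((a = h ∧ b = e) ∧ (c = g ∧ d = f)) ∨
    ((a = h ∧ b = f) ∧ (c = e ∧ d = g)) ∨ ((a = h ∧ b = f) ∧ (c = g ∧ d = e)) ∨
    ((a = h ∧ b = g) ∧ (c = e ∧ d = f)) ∨ ((a = h ∧ b = g) ∧ (c = f ∧ d = e)) := by
  rw [add_assoc, add_assoc (Finsupp.single e 1)] at H
  rcases step4 a e f g h _ H with ⟨h1, h2⟩ | ⟨h1, h2⟩ | ⟨h1, h2⟩ | ⟨h1, h2⟩ <;>
  rcases step3 b _ _ _ _ h2 with ⟨h3, h4⟩ | ⟨h3, h4⟩ | ⟨h3, h4⟩ <;>
  rcases step2 c d _ _ h4 with ⟨h5, h6⟩ | ⟨h5, h6⟩ <;>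
  simp only [h1, h3, h5, h6, true_and, and_true, and_self, true_or, or_true]

theorem dg_true (a b c d : ℤ) : dg true ((a, b), (c, d)) =
    Finsupp.single (a, d) 1 + Finsupp.single (c, b) 1 := rfl

theorem dg_false (a b c d : ℤ) : dg false ((a, b), (c, d)) =
    Finsupp.single (a, b) 1 + Finsupp.single (c, d) 1 := rfl

/-- The choice of the private monomial. -/
theorem uniq (x y : ℤ) (m : Pt × Pt) (hm : Good x y m) : ∃ b0 b1 : Bool, (m = R0 x y → b0 = b1) ∧
    ∀ (R R' : Pt × Pt) (b b' : Bool), Good x y R → Good x y R' →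
      dg b R + dg b' R' = dg b0 (R0 x y) + dg b1 m →
      (b = b0 ∧ b' = b1 ∧ R = R0 x y ∧ R' = m) ∨ (b = b1 ∧ b' = b0 ∧ R = m ∧ R' = R0 x y) := by
  obtain ⟨⟨a, b⟩, ⟨c, d⟩⟩ := m
  obtain ⟨h1, h2, h3, h4, h5, h6⟩ := hm
  simp only at h1 h2 h3 h4 h5 h6
  by_cases hD : (a = x + 1 ∧ b = y + 1) ∨ (c = x + 1 ∧ d = y + 1) ∨ (a = x + 1 ∧ b = y + 2) ∨
    (c = x + 1 ∧ d = y + 2) ∨ (a = x + 2 ∧ b = y + 1) ∨ (c = x + 2 ∧ d = y + 1)
  · by_cases hA : (a = x + 1 ∧ d = y + 1) ∨ (c = x + 1 ∧ b = y + 1) ∨ (a = x + 1 ∧ d = y + 2) ∨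
      (c = x + 1 ∧ b = y + 2) ∨ (a = x + 2 ∧ d = y + 1) ∨ (c = x + 2 ∧ b = y + 1)
    · refine ⟨true, false, ?_, ?_⟩
      · intro h
        simp only [R0, Prod.mk.injEq] at h
        omega
      · rintro ⟨⟨a1, b1⟩, ⟨c1, d1⟩⟩ ⟨⟨a2, b2⟩, ⟨c2, d2⟩⟩ β β' ⟨g1, g2, g3, g4, g5, g6⟩
          ⟨k1, k2, k3, k4, k5, k6⟩ H
        simp only at g1 g2 g3 g4 g5 g6 k1 k2 k3 k4 k5 k6
        cases β <;> cases β' <;> simp only [dg_true, dg_false, R0] at H <;>
          simp only [R0, Prod.mk.injEq, true_and, false_and, false_or, or_false,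
            reduceCtorEq] <;>
          (have H2 := perm4 _ _ _ _ _ _ _ _ H; simp only [Prod.mk.injEq] at H2; clear H; omega)
    · refine ⟨false, true, ?_, ?_⟩
      · intro h
        simp only [R0, Prod.mk.injEq] at h
        omega
      · rintro ⟨⟨a1, b1⟩, ⟨c1, d1⟩⟩ ⟨⟨a2, b2⟩, ⟨c2, d2⟩⟩ β β' ⟨g1, g2, g3, g4, g5, g6⟩
          ⟨k1, k2, k3, k4, k5, k6⟩ H
        simp only at g1 g2 g3 g4 g5 g6 k1 k2 k3 k4 k5 k6
        cases β <;> cases β' <;> simp only [dg_true, dg_false, R0] at H <;>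
          simp only [R0, Prod.mk.injEq, true_and, false_and, false_or, or_false, Bool.false_eq_true,
            reduceCtorEq] <;>
          (have H2 := perm4 _ _ _ _ _ _ _ _ H; simp only [Prod.mk.injEq] at H2; clear H; omega)
  · refine ⟨false, false, fun _ => rfl, ?_⟩
    rintro ⟨⟨a1, b1⟩, ⟨c1, d1⟩⟩ ⟨⟨a2, b2⟩, ⟨c2, d2⟩⟩ β β' ⟨g1, g2, g3, g4, g5, g6⟩
      ⟨k1, k2, k3, k4, k5, k6⟩ H
    simp only at g1 g2 g3 g4 g5 g6 k1 k2 k3 k4 k5 k6
    cases β <;> cases β' <;> simp only [dg_true, dg_false, R0] at H <;>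
      simp only [R0, Prod.mk.injEq, true_and, false_and, or_false, reduceCtorEq] <;>
      (have H2 := perm4 _ _ _ _ _ _ _ _ H; simp only [Prod.mk.injEq] at H2; clear H; omega)

theorem fR_mul (K : Type*) [Field K] (R R' : Pt × Pt) :
    fR K R * fR K R' = ∑ p : Bool × Bool,
      monomial (dg p.1 R + dg p.2 R') (sg K p.1 * sg K p.2) := by
  rw [fR_eq, fR_eq, add_mul, mul_add, mul_add, Fintype.sum_prod_type]
  simp only [monomial_mul, Fintype.sum_bool]

theorem sg_ne (K : Type*) [Field K] (b : Bool) : sg K b ≠ 0 := by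
  cases b <;> simp [sg]

theorem good_of_mem {Λ : Set Pt} {bot top : Pt} (hR : Reg Λ bot top)
    (h1 : Blk Λ bot) (h2 : (bot.1, bot.2 + 3) ∉ Λ) (h3 : (bot.1 + 3, bot.2) ∉ Λ)
    {R : Pt × Pt} (hm : R ∈ Mn Λ) : Good bot.1 bot.2 R := by
  obtain ⟨⟨a, b⟩, ⟨c, d⟩⟩ := R
  obtain ⟨x, y⟩ := bot
  obtain ⟨m1, m2, m3, m4⟩ := hm
  simp only at m1 m2 m3 m4 h2 h3
  have l1 := hR.bot_le _ m3
  have l2 := hR.bot_le _ m4
  simp only [Prod.mk_le_mk] at l1 l2
  refine ⟨m1, m2, l1.1, l2.2, ?_, ?_⟩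
  · intro e
    simp only at e ⊢
    subst e
    by_contra hcon
    exact h2 (hR.rect a (a + 2) y d a (y + 3) m3 h1.2 le_rfl (by omega) (by omega) (by omega))
  · intro e
    simp only at e ⊢
    subst e
    by_contra hcon
    exact h3 (hR.rect x c b (b + 2) (x + 3) b h1.1 m4 (by omega) (by omega) le_rfl (by omega))

theorem exists_pair {t : (Pt × Pt) →₀ ℕ} (ht : t.degree = 2) :
    ∃ R R' : Pt × Pt, t = Finsupp.single R 1 + Finsupp.single R' 1 := by
  have h0 : t ≠ 0 := by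
    rintro rfl
    simp at ht
  obtain ⟨R, hR⟩ := Finsupp.ne_iff.1 h0
  have hR' : Finsupp.single R 1 ≤ t := by
    rw [Finsupp.single_le_iff]
    simp only [Finsupp.coe_zero, Pi.zero_apply, ne_eq] at hR
    omega
  obtain ⟨t', rfl⟩ := exists_add_of_le hR'
  have h1 : t'.degree = 1 := by
    rw [map_add, Finsupp.degree_single] at ht
    omega
  have h2 : t' ≠ 0 := by
    rintro rfl
    simp at h1
  obtain ⟨R', hR2⟩ := Finsupp.ne_iff.1 h2
  have hR3 : Finsupp.single R' 1 ≤ t' := by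
    rw [Finsupp.single_le_iff]
    simp only [Finsupp.coe_zero, Pi.zero_apply, ne_eq] at hR2
    omega
  obtain ⟨t'', rfl⟩ := exists_add_of_le hR3
  have h3 : t''.degree = 0 := by
    rw [map_add, Finsupp.degree_single] at h1
    omega
  have h4 : t'' = 0 := (Finsupp.degree_eq_zero_iff t'').1 h3
  subst h4
  exact ⟨R, R', by rw [add_zero]⟩

/-- The variable of the big rectangle of the bottom block does not occur in quadratic relations
if this block cannot be extended. -/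
theorem priv (K : Type*) [Field K] (Λ : Set Pt) (bot top : Pt) (hR : Reg Λ bot top)
    (h1 : Blk Λ bot) (h2 : (bot.1, bot.2 + 3) ∉ Λ) (h3 : (bot.1 + 3, bot.2) ∉ Λ)
    (q : MvPolynomial (Pt × Pt) K) (hq : q ∈ supported K (Mn Λ)) (hq2 : q.IsHomogeneous 2)
    (hphi : phi K q = 0) : (bot, (bot.1 + 2, bot.2 + 2)) ∉ q.vars := by
  classical
  intro hv
  have hvars : ∀ t ∈ q.support, ∀ R : Pt × Pt, t R ≠ 0 → R ∈ Mn Λ := by
    intro t ht R htR
    have h4 : (q.vars : Set (Pt × Pt)) ⊆ Mn Λ := mem_supported.1 hq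
    exact h4 (Finset.mem_coe.2 ((mem_vars_iff_mem_support R).2 ⟨t, ht, Finsupp.mem_support_iff.2 htR⟩))
  have hdeg : ∀ t ∈ q.support, t.degree = 2 := by
    intro t ht
    have h5 := hq2 (mem_support_iff.1 ht)
    rw [← h5, Finsupp.degree_eq_weight_one]
    rfl
  have hpair : ∀ t ∈ q.support, ∃ R R' : Pt × Pt, R ∈ Mn Λ ∧ R' ∈ Mn Λ ∧
      t = Finsupp.single R 1 + Finsupp.single R' 1 := by
    intro t ht
    obtain ⟨R, R', rfl⟩ := exists_pair (hdeg t ht)
    refine ⟨R, R', hvars _ ht R ?_, hvars _ ht R' ?_, rfl⟩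
    · simp
    · simp
  set r0 : Pt × Pt := R0 bot.1 bot.2 with hr0
  have hr0' : (bot, (bot.1 + 2, bot.2 + 2)) = r0 := rfl
  rw [hr0'] at hv
  obtain ⟨s, hs, hsr⟩ := (mem_vars_iff_mem_support r0).1 hv
  obtain ⟨m, hm, hsm⟩ : ∃ m : Pt × Pt, m ∈ Mn Λ ∧ s = Finsupp.single r0 1 + Finsupp.single m 1 := by
    obtain ⟨R, R', hRm, hRm', rfl⟩ := hpair s hs
    have h6 : R = r0 ∨ R' = r0 := by
      by_contra hcon
      push Not at hcon
      rw [Finsupp.mem_support_iff] at hsr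
      apply hsr
      simp [hcon.1, hcon.2]
    rcases h6 with rfl | rfl
    · exact ⟨R', hRm', rfl⟩
    · exact ⟨R, hRm, add_comm _ _⟩
  have hgm := good_of_mem hR h1 h2 h3 hm
  obtain ⟨b0, b1, hb, huniq⟩ := uniq bot.1 bot.2 m hgm
  set mu : Pt →₀ ℕ := dg b0 r0 + dg b1 m with hmu
  have hcoeff : coeff mu (phi K q) = ∑ t ∈ q.support, coeff t q *
      coeff mu (t.prod fun R k => fR K R ^ k) := by
    rw [phi, aeval_def, eval₂_eq, coeff_sum]
    refine Finset.sum_congr rfl fun t _ => ?_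
    rw [algebraMap_eq, coeff_C_mul]
    rfl
  have hprod : ∀ R R' : Pt × Pt, ((Finsupp.single R 1 + Finsupp.single R' 1 :
      (Pt × Pt) →₀ ℕ).prod fun R k => fR K R ^ k) = fR K R * fR K R' := by
    intro R R'
    rw [Finsupp.prod_add_index' (fun _ => pow_zero _) (fun _ _ _ => pow_add _ _ _)]
    have h8 : ∀ R : Pt × Pt, ((Finsupp.single R 1 : (Pt × Pt) →₀ ℕ).prod
        fun R k => fR K R ^ k) = fR K R := by
      intro R
      rw [Finsupp.prod_single_index (h := fun R k => fR K R ^ k) (pow_zero _), pow_one]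
    exact congrArg₂ (· * ·) (h8 R) (h8 R')
  have hother : ∀ t ∈ q.support, t ≠ s → coeff mu (t.prod fun R k => fR K R ^ k) = 0 := by
    intro t ht hts
    obtain ⟨R, R', hRm, hRm', rfl⟩ := hpair t ht
    rw [hprod, fR_mul, coeff_sum]
    refine Finset.sum_eq_zero fun p _ => ?_
    rw [coeff_monomial, if_neg]
    intro hcon
    rcases huniq R R' p.1 p.2 (good_of_mem hR h1 h2 h3 hRm) (good_of_mem hR h1 h2 h3 hRm') hcon
      with ⟨-, -, e1, e2⟩ | ⟨-, -, e1, e2⟩
    · apply hts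
      rw [hsm, e1, e2]
    · apply hts
      rw [hsm, e1, e2, add_comm]
  have hthis : coeff mu (s.prod fun R k => fR K R ^ k) = sg K b0 * sg K b1 := by
    rw [hsm, hprod, fR_mul, coeff_sum, Finset.sum_eq_single (b0, b1)]
    · rw [coeff_monomial, if_pos rfl]
    · rintro ⟨b, b'⟩ - hne
      rw [coeff_monomial, if_neg]
      intro hcon
      have hr0m : r0 ∈ Mn Λ := by
        refine ⟨?_, ?_, h1.1, h1.2⟩
        · simp [hr0, R0]
        · simp [hr0, R0]
      rcases huniq r0 m b b' (good_of_mem hR h1 h2 h3 hr0m) hgm hcon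
        with ⟨e1, e2, -, -⟩ | ⟨e1, e2, e3, -⟩
      · exact hne (by rw [e1, e2])
      · have h7 := hb e3.symm
        exact hne (by rw [e1, e2, h7])
    · intro hcon
      exact absurd (Finset.mem_univ _) hcon
  rw [Finset.sum_eq_single s (fun t ht hts => by rw [hother t ht hts, mul_zero])
    (fun hcon => absurd hs hcon), hthis, hphi, coeff_zero] at hcoeff
  exact mul_ne_zero (mem_support_iff.1 hs) (mul_ne_zero (sg_ne K b0) (sg_ne K b1)) hcoeff.symm

end Pool.Agent.Helper40.JM
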