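import Mathlib
import Pool.Agent.Helper28.JM.Defs
import Pool.Agent.Helper40.JMPriv
import Pool.Agent.Helper98.JMProp
import Pool.Agent.Helper79.JMRect34

/-!
# Join-meet algebras (MP_c39200_al): two blocks imply that the ideal is not generated by quadrics
-/

set_option autoImplicit false

namespace Pool.Agent.Helper40.JM

open MvPolynomial Pool.Agent.Helper28.JM

theorem ge_of_level (Λ : Set Pt) (bot top u : Pt) (hR : Reg Λ bot top) (hu : Blk Λ u)
    (h1 : (u.1, u.2 + 3) ∉ Λ) (h2 : (u.1 + 3, u.2) ∉ Λ) (n : ℕ) :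
    ∀ x ∈ Λ, x.1 + x.2 = u.1 + u.2 + 2 + n → u ≤ x := by
  obtain ⟨u1, u2⟩ := u
  simp only at h1 h2
  obtain ⟨b1, b2⟩ := hu
  simp only at b1 b2
  induction n with
  | zero =>
    rintro ⟨p, q⟩ hx hl
    simp only at hl
    push_cast at hl
    rw [Prod.mk_le_mk]
    by_contra hcon
    by_cases hp : u1 + 3 ≤ p
    · exact h2 (hR.rect u1 p q (u2 + 2) (u1 + 3) u2 b1 hx (by omega) (by omega) (by omega)
        (by omega))
    · exact h1 (hR.rect p (u1 + 2) u2 q u1 (u2 + 3) hx b2 (by omega) (by omega) (by omega)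
        (by omega))
  | succ n ih =>
    rintro ⟨p, q⟩ hx hl
    simp only at hl
    push_cast at hl
    have hbu : bot ≤ (u1, u2) :=
      hR.bot_le _ (hR.rect u1 (u1 + 2) u2 (u2 + 2) u1 u2 b1 b2 le_rfl (by omega) le_rfl (by omega))
    have hne : ((p, q) : Pt) ≠ bot := by
      rintro rfl
      rw [Prod.mk_le_mk] at hbu
      omega
    rcases hR.down (p, q) hx hne with h | h
    · have h3 := ih _ h (by simp only; omega)
      rw [Prod.mk_le_mk] at h3 ⊢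
      omega
    · have h3 := ih _ h (by simp only; omega)
      rw [Prod.mk_le_mk] at h3 ⊢
      omega

theorem ge_of_level' (Λ : Set Pt) (bot top u : Pt) (hR : Reg Λ bot top) (hu : Blk Λ u)
    (h1 : (u.1, u.2 + 3) ∉ Λ) (h2 : (u.1 + 3, u.2) ∉ Λ)
    (x : Pt) (hx : x ∈ Λ) (hl : u.1 + u.2 + 2 ≤ x.1 + x.2) : u ≤ x :=
  ge_of_level Λ bot top u hR hu h1 h2 (x.1 + x.2 - (u.1 + u.2 + 2)).toNat x hx (by omega)

theorem le_of_level (Λ : Set Pt) (bot top u : Pt) (hR : Reg Λ bot top) (hu : Blk Λ u)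
    (h1 : (u.1 - 1, u.2 + 2) ∉ Λ) (h2 : (u.1 + 2, u.2 - 1) ∉ Λ) (n : ℕ) :
    ∀ x ∈ Λ, x.1 + x.2 + n = u.1 + u.2 + 2 → x ≤ (u.1 + 2, u.2 + 2) := by
  obtain ⟨u1, u2⟩ := u
  simp only at h1 h2
  obtain ⟨b1, b2⟩ := hu
  simp only at b1 b2
  induction n with
  | zero =>
    rintro ⟨p, q⟩ hx hl
    simp only at hl
    push_cast at hl
    rw [Prod.mk_le_mk]
    by_contra hcon
    simp only at hcon
    by_cases hp : u1 + 3 ≤ p
    · exact h2 (hR.rect u1 p q (u2 + 2) (u1 + 2) (u2 - 1) b1 hx (by omega) (by omega) (by omega)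
        (by omega))
    · exact h1 (hR.rect p (u1 + 2) u2 q (u1 - 1) (u2 + 2) hx b2 (by omega) (by omega) (by omega)
        (by omega))
  | succ n ih =>
    rintro ⟨p, q⟩ hx hl
    simp only at hl
    push_cast at hl
    have hbu : ((u1 + 2, u2 + 2) : Pt) ≤ top := by
      have h3 := hR.le_top _ b1
      have h4 := hR.le_top _ b2
      obtain ⟨t1, t2⟩ := top
      rw [Prod.mk_le_mk] at h3 h4 ⊢
      omega
    have hne : ((p, q) : Pt) ≠ top := by
      rintro rfl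
      rw [Prod.mk_le_mk] at hbu
      omega
    rcases hR.up (p, q) hx hne with h | h
    · have h3 := ih _ h (by simp only; omega)
      rw [Prod.mk_le_mk] at h3 ⊢
      simp only at h3 ⊢
      omega
    · have h3 := ih _ h (by simp only; omega)
      rw [Prod.mk_le_mk] at h3 ⊢
      simp only at h3 ⊢
      omega

theorem le_of_level' (Λ : Set Pt) (bot top u : Pt) (hR : Reg Λ bot top) (hu : Blk Λ u)
    (h1 : (u.1 - 1, u.2 + 2) ∉ Λ) (h2 : (u.1 + 2, u.2 - 1) ∉ Λ)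
    (x : Pt) (hx : x ∈ Λ) (hl : x.1 + x.2 ≤ u.1 + u.2 + 2) : x ≤ (u.1 + 2, u.2 + 2) :=
  le_of_level Λ bot top u hR hu h1 h2 ((u.1 + u.2 + 2) - (x.1 + x.2)).toNat x hx (by omega)

/-- All points of a block lie in the region. -/
theorem blk_mem {Λ : Set Pt} {bot top u : Pt} (hR : Reg Λ bot top) (hu : Blk Λ u) (s t : ℤ)
    (h1 : u.1 ≤ s) (h2 : s ≤ u.1 + 2) (h3 : u.2 ≤ t) (h4 : t ≤ u.2 + 2) : (s, t) ∈ Λ :=
  hR.rect u.1 (u.1 + 2) u.2 (u.2 + 2) s t hu.1 hu.2 h1 h2 h3 h4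

/-- The region above an unextendable block. -/
theorem reg_Ici (Λ : Set Pt) (bot top u : Pt) (hR : Reg Λ bot top) (hu : Blk Λ u)
    (h1 : (u.1, u.2 + 3) ∉ Λ) (h2 : (u.1 + 3, u.2) ∉ Λ) : Reg (Λ ∩ Set.Ici u) u top := by
  have huΛ : u ∈ Λ := blk_mem hR hu u.1 u.2 le_rfl (by omega) le_rfl (by omega)
  have hge := ge_of_level' Λ bot top u hR hu h1 h2
  have hbu : bot ≤ u := hR.bot_le _ huΛ
  have hnb : ∀ x : Pt, u ≤ x → x ≠ u → x ≠ bot := by
    rintro x hx hne rfl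
    exact hne (le_antisymm hbu hx)
  refine ⟨hR.fin.subset Set.inter_subset_left, ⟨huΛ, Set.mem_Ici.2 le_rfl⟩, ⟨hR.top_mem, hR.le_top _ huΛ⟩,
    fun x hx => hx.2, fun x hx => hR.le_top x hx.1, ?_, ?_, ?_, ?_⟩
  · intro i i' j j' s t ha hb g1 g2 g3 g4
    refine ⟨hR.rect i i' j j' s t ha.1 hb.1 g1 g2 g3 g4, ?_⟩
    have h3 := ha.2
    have h4 := hb.2
    simp only [Set.mem_Ici, Prod.le_def] at h3 h4 ⊢
    omega
  · rintro ⟨p, q⟩ ⟨hx, hux⟩ hne
    have hux' : u.1 ≤ p ∧ u.2 ≤ q := hux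
    by_cases hl : u.1 + u.2 + 3 ≤ p + q
    · rcases hR.down _ hx (hnb _ hux hne) with h | h
      · exact Or.inl ⟨h, hge _ h (by simp only; omega)⟩
      · exact Or.inr ⟨h, hge _ h (by simp only; omega)⟩
    · by_cases hp : u.1 + 1 ≤ p
      · refine Or.inl ⟨blk_mem hR hu (p - 1) q (by omega) (by omega) (by omega) (by omega), ?_⟩
        simp only [Set.mem_Ici, Prod.le_def]
        omega
      · have hq : u.2 + 1 ≤ q := by
          by_contra hcon
          apply hne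
          ext
          · simp only; omega
          · simp only; omega
        refine Or.inr ⟨blk_mem hR hu p (q - 1) (by omega) (by omega) (by omega) (by omega), ?_⟩
        simp only [Set.mem_Ici, Prod.le_def]
        omega
  · rintro ⟨p, q⟩ ⟨hx, hux⟩ hne
    have hux' : u.1 ≤ p ∧ u.2 ≤ q := hux
    rcases hR.up _ hx hne with h | h
    · refine Or.inl ⟨h, ?_⟩
      simp only [Set.mem_Ici, Prod.le_def]
      omega
    · refine Or.inr ⟨h, ?_⟩
      simp only [Set.mem_Ici, Prod.le_def]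
      omega
  · rintro ⟨p, q⟩ ⟨hx, hux⟩ hne hne2
    have hux' : u.1 ≤ p ∧ u.2 ≤ q := hux
    by_cases hl : u.1 + u.2 + 2 ≤ p + q
    · rcases hR.simple _ hx (hnb _ hux hne) hne2 with h | h
      · exact Or.inl ⟨h, hge _ h (by simp only; omega)⟩
      · exact Or.inr ⟨h, hge _ h (by simp only; omega)⟩
    · have hne3 : ¬ (p = u.1 ∧ q = u.2) := by
        rintro ⟨e1, e2⟩
        apply hne
        ext
        · exact e1
        · exact e2
      by_cases hp : u.1 + 1 ≤ p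
      · refine Or.inr ⟨blk_mem hR hu (p - 1) (q + 1) (by omega) (by omega) (by omega) (by omega), ?_⟩
        simp only [Set.mem_Ici, Prod.le_def]
        omega
      · refine Or.inl ⟨blk_mem hR hu (p + 1) (q - 1) (by omega) (by omega) (by omega) (by omega), ?_⟩
        simp only [Set.mem_Ici, Prod.le_def]
        omega

/-- The region below an unextendable block. -/
theorem reg_Iic (Λ : Set Pt) (bot top u : Pt) (hR : Reg Λ bot top) (hu : Blk Λ u)
    (h1 : (u.1 - 1, u.2 + 2) ∉ Λ) (h2 : (u.1 + 2, u.2 - 1) ∉ Λ) :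
    Reg (Λ ∩ Set.Iic (u.1 + 2, u.2 + 2)) bot (u.1 + 2, u.2 + 2) := by
  set w : Pt := (u.1 + 2, u.2 + 2) with hw
  have hw1 : w.1 = u.1 + 2 := rfl
  have hw2 : w.2 = u.2 + 2 := rfl
  have hwΛ : w ∈ Λ := blk_mem hR hu (u.1 + 2) (u.2 + 2) (by omega) le_rfl (by omega) le_rfl
  have hle := le_of_level' Λ bot top u hR hu h1 h2
  have hwt : w ≤ top := hR.le_top _ hwΛ
  have hnt : ∀ x : Pt, x ≤ w → x ≠ w → x ≠ top := by
    rintro x hx hne rfl
    exact hne (le_antisymm hx hwt)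
  refine ⟨hR.fin.subset Set.inter_subset_left, ⟨hR.bot_mem, hR.bot_le _ hwΛ⟩, ⟨hwΛ, Set.mem_Iic.2 le_rfl⟩,
    fun x hx => hR.bot_le x hx.1, fun x hx => hx.2, ?_, ?_, ?_, ?_⟩
  · intro i i' j j' s t ha hb g1 g2 g3 g4
    refine ⟨hR.rect i i' j j' s t ha.1 hb.1 g1 g2 g3 g4, ?_⟩
    have h3 := ha.2
    have h4 := hb.2
    simp only [Set.mem_Iic, Prod.le_def] at h3 h4 ⊢
    omega
  · rintro ⟨p, q⟩ ⟨hx, hux⟩ hne
    have hux' : p ≤ w.1 ∧ q ≤ w.2 := hux
    rcases hR.down _ hx hne with h | h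
    · refine Or.inl ⟨h, ?_⟩
      simp only [Set.mem_Iic, Prod.le_def]
      omega
    · refine Or.inr ⟨h, ?_⟩
      simp only [Set.mem_Iic, Prod.le_def]
      omega
  · rintro ⟨p, q⟩ ⟨hx, hux⟩ hne
    have hux' : p ≤ w.1 ∧ q ≤ w.2 := hux
    by_cases hl : p + q ≤ u.1 + u.2 + 1
    · rcases hR.up _ hx (hnt _ hux hne) with h | h
      · exact Or.inl ⟨h, hle _ h (by simp only; omega)⟩
      · exact Or.inr ⟨h, hle _ h (by simp only; omega)⟩
    · by_cases hp : p ≤ u.1 + 1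
      · refine Or.inl ⟨blk_mem hR hu (p + 1) q (by omega) (by omega) (by omega) (by omega), ?_⟩
        simp only [Set.mem_Iic, Prod.le_def]
        omega
      · have hq : q ≤ u.2 + 1 := by
          by_contra hcon
          apply hne
          ext
          · simp only; omega
          · simp only; omega
        refine Or.inr ⟨blk_mem hR hu p (q + 1) (by omega) (by omega) (by omega) (by omega), ?_⟩
        simp only [Set.mem_Iic, Prod.le_def]
        omega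
  · rintro ⟨p, q⟩ ⟨hx, hux⟩ hne hne2
    have hux' : p ≤ w.1 ∧ q ≤ w.2 := hux
    by_cases hl : p + q ≤ u.1 + u.2 + 2
    · rcases hR.simple _ hx hne (hnt _ hux hne2) with h | h
      · exact Or.inl ⟨h, hle _ h (by simp only; omega)⟩
      · exact Or.inr ⟨h, hle _ h (by simp only; omega)⟩
    · have hne3 : ¬ (p = w.1 ∧ q = w.2) := by
        rintro ⟨e1, e2⟩
        apply hne2
        ext
        · exact e1
        · exact e2
      by_cases hp : p ≤ u.1 + 1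
      · refine Or.inl ⟨blk_mem hR hu (p + 1) (q - 1) (by omega) (by omega) (by omega) (by omega), ?_⟩
        simp only [Set.mem_Iic, Prod.le_def]
        omega
      · refine Or.inr ⟨blk_mem hR hu (p - 1) (q + 1) (by omega) (by omega) (by omega) (by omega), ?_⟩
        simp only [Set.mem_Iic, Prod.le_def]
        omega

/-- `psi` is the composition of `phi` with the embedding of constants on polynomials not
containing the variable `R0`. -/
theorem psi_eq (K : Type*) [Field K] (R0 : Pt × Pt) (q : MvPolynomial (Pt × Pt) K)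
    (hq : R0 ∉ q.vars) : Pool.Agent.Helper98.JM.psi K R0 q = Polynomial.C (phi K q) := by
  classical
  have h1 : Pool.Agent.Helper98.JM.psi K R0 q =
      aeval (fun R => (Polynomial.C (fR K R) : Polynomial (MvPolynomial Pt K))) q := by
    unfold Pool.Agent.Helper98.JM.psi
    rw [aeval_def, aeval_def]
    refine eval₂Hom_congr' rfl ?_ rfl
    intro R hR _
    have : R ≠ R0 := by
      rintro rfl
      exact hq hR
    simp [this]
  rw [h1, phi]
  have h2 := MvPolynomial.map_aeval (fR K) (Polynomial.C : MvPolynomial Pt K →+* _) q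
  rw [h2, aeval_def]
  rfl

theorem level_gap {Λ : Set Pt} {bot top : Pt} (hR : Reg Λ bot top) (u v : Pt) (hu : Blk Λ u)
    (hv : Blk Λ v) (hne : u ≠ v) (h1 : (u.1, u.2 + 3) ∉ Λ) (h2 : (u.1 + 3, u.2) ∉ Λ)
    (hl : u.1 + u.2 ≤ v.1 + v.2) : u.1 + u.2 + 2 ≤ v.1 + v.2 := by
  obtain ⟨u1, u2⟩ := u
  obtain ⟨v1, v2⟩ := v
  obtain ⟨a1, a2⟩ := hu
  obtain ⟨b1, b2⟩ := hv
  simp only at h1 h2 hl a1 a2 b1 b2 ⊢
  have hne' : ¬ (u1 = v1 ∧ u2 = v2) := by
    rintro ⟨rfl, rfl⟩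
    exact hne rfl
  by_contra hcon
  by_cases hk : u1 + 1 ≤ v1
  · exact h2 (hR.rect u1 (v1 + 2) v2 (u2 + 2) (u1 + 3) u2 a1 b2 (by omega) (by omega) (by omega)
      (by omega))
  · exact h1 (hR.rect v1 (u1 + 2) u2 (v2 + 2) u1 (u2 + 3) b1 a2 (by omega) (by omega) (by omega)
      (by omega))

theorem not_QG_of_two_blocks_aux (K : Type*) [Field K] (Λ : Set Pt) (bot top : Pt)
    (hR : Reg Λ bot top) (u v : Pt) (hu : Blk Λ u) (hv : Blk Λ v) (hne : u ≠ v)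
    (hl : u.1 + u.2 ≤ v.1 + v.2) : ¬ QG K Λ := by
  intro hQ
  have hN1 : ∀ a : Pt, (a.1, a.2 + 3) ∈ Λ → (a.1 + 2, a.2) ∉ Λ := by
    intro a ha hb
    apply Pool.Agent.Helper79.JMR.not_QG_rect34 K a
    have h1 := QG_restrict K Λ a (a.1 + 2, a.2 + 3) hQ
    have h2 : Λ ∩ Set.Icc a (a.1 + 2, a.2 + 3) =
        {x : Pt | a.1 ≤ x.1 ∧ x.1 ≤ a.1 + 2 ∧ a.2 ≤ x.2 ∧ x.2 ≤ a.2 + 3} := by
      ext x
      simp only [Set.mem_inter_iff, Set.mem_Icc, Prod.le_def, Set.mem_ofPred_eq]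
      constructor
      · rintro ⟨-, h3⟩
        omega
      · rintro ⟨h3, h4, h5, h6⟩
        exact ⟨hR.rect _ _ _ _ x.1 x.2 ha hb h3 h4 h5 h6, ⟨h3, h5⟩, ⟨h4, h6⟩⟩
    rwa [h2] at h1
  have hN2 : ∀ a : Pt, (a.1, a.2 + 2) ∈ Λ → (a.1 + 3, a.2) ∉ Λ := by
    intro a ha hb
    apply Pool.Agent.Helper79.JMR.not_QG_rect43 K a
    have h1 := QG_restrict K Λ a (a.1 + 3, a.2 + 2) hQ
    have h2 : Λ ∩ Set.Icc a (a.1 + 3, a.2 + 2) =
        {x : Pt | a.1 ≤ x.1 ∧ x.1 ≤ a.1 + 3 ∧ a.2 ≤ x.2 ∧ x.2 ≤ a.2 + 2} := by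
      ext x
      simp only [Set.mem_inter_iff, Set.mem_Icc, Prod.le_def, Set.mem_ofPred_eq]
      constructor
      · rintro ⟨-, h3⟩
        omega
      · rintro ⟨h3, h4, h5, h6⟩
        exact ⟨hR.rect _ _ _ _ x.1 x.2 ha hb h3 h4 h5 h6, ⟨h3, h5⟩, ⟨h4, h6⟩⟩
    rwa [h2] at h1
  have hu1 : (u.1, u.2 + 3) ∉ Λ := fun h => hN1 u h hu.2
  have hu2 : (u.1 + 3, u.2) ∉ Λ := hN2 u hu.1
  have hv1 : (v.1 - 1, v.2 + 2) ∉ Λ := by
    intro h
    apply hN2 (v.1 - 1, v.2) h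
    have : v.1 - 1 + 3 = v.1 + 2 := by ring
    simp only [this]
    exact hv.2
  have hv2 : (v.1 + 2, v.2 - 1) ∉ Λ := by
    intro h
    apply hN1 (v.1, v.2 - 1) _ h
    have : v.2 - 1 + 3 = v.2 + 2 := by ring
    simp only [this]
    exact hv.1
  have hgap := level_gap hR u v hu hv hne hu1 hu2 hl
  have hvΛ : v ∈ Λ := blk_mem hR hv v.1 v.2 le_rfl (by omega) le_rfl (by omega)
  have huv : u ≤ v := ge_of_level' Λ bot top u hR hu hu1 hu2 v hvΛ hgap
  have huv' : u.1 ≤ v.1 ∧ u.2 ≤ v.2 := huv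
  -- the interval spanned by the blocks
  have hR1 : Reg (Λ ∩ Set.Ici u) u top := reg_Ici Λ bot top u hR hu hu1 hu2
  have hvb : Blk (Λ ∩ Set.Ici u) v := by
    refine ⟨⟨hv.1, ?_⟩, ⟨hv.2, ?_⟩⟩ <;>
    · simp only [Set.mem_Ici, Prod.le_def]
      omega
  have hR2 : Reg (Λ ∩ Set.Ici u ∩ Set.Iic (v.1 + 2, v.2 + 2)) u (v.1 + 2, v.2 + 2) :=
    reg_Iic _ u top v hR1 hvb (fun h => hv1 h.1) (fun h => hv2 h.1)
  have hset : Λ ∩ Set.Ici u ∩ Set.Iic (v.1 + 2, v.2 + 2) =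
      Λ ∩ Set.Icc u (v.1 + 2, v.2 + 2) := by
    rw [Set.inter_assoc, Set.Ici_inter_Iic]
  rw [hset] at hR2
  set Λ' : Set Pt := Λ ∩ Set.Icc u (v.1 + 2, v.2 + 2) with hΛ'
  have hbu : Blk Λ' u := by
    refine ⟨⟨hu.1, ?_⟩, ⟨hu.2, ?_⟩⟩ <;>
    · simp only [Set.mem_Icc, Prod.le_def]
      omega
  have hbv : Blk Λ' v := by
    refine ⟨⟨hv.1, ?_⟩, ⟨hv.2, ?_⟩⟩ <;>
    · simp only [Set.mem_Icc, Prod.le_def]
      omega
  have e1 : (((v.1 + 2, v.2 + 2) : Pt).1 - 2, ((v.1 + 2, v.2 + 2) : Pt).2 - 2) = v := by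
    ext
    · simp
    · simp
  obtain ⟨p, hp1, hp2, hp3⟩ := Pool.Agent.Helper98.JM.exists_relation K Λ' u (v.1 + 2, v.2 + 2)
    hR2 hbu (by rw [e1]; exact hbv) (by rw [e1]; exact hne)
  have hQ' : p ∈ quadI K Λ' := QG_restrict K Λ u (v.1 + 2, v.2 + 2) hQ p hp1 hp2
  have hker : quadI K Λ' ≤
      RingHom.ker (Pool.Agent.Helper98.JM.psi K (u, (u.1 + 2, u.2 + 2))) := by
    rw [quadI, Ideal.span_le]
    rintro q ⟨hq1, hq2, hq3⟩
    have hq4 := priv K Λ' u (v.1 + 2, v.2 + 2) hR2 hbu (fun h => hu1 h.1) (fun h => hu2 h.1) q hq1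
      hq3 hq2
    rw [SetLike.mem_coe, RingHom.mem_ker, psi_eq K _ q hq4, hq2, map_zero]
  exact hp3 (hker hQ')

/-- A region with two blocks is not generated by quadrics. -/
theorem not_QG_of_two_blocks (K : Type*) [Field K] (Λ : Set Pt) (bot top : Pt)
    (hR : Reg Λ bot top) (u v : Pt) (hu : Blk Λ u) (hv : Blk Λ v) (hne : u ≠ v) : ¬ QG K Λ := by
  rcases le_total (u.1 + u.2) (v.1 + v.2) with h | h
  · exact not_QG_of_two_blocks_aux K Λ bot top hR u v hu hv hne h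
  · exact not_QG_of_two_blocks_aux K Λ bot top hR v u hv hu hne.symm h

end Pool.Agent.Helper40.JM
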