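import Pool.Agent.Helper40.BBLowerA
import Pool.Agent.Helper49.BBSigma

set_option autoImplicit false
set_option linter.style.haveILetI false
set_option linter.unusedSectionVars false

namespace Pool.Agent.Helper40.BBLower

open Pool.Agent.Helper16 Pool.Agent.Helper16.BB Polynomial IntermediateField

section at_

variable {k N : Type} [Field k] [Field N] [Algebra k N] [Algebra (RatFunc k) N]
  [IsScalarTower k (RatFunc k) N]

/-- The place `w` lies over the constant point `(p 0 : p 1 ; q)` with normalised coordinates. -/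
def At (m : ℕ) (X y : N) (w : Place (RatFunc k) N)
    (φ : w.resField →ₐ[RatFunc k] AlgebraicClosure (RatFunc k))
    (p : Fin 2 → AlgebraicClosure k) (q : AlgebraicClosure k) : Prop :=
  (p 1 = 1 ∧ w.val X ≤ 1 ∧ w.val y ≤ 1 ∧ φ (w.res X) = jc k (p 0) ∧ φ (w.res y) = jc k q) ∨
  (p 0 = 1 ∧ p 1 = 0 ∧ w.val X⁻¹ < 1 ∧ w.val (y / X ^ m) ≤ 1 ∧ φ (w.res (y / X ^ m)) = jc k q)

variable {m : ℕ} {X y : N} {w : Place (RatFunc k) N}
  {φ : w.resField →ₐ[RatFunc k] AlgebraicClosure (RatFunc k)}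
  {p : Fin 2 → AlgebraicClosure k} {q : AlgebraicClosure k}

theorem forall_ix {P : CurveIx → Prop} (h0 : P (Sum.inl ⟨(), 0⟩)) (h1 : P (Sum.inl ⟨(), 1⟩))
    (h2 : P (Sum.inr ())) : ∀ j, P j := by
  rintro (⟨⟨⟩, j⟩ | ⟨⟩)
  · revert j
    rw [Fin.forall_fin_two]
    exact ⟨h0, h1⟩
  · exact h2

theorem isPoint_jc {F G : MvPolynomial (Fin 2) k} (hF : F.IsHomogeneous (2 * m))
    (hG : G.IsHomogeneous (2 * m)) {p : Fin 2 → AlgebraicClosure k} {q : AlgebraicClosure k}
    (hp : p 0 ≠ 0 ∨ p 1 ≠ 0) (hpF : MvPolynomial.aeval p F = q ^ 2)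
    (hpG : MvPolynomial.aeval p G = 0) :
    IsPoint (curveW m) (curveEq (lin F G)) (curvePt (jc k (p 0)) (jc k (p 1)) (jc k q)) := by
  refine isPoint_curve (lin_hom hF hG) _ _ _ (hp.imp (by simp) (by simp)) ?_
  have hz : ![jc k (p 0), jc k (p 1)] = fun i => jc k (p i) := by
    funext i
    revert i
    rw [Fin.forall_fin_two]
    exact ⟨rfl, rfl⟩
  rw [aeval_lin, hz, aeval_comp_eq (jc k) p F, aeval_comp_eq (jc k) p G, hpF, hpG, map_zero,
    mul_zero, add_zero, map_pow]

theorem At.isSp {F G : MvPolynomial (Fin 2) k} (hF : F.IsHomogeneous (2 * m))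
    (hG : G.IsHomogeneous (2 * m)) (hX : X ≠ 0) (h : At m X y w φ p q)
    (hpF : MvPolynomial.aeval p F = q ^ 2) (hpG : MvPolynomial.aeval p G = 0) :
    IsSp (curveW m) (curveEq (lin F G)) w (curvePt X 1 y)
      (curvePt (jc k (p 0)) (jc k (p 1)) (jc k q)) := by
  rcases h with ⟨h1, h2, h3, h4, h5⟩ | ⟨h1, h2, h3, h4, h5⟩
  · refine ⟨isPoint_jc hF hG (Or.inr (by rw [h1]; exact one_ne_zero)) hpF hpG, φ, fun _ => 1,
      fun _ => one_ne_zero, ?_, ?_⟩
    · rw [scale_one]
      refine forall_ix ?_ ?_ ?_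
      · exact h2
      · exact one_mem _
      · exact h3
    · rw [scale_one]
      refine forall_ix ?_ ?_ ?_
      · exact h4.symm
      · change jc k (p 1) = φ (w.res 1)
        rw [w.res_one, map_one, h1, map_one]
      · exact h5.symm
  · refine ⟨isPoint_jc hF hG (Or.inl (by rw [h1]; exact one_ne_zero)) hpF hpG, φ, fun _ => X⁻¹,
      fun _ => inv_ne_zero hX, ?_, ?_⟩
    · rw [scale_curve, inv_mul_cancel₀ hX, mul_one, inv_pow, inv_mul_eq_div]
      refine forall_ix ?_ ?_ ?_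
      · exact one_mem _
      · exact h3.le
      · exact h4
    · rw [scale_curve, inv_mul_cancel₀ hX, mul_one, inv_pow, inv_mul_eq_div]
      refine forall_ix ?_ ?_ ?_
      · change jc k (p 0) = φ (w.res 1)
        rw [w.res_one, map_one, h1, map_one]
      · change jc k (p 1) = φ (w.res X⁻¹)
        rw [(w.res_eq_zero_iff h3.le).2 h3, map_zero, h2, map_zero]
      · exact h5.symm

theorem At.twist (h : At m X y w φ p q) (σ : N ≃ₐ[RatFunc k] N) (hσX : σ X = X)
    (hσy : σ y = -y) : ∃ (w' : Place (RatFunc k) N)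
      (φ' : w'.resField →ₐ[RatFunc k] AlgebraicClosure (RatFunc k)),
      (∀ f, w'.val f = w.val (σ f)) ∧ At m X y w' φ' p (-q) := by
  obtain ⟨w', φ', h1, h2⟩ := exists_twist_place w σ φ
  refine ⟨w', φ', h1, ?_⟩
  have hσq : σ (y / X ^ m) = -(y / X ^ m) := by
    rw [map_div₀, map_pow, hσX, hσy, neg_div]
  rcases h with ⟨h3, h4, h5, h6, h7⟩ | ⟨h3, h4, h5, h6, h7⟩
  · refine Or.inl ⟨h3, by rw [h1, hσX]; exact h4, by rw [h1, hσy, Valuation.map_neg]; exact h5, ?_, ?_⟩
    · rw [h2 X (by rw [hσX]; exact h4), hσX, h6]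
    · rw [h2 y (by rw [hσy, Valuation.map_neg]; exact h5), hσy, w.res_neg h5, map_neg, h7, map_neg]
  · refine Or.inr ⟨h3, h4, by rw [h1, map_inv₀, hσX]; exact h5,
      by rw [h1, hσq, Valuation.map_neg]; exact h6, ?_⟩
    rw [h2 _ (by rw [hσq, Valuation.map_neg]; exact h6), hσq, w.res_neg h6, map_neg, h7, map_neg]

theorem mixed (w : Place (RatFunc k) N) (hX : X ≠ 0) (h1 : w.val X ≤ 1) (h2 : w.val X⁻¹ < 1) :
    False := by
  rw [map_inv₀] at h2
  have := (inv_lt_one₀ (zero_lt_iff.2 (by simpa using hX))).1 h2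
  exact absurd h1 (not_le.2 this)

theorem At.conj (hN : IsFunctionField (RatFunc k) N) (hX : X ≠ 0) (h : At m X y w φ p q)
    {φ' : w.resField →ₐ[RatFunc k] AlgebraicClosure (RatFunc k)}
    {p' : Fin 2 → AlgebraicClosure k} {q' : AlgebraicClosure k} (h' : At m X y w φ' p' q') :
    ∃ τ : AlgebraicClosure k ≃ₐ[k] AlgebraicClosure k, (∀ i, τ (p i) = p' i) ∧ τ q = q' := by
  haveI := w.finite_resField hN
  obtain ⟨σ, hσ⟩ := PtFunctor.exists_conj φ φ'
  have hσ' : ∀ a, σ (φ a) = φ' a := fun a => DFunLike.congr_fun hσ a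
  obtain ⟨τ, hτ⟩ := exists_restr k σ
  have hinj : Function.Injective (jc k) := (jc k).injective
  refine ⟨τ, ?_⟩
  rcases h with ⟨h1, h2, h3, h4, h5⟩ | ⟨h1, h2, h3, h4, h5⟩ <;>
    rcases h' with ⟨h1', h2', h3', h4', h5'⟩ | ⟨h1', h2', h3', h4', h5'⟩
  · refine ⟨Fin.forall_fin_two.2 ⟨?_, ?_⟩, ?_⟩
    · apply hinj
      rw [hτ, ← h4, hσ', h4']
    · rw [h1, h1', map_one]
    · apply hinj
      rw [hτ, ← h5, hσ', h5']
  · exact (mixed w hX h2 h3').elim
  · exact (mixed w hX h2' h3).elim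
  · refine ⟨Fin.forall_fin_two.2 ⟨?_, ?_⟩, ?_⟩
    · rw [h1, h1', map_one]
    · rw [h2, h2', map_zero]
    · apply hinj
      rw [hτ, ← h5, hσ', h5']

/-- Constant points lie on places which are nontrivial on `L = k(x)`. -/
theorem At.nontriv {L : Type} [Field L] [Algebra k L] [Algebra L N] [IsScalarTower k L N] (x : L)
    (hx : Transcendental k x) (h : At m (algebraMap L N x) y w φ p q) :
    ∃ b : L, b ≠ 0 ∧ w.val (algebraMap L N b) ≠ 1 := by
  rcases h with ⟨h1, h2, h3, h4, h5⟩ | ⟨h1, h2, h3, h4, h5⟩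
  · have halg : IsIntegral k (p 0) := (Algebra.IsAlgebraic.isAlgebraic (p 0)).isIntegral
    set π := minpoly k (p 0) with hπ
    refine ⟨aeval x π, fun h0 => hx ⟨π, minpoly.ne_zero halg, h0⟩, ?_⟩
    have h6 : algebraMap L N (aeval x π) =
        aeval (algebraMap L N x) (π.map (algebraMap k (RatFunc k))) := by
      rw [aeval_map_algebraMap, aeval_algebraMap_apply]
    obtain ⟨h7, h8⟩ := w.res_aeval (x := algebraMap L N x) h2 (π.map (algebraMap k (RatFunc k)))
    have h9 : φ (w.res (algebraMap L N (aeval x π))) = 0 := by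
      rw [h6, h8, ← aeval_algHom_apply, h4, aeval_map_algebraMap, aeval_algHom_apply, hπ,
        minpoly.aeval, map_zero]
    have h10 : w.res (algebraMap L N (aeval x π)) = 0 := by simpa using h9
    rw [← h6] at h7
    exact ((w.res_eq_zero_iff h7).1 h10).ne
  · refine ⟨x⁻¹, inv_ne_zero ?_, ?_⟩
    · rintro rfl
      exact hx isAlgebraic_zero
    · rw [map_inv₀]
      exact h3.ne

/-- A residue which is nonzero comes from a regular element. -/
theorem mem_of_res (w : Place (RatFunc k) N) (f : N) (h : w.res f ≠ 0) : w.val f ≤ 1 := by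
  by_contra hf
  apply h
  unfold Place.res
  exact dif_neg hf

end at_

section main

variable {k L N : Type} [Field k] [Field L] [Field N] [Algebra k L] [Algebra L N] [Algebra k N]
  [Algebra (RatFunc k) N] [IsScalarTower k L N] [IsScalarTower k (RatFunc k) N]

theorem core (hk : (2 : k) ≠ 0) (hN : IsFunctionField (RatFunc k) N) (m : ℕ)
    (F G : MvPolynomial (Fin 2) k) (hF : F.IsHomogeneous (2 * m)) (hG : G.IsHomogeneous (2 * m))
    (x : L) (hx : Transcendental k x) (hxL : IntermediateField.adjoin k {x} = ⊤) (y : N)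
    (hy : Transcendental L y) (hyN : IntermediateField.adjoin L {y} = ⊤)
    (hG0 : (MvPolynomial.aeval ![Polynomial.X, 1] G : Polynomial k) ≠ 0)
    (hNS : ∀ α : AlgebraicClosure k, ¬ IsSquare
      ((MvPolynomial.aeval ![Polynomial.X, 1] F : Polynomial k).map
        (algebraMap k (AlgebraicClosure k)) + Polynomial.C α *
        (MvPolynomial.aeval ![Polynomial.X, 1] G : Polynomial k).map
          (algebraMap k (AlgebraicClosure k))))
    (ht : algebraMap (RatFunc k) N RatFunc.X * algebraMap L N (Polynomial.aeval x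
        (MvPolynomial.aeval ![Polynomial.X, 1] G : Polynomial k)) =
      y ^ 2 - algebraMap L N (Polynomial.aeval x
        (MvPolynomial.aeval ![Polynomial.X, 1] F : Polynomial k)))
    (σ : N ≃ₐ[L] N) (hσ : σ y = -y)
    (Ψ : Quo (curveW m) (curveEq (lin F G)) →ₗ[ℚ] ((Place (RatFunc k) N →₀ ℚ) ⧸
      Submodule.span ℚ {D : Place (RatFunc k) N →₀ ℚ | ∃ f : N, f ≠ 0 ∧
        ∀ w, D w = (w.ord f : ℚ)}))
    (hΨ : ∀ (w : Place (RatFunc k) N) (z : CurveIx → AlgebraicClosure (RatFunc k)),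
      IsSp (curveW m) (curveEq (lin F G)) w (curvePt (algebraMap L N x) 1 y) z →
        Ψ (cls _ _ z) = Submodule.Quotient.mk (Finsupp.single w ((w.deg : ℚ)⁻¹)))
    (T : Type) (p : T → Fin 2 → AlgebraicClosure k) (q : T → AlgebraicClosure k)
    (hpG : ∀ s, MvPolynomial.aeval (p s) G = 0) (hpF : ∀ s, MvPolynomial.aeval (p s) F = q s ^ 2)
    (hq : ∀ s, q s ≠ 0)
    (hex : ∀ s, ∃ (w : Place (RatFunc k) N)
      (φ : w.resField →ₐ[RatFunc k] AlgebraicClosure (RatFunc k)),
        At m (algebraMap L N x) y w φ (p s) (q s))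
    (hsplit : ∀ s (τ : AlgebraicClosure k ≃ₐ[k] AlgebraicClosure k),
      (∀ i, τ (p s i) = p s i) → τ (q s) = q s)
    (hnon : ∀ s s', s ≠ s' → ∀ (τ : AlgebraicClosure k ≃ₐ[k] AlgebraicClosure k),
      ¬ ∀ i, τ (p s i) = p s' i) :
    LinearIndependent ℚ (fun s : T =>
      cls (curveW m) (curveEq (lin F G)) (curvePt (jc k (p s 0)) (jc k (p s 1)) (jc k (q s))) -
      cls (curveW m) (curveEq (lin F G)) (curvePt (jc k (p s 0)) (jc k (p s 1))
        (-(jc k (q s))))) := by
  classical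
  set X : N := algebraMap L N x with hXdef
  have hx0 : x ≠ 0 := by
    rintro rfl
    exact hx isAlgebraic_zero
  have hX0 : X ≠ 0 := by simpa [hXdef] using hx0
  -- the involution is linear over `k(t)`
  have hGx : algebraMap L N (Polynomial.aeval x
      (MvPolynomial.aeval ![Polynomial.X, 1] G : Polynomial k)) ≠ 0 := by
    rw [_root_.map_ne_zero]
    intro h0
    exact hG0 (transcendental_iff_injective.1 hx (by rw [h0, map_zero]))
  have hσt : σ (algebraMap (RatFunc k) N RatFunc.X) = algebraMap (RatFunc k) N RatFunc.X := by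
    have h1 := congrArg σ ht
    rw [map_mul, map_sub, map_pow, hσ, neg_sq, AlgEquiv.commutes, AlgEquiv.commutes, ← ht] at h1
    exact mul_right_cancel₀ hGx h1
  have hσK : ∀ a : RatFunc k, σ (algebraMap (RatFunc k) N a) = algebraMap (RatFunc k) N a := by
    have h1 : (σ : N →+* N).comp (algebraMap (RatFunc k) N) = algebraMap (RatFunc k) N := by
      apply ratFunc_hom_ext
      · intro a
        rw [RingHom.comp_apply, ← IsScalarTower.algebraMap_apply k (RatFunc k) N,
          IsScalarTower.algebraMap_apply k L N]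
        exact σ.commutes _
      · exact hσt
    exact fun a => DFunLike.congr_fun h1 a
  let σK : N ≃ₐ[RatFunc k] N := AlgEquiv.ofRingEquiv (f := σ.toRingEquiv) hσK
  have hσKa : ∀ f, σK f = σ f := fun f => rfl
  have hσX : σK X = X := σ.commutes x
  choose w φ hw using hex
  have hw' := fun s => (hw s).twist σK hσX hσ
  choose w' φ' hww' hw' using hw'
  -- the places are distinct
  have hne : ∀ s, w s ≠ w' s := by
    intro s h
    have key : ∀ (v : Place (RatFunc k) N) (hv : w s = v)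
        (ψ : v.resField →ₐ[RatFunc k] AlgebraicClosure (RatFunc k)),
        At m X y v ψ (p s) (-q s) → False := by
      rintro v rfl ψ h'
      obtain ⟨τ, h1, h2⟩ := (hw s).conj hN hX0 h'
      rw [hsplit s τ h1] at h2
      apply hq s
      have h3 : (2 : AlgebraicClosure k) * q s = 0 := by linear_combination h2
      rcases mul_eq_zero.1 h3 with h4 | h4
      · exfalso
        apply hk
        apply (algebraMap k (AlgebraicClosure k)).injective
        rw [map_zero, ← h4, map_ofNat]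
      · exact h4
    exact key _ h _ (hw' s)
  have key2 : ∀ s s', s ≠ s' → ∀ (v v' : Place (RatFunc k) N)
      (ψ : v.resField →ₐ[RatFunc k] AlgebraicClosure (RatFunc k))
      (ψ' : v'.resField →ₐ[RatFunc k] AlgebraicClosure (RatFunc k)) (a b : AlgebraicClosure k),
      At m X y v ψ (p s) a → At m X y v' ψ' (p s') b → v ≠ v' := by
    rintro s s' hss v v' ψ ψ' a b h1 h2 rfl
    obtain ⟨τ, h3, -⟩ := h1.conj hN hX0 h2
    exact hnon s s' hss τ h3
  rw [linearIndependent_iff']
  intro S g hg s₀ hs₀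
  -- apply the divisor class map
  set D : Place (RatFunc k) N →₀ ℚ := ∑ s ∈ S, g s • (Finsupp.single (w s) (((w s).deg : ℚ)⁻¹) -
    Finsupp.single (w' s) (((w' s).deg : ℚ)⁻¹)) with hD
  have hDmem : D ∈ Submodule.span ℚ {D : Place (RatFunc k) N →₀ ℚ | ∃ f : N, f ≠ 0 ∧
      ∀ w, D w = (w.ord f : ℚ)} := by
    rw [← Submodule.Quotient.mk_eq_zero, hD]
    have h1 := congrArg Ψ hg
    rw [map_zero, map_sum] at h1
    rw [← h1, ← Submodule.mkQ_apply, map_sum]
    refine Finset.sum_congr rfl fun s _ => ?_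
    rw [map_smul, map_smul, map_sub, map_sub, Submodule.mkQ_apply, Submodule.mkQ_apply]
    rw [← hΨ (w s) _ ((hw s).isSp hF hG hX0 (hpF s) (hpG s)),
      ← hΨ (w' s) _ ((hw' s).isSp hF hG hX0 (by rw [neg_sq]; exact hpF s) (hpG s))]
    rw [map_neg]
  obtain ⟨n, f, hn, hf, hdiv⟩ := exists_int_mult D hDmem
  have hDval : ∀ v, D v = ∑ s ∈ S, g s * ((if w s = v then ((w s).deg : ℚ)⁻¹ else 0) -
      (if w' s = v then ((w' s).deg : ℚ)⁻¹ else 0)) := by
    intro v
    rw [hD, Finsupp.finsetSum_apply]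
    refine Finset.sum_congr rfl fun s _ => ?_
    rw [Finsupp.smul_apply, Finsupp.sub_apply, Finsupp.single_apply, Finsupp.single_apply,
      smul_eq_mul]
  -- invariance
  have hinv : σ f = f := by
    refine Pool.Agent.Helper49.BBSigma.sigma_inv x hx hxL y hy hyN _ _ hG0 hNS ht σ hσ f hf ?_
    intro v hv
    have h1 : D v = 0 := by
      rw [hDval]
      refine Finset.sum_eq_zero fun s _ => ?_
      rw [if_neg, if_neg, sub_zero, mul_zero]
      · rintro rfl
        obtain ⟨b, hb, hb'⟩ := (hw' s).nontriv x hx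
        exact hb' (hv b hb)
      · rintro rfl
        obtain ⟨b, hb, hb'⟩ := (hw s).nontriv x hx
        exact hb' (hv b hb)
    have h2 := hdiv v
    rw [h1, mul_zero] at h2
    exact_mod_cast h2.symm
  have hord : (w' s₀).ord f = (w s₀).ord f := by
    unfold Place.ord
    rw [hww' s₀ f, hσKa, hinv]
  have h1 : D (w s₀) = g s₀ * ((w s₀).deg : ℚ)⁻¹ := by
    rw [hDval, Finset.sum_eq_single s₀]
    · rw [if_pos rfl, if_neg (hne s₀).symm, sub_zero]
    · intro s _ hss
      rw [if_neg (key2 _ _ hss _ _ _ _ _ _ (hw s) (hw s₀)),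
        if_neg (key2 _ _ hss _ _ _ _ _ _ (hw' s) (hw s₀)), sub_zero, mul_zero]
    · exact fun h => absurd hs₀ h
  have h2 : D (w' s₀) = -(g s₀ * ((w' s₀).deg : ℚ)⁻¹) := by
    rw [hDval, Finset.sum_eq_single s₀]
    · rw [if_pos rfl, if_neg (hne s₀), zero_sub, mul_neg]
    · intro s _ hss
      rw [if_neg (key2 _ _ hss _ _ _ _ _ _ (hw s) (hw' s₀)),
        if_neg (key2 _ _ hss _ _ _ _ _ _ (hw' s) (hw' s₀)), sub_zero, mul_zero]
    · exact fun h => absurd hs₀ h
  have h3 := hdiv (w s₀)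
  have h4 := hdiv (w' s₀)
  rw [hord, ← h3, h1, h2] at h4
  have hd1 : (0 : ℚ) < ((w s₀).deg : ℚ)⁻¹ := by
    have := (w s₀).deg_pos hN
    positivity
  have hd2 : (0 : ℚ) < ((w' s₀).deg : ℚ)⁻¹ := by
    have := (w' s₀).deg_pos hN
    positivity
  have h5 : (n : ℚ) * g s₀ * (((w s₀).deg : ℚ)⁻¹ + ((w' s₀).deg : ℚ)⁻¹) = 0 := by
    linear_combination -h4
  rcases mul_eq_zero.1 h5 with h6 | h6
  · rcases mul_eq_zero.1 h6 with h7 | h7
    · exact absurd (by exact_mod_cast h7) hn
    · exact h7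
  · exact absurd h6 (by positivity)

end main

end Pool.Agent.Helper40.BBLower
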