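import Mathlib
import Pool.Agent.Helper44.Defs

/-!
# Ballot bound

An upper bound for the weighted ballot sums of `Pool.Agent.Helper44.Defs`.
-/

set_option autoImplicit false

namespace Pool.Agent.Helper40.Ballot

open Finset Pool.Agent.Helper44

/-- `E x k = x ^ k / k!`. -/
noncomputable def E (x : ℝ) (k : ℕ) : ℝ := x ^ k / (k.factorial : ℝ)

lemma E_add_one (x : ℝ) (k : ℕ) :
    ∑ j ∈ range (k + 1), E x j / ((k - j).factorial : ℝ) = E (x + 1) k := by
  unfold E
  rw [add_pow, Finset.sum_div]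
  apply Finset.sum_congr rfl
  intro j hj
  have hj' : j ≤ k := by simpa [Nat.lt_succ_iff] using hj
  rw [Nat.cast_choose ℝ hj']
  have h1 : (k.factorial : ℝ) ≠ 0 := by positivity
  have h2 : (j.factorial : ℝ) ≠ 0 := by positivity
  have h3 : ((k - j).factorial : ℝ) ≠ 0 := by positivity
  field_simp
  simp

/-- Recursive ballot weight: total weight of vectors on `J` boxes with sum `k` all of whose
initial sums over `h` boxes are at most `φ h`. -/
noncomputable def w (φ : ℕ → ℕ) : ℕ → ℕ → ℝ
  | 0, k => if k = 0 then 1 else 0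
  | (J + 1), k => if k ≤ φ (J + 1) then
      ∑ j ∈ range (k + 1), w φ J j / ((k - j).factorial : ℝ) else 0

lemma w_nonneg (φ : ℕ → ℕ) : ∀ (J k : ℕ), 0 ≤ w φ J k
  | 0, k => by unfold w; split_ifs <;> norm_num
  | (J + 1), k => by
    unfold w
    split_ifs
    · exact Finset.sum_nonneg fun j _ => div_nonneg (w_nonneg φ J j) (by positivity)
    · exact le_rfl

lemma w_le (φ : ℕ → ℕ) : ∀ (J k : ℕ), w φ J k ≤ E J k
  | 0, k => by
    unfold w E
    split_ifs with h
    · subst h; simp
    · positivity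
  | (J + 1), k => by
    have hE : 0 ≤ E ((J + 1 : ℕ) : ℝ) k := by unfold E; positivity
    unfold w
    split_ifs
    · calc _ ≤ ∑ j ∈ range (k + 1), E J j / ((k - j).factorial : ℝ) :=
            Finset.sum_le_sum fun j _ => div_le_div_of_nonneg_right (w_le φ J j) (by positivity)
        _ = E ((J + 1 : ℕ) : ℝ) k := by rw [E_add_one]; push_cast; rfl
    · exact hE

lemma w_strict_zero : ∀ n : ℕ, w (fun h => h - 1) (n + 1) 0 = 1
  | 0 => by simp [w]
  | (n + 1) => by
    have := w_strict_zero n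
    rw [w]
    simp [this]

lemma w_strict_succ : ∀ (n k : ℕ), k + 1 ≤ n + 1 →
    w (fun h => h - 1) (n + 1) (k + 1) = E (n + 1 : ℕ) (k + 1) - E (n + 1 : ℕ) k
  | 0, k, hk => by
    have : k = 0 := by omega
    subst this
    simp [w, E]
  | (n + 1), k, hk => by
    by_cases hkn : k + 1 = n + 2
    · -- both sides vanish
      have h1 : w (fun h => h - 1) (n + 1 + 1) (k + 1) = 0 := by
        rw [w]
        rw [if_neg]
        simp only [Nat.add_sub_cancel]
        omega
      rw [h1]
      have hk' : k = n + 1 := by omega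
      subst hk'
      unfold E
      rw [Nat.factorial_succ (n + 1)]
      have h2 : ((n + 1).factorial : ℝ) ≠ 0 := by positivity
      have h3 : ((n : ℝ) + 1 + 1) ≠ 0 := by positivity
      push_cast
      field_simp
      ring
    · have hk2 : k + 1 ≤ n + 1 := by omega
      rw [w]
      rw [if_pos (by simpa using hk2)]
      rw [Finset.sum_range_succ']
      rw [w_strict_zero n]
      have h1 : ∀ j ∈ range (k + 1),
          w (fun h => h - 1) (n + 1) (j + 1) / ((k + 1 - (j + 1)).factorial : ℝ) =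
          E (n + 1 : ℕ) (j + 1) / ((k + 1 - (j + 1)).factorial : ℝ) -
            E (n + 1 : ℕ) j / ((k - j).factorial : ℝ) := by
        intro j hj
        have hj' : j ≤ k := by simpa [Nat.lt_succ_iff] using hj
        have hj2 : k + 1 - (j + 1) = k - j := by omega
        rw [w_strict_succ n j (by omega), sub_div, hj2]
      rw [Finset.sum_congr rfl h1, Finset.sum_sub_distrib, E_add_one]
      have h2 := E_add_one ((n + 1 : ℕ) : ℝ) (k + 1)
      rw [Finset.sum_range_succ'] at h2
      have h3 : ((n + 1 + 1 : ℕ) : ℝ) = ((n + 1 : ℕ) : ℝ) + 1 := by push_cast; ring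
      rw [h3, ← h2]
      have h4 : E ((n + 1 : ℕ) : ℝ) 0 = 1 := by simp [E]
      rw [h4]
      ring

/-- Closed form for the strict ballot weight. -/
lemma w_strict (n k : ℕ) (hk : k ≤ n + 1) :
    w (fun h => h - 1) (n + 1) k = (((n + 1 : ℕ) : ℝ) - k) / ((n + 1 : ℕ) : ℝ) * E (n + 1 : ℕ) k := by
  rcases k with _ | k
  · rw [w_strict_zero]
    have : ((n + 1 : ℕ) : ℝ) ≠ 0 := by positivity
    simp [E]
    field_simp
  · rw [w_strict_succ n k hk]
    unfold E
    rw [Nat.factorial_succ k]
    have h2 : ((k).factorial : ℝ) ≠ 0 := by positivity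
    have h3 : ((k : ℝ) + 1) ≠ 0 := by positivity
    have h4 : ((n : ℝ) + 1) ≠ 0 := by positivity
    push_cast
    field_simp
    ring

/-- Putting a strict path in front of a path of slack `u`. -/
lemma w_concat (s t u : ℕ) (hst : t + u + 1 = s) : ∀ (J k : ℕ),
    w (fun h => h - 1) s t * w (fun h => h + u) J k ≤ w (fun h => h - 1) (J + s) (k + t)
  | 0, k => by
    by_cases hk : k = 0
    · subst hk; simp [w]
    · have : w (fun h => h + u) 0 k = 0 := by simp [w, hk]
      rw [this, mul_zero]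
      exact w_nonneg _ _ _
  | (J + 1), k => by
    by_cases hk : k ≤ J + 1 + u
    · have e1 : w (fun h => h + u) (J + 1) k =
          ∑ j ∈ range (k + 1), w (fun h => h + u) J j / ((k - j).factorial : ℝ) := by
        rw [w, if_pos hk]
      have e2 : w (fun h => h - 1) (J + 1 + s) (k + t) =
          ∑ j ∈ range (k + t + 1), w (fun h => h - 1) (J + s) j / ((k + t - j).factorial : ℝ) := by
        have : J + 1 + s = (J + s) + 1 := by ring
        rw [this, w, if_pos (by simp only [Nat.add_sub_cancel]; omega)]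
      rw [e1, e2, Finset.mul_sum]
      have e3 : ∑ j ∈ range (k + 1), w (fun h => h - 1) (J + s) (j + t) /
            ((k - j).factorial : ℝ) ≤
          ∑ j ∈ range (k + t + 1), w (fun h => h - 1) (J + s) j /
            ((k + t - j).factorial : ℝ) := by
        have e4 : ∑ j ∈ range (k + 1), w (fun h => h - 1) (J + s) (j + t) /
            ((k - j).factorial : ℝ) = ∑ j ∈ (range (k + 1)).image (fun j => j + t),
              w (fun h => h - 1) (J + s) j / ((k + t - j).factorial : ℝ) := by
          rw [Finset.sum_image (by intro a _ b _ h; simpa using h)]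
          apply Finset.sum_congr rfl
          intro j _
          congr 3
          omega
        rw [e4]
        apply Finset.sum_le_sum_of_subset_of_nonneg
        · intro j hj
          simp only [mem_image, mem_range] at hj ⊢
          obtain ⟨a, ha, rfl⟩ := hj
          omega
        · intro j _ _
          exact div_nonneg (w_nonneg _ _ _) (by positivity)
      refine le_trans (Finset.sum_le_sum ?_) e3
      intro j _
      rw [← mul_div_assoc]
      exact div_le_div_of_nonneg_right (w_concat s t u hst J j) (by positivity)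
    · have : w (fun h => h + u) (J + 1) k = 0 := by rw [w, if_neg hk]
      rw [this, mul_zero]
      exact w_nonneg _ _ _

lemma mem_ballotSet {J k u : ℕ} {b : ℕ → ℕ} : b ∈ ballotSet J k u ↔
    ((∑ i ∈ range J, b i = k) ∧ (∀ i, b i ≠ 0 → i < J)) ∧
      ∀ h, 1 ≤ h → h ≤ J → ∑ i ∈ range h, b i ≤ h + u := by
  unfold ballotSet
  simp only [Finset.mem_filter, mem_piAntidiag, Finset.mem_range, Finset.mem_Icc, and_imp]

lemma ballotSum_zero_le (u k : ℕ) : ballotSum 0 k u ≤ w (fun h => h + u) 0 k := by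
  unfold ballotSum w
  rcases Nat.eq_zero_or_pos k with rfl | hk
  · have : ballotSet 0 0 u ⊆ {fun _ => 0} := by
      intro b hb
      rw [mem_ballotSet] at hb
      rw [Finset.mem_singleton]
      funext i
      by_contra h
      exact absurd (hb.1.2 i h) (by omega)
    refine le_trans (Finset.sum_le_sum_of_subset_of_nonneg this fun b _ _ => by positivity) ?_
    simp
  · have h0 : ballotSet 0 k u = ∅ := by
      rw [Finset.eq_empty_iff_forall_notMem]
      intro b hb
      rw [mem_ballotSet] at hb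
      have := hb.1.1
      simp at this
      omega
    rw [h0, Finset.sum_empty]
    split_ifs <;> norm_num

lemma ballotSum_succ_le (u J k : ℕ) (hk : k ≤ J + 1 + u) : ballotSum (J + 1) k u ≤
    ∑ j ∈ range (k + 1), ballotSum J j u / ((k - j).factorial : ℝ) := by
  classical
  unfold ballotSum
  have hmaps : ∀ b ∈ ballotSet (J + 1) k u, (∑ i ∈ range J, b i) ∈ range (k + 1) := by
    intro b hb
    rw [mem_ballotSet] at hb
    have := hb.1.1
    rw [Finset.sum_range_succ] at this
    rw [Finset.mem_range]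
    omega
  rw [← Finset.sum_fiberwise_of_maps_to hmaps]
  apply Finset.sum_le_sum
  intro j _
  rw [Finset.sum_div]
  set S := (ballotSet (J + 1) k u).filter (fun b => ∑ i ∈ range J, b i = j) with hS
  have hup : ∀ b : ℕ → ℕ, ∀ h, h ≤ J →
      ∑ i ∈ range h, (Function.update b J 0) i = ∑ i ∈ range h, b i := by
    intro b h hh
    apply Finset.sum_congr rfl
    intro i hi
    rw [Function.update_of_ne]
    have := Finset.mem_range.mp hi
    omega
  have hJval : ∀ b ∈ S, b J = k - j := by
    intro b hb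
    rw [hS, Finset.mem_filter, mem_ballotSet, Finset.sum_range_succ] at hb
    omega
  have hinj : Set.InjOn (fun b : ℕ → ℕ => Function.update b J 0) S := by
    intro b hb b' hb' heq
    funext i
    by_cases hi : i = J
    · rw [hi, hJval b hb, hJval b' hb']
    · have := congrFun heq i
      simpa [Function.update_of_ne hi] using this
  have himg : S.image (fun b : ℕ → ℕ => Function.update b J 0) ⊆ ballotSet J j u := by
    intro c hc
    rw [Finset.mem_image] at hc
    obtain ⟨b, hb, rfl⟩ := hc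
    rw [hS, Finset.mem_filter, mem_ballotSet] at hb
    obtain ⟨⟨⟨hb1, hb2⟩, hb3⟩, hb4⟩ := hb
    rw [mem_ballotSet]
    refine ⟨⟨by rw [hup b J le_rfl]; exact hb4, ?_⟩, ?_⟩
    · intro i hi
      by_cases hiJ : i = J
      · subst hiJ; simp at hi
      · rw [Function.update_of_ne hiJ] at hi
        have := hb2 i hi
        omega
    · intro h h1 h2
      rw [hup b h h2]
      exact hb3 h h1 (by omega)
  calc ∑ b ∈ S, ∏ i ∈ range (J + 1), (1 : ℝ) / ((b i).factorial : ℝ)
      = ∑ b ∈ S, (∏ i ∈ range J, (1 : ℝ) / ((Function.update b J 0 i).factorial : ℝ)) /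
          ((k - j).factorial : ℝ) := by
        apply Finset.sum_congr rfl
        intro b hb
        rw [Finset.prod_range_succ, hJval b hb, mul_one_div]
        congr 1
        apply Finset.prod_congr rfl
        intro i hi
        rw [Function.update_of_ne]
        have := Finset.mem_range.mp hi
        omega
    _ = ∑ c ∈ S.image (fun b : ℕ → ℕ => Function.update b J 0),
          (∏ i ∈ range J, (1 : ℝ) / ((c i).factorial : ℝ)) / ((k - j).factorial : ℝ) := by
        rw [Finset.sum_image hinj]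
    _ ≤ _ := Finset.sum_le_sum_of_subset_of_nonneg himg fun b _ _ => by positivity

lemma ballotSum_eq_zero (u J k : ℕ) (hJ : 1 ≤ J) (hk : J + u < k) : ballotSum J k u = 0 := by
  have hz : ballotSet J k u = ∅ := by
    rw [Finset.eq_empty_iff_forall_notMem]
    intro b hb
    rw [mem_ballotSet] at hb
    have := hb.2 J hJ le_rfl
    rw [hb.1.1] at this
    omega
  unfold ballotSum
  rw [hz, Finset.sum_empty]

lemma ballotSum_le_w (u : ℕ) : ∀ (J k : ℕ), ballotSum J k u ≤ w (fun h => h + u) J k
  | 0, k => ballotSum_zero_le u k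
  | (J + 1), k => by
    by_cases hk : k ≤ J + 1 + u
    · rw [w, if_pos hk]
      refine le_trans (ballotSum_succ_le u J k hk) (Finset.sum_le_sum fun j _ => ?_)
      exact div_le_div_of_nonneg_right (ballotSum_le_w u J j) (by positivity)
    · rw [ballotSum_eq_zero u (J + 1) k (by omega) (by omega)]
      exact w_nonneg _ _ _

/-- Upper Stirling bound with an explicit constant. -/
lemma factorial_le (n : ℕ) (hn : 1 ≤ n) :
    (n.factorial : ℝ) ≤ Real.exp 1 * Real.sqrt n * (n / Real.exp 1) ^ n := by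
  have h := Stirling.stirlingSeq'_antitone (Nat.zero_le (n - 1))
  simp only [Function.comp_apply, Nat.succ_eq_add_one, Nat.sub_add_cancel hn] at h
  rw [zero_add, Stirling.stirlingSeq_one] at h
  unfold Stirling.stirlingSeq at h
  have hn0 : (0 : ℝ) < n := by exact_mod_cast hn
  have hpos : 0 < Real.sqrt (2 * n) * (n / Real.exp 1) ^ n := by positivity
  rw [div_le_iff₀ hpos] at h
  refine le_trans h (le_of_eq ?_)
  rw [Real.sqrt_mul (by norm_num)]
  have : Real.sqrt 2 ≠ 0 := by positivity
  field_simp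

/-- Lower bound for a binomial probability. -/
lemma beta_lower (k t : ℕ) (hk : 1 ≤ k) (ht : 1 ≤ t) (s J : ℝ) (hs : 0 < s) (hJ : 0 < J) :
    E (J + s) (k + t) * (Real.sqrt (2 * Real.pi) / Real.exp 1 ^ 2 *
      Real.exp (-((t * J - k * s) ^ 2 / ((k + t) * s * J))) / Real.sqrt t) ≤ E s t * E J k := by
  have hk0 : (0 : ℝ) < k := by exact_mod_cast hk
  have ht0 : (0 : ℝ) < t := by exact_mod_cast ht
  set N : ℝ := (k : ℝ) + t with hN
  have hN0 : 0 < N := by positivity
  have h1 := Stirling.le_factorial_stirling (k + t)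
  have h2 := factorial_le k hk
  have h3 := factorial_le t ht
  have he : (0 : ℝ) < Real.exp 1 := Real.exp_pos 1
  set e := Real.exp 1 with hedef
  push_cast at h1
  rw [← hN] at h1
  have hexp : ∀ (x : ℝ) (n : ℕ), 0 ≤ x → x ^ n ≤ Real.exp (n * (x - 1)) := by
    intro x n hx
    rw [Real.exp_nat_mul]
    apply pow_le_pow_left₀ hx
    have := Real.add_one_le_exp (x - 1)
    linarith
  set x := t * (J + s) / (N * s) with hx
  set y := k * (J + s) / (N * J) with hy
  have hx0 : 0 < x := by positivity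
  have hy0 : 0 < y := by positivity
  have h4 := hexp x t hx0.le
  have h5 := hexp y k hy0.le
  have hQ : t * (x - 1) + k * (y - 1) = (t * J - k * s) ^ 2 / (N * s * J) := by
    rw [hx, hy, hN]
    have : (k : ℝ) + t ≠ 0 := by positivity
    field_simp
    ring
  have h6 : x ^ t * y ^ k * Real.exp (-((t * J - k * s) ^ 2 / (N * s * J))) ≤ 1 := by
    rw [← hQ, Real.exp_neg, Real.exp_add, ← div_eq_mul_inv, div_le_one (by positivity)]
    exact mul_le_mul h4 h5 (by positivity) (by positivity)
  set X := Real.exp (-((t * J - k * s) ^ 2 / (N * s * J))) with hX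
  have hX0 : 0 < X := Real.exp_pos _
  -- combine
  have hkf : (0 : ℝ) < k.factorial := by positivity
  have htf : (0 : ℝ) < t.factorial := by positivity
  have hNf : (0 : ℝ) < (k + t).factorial := by positivity
  have hst : (0 : ℝ) < Real.sqrt t := Real.sqrt_pos.mpr ht0
  have hsk : (0 : ℝ) < Real.sqrt k := Real.sqrt_pos.mpr hk0
  have hsN : Real.sqrt k ≤ Real.sqrt N := Real.sqrt_le_sqrt (by rw [hN]; linarith)
  have h7 : (t.factorial : ℝ) * k.factorial * (N ^ (k + t) / (k ^ k * t ^ t)) *
      (Real.sqrt (2 * Real.pi) / e ^ 2 / Real.sqrt t) ≤ (k + t).factorial := by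
    calc (t.factorial : ℝ) * k.factorial * (N ^ (k + t) / (k ^ k * t ^ t)) *
          (Real.sqrt (2 * Real.pi) / e ^ 2 / Real.sqrt t)
        ≤ (e * Real.sqrt t * (t / e) ^ t) * (e * Real.sqrt k * (k / e) ^ k) *
          (N ^ (k + t) / (k ^ k * t ^ t)) * (Real.sqrt (2 * Real.pi) / e ^ 2 / Real.sqrt t) := by
          gcongr
      _ = Real.sqrt (2 * Real.pi) * Real.sqrt k * (N / e) ^ (k + t) := by
          rw [div_pow, div_pow, div_pow, pow_add e]
          field_simp
      _ ≤ Real.sqrt (2 * Real.pi) * Real.sqrt N * (N / e) ^ (k + t) := by gcongr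
      _ = Real.sqrt (2 * Real.pi * N) * (N / e) ^ (k + t) := by
          rw [Real.sqrt_mul (x := 2 * Real.pi) (by positivity)]
      _ ≤ _ := h1
  have h8 : (J + s) ^ (k + t) = x ^ t * y ^ k * (s ^ t * J ^ k) * (N ^ (k + t) / (k ^ k * t ^ t)) := by
    rw [hx, hy, div_pow, div_pow, mul_pow, mul_pow, mul_pow, mul_pow, pow_add, pow_add N]
    field_simp
  unfold E
  rw [h8]
  set W := N ^ (k + t) / ((k : ℝ) ^ k * (t : ℝ) ^ t) with hW
  have hW0 : 0 < W := by positivity
  set R := Real.sqrt (2 * Real.pi) / e ^ 2 / Real.sqrt t with hR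
  have hR0 : 0 < R := by positivity
  have h9 : Real.sqrt (2 * Real.pi) / e ^ 2 * X / Real.sqrt t = R * X := by
    rw [hR]; ring
  rw [h9, div_mul_div_comm, div_mul_eq_mul_div, div_le_div_iff₀ hNf (by positivity)]
  calc x ^ t * y ^ k * (s ^ t * J ^ k) * W * (R * X) * (↑t.factorial * ↑k.factorial)
      = (x ^ t * y ^ k * X) * (s ^ t * J ^ k) * (↑t.factorial * ↑k.factorial * W * R) := by ring
    _ ≤ 1 * (s ^ t * J ^ k) * (k + t).factorial := by gcongr
    _ = _ := by ring

lemma w_strict' (n k : ℕ) (hn : 1 ≤ n) (hk : k ≤ n) :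
    w (fun h => h - 1) n k = ((n : ℝ) - k) / (n : ℝ) * E n k := by
  obtain ⟨m, rfl⟩ : ∃ m, n = m + 1 := ⟨n - 1, by omega⟩
  exact w_strict m k hk

/-- The ballot bound. -/
theorem ballot_bound : ∃ C : ℝ, 0 < C ∧ ∀ (J k u : ℕ), 1 ≤ J →
    ballotSum J k u ≤ C * (1 + u + |(J : ℝ) - k|) ^ 3 / J * ((J : ℝ) ^ k / k.factorial) := by
  set c : ℝ := Real.sqrt (2 * Real.pi) / Real.exp 1 ^ 2 * Real.exp (-7) with hc
  have hc0 : 0 < c := by positivity
  refine ⟨2 / c + 1, by positivity, ?_⟩
  intro J k u hJ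
  have hJ0 : (0 : ℝ) < J := by exact_mod_cast hJ
  set D : ℝ := 1 + u + |(J : ℝ) - k| with hD
  have habs : 0 ≤ |(J : ℝ) - k| := abs_nonneg _
  have hu0 : (0 : ℝ) ≤ u := by positivity
  have hD1 : 1 ≤ D := by rw [hD]; linarith
  have hD0 : 0 < D := by linarith
  have hEk : 0 ≤ E J k := by unfold E; positivity
  change ballotSum J k u ≤ (2 / c + 1) * D ^ 3 / J * E J k
  by_cases hcase : (J : ℝ) ≤ D ^ 3
  · -- the range where the trivial bound is enough
    have h1 : ballotSum J k u ≤ E J k := le_trans (ballotSum_le_w u J k) (w_le _ J k)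
    refine le_trans h1 ?_
    have h2 : 1 ≤ (2 / c + 1) * D ^ 3 / J := by
      rw [le_div_iff₀ hJ0, one_mul, add_mul, one_mul]
      have : 0 < 2 / c * D ^ 3 := by positivity
      linarith
    exact le_mul_of_one_le_left hEk h2
  push Not at hcase
  by_cases hku : J + u < k
  · rw [ballotSum_eq_zero u J k hJ hku]
    positivity
  push Not at hku
  -- parameters
  set m : ℕ := u + 1 with hm
  have hm1 : (1 : ℝ) ≤ m := by rw [hm]; push_cast; linarith
  have hmD : (m : ℝ) ≤ D := by rw [hm, hD]; push_cast; linarith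
  have hJkD : |(J : ℝ) - k| ≤ D - 1 := by rw [hD]; linarith
  have hD3 : D - 1 ≤ D ^ 3 / 2 := by nlinarith [sq_nonneg (D - 1), mul_pos hD0 hD0]
  have hk2 : (J : ℝ) / 2 ≤ k := by
    have := (abs_le.mp hJkD).2
    linarith
  have hk0 : (0 : ℝ) < k := by linarith
  have hk1 : 1 ≤ k := by exact_mod_cast (Nat.one_le_iff_ne_zero.mpr (by rintro rfl; simp at hk0))
  have hk3 : (k : ℝ) ≤ 3 / 2 * J := by
    have := (abs_le.mp hJkD).1
    linarith
  set t : ℕ := m ^ 2 with ht
  set s : ℕ := m ^ 2 + m with hs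
  have ht1 : 1 ≤ t := Nat.one_le_pow _ _ (by omega)
  have hs1 : 1 ≤ s := by omega
  have htr : (t : ℝ) = (m : ℝ) ^ 2 := by rw [ht]; push_cast; ring
  have hsr : (s : ℝ) = (m : ℝ) ^ 2 + m := by rw [hs]; push_cast; ring
  have hG := w_concat s t u (by omega) J k
  rw [w_strict' s t hs1 (by omega), w_strict' (J + s) (k + t) (by omega) (by omega)] at hG
  push_cast at hG
  have hB := ballotSum_le_w u J k
  set B := w (fun h => h + u) J k with hBdef
  refine le_trans hB ?_
  have hs0 : (0 : ℝ) < s := by rw [hsr]; positivity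
  have ht0 : (0 : ℝ) < t := by rw [htr]; positivity
  have hbeta := beta_lower k t hk1 ht1 s J hs0 hJ0
  have hsq : Real.sqrt t = m := by rw [htr]; exact Real.sqrt_sq (by linarith)
  rw [hsq] at hbeta
  -- the exponent
  have hQ : (t * J - k * s : ℝ) ^ 2 / ((k + t) * s * J) ≤ 7 := by
    rw [div_le_iff₀ (by positivity)]
    have e1 : (t * J - k * s : ℝ) = t * (J - k) - m * k := by rw [hsr, htr]; ring
    rw [e1]
    have e2 : (t * ((J : ℝ) - k) - m * k) ^ 2 ≤ 2 * (t * ((J : ℝ) - k)) ^ 2 + 2 * (m * k : ℝ) ^ 2 := by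
      linarith [sq_nonneg (t * ((J : ℝ) - k) + m * k)]
    have e3 : ((J : ℝ) - k) ^ 2 ≤ D ^ 2 := by
      rw [← sq_abs]
      apply pow_le_pow_left₀ (abs_nonneg _)
      linarith
    have e4 : (t * ((J : ℝ) - k)) ^ 2 ≤ t ^ 2 * D ^ 2 := by
      rw [mul_pow]; gcongr
    -- t^2 D^2 ≤ s * t * D^2 ≤ s * D^4 ≤ s * J * D
    have e5 : (t : ℝ) ≤ D ^ 2 := by rw [htr]; gcongr
    have e6 : (t : ℝ) ≤ s := by rw [hsr, htr]; linarith
    have e7 : (t : ℝ) ^ 2 * D ^ 2 ≤ s * (D ^ 2 * D ^ 2) := by
      have : (t : ℝ) ^ 2 ≤ s * D ^ 2 := by rw [sq]; gcongr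
      calc (t : ℝ) ^ 2 * D ^ 2 ≤ (s * D ^ 2) * D ^ 2 := by gcongr
        _ = _ := by ring
    have e8 : D ^ 2 * D ^ 2 ≤ J ^ 2 := by
      have h1 : D ^ 2 * D ^ 2 ≤ D ^ 3 * D ^ 3 := by
        have h2 : D ^ 2 ≤ D ^ 3 := by
          have : D ^ 3 = D ^ 2 * D := by ring
          rw [this]
          exact le_mul_of_one_le_right (sq_nonneg D) hD1
        gcongr
      have h3 : D ^ 3 * D ^ 3 ≤ J * J := by gcongr
      rw [sq (J : ℝ)]
      exact le_trans h1 h3
    have e9 : ((m : ℝ) * k) ^ 2 ≤ s * k * (3 / 2 * J) := by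
      have h1 : (m : ℝ) ^ 2 ≤ s := by rw [hsr]; linarith
      calc ((m : ℝ) * k) ^ 2 = (m : ℝ) ^ 2 * k * k := by ring
        _ ≤ (s : ℝ) * k * (3 / 2 * J) := by gcongr
    have e10 : (s : ℝ) * J ^ 2 ≤ 2 * (k * s * J) := by
      have : (J : ℝ) ≤ 2 * k := by linarith
      calc (s : ℝ) * J ^ 2 = s * J * J := by ring
        _ ≤ s * J * (2 * k) := by gcongr
        _ = _ := by ring
    have e11 : (k : ℝ) * s * J ≤ (k + t) * s * J := by
      have : (k : ℝ) ≤ k + t := by linarith
      gcongr
    have e12 : s * (D ^ 2 * D ^ 2) ≤ s * (J : ℝ) ^ 2 := by gcongr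
    linarith
  have hexp : c ≤ Real.sqrt (2 * Real.pi) / Real.exp 1 ^ 2 *
      Real.exp (-((t * J - k * s : ℝ) ^ 2 / ((k + t) * s * J))) := by
    rw [hc]
    gcongr
  set E1 := E (J + s) (k + t) with hE1
  have hE1' : 0 < E1 := by rw [hE1]; unfold E; positivity
  have hE2' : 0 < E s t := by unfold E; positivity
  have hE3' : 0 < E J k := by unfold E; positivity
  have hm0 : (0 : ℝ) < m := by linarith
  have h10 : E1 * c ≤ E s t * E J k * m := by
    have h := le_trans (mul_le_mul_of_nonneg_left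
      (div_le_div_of_nonneg_right hexp hm0.le) hE1'.le) hbeta
    rw [← mul_div_assoc, div_le_iff₀ hm0] at h
    exact h
  -- final computation
  have h11 : (J + s - (k + t) : ℝ) / (J + s) ≤ D / J := by
    have h1 : (J + s - (k + t) : ℝ) ≤ D := by
      rw [hsr, htr, hD]
      have := le_abs_self ((J : ℝ) - k)
      have hmu : (m : ℝ) = u + 1 := by rw [hm]; push_cast; ring
      linarith
    have h2 : (J : ℝ) ≤ J + s := by linarith
    calc (J + s - (k + t) : ℝ) / (J + s) ≤ D / (J + s) := by gcongr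
      _ ≤ D / J := by gcongr
  have h12 : (s - t : ℝ) / s = m / s := by rw [htr]; congr 1; rw [hsr]; ring
  rw [h12] at hG
  have h13 : (m : ℝ) / s * E s t * B ≤ D / J * E1 := by
    refine le_trans hG ?_
    gcongr
  have h14 : (m : ℝ) / s * E s t * B ≤ D / J * (E s t * E J k * m / c) := by
    refine le_trans h13 ?_
    gcongr
    rw [le_div_iff₀ hc0]
    exact h10
  have h15 : B ≤ D * s / (c * J) * E J k := by
    have h1 : (m : ℝ) / s * E s t * (D * s / (c * J) * E J k) =
        D / J * (E s t * E J k * m / c) := by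
      field_simp
    rw [← h1] at h14
    exact le_of_mul_le_mul_left h14 (by positivity)
  refine le_trans h15 ?_
  have h16 : (s : ℝ) ≤ 2 * D ^ 2 := by
    rw [hsr]
    have h1 : (m : ℝ) ^ 2 ≤ D ^ 2 := by gcongr
    have h2 : (m : ℝ) ≤ m ^ 2 := by nlinarith
    linarith
  have h17 : D * s / (c * J) ≤ (2 / c + 1) * D ^ 3 / J := by
    rw [div_le_div_iff₀ (by positivity) hJ0]
    have h1 : D * s ≤ 2 * D ^ 3 := by
      calc D * s ≤ D * (2 * D ^ 2) := by gcongr
        _ = _ := by ring
    have h2 : (2 / c + 1) * D ^ 3 * (c * J) = (2 + c) * D ^ 3 * J := by field_simp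
    rw [h2]
    have h3 : 2 * D ^ 3 ≤ (2 + c) * D ^ 3 :=
      mul_le_mul_of_nonneg_right (by linarith) (pow_pos hD0 3).le
    have h4 : D * s ≤ (2 + c) * D ^ 3 := le_trans h1 h3
    exact mul_le_mul_of_nonneg_right h4 hJ0.le
  exact mul_le_mul_of_nonneg_right h17 hEk

end Pool.Agent.Helper40.Ballot
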