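import Pool.Agent.Helper96.PolyList
import Pool.Agent.Helper96.Defs
import Pool.Agent.Helper94.CSP.Grid

/-!
# Auxiliary facts on runs of programs
-/

set_option autoImplicit false

namespace Pool.Agent.Helper40.Csp

open Pool.Agent.Helper96 T Cmd Function

theorem ok_mono {n g n' g' : ℕ} (hn : n ≤ n') (hg : g ≤ g') (c : Cmd) :
    c.ok n g → c.ok n' g' := by
  induction c with
  | push k a => rintro ⟨h1, h2⟩; exact ⟨by omega, by omega⟩
  | pop k => intro h; exact lt_of_lt_of_le h hn
  | seq p q ihp ihq => rintro ⟨h1, h2⟩; exact ⟨ihp h1, ihq h2⟩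
  | ite k a p q ihp ihq =>
    rintro ⟨h1, h2, h3, h4⟩
    exact ⟨by omega, by omega, ihp h3, ihq h4⟩
  | wh k a p ihp =>
    rintro ⟨h1, h2, h3⟩
    exact ⟨by omega, by omega, ihp h3⟩

theorem exists_ok (c : Cmd) : ∃ N, c.ok N N := by
  induction c with
  | push k a => exact ⟨max k a + 1, by constructor <;> omega⟩
  | pop k => exact ⟨k + 1, by show k < k + 1; omega⟩
  | seq p q ihp ihq =>
    obtain ⟨N1, h1⟩ := ihp
    obtain ⟨N2, h2⟩ := ihq
    exact ⟨max N1 N2, ok_mono (le_max_left _ _) (le_max_left _ _) _ h1,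
      ok_mono (le_max_right _ _) (le_max_right _ _) _ h2⟩
  | ite k a p q ihp ihq =>
    obtain ⟨N1, h1⟩ := ihp
    obtain ⟨N2, h2⟩ := ihq
    refine ⟨max (max N1 N2) (max k a + 1), by omega, by omega, ?_, ?_⟩
    · exact ok_mono (by omega) (by omega) _ h1
    · exact ok_mono (by omega) (by omega) _ h2
  | wh k a p ihp =>
    obtain ⟨N1, h1⟩ := ihp
    refine ⟨max N1 (max k a + 1), by omega, by omega, ?_⟩
    exact ok_mono (by omega) (by omega) _ h1

theorem step_ok {n g : ℕ} {x : List Cmd × Stk} (h : ∀ c ∈ x.1, c.ok n g) :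
    (∀ c ∈ (step x).1, c.ok n g) ∧ ∀ k, n ≤ k → (step x).2 k = x.2 k := by
  obtain ⟨K, s⟩ := x
  cases K with
  | nil => exact ⟨h, fun _ _ => rfl⟩
  | cons c K =>
    have hc : c.ok n g := h c (by simp)
    have hK : ∀ c ∈ K, c.ok n g := fun d hd => h d (by simp [hd])
    cases c with
    | push j a =>
      refine ⟨hK, ?_⟩
      intro k hk
      simp only [step]
      rw [Function.update_of_ne]
      have := hc.1
      omega
    | pop j =>
      refine ⟨hK, ?_⟩
      intro k hk
      simp only [step]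
      rw [Function.update_of_ne]
      have : j < n := hc
      omega
    | seq p q =>
      refine ⟨?_, fun _ _ => rfl⟩
      simp only [step]
      intro d hd
      rcases List.mem_cons.1 hd with rfl | hd
      · exact hc.1
      rcases List.mem_cons.1 hd with rfl | hd
      · exact hc.2
      exact hK d hd
    | ite j a p q =>
      simp only [step]
      split_ifs
      · refine ⟨?_, fun _ _ => rfl⟩
        intro d hd
        rcases List.mem_cons.1 hd with rfl | hd
        · exact hc.2.2.1
        exact hK d hd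
      · refine ⟨?_, fun _ _ => rfl⟩
        intro d hd
        rcases List.mem_cons.1 hd with rfl | hd
        · exact hc.2.2.2
        exact hK d hd
    | wh j a p =>
      simp only [step]
      split_ifs
      · exact ⟨hK, fun _ _ => rfl⟩
      · refine ⟨?_, fun _ _ => rfl⟩
        intro d hd
        rcases List.mem_cons.1 hd with rfl | hd
        · exact hc.2.2
        rcases List.mem_cons.1 hd with rfl | hd
        · exact hc
        exact hK d hd

theorem iter_ok {n g : ℕ} {x : List Cmd × Stk} (h : ∀ c ∈ x.1, c.ok n g) (t : ℕ) :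
    (∀ c ∈ (step^[t] x).1, c.ok n g) ∧ ∀ k, n ≤ k → (step^[t] x).2 k = x.2 k := by
  induction t with
  | zero => exact ⟨h, fun _ _ => rfl⟩
  | succ t ih =>
    rw [Function.iterate_succ_apply']
    have h1 := step_ok ih.1
    exact ⟨h1.1, fun k hk => (h1.2 k hk).trans (ih.2 k hk)⟩

theorem step_append {L : List Cmd} (K : List Cmd) (s : Stk) (hL : L ≠ []) :
    step (L ++ K, s) = ((step (L, s)).1 ++ K, (step (L, s)).2) := by
  cases L with
  | nil => exact absurd rfl hL
  | cons c L =>
    cases c with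
    | push j a => rfl
    | pop j => rfl
    | seq p q => rfl
    | ite j a p q => simp only [List.cons_append, step]; split_ifs <;> rfl
    | wh j a p => simp only [List.cons_append, step]; split_ifs <;> rfl

theorem iter_append {L : List Cmd} (K : List Cmd) (s : Stk) (t : ℕ)
    (h : ∀ t' < t, (step^[t'] (L, s)).1 ≠ []) :
    step^[t] (L ++ K, s) = ((step^[t] (L, s)).1 ++ K, (step^[t] (L, s)).2) := by
  induction t with
  | zero => rfl
  | succ t ih =>
    rw [Function.iterate_succ_apply', ih (fun t' ht' => h t' (by omega)),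
      step_append K _ (h t (by omega)), Function.iterate_succ_apply']

theorem exec_first {c : Cmd} {s s' : Stk} {t : ℕ} (he : Exec c s t s') :
    ∀ t' < t, (step^[t'] ([c], s)).1 ≠ [] := by
  intro t' ht' hnil
  -- take the least such time
  have hex : ∃ u, (step^[u] ([c], s)).1 = [] := ⟨t', hnil⟩
  classical
  set u := Nat.find hex with hu
  have hu1 : (step^[u] ([c], s)).1 = [] := Nat.find_spec hex
  have hu2 : ∀ v < u, (step^[v] ([c], s)).1 ≠ [] := fun v hv => Nat.find_min hex hv
  have hut : u ≤ t' := Nat.find_min' hex hnil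
  have h1 := iter_append [Cmd.push 0 0] s u hu2
  rw [hu1] at h1
  have h2 := he [Cmd.push 0 0]
  obtain ⟨m, rfl⟩ : ∃ m, t = (m + 1) + u := ⟨t - u - 1, by omega⟩
  rw [Function.iterate_add_apply] at h2
  have h3 : step^[u] ([c] ++ [Cmd.push 0 0], s) = step^[u] (c :: [Cmd.push 0 0], s) := rfl
  rw [← h3, h1, Function.iterate_succ_apply] at h2
  have h4 : step ([] ++ [Cmd.push 0 0], (step^[u] ([c], s)).2) =
      ([], Function.update (step^[u] ([c], s)).2 0 (0 :: (step^[u] ([c], s)).2 0)) := rfl
  rw [h4, step_nil_iter] at h2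
  exact absurd (congrArg Prod.fst h2) (by simp)

theorem exec_append {c : Cmd} {s s' : Stk} {t : ℕ} (he : Exec c s t s') (K : List Cmd)
    {t' : ℕ} (ht' : t' ≤ t) :
    step^[t'] (c :: K, s) = ((step^[t'] ([c], s)).1 ++ K, (step^[t'] ([c], s)).2) :=
  iter_append K s t' (fun v hv => exec_first he v (by omega))

theorem exec_quiet {c : Cmd} {s s' : Stk} {t n g k : ℕ} (he : Exec c s t s') (hc : c.ok n g)
    (hk : n ≤ k) (K : List Cmd) {t' : ℕ} (ht' : t' ≤ t) :
    (step^[t'] (c :: K, s)).2 k = s k := by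
  rw [exec_append he K ht']
  exact (iter_ok (x := ([c], s)) (by simpa using hc) t').2 k hk

/-- before time `d` the content of stack `k` does not change, and at time `d` configuration `y`
is reached -/
def Quiet (k : ℕ) (x : List Cmd × Stk) (d : ℕ) (y : List Cmd × Stk) : Prop :=
  step^[d] x = y ∧ ∀ t < d, (step^[t] x).2 k = x.2 k

theorem Quiet.trans {k : ℕ} {x y z : List Cmd × Stk} {d e : ℕ} (h1 : Quiet k x d y)
    (hy : y.2 k = x.2 k) (h2 : Quiet k y e z) : Quiet k x (d + e) z := by
  refine ⟨?_, ?_⟩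
  · rw [Nat.add_comm, Function.iterate_add_apply, h1.1, h2.1]
  · intro t ht
    rcases Nat.lt_or_ge t d with h | h
    · exact h1.2 t h
    · obtain ⟨m, rfl⟩ := Nat.exists_eq_add_of_le h
      rw [Nat.add_comm, Function.iterate_add_apply, h1.1, h2.2 m (by omega), hy]

theorem Quiet.single {k : ℕ} {x y : List Cmd × Stk} (h : step x = y) : Quiet k x 1 y := by
  refine ⟨h, ?_⟩
  intro t ht
  have : t = 0 := by omega
  subst this
  rfl

theorem Quiet.exec {c : Cmd} {s s' : Stk} {t n g k : ℕ} (he : Exec c s t s') (hc : c.ok n g)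
    (hk : n ≤ k) (K : List Cmd) : Quiet k (c :: K, s) t (K, s') :=
  ⟨he K, fun _ ht => exec_quiet he hc hk K ht.le⟩

end Pool.Agent.Helper40.Csp
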