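import Pool.Agent.Helper40.CspBase

/-!
# A slowly running state machine simulated by a grid automaton (module H2 for MP_9e35a6_lc)
-/

set_option autoImplicit false

namespace Pool.Agent.Helper40.Csp

open Pool.Agent.Helper96 T Cmd Function

/-- move the flag from the top of stack `0` to stack `o` -/
def flagC (o : ℕ) : Cmd :=
  seq (pop 0) (ite 0 1 (seq (pop 0) (seq (pop 0) (seq (pop 0) (push o 1))))
    (seq (pop 0) (push o 0)))

theorem flagC_spec (o : ℕ) (ho : o ≠ 0) (K : List Cmd) (b : Bool) (w : List ℕ) (s : Stk)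
    (hs : s 0 = 1 :: (code (enc b) ++ w)) :
    ∃ d s', d ≤ 12 ∧ 1 ≤ d ∧ Quiet o (flagC o :: K, s) d (K, s') ∧ s' 0 = w ∧
      s' o = (if b = true then 1 else 0) :: s o := by
  set s1 : Stk := update s 0 (s 0).tail with hs1
  have e1 : s1 0 = code (enc b) ++ w := by simp [hs1, hs]
  have o1 : s1 o = s o := by simp [hs1, ho]
  have q1 : Quiet o (flagC o :: K, s) 1 (pop 0 :: ite 0 1 (seq (pop 0) (seq (pop 0) (seq (pop 0)
      (push o 1)))) (seq (pop 0) (push o 0)) :: K, s) := Quiet.single rfl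
  have q2 : Quiet o (pop 0 :: ite 0 1 (seq (pop 0) (seq (pop 0) (seq (pop 0)
      (push o 1)))) (seq (pop 0) (push o 0)) :: K, s) 1 (ite 0 1 (seq (pop 0) (seq (pop 0)
      (seq (pop 0) (push o 1)))) (seq (pop 0) (push o 0)) :: K, s1) := Quiet.single rfl
  have q12 := q1.trans rfl q2
  cases b with
  | false =>
    have hh : (s1 0).head? ≠ some 1 := by rw [e1]; simp [enc_false, code]
    have q3 : Quiet o (ite 0 1 (seq (pop 0) (seq (pop 0)
      (seq (pop 0) (push o 1)))) (seq (pop 0) (push o 0)) :: K, s1) 1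
      (seq (pop 0) (push o 0) :: K, s1) := Quiet.single (by simp [step, hh])
    have q4 : Quiet o (seq (pop 0) (push o 0) :: K, s1) 1 (pop 0 :: push o 0 :: K, s1) :=
      Quiet.single rfl
    set s2 : Stk := update s1 0 (s1 0).tail with hs2
    have o2 : s2 o = s o := by simp [hs2, ho, o1]
    have q5 : Quiet o (pop 0 :: push o 0 :: K, s1) 1 (push o 0 :: K, s2) := Quiet.single rfl
    have q6 : Quiet o (push o 0 :: K, s2) 1 (K, update s2 o (0 :: s2 o)) := Quiet.single rfl
    have q := q12.trans (by simpa using o1) (q3.trans rfl (q4.trans rfl (q5.trans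
      (by simp [o2, o1]) q6)))
    refine ⟨_, _, ?_, ?_, q, ?_, ?_⟩
    · norm_num
    · norm_num
    · rw [Function.update_of_ne ho.symm, hs2, Function.update_self, e1]
      simp [enc_false, code]
    · simp [o2]
  | true =>
    have hh : (s1 0).head? = some 1 := by rw [e1]; simp [enc_true, code]
    have q3 : Quiet o (ite 0 1 (seq (pop 0) (seq (pop 0)
      (seq (pop 0) (push o 1)))) (seq (pop 0) (push o 0)) :: K, s1) 1
      (seq (pop 0) (seq (pop 0) (seq (pop 0) (push o 1))) :: K, s1) :=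
      Quiet.single (by simp [step, hh])
    have q4 : Quiet o (seq (pop 0) (seq (pop 0) (seq (pop 0) (push o 1))) :: K, s1) 1
      (pop 0 :: seq (pop 0) (seq (pop 0) (push o 1)) :: K, s1) := Quiet.single rfl
    set s2 : Stk := update s1 0 (s1 0).tail with hs2
    have o2 : s2 o = s o := by simp [hs2, ho, o1]
    have q5 : Quiet o (pop 0 :: seq (pop 0) (seq (pop 0) (push o 1)) :: K, s1) 1
      (seq (pop 0) (seq (pop 0) (push o 1)) :: K, s2) := Quiet.single rfl
    have q6 : Quiet o (seq (pop 0) (seq (pop 0) (push o 1)) :: K, s2) 1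
      (pop 0 :: seq (pop 0) (push o 1) :: K, s2) := Quiet.single rfl
    set s3 : Stk := update s2 0 (s2 0).tail with hs3
    have o3 : s3 o = s o := by simp [hs3, ho, o2]
    have q7 : Quiet o (pop 0 :: seq (pop 0) (push o 1) :: K, s2) 1
      (seq (pop 0) (push o 1) :: K, s3) := Quiet.single rfl
    have q8 : Quiet o (seq (pop 0) (push o 1) :: K, s3) 1 (pop 0 :: push o 1 :: K, s3) :=
      Quiet.single rfl
    set s4 : Stk := update s3 0 (s3 0).tail with hs4
    have o4 : s4 o = s o := by simp [hs4, ho, o3]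
    have q9 : Quiet o (pop 0 :: push o 1 :: K, s3) 1 (push o 1 :: K, s4) := Quiet.single rfl
    have q10 : Quiet o (push o 1 :: K, s4) 1 (K, update s4 o (1 :: s4 o)) := Quiet.single rfl
    have q := q12.trans (by simpa using o1) (q3.trans rfl (q4.trans rfl (q5.trans
      (by simp [o2, o1]) (q6.trans rfl (q7.trans (by simp [o3, o2]) (q8.trans rfl
      (q9.trans (by simp [o4, o3]) q10)))))))
    refine ⟨_, _, ?_, ?_, q, ?_, ?_⟩
    · norm_num
    · norm_num
    · rw [Function.update_of_ne ho.symm, hs4, Function.update_self, hs3, Function.update_self,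
        hs2, Function.update_self, e1]
      simp [enc_true, code]
    · simp [o4]

theorem round_spec {σ : Type} [Enc σ] {Φ : ℕ × σ → Bool × (ℕ × σ)} {c1 : Cmd} {B : ℕ → ℕ}
    (h1 : Rz c1 B Φ) {o : ℕ} (ho : o ≠ 0) (hok : c1.ok o o) (a : ℕ × σ) (s : Stk)
    (hs : s 0 = code (enc a)) (h9 : (s o).head? ≠ some 9) :
    ∃ d s', d ≤ B (sz a) + 20 ∧ 1 ≤ d ∧
      Quiet o ([wh o 9 (seq c1 (flagC o))], s) d ([wh o 9 (seq c1 (flagC o))], s') ∧
      s' 0 = code (enc (Φ a).2) ∧ s' o = (if (Φ a).1 = true then 1 else 0) :: s o := by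
  set Wc := wh o 9 (seq c1 (flagC o)) with hWc
  have q1 : Quiet o ([Wc], s) 1 ([seq c1 (flagC o), Wc], s) :=
    Quiet.single (by simp [hWc, step, h9])
  have q2 : Quiet o ([seq c1 (flagC o), Wc], s) 1 ([c1, flagC o, Wc], s) := Quiet.single rfl
  obtain ⟨t1, ht1, he⟩ := h1 a s [] (by rw [hs, List.append_nil])
  rw [List.append_nil] at he
  set s1 : Stk := update s 0 (code (enc (Φ a))) with hs1
  have o1 : s1 o = s o := by simp [hs1, ho]
  have q3 : Quiet o ([c1, flagC o, Wc], s) t1 ([flagC o, Wc], s1) :=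
    Quiet.exec he hok le_rfl _
  obtain ⟨d, s', hd1, hd2, hq, hw0, hwo⟩ := flagC_spec o ho [Wc] (Φ a).1 (code (enc (Φ a).2)) s1
    (by
      rw [hs1, Function.update_self]
      rfl)
  refine ⟨_, s', ?_, ?_, q1.trans rfl (q2.trans rfl (q3.trans o1 hq)), hw0, ?_⟩
  · omega
  · omega
  · rw [hwo, o1]

/-- A slowly running state machine is simulated by a grid automaton started on a constant row. -/
theorem exists_status {σ : Type} [Enc σ] {nxt : ℕ × σ → σ} {flag : σ → Bool} (s0 : σ)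
    (hn : Poly nxt) (hf : Poly flag) (st : ℕ → σ) (h0 : st 0 = s0)
    (hst : ∀ m, st (m + 1) = nxt (m, st m)) (hsz : ∃ k, ∀ m, sz (st m) ≤ (m + 2) ^ k) :
    ∃ (GZ : GA) (z0 : ℕ) (onZ : ℕ → Bool) (τ : ℕ → ℕ) (k : ℕ),
      GZ.Closed ∧ z0 < GZ.m ∧ StrictMono τ ∧ (∀ m, τ m ≤ (m + 2) ^ k) ∧
      ∀ m t, τ m ≤ t → t < τ (m + 1) →
        onZ (GZ.cell (fun _ => z0) t 0) = flag (st m) := by
  classical
  -- the round function
  have hΦ : Poly (fun p : ℕ × σ => (flag p.2, (p.1 + 1, nxt p))) :=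
    Poly.prodMk (hf.comp Poly.snd₀) (Poly.prodMk (Poly.succ Poly.fst₀) hn)
  obtain ⟨c1, k1, hc1⟩ := hΦ
  obtain ⟨N0, hN0⟩ := exists_ok c1
  set o : ℕ := N0 + 1 with hodef
  have ho : o ≠ 0 := by omega
  have hok : c1.ok o o := ok_mono (by omega) (by omega) _ hN0
  set body : Cmd := seq c1 (flagC o) with hbody
  set P : Cmd := seq (pushL (code (enc ((0 : ℕ), s0)))) (wh o 9 body) with hP
  obtain ⟨g0, hg0⟩ := exists_ok P
  -- the exact sequence of rounds
  have hr := fun (a : ℕ × σ) (s : Stk) => round_spec (Φ := fun p : ℕ × σ =>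
    (flag p.2, (p.1 + 1, nxt p))) hc1 ho hok a s
  -- start
  obtain ⟨tp, _, hep⟩ := pushL_spec (code (enc ((0 : ℕ), s0))) (fun _ => [])
  set S0 : Stk := update (fun _ => ([] : List ℕ)) 0
    (code (enc ((0 : ℕ), s0)) ++ (fun _ => ([] : List ℕ)) 0) with hS0
  have hstart : step^[tp + 1] ([P], fun _ => []) = ([wh o 9 body], S0) := by
    rw [Function.iterate_succ_apply]
    exact hep [wh o 9 body]
  -- sequence of stacks
  have hex : ∀ (x : ℕ × Stk), ∃ y : ℕ × Stk,
      (x.2 0 = code (enc (x.1, st x.1)) ∧ (x.2 o).head? ≠ some 9) →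
      (y.1 ≤ (sz (x.1, st x.1) + 2) ^ k1 + 20 ∧ 1 ≤ y.1 ∧
        Quiet o ([wh o 9 body], x.2) y.1 ([wh o 9 body], y.2) ∧
        y.2 0 = code (enc (x.1 + 1, st (x.1 + 1))) ∧
        y.2 o = (if flag (st x.1) = true then 1 else 0) :: x.2 o) := by
    intro x
    by_cases hx : x.2 0 = code (enc (x.1, st x.1)) ∧ (x.2 o).head? ≠ some 9
    · obtain ⟨d, s', hd1, hd2, hq, hA, hB⟩ := hr (x.1, st x.1) x.2 hx.1 hx.2
      refine ⟨(d, s'), fun _ => ⟨hd1, hd2, hq, ?_, hB⟩⟩
      simp only at hA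
      show s' 0 = _
      rw [hA, hst x.1]
    · exact ⟨x, fun h => absurd h hx⟩
  choose F hF using hex
  -- iterate
  set S : ℕ → Stk := fun m => Nat.rec S0 (fun m s => (F (m, s)).2) m with hS
  have hSsucc : ∀ m, S (m + 1) = (F (m, S m)).2 := fun m => rfl
  have hS0' : S 0 = S0 := rfl
  have hinv : ∀ m, (S m) 0 = code (enc (m, st m)) ∧ ((S m) o).head? ≠ some 9 := by
    intro m
    induction m with
    | zero =>
      rw [hS0', hS0]
      refine ⟨by simp [h0], ?_⟩
      rw [Function.update_of_ne ho]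
      simp
    | succ m ih =>
      obtain ⟨_, _, _, h4, h5⟩ := hF (m, S m) ih
      rw [hSsucc]
      refine ⟨h4, ?_⟩
      rw [h5]
      simp only [List.head?_cons, ne_eq, Option.some.injEq]
      split_ifs <;> norm_num
  set dd : ℕ → ℕ := fun m => (F (m, S m)).1 with hdd
  set TT : ℕ → ℕ := fun m => tp + 1 + ∑ i ∈ Finset.range m, dd i with hTT
  have hTTsucc : ∀ m, TT (m + 1) = TT m + dd m := by
    intro m
    simp only [hTT]
    rw [Finset.sum_range_succ]
    ring
  have hconf : ∀ m, step^[TT m] ([P], fun _ => []) = ([wh o 9 body], S m) := by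
    intro m
    induction m with
    | zero =>
      have : TT 0 = tp + 1 := by simp [hTT]
      rw [this]
      exact hstart
    | succ m ih =>
      obtain ⟨_, _, hq, _, _⟩ := hF (m, S m) (hinv m)
      rw [hTTsucc, Nat.add_comm, Function.iterate_add_apply, ih, hSsucc]
      exact hq.1
  have hdpos : ∀ m, 1 ≤ dd m := fun m => (hF (m, S m) (hinv m)).2.1
  have hhead : ∀ m t, TT (m + 1) ≤ t → t < TT (m + 2) →
      ((step^[t] ([P], fun _ => [])).2 o).head? = some (if flag (st m) = true then 1 else 0) := by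
    intro m t h1 h2
    obtain ⟨v, rfl⟩ := Nat.exists_eq_add_of_le h1
    have h3 := hTTsucc (m + 1)
    have hv : v < dd (m + 1) := by
      have : TT (m + 2) = TT (m + 1) + dd (m + 1) := h3
      omega
    obtain ⟨_, _, hq, _, _⟩ := hF (m + 1, S (m + 1)) (hinv (m + 1))
    rw [Nat.add_comm, Function.iterate_add_apply, hconf (m + 1), hq.2 v hv]
    obtain ⟨_, _, _, _, h5⟩ := hF (m, S m) (hinv m)
    show ((S (m + 1)) o).head? = _
    rw [hSsucc, h5]
    rfl
  -- polynomial bound
  obtain ⟨k2, hk2⟩ := hsz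
  have hpb : IsPB (fun m => (2 * m + 1 + (m + 2) ^ k2 + 1 + 2) ^ k1 + 20) := by
    have hA : IsPB (fun n => (n + 2) ^ k2) := (IsPB.id'.add (IsPB.const 2)).pow k2
    have hB : IsPB (fun m => 2 * m + 1 + (m + 2) ^ k2 + 1 + 2) :=
      (((((IsPB.const 2).mul IsPB.id').add (IsPB.const 1)).add hA).add (IsPB.const 1)).add
        (IsPB.const 2)
    exact (hB.pow k1).add (IsPB.const 20)
  obtain ⟨k3, hk3⟩ := hpb
  have hdb : ∀ m, dd m ≤ (m + 2) ^ k3 := by
    intro m
    have h1 := (hF (m, S m) (hinv m)).1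
    refine le_trans h1 (le_trans ?_ (hk3 m))
    have h2 := hk2 m
    have h3 : sz (m, st m) ≤ 2 * m + 1 + (m + 2) ^ k2 + 1 := by
      rw [sz_prod, sz_nat]; omega
    have h4 : (sz (m, st m) + 2) ^ k1 ≤ (2 * m + 1 + (m + 2) ^ k2 + 1 + 2) ^ k1 :=
      Nat.pow_le_pow_left (by omega) k1
    simp only
    omega
  have hTb : ∀ m, TT m ≤ tp + 1 + m * (m + 2) ^ k3 := by
    intro m
    simp only [hTT]
    have h1 : ∑ i ∈ Finset.range m, dd i ≤ ∑ _i ∈ Finset.range m, (m + 2) ^ k3 := by
      apply Finset.sum_le_sum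
      intro i hi
      have := Finset.mem_range.mp hi
      exact (hdb i).trans (pb_mono' k3 (by omega))
    rw [Finset.sum_const, Finset.card_range, smul_eq_mul] at h1
    omega
  have hpb2 : IsPB (fun m => tp + 1 + (m + 1) * (m + 1 + 2) ^ k3) := by
    have hA : IsPB (fun m => m + 1) := IsPB.id'.add (IsPB.const 1)
    exact (IsPB.const (tp + 1)).add (hA.mul ((hA.add (IsPB.const 2)).pow k3))
  obtain ⟨k4, hk4⟩ := hpb2
  -- the automaton
  set n : ℕ := max g0 (o + 1) with hn'
  set g : ℕ := max g0 1 with hg'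
  have hPok : P.ok n g := ok_mono (le_max_left _ _) (le_max_left _ _) _ hg0
  obtain ⟨GZ, ini, halt, hd, hcl, hini, hrun⟩ := exists_GA P n g hPok
  have hon : o < n := by omega
  refine ⟨GZ, ini (fun _ => none), fun z => decide (hd z ⟨o, hon⟩ = some 1), fun m => TT (m + 1), k4,
    hcl, hini _ (by simp), ?_, fun m => (hTb (m + 1)).trans (hk4 m), ?_⟩
  · apply strictMono_nat_of_lt_succ
    intro m
    have := hTTsucc (m + 1)
    have := hdpos (m + 1)
    show TT (m + 1) < TT (m + 1 + 1)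
    omega
  · intro m t h1 h2
    have h3 := hrun (fun _ => []) (by simp) t
    have h4 := h3.2 ⟨o, hon⟩
    have h5 := hhead m t h1 h2
    simp only at h4
    have h6 : (fun i : ℕ => ini (fun k : Fin n => ([] : List ℕ)[i]?)) =
        fun _ => ini (fun _ => none) := by
      funext i
      simp
    rw [h6] at h4
    simp only
    rw [h4, h5]
    cases flag (st m) <;> simp

end Pool.Agent.Helper40.Csp
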