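import Pool.Agent.Helper4.CspVerifier
import Pool.Agent.Helper69.GridSim
import Pool.Agent.Helper96.PolyList
import Pool.Agent.Helper96.Defs
import Pool.Agent.Helper96.Univ

/-!
# The strings of word structures are polynomial time computable (module H6 for MP_9e35a6_lc)
-/

set_option autoImplicit false

namespace Pool.Agent.Helper40.Csp

open Pool.Agent.Helper96

/-- the relations of word structures on numbers -/
def wrel (N : ℕ) (a : ℕ → ℕ) (r i j : ℕ) : Prop :=
  (r + 2 = 2 ∧ j = i + 1) ∨ (r + 2 = 3 ∧ i = 0 ∧ j = 0) ∨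
    (r + 2 = 4 ∧ i = N - 1 ∧ j = N - 1) ∨ (r + 2 = 12 + a i ∧ j = i)

instance (N : ℕ) (a : ℕ → ℕ) (r i j : ℕ) : Decidable (wrel N a r i j) := by
  unfold wrel; infer_instance

theorem flatMap_finRange {β : Type} (n : ℕ) (f : ℕ → List β) :
    (List.finRange n).flatMap (fun i => f i.1) = (List.range n).flatMap f := by
  rw [← List.map_coe_finRange_eq_range, List.flatMap_map]

theorem map_finRange {β : Type} (n : ℕ) (f : ℕ → β) :
    (List.finRange n).map (fun i => f i.1) = (List.range n).map f := by
  rw [← List.map_coe_finRange_eq_range, List.map_map]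
  rfl

theorem encStr_wordStr (D : TD) (N : ℕ) (a : ℕ → ℕ) :
    encStr (Pool.Agent.Helper69.wordStr D N a) = List.replicate N true ++ false ::
      (List.range D.K).flatMap (fun r => (List.range N).flatMap (fun i =>
        (List.range N).map (fun j => decide (wrel N a r i j)))) := by
  unfold encStr
  congr 2
  rw [← flatMap_finRange]
  congr 1
  funext r
  rw [← flatMap_finRange]
  congr 1
  funext i
  rw [← map_finRange]
  apply List.map_congr_left
  intro j _
  apply decide_eq_decide.mpr
  exact Iff.rfl

theorem poly_word (D : TD) {Nf : List Bool → ℕ} (hN : Poly Nf) :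
    Poly (fun x : List Bool => encStr (Pool.Agent.Helper69.wordStr D (Nf x)
      (Pool.Agent.Helper4.letters x))) := by
  simp_rw [encStr_wordStr]
  have hlet : Poly (fun q : List Bool × ℕ => Pool.Agent.Helper4.letters q.1 q.2) := by
    unfold Pool.Agent.Helper4.letters
    have h1 : Poly (fun q : List Bool × ℕ => T.code (enc q.1)) :=
      Helper96.Poly.code ((Helper96.Poly.toTree _).comp Helper96.Poly.fst₀)
    exact Helper96.Poly.getD (Helper96.Poly.getElem? Helper96.Poly.snd₀ h1) (Helper96.Poly.const 2)
  have hrel : Poly (fun q : ((List Bool × ℕ) × ℕ) × ℕ =>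
      decide (wrel (Nf q.1.1.1) (Pool.Agent.Helper4.letters q.1.1.1) q.1.1.2 q.1.2 q.2)) := by
    have hNq : Poly (fun q : ((List Bool × ℕ) × ℕ) × ℕ => Nf q.1.1.1) := by fun_prop
    have hl : Poly (fun q : ((List Bool × ℕ) × ℕ) × ℕ =>
        Pool.Agent.Helper4.letters q.1.1.1 q.1.2) :=
      hlet.comp (f := fun q : ((List Bool × ℕ) × ℕ) × ℕ => (q.1.1.1, q.1.2)) (by fun_prop)
    unfold wrel
    fun_prop
  have hinner : Poly (fun q : (List Bool × ℕ) × ℕ => (List.range (Nf q.1.1)).map (fun j =>
      decide (wrel (Nf q.1.1) (Pool.Agent.Helper4.letters q.1.1) q.1.2 q.2 j))) :=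
    Helper96.Poly.map (h := fun (q : (List Bool × ℕ) × ℕ) j =>
      decide (wrel (Nf q.1.1) (Pool.Agent.Helper4.letters q.1.1) q.1.2 q.2 j))
      (Helper96.Poly.range (hN.comp (f := fun q : (List Bool × ℕ) × ℕ => q.1.1) (by fun_prop))) hrel
  have hmid : Poly (fun q : List Bool × ℕ => (List.range (Nf q.1)).flatMap (fun i =>
      (List.range (Nf q.1)).map (fun j =>
        decide (wrel (Nf q.1) (Pool.Agent.Helper4.letters q.1) q.2 i j)))) :=
    Helper96.Poly.flatMap (h := fun (q : List Bool × ℕ) i => (List.range (Nf q.1)).map (fun j =>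
        decide (wrel (Nf q.1) (Pool.Agent.Helper4.letters q.1) q.2 i j)))
      (Helper96.Poly.range (hN.comp (f := fun q : List Bool × ℕ => q.1) (by fun_prop))) hinner
  have houter : Poly (fun x : List Bool => (List.range D.K).flatMap (fun r =>
      (List.range (Nf x)).flatMap (fun i => (List.range (Nf x)).map (fun j =>
        decide (wrel (Nf x) (Pool.Agent.Helper4.letters x) r i j))))) :=
    Helper96.Poly.flatMap (h := fun (x : List Bool) r => (List.range (Nf x)).flatMap (fun i =>
      (List.range (Nf x)).map (fun j =>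
        decide (wrel (Nf x) (Pool.Agent.Helper4.letters x) r i j))))
      (Helper96.Poly.const _) hmid
  exact Helper96.Poly.append (Helper96.Poly.replicate hN (Helper96.Poly.const true)) (Helper96.Poly.cons (Helper96.Poly.const false) houter)

end Pool.Agent.Helper40.Csp
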