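import Mathlib

/-!
# Cyclic averaging of weighted ballot-type sums
-/

set_option autoImplicit false
set_option linter.unusedSectionVars false

namespace Pool.Agent.Helper40.Low

open Finset

section cyc

variable {J : ℕ} [NeZero J]

/-- Initial sums of the periodic extension of `b`. -/
def psum (b : ZMod J → ℕ) (h : ℕ) : ℕ := ∑ i ∈ range h, b (i : ZMod J)

/-- `Q b h = 2 ^ (psum b h - h)`. -/
noncomputable def Q (b : ZMod J → ℕ) (h : ℕ) : ℝ := 2 ^ (psum b h) / 2 ^ h

/-- The function `F` of the blueprint. -/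
noncomputable def F (b : ZMod J → ℕ) : ℝ := ∑ h ∈ range J, Q b (h + 1)

/-- Cyclic shift. -/
def shift (s : ℕ) (b : ZMod J → ℕ) : ZMod J → ℕ := fun x => b (x + s)

/-- The weight `1 / ∏ b_i!`. -/
noncomputable def wt (b : ZMod J → ℕ) : ℝ := ∏ i, (1 : ℝ) / ((b i).factorial : ℝ)

lemma wt_pos (b : ZMod J → ℕ) : 0 < wt b := Finset.prod_pos fun i _ => by positivity

lemma Q_pos (b : ZMod J → ℕ) (h : ℕ) : 0 < Q b h := by unfold Q; positivity

lemma F_pos (b : ZMod J → ℕ) : 0 < F b := by
  unfold F
  exact Finset.sum_pos (fun h _ => Q_pos b _) (by simpa using NeZero.ne J)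

lemma psum_shift (s : ℕ) (b : ZMod J → ℕ) (h : ℕ) :
    psum (shift s b) h + psum b s = psum b (s + h) := by
  unfold psum shift
  rw [Finset.sum_range_add, add_comm]
  congr 1
  apply Finset.sum_congr rfl
  intro i _
  push_cast
  rw [add_comm]

lemma sum_range_cast (g : ZMod J → ℝ) : ∑ i ∈ range J, g (i : ZMod J) = ∑ x, g x := by
  apply Finset.sum_bij (fun (i : ℕ) _ => (i : ZMod J))
  · intro i _; simp
  · intro i hi j hj hij
    rw [Finset.mem_range] at hi hj
    have := congrArg ZMod.val hij
    rwa [ZMod.val_natCast_of_lt hi, ZMod.val_natCast_of_lt hj] at this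
  · intro x _
    exact ⟨x.val, by simpa using ZMod.val_lt x, by simp⟩
  · intro i _; rfl

lemma psum_full (b : ZMod J → ℕ) : psum b J = ∑ x, b x := by
  have := sum_range_cast (J := J) (fun x => (b x : ℝ))
  unfold psum
  exact_mod_cast this

lemma psum_add (b : ZMod J → ℕ) (h : ℕ) : psum b (h + J) = psum b h + ∑ x, b x := by
  have h1 := psum_shift J b h
  have h2 : shift J b = b := by
    funext x; unfold shift; simp
  rw [h2, psum_full] at h1
  rw [add_comm h J, ← h1]

lemma Q_shift (s : ℕ) (b : ZMod J → ℕ) (h : ℕ) : Q (shift s b) h = Q b (s + h) / Q b s := by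
  unfold Q
  rw [← psum_shift s b h, pow_add, pow_add]
  field_simp

lemma F_shift (s : ℕ) (b : ZMod J → ℕ) :
    F (shift s b) = (∑ h ∈ range J, Q b (s + (h + 1))) / Q b s := by
  unfold F
  rw [Finset.sum_div]
  exact Finset.sum_congr rfl fun h _ => Q_shift s b _

lemma window_succ (b : ZMod J → ℕ) (s : ℕ) :
    ∑ h ∈ range J, Q b (s + 1 + h) = ∑ h ∈ range J, Q b (s + h) - Q b s + Q b (s + J) := by
  have h1 := Finset.sum_range_succ (fun h => Q b (s + h)) J
  have h2 := Finset.sum_range_succ' (fun h => Q b (s + h)) J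
  have h3 : ∑ h ∈ range J, Q b (s + 1 + h) = ∑ h ∈ range J, Q b (s + (h + 1)) :=
    Finset.sum_congr rfl fun h _ => by congr 1; ring
  rw [h3]
  simp only [add_zero] at h2
  linarith

lemma window_eq (b : ZMod J → ℕ) (hb : ∑ x, b x = J) (s : ℕ) :
    ∑ h ∈ range J, Q b (s + h) = ∑ h ∈ range J, Q b h := by
  induction s with
  | zero => simp
  | succ s ih =>
    rw [window_succ, ih]
    have : Q b (s + J) = Q b s := by
      unfold Q
      rw [psum_add, hb, pow_add, pow_add]
      field_simp
    rw [this]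
    ring

lemma window_ge (b : ZMod J → ℕ) (hb : ∑ x, b x + 1 = J) (s : ℕ) :
    ∑ h ∈ range J, Q b (s + h) = ∑ h ∈ range J, Q b h - (∑ i ∈ range s, Q b i) / 2 := by
  induction s with
  | zero => simp
  | succ s ih =>
    rw [window_succ, ih]
    have : Q b (s + J) = Q b s / 2 := by
      have e1 : (2 : ℝ) ^ J = 2 ^ (∑ x, b x) * 2 := by rw [← pow_succ, hb]
      unfold Q
      rw [psum_add, pow_add, pow_add, e1]
      field_simp
    rw [this, Finset.sum_range_succ]
    ring

lemma sum_inv_F (b : ZMod J → ℕ) (hb : ∑ x, b x = J) :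
    ∑ s ∈ range J, 1 / F (shift s b) = 1 := by
  have hS : 0 < ∑ h ∈ range J, Q b h :=
    Finset.sum_pos (fun h _ => Q_pos b _) (by simpa using NeZero.ne J)
  have h1 : ∀ s ∈ range J, 1 / F (shift s b) = Q b s / ∑ h ∈ range J, Q b h := by
    intro s _
    rw [F_shift]
    have h2 : ∑ h ∈ range J, Q b (s + (h + 1)) = ∑ h ∈ range J, Q b h := by
      rw [← window_eq b hb (s + 1)]
      exact Finset.sum_congr rfl fun h _ => by congr 1; ring
    rw [h2, one_div_div]
  rw [Finset.sum_congr rfl h1, ← Finset.sum_div, div_self hS.ne']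

lemma sum_inv_F_le (b : ZMod J → ℕ) (hb : ∑ x, b x + 1 = J) :
    ∑ s ∈ range J, 1 / F (shift s b) ≤ 2 := by
  have hS : 0 < ∑ h ∈ range J, Q b h :=
    Finset.sum_pos (fun h _ => Q_pos b _) (by simpa using NeZero.ne J)
  have h1 : ∀ s ∈ range J, 1 / F (shift s b) ≤ 2 * (Q b s / ∑ h ∈ range J, Q b h) := by
    intro s hs
    rw [F_shift]
    have h2 : (∑ h ∈ range J, Q b h) / 2 ≤ ∑ h ∈ range J, Q b (s + (h + 1)) := by
      have h3 := window_ge b hb (s + 1)
      have h4 : ∑ h ∈ range J, Q b (s + (h + 1)) = ∑ h ∈ range J, Q b (s + 1 + h) :=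
        Finset.sum_congr rfl fun h _ => by congr 1; ring
      rw [h4, h3]
      have h5 : ∑ i ∈ range (s + 1), Q b i ≤ ∑ i ∈ range J, Q b i := by
        apply Finset.sum_le_sum_of_subset_of_nonneg
        · intro i hi
          rw [Finset.mem_range] at hi hs ⊢
          omega
        · intro i _ _; exact (Q_pos b i).le
      linarith
    rw [one_div_div]
    have hQ := Q_pos b s
    calc Q b s / ∑ h ∈ range J, Q b (s + (h + 1)) ≤ Q b s / ((∑ h ∈ range J, Q b h) / 2) := by
          gcongr
      _ = _ := by field_simp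
  calc ∑ s ∈ range J, 1 / F (shift s b) ≤ ∑ s ∈ range J, 2 * (Q b s / ∑ h ∈ range J, Q b h) :=
        Finset.sum_le_sum h1
    _ = 2 := by rw [← Finset.mul_sum, ← Finset.sum_div, div_self hS.ne', mul_one]

lemma shift_bij (s : ℕ) (k : ℕ) (G : (ZMod J → ℕ) → ℝ) :
    ∑ b ∈ piAntidiag (univ : Finset (ZMod J)) k, G (shift s b) =
      ∑ b ∈ piAntidiag (univ : Finset (ZMod J)) k, G b := by
  have h1 : ∀ b ∈ piAntidiag (univ : Finset (ZMod J)) k,
      shift s b ∈ piAntidiag (univ : Finset (ZMod J)) k := by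
    intro b hb
    rw [mem_piAntidiag] at hb ⊢
    refine ⟨?_, fun i _ => mem_univ i⟩
    rw [← hb.1]
    unfold shift
    exact Equiv.sum_comp (Equiv.addRight (s : ZMod J)) b
  have h2 : ∀ b ∈ piAntidiag (univ : Finset (ZMod J)) k,
      (fun x => b (x - (s : ZMod J))) ∈ piAntidiag (univ : Finset (ZMod J)) k := by
    intro b hb
    rw [mem_piAntidiag] at hb ⊢
    refine ⟨?_, fun i _ => mem_univ i⟩
    rw [← hb.1]
    exact Equiv.sum_comp (Equiv.subRight (s : ZMod J)) b
  refine Finset.sum_bij' (fun b _ => shift s b) (fun b _ => fun x => b (x - (s : ZMod J)))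
    h1 h2 ?_ ?_ ?_
  · intro b _
    funext x
    unfold shift
    simp
  · intro b _
    funext x
    unfold shift
    simp
  · intro b _; rfl

lemma wt_shift (s : ℕ) (b : ZMod J → ℕ) : wt (shift s b) = wt b := by
  unfold wt shift
  exact Equiv.prod_comp (Equiv.addRight (s : ZMod J)) (fun x => (1 : ℝ) / ((b x).factorial : ℝ))

lemma sum_wt (k : ℕ) :
    ∑ b ∈ piAntidiag (univ : Finset (ZMod J)) k, wt b = (J : ℝ) ^ k / k.factorial := by
  have h := Finset.sum_pow_eq_sum_piAntidiag (univ : Finset (ZMod J)) (fun _ => (1 : ℝ)) k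
  simp only [Finset.sum_const, Finset.card_univ, ZMod.card, nsmul_eq_mul, mul_one, one_pow,
    Finset.prod_const_one] at h
  rw [h, Finset.sum_div]
  apply Finset.sum_congr rfl
  intro b hb
  rw [mem_piAntidiag] at hb
  have h1 := Nat.multinomial_spec (univ : Finset (ZMod J)) b
  rw [hb.1] at h1
  have h2 : (k.factorial : ℝ) = (∏ i, ((b i).factorial : ℝ)) * (Nat.multinomial univ b : ℝ) := by
    rw [← h1]; push_cast; rfl
  have h3 : (0 : ℝ) < ∏ i, ((b i).factorial : ℝ) := Finset.prod_pos fun i _ => by positivity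
  have h4 : (0 : ℝ) < (Nat.multinomial univ b : ℝ) := by
    exact_mod_cast Nat.multinomial_pos (univ : Finset (ZMod J)) b
  unfold wt
  rw [Finset.prod_div_distrib, Finset.prod_const_one, h2]
  field_simp

/-- `T k` is the sum of `wt b / F b` over all `b` with total `k`. -/
noncomputable def T (J : ℕ) [NeZero J] (k : ℕ) : ℝ :=
  ∑ b ∈ piAntidiag (univ : Finset (ZMod J)) k, wt b / F b

lemma T_avg (k : ℕ) : (J : ℝ) * T J k =
    ∑ b ∈ piAntidiag (univ : Finset (ZMod J)) k, wt b * ∑ s ∈ range J, 1 / F (shift s b) := by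
  have h1 : ∀ s ∈ range J, ∑ b ∈ piAntidiag (univ : Finset (ZMod J)) k,
      wt b * (1 / F (shift s b)) = T J k := by
    intro s _
    unfold T
    rw [← shift_bij s k (fun b => wt b / F b)]
    apply Finset.sum_congr rfl
    intro b _
    rw [wt_shift, mul_one_div]
  simp_rw [Finset.mul_sum]
  rw [Finset.sum_comm, Finset.sum_congr rfl h1]
  simp

lemma T_eq : T J J = (J : ℝ) ^ J / J.factorial / J := by
  have hJ : (J : ℝ) ≠ 0 := by exact_mod_cast NeZero.ne J
  have h := T_avg (J := J) J
  have h1 : ∑ b ∈ piAntidiag (univ : Finset (ZMod J)) J,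
      wt b * ∑ s ∈ range J, 1 / F (shift s b) = (J : ℝ) ^ J / J.factorial := by
    rw [← sum_wt J]
    apply Finset.sum_congr rfl
    intro b hb
    rw [mem_piAntidiag] at hb
    rw [sum_inv_F b hb.1, mul_one]
  rw [h1] at h
  rw [← h]
  field_simp

lemma T_pred_le (k : ℕ) (hk : k + 1 = J) : T J k ≤ 2 * T J J := by
  have hJ : (0 : ℝ) < J := by exact_mod_cast Nat.pos_of_ne_zero (NeZero.ne J)
  have h := T_avg (J := J) k
  have h1 : ∑ b ∈ piAntidiag (univ : Finset (ZMod J)) k,
      wt b * ∑ s ∈ range J, 1 / F (shift s b) ≤ 2 * ((J : ℝ) ^ k / k.factorial) := by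
    rw [← sum_wt k, Finset.mul_sum]
    apply Finset.sum_le_sum
    intro b hb
    rw [mem_piAntidiag] at hb
    have := sum_inv_F_le b (by rw [hb.1, hk])
    have hw := wt_pos b
    nlinarith
  rw [← h] at h1
  rw [T_eq]
  have h2 : (J : ℝ) ^ J / J.factorial = (J : ℝ) ^ k / k.factorial := by
    have h3 : (J.factorial : ℝ) = J * k.factorial := by
      have : J.factorial = J * k.factorial := by
        rw [← hk, Nat.factorial_succ]
      rw [this]; push_cast; ring
    have h4 : (J : ℝ) ^ J = J ^ k * J := by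
      conv_lhs => rw [← hk]
      rw [hk, ← pow_succ, hk]
    rw [h3, h4]
    field_simp
  rw [h2]
  calc T J k = (J * T J k) / J := by field_simp
    _ ≤ 2 * ((J : ℝ) ^ k / k.factorial) / J := by gcongr
    _ = _ := by ring

lemma psum_mono {b c : ZMod J → ℕ} (h : ∀ x, b x ≤ c x) (n : ℕ) : psum b n ≤ psum c n :=
  Finset.sum_le_sum fun _ _ => h _

lemma F_mono {b c : ZMod J → ℕ} (h : ∀ x, b x ≤ c x) : F b ≤ F c := by
  unfold F Q
  apply Finset.sum_le_sum
  intro i _
  have := psum_mono h (i + 1)
  gcongr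
  norm_num

lemma one_le_F (b : ZMod J → ℕ) (hb : ∑ x, b x = J) : 1 ≤ F b := by
  have h1 : Q b J = 1 := by
    unfold Q
    rw [psum_full, hb]
    field_simp
  have hJ : J ≠ 0 := NeZero.ne J
  have h2 : Q b (J - 1 + 1) ≤ F b := by
    unfold F
    exact Finset.single_le_sum (f := fun h => Q b (h + 1)) (fun i _ => (Q_pos b _).le)
      (by rw [Finset.mem_range]; omega)
  have h3 : J - 1 + 1 = J := by omega
  rw [h3, h1] at h2
  exact h2

lemma moment (k : ℕ) (hk : k + 1 = J) (l : ZMod J) :
    ∑ b ∈ piAntidiag (univ : Finset (ZMod J)) J, wt b / F b * (b l : ℝ) ≤ T J k := by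
  classical
  have h0 : ∑ b ∈ piAntidiag (univ : Finset (ZMod J)) J, wt b / F b * (b l : ℝ) =
      ∑ b ∈ (piAntidiag (univ : Finset (ZMod J)) J).filter (fun b => b l ≠ 0),
        wt b / F b * (b l : ℝ) := by
    rw [Finset.sum_filter]
    apply Finset.sum_congr rfl
    intro b _
    split_ifs with h
    · rfl
    · push Not at h
      simp [h]
  rw [h0]
  have hinj : Set.InjOn (fun b : ZMod J → ℕ => Function.update b l (b l - 1))
      ((piAntidiag (univ : Finset (ZMod J)) J).filter (fun b => b l ≠ 0)) := by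
    intro b hb c hc hbc
    rw [Finset.mem_coe, Finset.mem_filter] at hb hc
    funext x
    by_cases hx : x = l
    · subst hx
      have := congrFun hbc x
      simp only [Function.update_self] at this
      omega
    · have := congrFun hbc x
      simpa [Function.update_of_ne hx] using this
  have himg : ((piAntidiag (univ : Finset (ZMod J)) J).filter (fun b => b l ≠ 0)).image
      (fun b : ZMod J → ℕ => Function.update b l (b l - 1)) ⊆
      piAntidiag (univ : Finset (ZMod J)) k := by
    intro c hc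
    rw [Finset.mem_image] at hc
    obtain ⟨b, hb, rfl⟩ := hc
    rw [Finset.mem_filter, mem_piAntidiag] at hb
    rw [mem_piAntidiag]
    refine ⟨?_, fun i _ => mem_univ i⟩
    have h1 := hb.1.1
    rw [← Finset.add_sum_erase univ b (mem_univ l)] at h1
    have h2 : univ.sum (Function.update b l (b l - 1)) = (b l - 1) + ∑ x ∈ univ.erase l, b x := by
      rw [← Finset.add_sum_erase univ _ (mem_univ l), Function.update_self]
      congr 1
      apply Finset.sum_congr rfl
      intro x hx
      rw [Function.update_of_ne (Finset.ne_of_mem_erase hx)]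
    rw [h2]
    have h3 := hb.2
    omega
  have hle : ∀ b ∈ (piAntidiag (univ : Finset (ZMod J)) J).filter (fun b => b l ≠ 0),
      wt b / F b * (b l : ℝ) ≤ wt (Function.update b l (b l - 1)) /
        F (Function.update b l (b l - 1)) := by
    intro b hb
    rw [Finset.mem_filter] at hb
    set c := Function.update b l (b l - 1) with hc
    have hcb : ∀ x, c x ≤ b x := by
      intro x
      by_cases hx : x = l
      · subst hx; rw [hc, Function.update_self]; omega
      · rw [hc, Function.update_of_ne hx]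
    have hF := F_mono hcb
    have hw : wt b * (b l : ℝ) = wt c := by
      unfold wt
      rw [← Finset.mul_prod_erase univ _ (mem_univ l), ← Finset.mul_prod_erase univ _ (mem_univ l)]
      have h4 : ∏ x ∈ univ.erase l, (1 : ℝ) / ((c x).factorial : ℝ) =
          ∏ x ∈ univ.erase l, (1 : ℝ) / ((b x).factorial : ℝ) := by
        apply Finset.prod_congr rfl
        intro x hx
        rw [hc, Function.update_of_ne (Finset.ne_of_mem_erase hx)]
      rw [h4, hc, Function.update_self]
      obtain ⟨m, hm⟩ : ∃ m, b l = m + 1 := ⟨b l - 1, by have := hb.2; omega⟩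
      rw [hm, Nat.add_sub_cancel, Nat.factorial_succ]
      have : ((m : ℝ) + 1) ≠ 0 := by positivity
      have : (m.factorial : ℝ) ≠ 0 := by positivity
      push_cast
      field_simp
    rw [div_mul_eq_mul_div, hw]
    have := wt_pos c
    have := F_pos c
    gcongr
  calc _ ≤ ∑ b ∈ (piAntidiag (univ : Finset (ZMod J)) J).filter (fun b => b l ≠ 0),
        wt (Function.update b l (b l - 1)) / F (Function.update b l (b l - 1)) :=
        Finset.sum_le_sum hle
    _ = ∑ c ∈ ((piAntidiag (univ : Finset (ZMod J)) J).filter (fun b => b l ≠ 0)).image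
          (fun b : ZMod J → ℕ => Function.update b l (b l - 1)), wt c / F c := by
        rw [Finset.sum_image hinj]
    _ ≤ T J k := Finset.sum_le_sum_of_subset_of_nonneg himg fun b _ _ =>
        div_nonneg (wt_pos b).le (F_pos b).le

/-- The weights used in the Markov step. -/
noncomputable def theta (J i : ℕ) : ℝ := 1 / 2 ^ i + 2 ^ i / 2 ^ J

lemma theta_pos (J i : ℕ) : 0 < theta J i := by unfold theta; positivity

lemma sum_theta (J : ℕ) : ∑ i ∈ range J, theta J i ≤ 3 := by
  unfold theta
  rw [Finset.sum_add_distrib, ← Finset.sum_div]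
  have h1 : ∑ i ∈ range J, (1 : ℝ) / 2 ^ i ≤ 2 := by
    have := sum_geometric_two_le J
    simpa [one_div] using this
  have h2 : ∑ i ∈ range J, (2 : ℝ) ^ i = 2 ^ J - 1 := by
    have := geom_sum_eq (x := (2 : ℝ)) (by norm_num) J
    rw [this]; norm_num
  rw [h2, sub_div, div_self (by positivity)]
  have h3 : (0 : ℝ) ≤ 1 / 2 ^ J := by positivity
  linarith

/-- The set of vectors `b` used for the lower bound. -/
noncomputable def good (J : ℕ) [NeZero J] : Finset (ZMod J → ℕ) := by
  classical
  exact (piAntidiag (univ : Finset (ZMod J)) J).filter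
    (fun b => ∑ i ∈ range J, (b (i : ZMod J) : ℝ) * theta J i ≤ 12)

theorem good_sum : (J : ℝ) ^ J / J.factorial / J / 2 ≤ ∑ b ∈ good J, wt b / F b := by
  classical
  have hJ : J ≠ 0 := NeZero.ne J
  rw [← T_eq]
  obtain ⟨k, hk⟩ : ∃ k, k + 1 = J := ⟨J - 1, by omega⟩
  have hT := T_pred_le k hk
  unfold good
  set A := piAntidiag (univ : Finset (ZMod J)) J with hA
  have hsplit := Finset.sum_filter_add_sum_filter_not A
    (fun b => ∑ i ∈ range J, (b (i : ZMod J) : ℝ) * theta J i ≤ 12) (fun b => wt b / F b)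
  have hTdef : T J J = ∑ b ∈ A, wt b / F b := rfl
  rw [← hTdef] at hsplit
  have hbad : ∑ b ∈ A.filter (fun b => ¬ ∑ i ∈ range J, (b (i : ZMod J) : ℝ) * theta J i ≤ 12),
      wt b / F b ≤ T J J / 2 := by
    have h1 : ∑ b ∈ A.filter (fun b => ¬ ∑ i ∈ range J, (b (i : ZMod J) : ℝ) * theta J i ≤ 12),
        wt b / F b ≤ ∑ b ∈ A, wt b / F b * ((∑ i ∈ range J, (b (i : ZMod J) : ℝ) * theta J i) / 12) := by
      refine le_trans (Finset.sum_le_sum (g := fun b => wt b / F b *
        ((∑ i ∈ range J, (b (i : ZMod J) : ℝ) * theta J i) / 12)) ?_) ?_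
      · intro b hb
        rw [Finset.mem_filter] at hb
        have h2 := hb.2
        push Not at h2
        have h3 : 0 ≤ wt b / F b := div_nonneg (wt_pos b).le (F_pos b).le
        have h4 : 1 ≤ (∑ i ∈ range J, (b (i : ZMod J) : ℝ) * theta J i) / 12 := by linarith
        exact le_mul_of_one_le_right h3 h4
      · apply Finset.sum_le_sum_of_subset_of_nonneg (Finset.filter_subset _ _)
        intro b _ _
        have h3 : 0 ≤ wt b / F b := div_nonneg (wt_pos b).le (F_pos b).le
        have h4 : 0 ≤ ∑ i ∈ range J, (b (i : ZMod J) : ℝ) * theta J i :=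
          Finset.sum_nonneg fun i _ => mul_nonneg (by positivity) (theta_pos J i).le
        positivity
    have h2 : ∑ b ∈ A, wt b / F b * ((∑ i ∈ range J, (b (i : ZMod J) : ℝ) * theta J i) / 12) =
        (∑ i ∈ range J, theta J i * ∑ b ∈ A, wt b / F b * (b (i : ZMod J) : ℝ)) / 12 := by
      simp_rw [Finset.mul_sum]
      rw [Finset.sum_comm, Finset.sum_div]
      apply Finset.sum_congr rfl
      intro b _
      rw [Finset.sum_div, ← Finset.sum_div, mul_div_assoc', Finset.mul_sum]
      congr 1
      apply Finset.sum_congr rfl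
      intro i _
      ring
    rw [h2] at h1
    have h3 : ∑ i ∈ range J, theta J i * ∑ b ∈ A, wt b / F b * (b (i : ZMod J) : ℝ) ≤
        ∑ i ∈ range J, theta J i * (2 * T J J) := by
      apply Finset.sum_le_sum
      intro i _
      exact mul_le_mul_of_nonneg_left (le_trans (moment k hk _) hT) (theta_pos J i).le
    rw [← Finset.sum_mul] at h3
    have hTpos : 0 ≤ T J J := Finset.sum_nonneg fun b _ => div_nonneg (wt_pos b).le (F_pos b).le
    have h4 := mul_le_mul_of_nonneg_right (sum_theta J) (by positivity : 0 ≤ 2 * T J J)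
    linarith
  linarith

end cyc

end Pool.Agent.Helper40.Low
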