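import Mathlib
import Pool.Agent.Helper44.Defs

/-!
# Sums over products of distinct primes from prescribed boxes
-/

set_option autoImplicit false

namespace Pool.Agent.Helper40.Low

open Finset

/-- Product of the elements of a set. -/
def PP (S : Finset ℕ) : ℕ := ∏ q ∈ S, q

/-- The two numbers are within a factor `2`. -/
def Rel (x y : ℕ) : Prop := x < 2 * y ∧ y < 2 * x

instance (x y : ℕ) : Decidable (Rel x y) := by unfold Rel; infer_instance

lemma Rel_symm {x y : ℕ} : Rel x y ↔ Rel y x := by unfold Rel; tauto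

lemma Rel_mul {q x y : ℕ} (hq : 0 < q) : Rel (q * x) (q * y) ↔ Rel x y := by
  unfold Rel
  constructor
  · rintro ⟨h1, h2⟩
    constructor
    · exact Nat.lt_of_mul_lt_mul_left (a := q) (by linarith)
    · exact Nat.lt_of_mul_lt_mul_left (a := q) (by linarith)
  · rintro ⟨h1, h2⟩
    constructor
    · have := Nat.mul_lt_mul_of_pos_left h1 hq; linarith
    · have := Nat.mul_lt_mul_of_pos_left h2 hq; linarith

/-- Number of pairs of subsets whose products are within a factor `2`. -/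
noncomputable def W (S : Finset ℕ) : ℝ :=
  ∑ Y ∈ S.powerset, ∑ Z ∈ S.powerset, if Rel (PP Y) (PP Z) then (1 : ℝ) else 0

/-- Cross pairs. -/
noncomputable def Wc (q : ℕ) (S : Finset ℕ) : ℝ :=
  ∑ Y ∈ S.powerset, ∑ Z ∈ S.powerset, if Rel (q * PP Y) (PP Z) then (1 : ℝ) else 0

lemma PP_insert {q : ℕ} {S : Finset ℕ} (h : q ∉ S) : PP (insert q S) = q * PP S := by
  unfold PP; rw [Finset.prod_insert h]

lemma W_insert {q : ℕ} {S : Finset ℕ} (h : q ∉ S) (hq : 0 < q) :
    W (insert q S) = 2 * W S + 2 * Wc q S := by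
  unfold W
  rw [Finset.sum_powerset_insert h]
  have e1 : ∀ Y ∈ S.powerset, (∑ Z ∈ (insert q S).powerset,
      if Rel (PP Y) (PP Z) then (1 : ℝ) else 0) =
      (∑ Z ∈ S.powerset, if Rel (PP Y) (PP Z) then (1 : ℝ) else 0) +
      ∑ Z ∈ S.powerset, if Rel (q * PP Z) (PP Y) then (1 : ℝ) else 0 := by
    intro Y _
    rw [Finset.sum_powerset_insert h]
    congr 1
    apply Finset.sum_congr rfl
    intro Z hZ
    have : q ∉ Z := fun hh => h (Finset.mem_powerset.mp hZ hh)
    rw [PP_insert this]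
    simp only [Rel_symm (x := PP Y)]
  have e2 : ∀ Y ∈ S.powerset, (∑ Z ∈ (insert q S).powerset,
      if Rel (PP (insert q Y)) (PP Z) then (1 : ℝ) else 0) =
      (∑ Z ∈ S.powerset, if Rel (q * PP Y) (PP Z) then (1 : ℝ) else 0) +
      ∑ Z ∈ S.powerset, if Rel (PP Y) (PP Z) then (1 : ℝ) else 0 := by
    intro Y hY
    have hqY : q ∉ Y := fun hh => h (Finset.mem_powerset.mp hY hh)
    rw [Finset.sum_powerset_insert h, PP_insert hqY]
    congr 1
    apply Finset.sum_congr rfl
    intro Z hZ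
    have : q ∉ Z := fun hh => h (Finset.mem_powerset.mp hZ hh)
    rw [PP_insert this]
    simp only [Rel_mul hq]
  rw [Finset.sum_congr rfl e1, Finset.sum_congr rfl e2, Finset.sum_add_distrib,
    Finset.sum_add_distrib]
  have e3 : ∑ Y ∈ S.powerset, ∑ Z ∈ S.powerset, (if Rel (q * PP Z) (PP Y) then (1 : ℝ) else 0) =
      Wc q S := by
    unfold Wc
    rw [Finset.sum_comm]
  have e4 : ∑ Y ∈ S.powerset, ∑ Z ∈ S.powerset, (if Rel (q * PP Y) (PP Z) then (1 : ℝ) else 0) =
      Wc q S := rfl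
  rw [e3, e4]
  ring

section sets

variable (D : ℕ → Finset ℕ) (J : ℕ)

/-- Sets of primes with prescribed numbers of elements in the boxes. -/
def Sf (b : ℕ → ℕ) : Finset (Finset ℕ) :=
  ((range J).biUnion D).powerset.filter (fun S => ∀ i ∈ range J, (S ∩ D i).card = b i)

variable {D J}

lemma mem_Sf {b : ℕ → ℕ} {S : Finset ℕ} : S ∈ Sf D J b ↔
    S ⊆ (range J).biUnion D ∧ ∀ i, i < J → (S ∩ D i).card = b i := by
  unfold Sf
  simp [Finset.mem_filter, Finset.mem_powerset]

lemma Sf_congr {b c : ℕ → ℕ} (h : ∀ i < J, b i = c i) : Sf D J b = Sf D J c := by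
  ext S
  rw [mem_Sf, mem_Sf]
  constructor
  · rintro ⟨h1, h2⟩
    exact ⟨h1, fun i hi => by rw [h2 i hi, h i hi]⟩
  · rintro ⟨h1, h2⟩
    exact ⟨h1, fun i hi => by rw [h2 i hi, h i hi]⟩

lemma card_of_mem (hD : ∀ i j, i ≠ j → Disjoint (D i) (D j)) {b : ℕ → ℕ} {S : Finset ℕ}
    (hS : S ∈ Sf D J b) : S.card = ∑ i ∈ range J, b i := by
  rw [mem_Sf] at hS
  have h1 : S = (range J).biUnion (fun i => S ∩ D i) := by
    ext x
    rw [Finset.mem_biUnion]
    constructor
    · intro hx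
      have := hS.1 hx
      rw [Finset.mem_biUnion] at this
      obtain ⟨i, hi, hx2⟩ := this
      exact ⟨i, hi, Finset.mem_inter.mpr ⟨hx, hx2⟩⟩
    · rintro ⟨i, _, hx⟩
      exact (Finset.mem_inter.mp hx).1
  rw [h1, Finset.card_biUnion]
  · exact Finset.sum_congr rfl fun i hi => hS.2 i (Finset.mem_range.mp hi)
  · intro i _ j _ hij
    exact Finset.disjoint_of_subset_left Finset.inter_subset_right
      (Finset.disjoint_of_subset_right Finset.inter_subset_right (hD i j hij))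

lemma sum_step (hD : ∀ i j, i ≠ j → Disjoint (D i) (D j)) (b : ℕ → ℕ) {j : ℕ} (hj : j < J)
    (G : Finset ℕ → ℝ) :
    ((b j : ℝ) + 1) * ∑ S ∈ Sf D J (Function.update b j (b j + 1)), G S =
      ∑ S ∈ Sf D J b, ∑ q ∈ D j \ S, G (insert q S) := by
  have h1 : ((b j : ℝ) + 1) * ∑ S ∈ Sf D J (Function.update b j (b j + 1)), G S =
      ∑ S ∈ Sf D J (Function.update b j (b j + 1)), ∑ _q ∈ S ∩ D j, G S := by
    rw [Finset.mul_sum]
    apply Finset.sum_congr rfl
    intro S hS
    rw [mem_Sf] at hS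
    rw [Finset.sum_const, hS.2 j hj, Function.update_self, nsmul_eq_mul]
    push_cast
    ring
  rw [h1, Finset.sum_sigma', Finset.sum_sigma']
  have hmem1 : ∀ x ∈ (Sf D J (Function.update b j (b j + 1))).sigma (fun S => S ∩ D j),
      (⟨x.1.erase x.2, x.2⟩ : (_ : Finset ℕ) × ℕ) ∈ (Sf D J b).sigma (fun S => D j \ S) := by
    rintro ⟨S, q⟩ hx
    rw [Finset.mem_sigma] at hx ⊢
    obtain ⟨hS, hq⟩ := hx
    simp only at hS hq ⊢
    rw [mem_Sf] at hS
    rw [Finset.mem_inter] at hq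
    refine ⟨?_, ?_⟩
    · rw [mem_Sf]
      refine ⟨(Finset.erase_subset _ _).trans hS.1, ?_⟩
      intro i hi
      rw [Finset.erase_inter]
      by_cases hij : i = j
      · subst hij
        rw [Finset.card_erase_of_mem (Finset.mem_inter.mpr hq), hS.2 i hi, Function.update_self]
        simp
      · have : q ∉ S ∩ D i := by
          intro hh
          exact Finset.disjoint_left.mp (hD i j hij) (Finset.mem_inter.mp hh).2 hq.2
        rw [Finset.erase_eq_of_notMem this, hS.2 i hi, Function.update_of_ne hij]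
    · rw [Finset.mem_sdiff]
      exact ⟨hq.2, Finset.notMem_erase _ _⟩
  have hmem2 : ∀ x ∈ (Sf D J b).sigma (fun S => D j \ S),
      (⟨insert x.2 x.1, x.2⟩ : (_ : Finset ℕ) × ℕ) ∈
        (Sf D J (Function.update b j (b j + 1))).sigma (fun S => S ∩ D j) := by
    rintro ⟨S, q⟩ hx
    rw [Finset.mem_sigma] at hx ⊢
    obtain ⟨hS, hq⟩ := hx
    simp only at hS hq ⊢
    rw [mem_Sf] at hS
    rw [Finset.mem_sdiff] at hq
    refine ⟨?_, ?_⟩
    · rw [mem_Sf]
      refine ⟨?_, ?_⟩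
      · rw [Finset.insert_subset_iff]
        exact ⟨Finset.mem_biUnion.mpr ⟨j, Finset.mem_range.mpr hj, hq.1⟩, hS.1⟩
      · intro i hi
        by_cases hij : i = j
        · subst hij
          rw [Finset.insert_inter_of_mem hq.1, Finset.card_insert_of_notMem, hS.2 i hi,
            Function.update_self]
          intro hh
          exact hq.2 (Finset.mem_inter.mp hh).1
        · have : q ∉ D i := by
            intro hh
            exact Finset.disjoint_left.mp (hD i j hij) hh hq.1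
          rw [Finset.insert_inter_of_notMem this, hS.2 i hi, Function.update_of_ne hij]
    · rw [Finset.mem_inter]
      exact ⟨Finset.mem_insert_self _ _, hq.1⟩
  refine Finset.sum_bij' (fun x _ => ⟨x.1.erase x.2, x.2⟩) (fun x _ => ⟨insert x.2 x.1, x.2⟩)
    hmem1 hmem2 ?_ ?_ ?_
  · rintro ⟨S, q⟩ hx
    rw [Finset.mem_sigma, Finset.mem_inter] at hx
    simp only at hx ⊢
    rw [Finset.insert_erase hx.2.1]
  · rintro ⟨S, q⟩ hx
    rw [Finset.mem_sigma, Finset.mem_sdiff] at hx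
    simp only at hx ⊢
    rw [Finset.erase_insert hx.2.2]
  · rintro ⟨S, q⟩ hx
    rw [Finset.mem_sigma, Finset.mem_inter] at hx
    simp only at hx ⊢
    rw [Finset.insert_erase hx.2.1]

/-- Reciprocal sum over the sets. -/
noncomputable def sig (D : ℕ → Finset ℕ) (J : ℕ) (b : ℕ → ℕ) : ℝ :=
  ∑ S ∈ Sf D J b, 1 / (PP S : ℝ)

/-- Weighted pair sum over the sets. -/
noncomputable def UU (D : ℕ → Finset ℕ) (J : ℕ) (b : ℕ → ℕ) : ℝ :=
  ∑ S ∈ Sf D J b, W S / (PP S : ℝ)

/-- Reciprocal sum of one box. -/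
noncomputable def ss (D : ℕ → Finset ℕ) (j : ℕ) : ℝ := ∑ q ∈ D j, 1 / (q : ℝ)

lemma sig_nonneg (b : ℕ → ℕ) : 0 ≤ sig D J b := Finset.sum_nonneg fun _ _ => by positivity

lemma W_nonneg (S : Finset ℕ) : 0 ≤ W S :=
  Finset.sum_nonneg fun _ _ => Finset.sum_nonneg fun _ _ => by split_ifs <;> norm_num

lemma UU_nonneg (b : ℕ → ℕ) : 0 ≤ UU D J b :=
  Finset.sum_nonneg fun S _ => div_nonneg (W_nonneg S) (by positivity)

lemma sig_step_eq (hD : ∀ i j, i ≠ j → Disjoint (D i) (D j)) (b : ℕ → ℕ) {j : ℕ} (hj : j < J) :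
    ((b j : ℝ) + 1) * sig D J (Function.update b j (b j + 1)) =
      ∑ S ∈ Sf D J b, (1 / (PP S : ℝ)) * ∑ q ∈ D j \ S, 1 / (q : ℝ) := by
  unfold sig
  rw [sum_step hD b hj]
  apply Finset.sum_congr rfl
  intro S _
  rw [Finset.mul_sum]
  apply Finset.sum_congr rfl
  intro q hq
  rw [Finset.mem_sdiff] at hq
  rw [PP_insert hq.2]
  push_cast
  rw [one_div_mul_one_div, mul_comm]

lemma sig_step_le (hD : ∀ i j, i ≠ j → Disjoint (D i) (D j)) (b : ℕ → ℕ) {j : ℕ} (hj : j < J) :
    ((b j : ℝ) + 1) * sig D J (Function.update b j (b j + 1)) ≤ ss D j * sig D J b := by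
  rw [sig_step_eq hD b hj, mul_comm (ss D j)]
  unfold sig
  rw [Finset.sum_mul]
  apply Finset.sum_le_sum
  intro S _
  apply mul_le_mul_of_nonneg_left _ (by positivity)
  unfold ss
  exact Finset.sum_le_sum_of_subset_of_nonneg Finset.sdiff_subset fun q _ _ => by positivity

lemma sig_step_ge (hD : ∀ i j, i ≠ j → Disjoint (D i) (D j)) (b : ℕ → ℕ) {j : ℕ} (hj : j < J)
    {μ : ℝ} (hμ : ∀ q ∈ D j, 1 / (q : ℝ) ≤ μ) :
    (ss D j - b j * μ) * sig D J b ≤
      ((b j : ℝ) + 1) * sig D J (Function.update b j (b j + 1)) := by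
  rw [sig_step_eq hD b hj, mul_comm (ss D j - b j * μ)]
  unfold sig
  rw [Finset.sum_mul]
  apply Finset.sum_le_sum
  intro S hS
  rw [mem_Sf] at hS
  apply mul_le_mul_of_nonneg_left _ (by positivity)
  unfold ss
  have h1 := Finset.sum_sdiff_eq_sub (f := fun q : ℕ => 1 / (q : ℝ))
    (Finset.inter_subset_right (s₁ := S) (s₂ := D j))
  have h2 : D j \ (S ∩ D j) = D j \ S := by
    ext x; simp only [Finset.mem_sdiff, Finset.mem_inter]; tauto
  rw [h2] at h1
  rw [h1]
  have h3 : ∑ q ∈ S ∩ D j, 1 / (q : ℝ) ≤ b j * μ := by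
    rw [← hS.2 j hj]
    have := Finset.sum_le_card_nsmul (S ∩ D j) (fun q : ℕ => 1 / (q : ℝ)) μ
      (fun q hq => hμ q (Finset.mem_inter.mp hq).2)
    simpa [nsmul_eq_mul] using this
  linarith

lemma UU_step (hD : ∀ i j, i ≠ j → Disjoint (D i) (D j)) (hpos : ∀ i, ∀ q ∈ D i, 0 < q)
    (b : ℕ → ℕ) {j : ℕ} (hj : j < J) {κ : ℝ} 
    (hκ : ∀ y z : ℕ, 0 < y → 0 < z → ∑ q ∈ (D j).filter (fun q => Rel (q * y) z), 1 / (q : ℝ) ≤ κ) :
    ((b j : ℝ) + 1) * UU D J (Function.update b j (b j + 1)) ≤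
      2 * ss D j * UU D J b + 2 * κ * 4 ^ (∑ i ∈ range J, b i) * sig D J b := by
  have hPP : ∀ S ∈ Sf D J b, ∀ Y ∈ S.powerset, 0 < PP Y := by
    intro S hS Y hY
    unfold PP
    apply Finset.prod_pos
    intro q hq
    rw [mem_Sf] at hS
    have := hS.1 (Finset.mem_powerset.mp hY hq)
    rw [Finset.mem_biUnion] at this
    obtain ⟨i, _, hi⟩ := this
    exact hpos i q hi
  unfold UU
  rw [sum_step hD b hj]
  have h1 : ∀ S ∈ Sf D J b, ∑ q ∈ D j \ S, W (insert q S) / (PP (insert q S) : ℝ) ≤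
      2 * ss D j * (W S / (PP S : ℝ)) + 2 * κ * 4 ^ (∑ i ∈ range J, b i) * (1 / (PP S : ℝ)) := by
    intro S hS
    have e1 : ∀ q ∈ D j \ S, W (insert q S) / (PP (insert q S) : ℝ) =
        2 * (W S / (PP S : ℝ)) * (1 / (q : ℝ)) + 2 * (1 / (PP S : ℝ)) * (Wc q S * (1 / (q : ℝ))) := by
      intro q hq
      rw [Finset.mem_sdiff] at hq
      rw [PP_insert hq.2, W_insert hq.2 (hpos j q hq.1)]
      push_cast
      have hq0 : (q : ℝ) ≠ 0 := by exact_mod_cast (hpos j q hq.1).ne'
      have hS0 : (PP S : ℝ) ≠ 0 := by exact_mod_cast (hPP S hS S (Finset.mem_powerset_self S)).ne'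
      field_simp
    rw [Finset.sum_congr rfl e1, Finset.sum_add_distrib, ← Finset.mul_sum, ← Finset.mul_sum]
    have e2 : ∑ q ∈ D j \ S, 1 / (q : ℝ) ≤ ss D j :=
      Finset.sum_le_sum_of_subset_of_nonneg Finset.sdiff_subset fun q _ _ => by positivity
    have e3 : ∑ q ∈ D j \ S, Wc q S * (1 / (q : ℝ)) ≤ κ * 4 ^ (∑ i ∈ range J, b i) := by
      calc ∑ q ∈ D j \ S, Wc q S * (1 / (q : ℝ)) ≤ ∑ q ∈ D j, Wc q S * (1 / (q : ℝ)) := by
            apply Finset.sum_le_sum_of_subset_of_nonneg Finset.sdiff_subset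
            intro q _ _
            apply mul_nonneg _ (by positivity)
            exact Finset.sum_nonneg fun _ _ => Finset.sum_nonneg fun _ _ => by
              split_ifs <;> norm_num
        _ = ∑ Y ∈ S.powerset, ∑ Z ∈ S.powerset,
              ∑ q ∈ (D j).filter (fun q => Rel (q * PP Y) (PP Z)), 1 / (q : ℝ) := by
            unfold Wc
            simp_rw [Finset.sum_mul]
            rw [Finset.sum_comm]
            apply Finset.sum_congr rfl
            intro Y _
            rw [Finset.sum_comm]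
            apply Finset.sum_congr rfl
            intro Z _
            rw [Finset.sum_filter]
            apply Finset.sum_congr rfl
            intro q _
            split_ifs <;> simp
        _ ≤ ∑ Y ∈ S.powerset, ∑ Z ∈ S.powerset, κ := by
            apply Finset.sum_le_sum
            intro Y hY
            apply Finset.sum_le_sum
            intro Z hZ
            exact hκ _ _ (hPP S hS Y hY) (hPP S hS Z hZ)
        _ = κ * 4 ^ (∑ i ∈ range J, b i) := by
            simp only [Finset.sum_const, Finset.card_powerset, nsmul_eq_mul]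
            rw [card_of_mem hD hS]
            push_cast
            have : (4 : ℝ) = 2 * 2 := by norm_num
            rw [this, mul_pow]
            ring
    have hPS : (0 : ℝ) ≤ 1 / (PP S : ℝ) := by positivity
    have hWS : 0 ≤ W S / (PP S : ℝ) := div_nonneg (W_nonneg S) (by positivity)
    have e4 := mul_le_mul_of_nonneg_left e2 (by positivity : 0 ≤ 2 * (W S / (PP S : ℝ)))
    have e5 := mul_le_mul_of_nonneg_left e3 (by positivity : 0 ≤ 2 * (1 / (PP S : ℝ)))
    calc _ ≤ 2 * (W S / ↑(PP S)) * ss D j +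
          2 * (1 / ↑(PP S)) * (κ * 4 ^ (∑ i ∈ range J, b i)) := add_le_add e4 e5
      _ = _ := by ring
  refine le_trans (Finset.sum_le_sum h1) ?_
  rw [Finset.sum_add_distrib, ← Finset.mul_sum, ← Finset.mul_sum]
  rfl

end sets

end Pool.Agent.Helper40.Low
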