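import Mathlib
import Pool.Agent.Helper40.LowSets

/-!
# Bounds by adding one prime at a time
-/

set_option autoImplicit false

namespace Pool.Agent.Helper40.Low

open Finset

/-- Truncation of `b`: full counts in boxes below `n`, `r` in box `n`, nothing above. -/
def bb (b : ℕ → ℕ) (n r : ℕ) : ℕ → ℕ := fun i => if i < n then b i else if i = n then r else 0

lemma bb_update (b : ℕ → ℕ) (n r : ℕ) :
    Function.update (bb b n r) n (bb b n r n + 1) = bb b n (r + 1) := by
  funext i
  by_cases h : i = n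
  · subst h; simp [bb]
  · rw [Function.update_of_ne h]; simp [bb, h]

lemma bb_self (b : ℕ → ℕ) (n r : ℕ) : bb b n r n = r := by simp [bb]

lemma bb_full (b : ℕ → ℕ) (n : ℕ) : bb b n (b n) = bb b (n + 1) 0 := by
  funext i
  unfold bb
  by_cases h1 : i < n
  · rw [if_pos h1, if_pos (by omega)]
  · by_cases h2 : i = n
    · subst h2; simp
    · rw [if_neg h1, if_neg h2, if_neg (by omega)]
      split_ifs <;> rfl

lemma sum_bb (b : ℕ → ℕ) {n J : ℕ} (hn : n < J) (r : ℕ) :
    ∑ i ∈ range J, bb b n r i = ∑ i ∈ range n, b i + r := by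
  have h1 : ∑ i ∈ range (n + 1), bb b n r i = ∑ i ∈ range n, b i + r := by
    rw [Finset.sum_range_succ, bb_self]
    congr 1
    apply Finset.sum_congr rfl
    intro i hi
    have := Finset.mem_range.mp hi
    simp [bb, this]
  rw [← h1]
  symm
  apply Finset.sum_subset
  · intro i hi; rw [Finset.mem_range] at hi ⊢; omega
  · intro i _ hi
    rw [Finset.mem_range] at hi
    have h2 : ¬ i < n := by omega
    have h3 : ¬ i = n := by omega
    simp [bb, h2, h3]

/-- The induction scheme. -/
lemma ind (b : ℕ → ℕ) (J : ℕ) (P : ℕ → ℕ → Prop) (h0 : P 0 0)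
    (h1 : ∀ n, n < J → ∀ r, r < b n → P n r → P n (r + 1))
    (h2 : ∀ n, n < J → P n (b n) → P (n + 1) 0) : P J 0 := by
  have key : ∀ n, n ≤ J → P n 0 := by
    intro n
    induction n with
    | zero => intro _; exact h0
    | succ n ih =>
      intro hn
      have h3 : ∀ r, r ≤ b n → P n r := by
        intro r
        induction r with
        | zero => intro _; exact ih (by omega)
        | succ r ihr => intro hr; exact h1 n (by omega) r (by omega) (ihr (by omega))
      exact h2 n (by omega) (h3 (b n) le_rfl)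
  exact key J le_rfl

/-- The product of factorials of a truncation. -/
noncomputable def fac (b : ℕ → ℕ) (n r : ℕ) : ℝ :=
  (∏ i ∈ range n, ((b i).factorial : ℝ)) * (r.factorial : ℝ)

lemma fac_pos (b : ℕ → ℕ) (n r : ℕ) : 0 < fac b n r :=
  mul_pos (Finset.prod_pos fun i _ => by positivity) (by positivity)

lemma fac_succ (b : ℕ → ℕ) (n r : ℕ) : fac b n (r + 1) = (r + 1) * fac b n r := by
  unfold fac
  rw [Nat.factorial_succ]
  push_cast
  ring

lemma fac_full (b : ℕ → ℕ) (n : ℕ) : fac b n (b n) = fac b (n + 1) 0 := by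
  unfold fac
  rw [Finset.prod_range_succ]
  simp

section sets

variable {D : ℕ → Finset ℕ} {J : ℕ}

lemma Sf_zero : Sf D J (bb (fun _ => 0) 0 0) = {∅} := by
  ext S
  rw [mem_Sf, Finset.mem_singleton]
  constructor
  · rintro ⟨h1, h2⟩
    rw [Finset.eq_empty_iff_forall_notMem]
    intro x hx
    have := h1 hx
    rw [Finset.mem_biUnion] at this
    obtain ⟨i, hi, hx2⟩ := this
    have h3 := h2 i (Finset.mem_range.mp hi)
    have h4 : bb (fun _ => 0) 0 0 i = 0 := by simp [bb]
    rw [h4, Finset.card_eq_zero] at h3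
    have : x ∈ S ∩ D i := Finset.mem_inter.mpr ⟨hx, hx2⟩
    rw [h3] at this
    simp at this
  · rintro rfl
    refine ⟨Finset.empty_subset _, ?_⟩
    intro i _
    simp [bb]

lemma Sf_bb_zero (b : ℕ → ℕ) : Sf D J (bb b 0 0) = {∅} := by
  rw [← Sf_zero (D := D) (J := J)]
  congr 1

lemma sig_bb_zero (b : ℕ → ℕ) : sig D J (bb b 0 0) = 1 := by
  unfold sig
  rw [Sf_bb_zero]
  simp [PP]

lemma UU_bb_zero (b : ℕ → ℕ) : UU D J (bb b 0 0) = 1 := by
  have hW : W ∅ = 1 := by
    unfold W
    rw [Finset.powerset_empty]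
    simp only [Finset.sum_singleton]
    norm_num [PP, Rel]
  unfold UU
  rw [Sf_bb_zero]
  simp [PP, hW]

lemma bb_J (b : ℕ → ℕ) : Sf D J (bb b J 0) = Sf D J b := by
  apply Sf_congr
  intro i hi
  simp [bb, hi]

lemma sig_bb_le (hD : ∀ i j, i ≠ j → Disjoint (D i) (D j)) {lam : ℝ} (hl : 0 < lam)
    (hs : ∀ j, ss D j ≤ lam) (b : ℕ → ℕ) {n : ℕ} (hn : n < J) {r : ℕ}
    (h : sig D J (bb b n r) ≤ lam ^ (∑ i ∈ range n, b i + r) / fac b n r) :
    sig D J (bb b n (r + 1)) ≤ lam ^ (∑ i ∈ range n, b i + (r + 1)) / fac b n (r + 1) := by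
  have h1 := sig_step_le (J := J) hD (bb b n r) hn
  rw [bb_update, bb_self] at h1
  have hf := fac_pos b n r
  have hsn := sig_nonneg (D := D) (J := J) (bb b n r)
  rw [fac_succ, le_div_iff₀ (by positivity)]
  calc sig D J (bb b n (r + 1)) * ((r + 1) * fac b n r)
      = ((r + 1) * sig D J (bb b n (r + 1))) * fac b n r := by ring
    _ ≤ (ss D n * sig D J (bb b n r)) * fac b n r := by gcongr
    _ ≤ (lam * (lam ^ (∑ i ∈ range n, b i + r) / fac b n r)) * fac b n r := by
        have := hs n
        gcongr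
    _ = lam ^ (∑ i ∈ range n, b i + (r + 1)) := by
        rw [← add_assoc, pow_succ]
        field_simp

lemma sig_bb_ge (hD : ∀ i j, i ≠ j → Disjoint (D i) (D j)) {lam : ℝ} (hl : 0 < lam)
    {a : ℕ → ℝ} (ha : ∀ i, 0 ≤ a i) (ha1 : ∀ i, a i ≤ 1) {μ : ℕ → ℝ}
    (hμ : ∀ j, ∀ q ∈ D j, 1 / (q : ℝ) ≤ μ j) (b : ℕ → ℕ)
    (hs : ∀ j, j < J → ∀ r, r < b j → lam * (1 - a j) ≤ ss D j - r * μ j) :
    lam ^ (∑ i ∈ range J, b i) / fac b J 0 * (1 - ∑ i ∈ range J, b i * a i) ≤ sig D J b := by
  have key : lam ^ (∑ i ∈ range J, b i + 0) / fac b J 0 *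
      (1 - ∑ i ∈ range J, b i * a i - (0 : ℕ) * a J) ≤ sig D J (bb b J 0) := by
    apply ind b J (P := fun n r => lam ^ (∑ i ∈ range n, b i + r) / fac b n r *
      (1 - ∑ i ∈ range n, b i * a i - r * a n) ≤ sig D J (bb b n r))
    · rw [sig_bb_zero]
      simp [fac]
    · intro n hn r hr h
      have h1 := sig_step_ge (J := J) hD (bb b n r) hn (hμ n)
      rw [bb_update, bb_self] at h1
      have hf := fac_pos b n r
      have hsn := sig_nonneg (D := D) (J := J) (bb b n r)
      have h2 := hs n hn r hr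
      set x := ∑ i ∈ range n, b i * a i + r * a n with hx
      have hx0 : 0 ≤ x := by
        have : 0 ≤ ∑ i ∈ range n, (b i : ℝ) * a i :=
          Finset.sum_nonneg fun i _ => mul_nonneg (by positivity) (ha i)
        have := ha n
        positivity
      have han := ha n
      have han1 : 0 ≤ 1 - a n := by linarith [ha1 n]
      have e1 : (1 - ∑ i ∈ range n, b i * a i - r * a n : ℝ) = 1 - x := by rw [hx]; ring
      have e2 : (1 - ∑ i ∈ range n, b i * a i - ((r + 1 : ℕ) : ℝ) * a n : ℝ) = 1 - x - a n := by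
        rw [hx]; push_cast; ring
      rw [e1] at h
      rw [e2, fac_succ, ← add_assoc, pow_succ]
      have h3 : lam * (1 - a n) * sig D J (bb b n r) ≤ (r + 1) * sig D J (bb b n (r + 1)) :=
        le_trans (mul_le_mul_of_nonneg_right h2 hsn) h1
      set K := lam ^ (∑ i ∈ range n, b i + r) / fac b n r with hK
      have hK0 : 0 < K := by positivity
      have h4 : lam * (1 - a n) * (K * (1 - x)) ≤ lam * (1 - a n) * sig D J (bb b n r) :=
        mul_le_mul_of_nonneg_left h (by positivity)
      have h5 : lam * K * (1 - x - a n) ≤ lam * (1 - a n) * (K * (1 - x)) := by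
        have h6 : lam * (1 - a n) * (K * (1 - x)) = lam * K * (1 - x - a n) + lam * K * (a n * x) := by
          ring
        rw [h6]
        have : 0 ≤ lam * K * (a n * x) := by positivity
        linarith
      have h7 : lam * K * (1 - x - a n) ≤ (r + 1) * sig D J (bb b n (r + 1)) :=
        le_trans h5 (le_trans h4 h3)
      have hr1 : (0 : ℝ) < (r : ℝ) + 1 := by positivity
      have h8 : lam ^ (∑ i ∈ range n, b i + r) * lam / ((r + 1) * fac b n r) * (1 - x - a n) =
          lam * K * (1 - x - a n) / (r + 1) := by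
        rw [hK]; field_simp
      rw [h8, div_le_iff₀ hr1]
      linarith
    · intro n hn h
      rw [bb_full, fac_full] at h
      rw [Finset.sum_range_succ, Finset.sum_range_succ]
      simp only [Nat.cast_zero, zero_mul, sub_zero, add_zero]
      convert h using 2
      ring
  rw [add_zero] at key
  simp only [Nat.cast_zero, zero_mul, sub_zero] at key
  unfold sig at key ⊢
  rw [bb_J] at key
  exact key

lemma UU_bound (hD : ∀ i j, i ≠ j → Disjoint (D i) (D j)) (hpos : ∀ i, ∀ q ∈ D i, 0 < q)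
    {lam : ℝ} (hl : 0 < lam) (hs : ∀ j, ss D j ≤ lam) {κ : ℕ → ℝ} (hκ0 : ∀ i, 0 ≤ κ i)
    (hκ : ∀ j, ∀ y z : ℕ, 0 < y → 0 < z →
      ∑ q ∈ (D j).filter (fun q => Rel (q * y) z), 1 / (q : ℝ) ≤ κ j) (b : ℕ → ℕ) :
    UU D J b ≤ (2 * lam) ^ (∑ i ∈ range J, b i) / fac b J 0 *
      (1 + ∑ i ∈ range J, κ i / lam * 2 ^ (∑ l ∈ range (i + 1), b l)) := by
  have key : sig D J (bb b J 0) ≤ lam ^ (∑ i ∈ range J, b i + 0) / fac b J 0 ∧
      UU D J (bb b J 0) ≤ (2 * lam) ^ (∑ i ∈ range J, b i + 0) / fac b J 0 *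
      (1 + ∑ i ∈ range J, κ i / lam * 2 ^ (∑ l ∈ range (i + 1), b l) +
        (if (0 : ℕ) = 0 then 0 else κ J / lam * 2 ^ (∑ i ∈ range J, b i + 0))) := by
    apply ind b J (P := fun n r => sig D J (bb b n r) ≤
      lam ^ (∑ i ∈ range n, b i + r) / fac b n r ∧
      UU D J (bb b n r) ≤ (2 * lam) ^ (∑ i ∈ range n, b i + r) / fac b n r *
      (1 + ∑ i ∈ range n, κ i / lam * 2 ^ (∑ l ∈ range (i + 1), b l) +
        (if r = 0 then 0 else κ n / lam * 2 ^ (∑ i ∈ range n, b i + r))))
    · rw [sig_bb_zero, UU_bb_zero]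
      simp [fac]
    · intro n hn r hr h
      refine ⟨sig_bb_le hD hl hs b hn h.1, ?_⟩
      have h1 := UU_step (J := J) hD hpos (bb b n r) hn (hκ n)
      rw [bb_update, bb_self, sum_bb b hn] at h1
      have hf := fac_pos b n r
      have hr1 : (0 : ℝ) < (r : ℝ) + 1 := by positivity
      have hκn := hκ0 n
      have hUn := UU_nonneg (D := D) (J := J) (bb b n r)
      have hsn := sig_nonneg (D := D) (J := J) (bb b n r)
      obtain ⟨hA, hB⟩ := h
      set m := ∑ i ∈ range n, b i + r with hm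
      set X := 1 + ∑ i ∈ range n, κ i / lam * 2 ^ (∑ l ∈ range (i + 1), b l) with hX
      have hX0 : 0 ≤ X := by
        have : 0 ≤ ∑ i ∈ range n, κ i / lam * 2 ^ (∑ l ∈ range (i + 1), b l) :=
          Finset.sum_nonneg fun i _ => by have := hκ0 i; positivity
        positivity
      have hB' : UU D J (bb b n r) ≤ (2 * lam) ^ m / fac b n r * (X + κ n / lam * 2 ^ m) := by
        refine le_trans hB ?_
        apply mul_le_mul_of_nonneg_left _ (by positivity)
        split_ifs
        · have : 0 ≤ κ n / lam * 2 ^ m := by positivity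
          linarith
        · exact le_rfl
      rw [if_neg (by omega), fac_succ, ← add_assoc, ← hm, pow_succ, pow_succ]
      have h2 : ((r : ℝ) + 1) * UU D J (bb b n (r + 1)) ≤
          2 * lam * ((2 * lam) ^ m / fac b n r * (X + κ n / lam * 2 ^ m)) +
            2 * κ n * 4 ^ m * (lam ^ m / fac b n r) := by
        refine le_trans h1 ?_
        have := hs n
        gcongr
      have h3 : 2 * lam * ((2 * lam) ^ m / fac b n r * (X + κ n / lam * 2 ^ m)) +
            2 * κ n * 4 ^ m * (lam ^ m / fac b n r) =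
          (r + 1) * ((2 * lam) ^ m * (2 * lam) / ((r + 1) * fac b n r) *
            (X + κ n / lam * (2 ^ m * 2))) := by
        have e4 : (4 : ℝ) ^ m = 2 ^ m * 2 ^ m := by
          rw [← mul_pow]; norm_num
        rw [e4, mul_pow]
        field_simp
        ring
      rw [h3] at h2
      exact le_of_mul_le_mul_left h2 hr1
    · intro n hn h
      rw [bb_full, fac_full] at h
      obtain ⟨hA, hB⟩ := h
      rw [Finset.sum_range_succ, Finset.sum_range_succ]
      refine ⟨by simpa using hA, ?_⟩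
      refine le_trans hB ?_
      rw [if_pos rfl, add_zero, add_zero, ← Finset.sum_range_succ (fun l => b l) n]
      have hf := fac_pos b (n + 1) 0
      have hκn := hκ0 n
      apply mul_le_mul_of_nonneg_left _ (by positivity)
      split_ifs
      · have : 0 ≤ κ n / lam * 2 ^ (∑ l ∈ range (n + 1), b l) := by positivity
        linarith
      · rw [← add_assoc]
  have h2 := key.2
  rw [if_pos rfl, add_zero, add_zero] at h2
  unfold UU at h2 ⊢
  rw [bb_J] at h2
  exact h2

end sets

end Pool.Agent.Helper40.Low
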