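import Mathlib
import Pool.Agent.Helper40.LowInd

/-!
# From pairs of divisors to the number of dyadic intervals
-/

set_option autoImplicit false

namespace Pool.Agent.Helper40.Low

open Finset Pool.Agent.Helper44

lemma Rel_of_log {x y : ℕ} (hx : 0 < x) (hy : 0 < y) (h : Nat.log 2 x = Nat.log 2 y) : Rel x y := by
  have h1 := Nat.pow_log_le_self 2 hx.ne'
  have h2 := Nat.lt_pow_succ_log_self (b := 2) (by norm_num) x
  have h3 := Nat.pow_log_le_self 2 hy.ne'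
  have h4 := Nat.lt_pow_succ_log_self (b := 2) (by norm_num) y
  rw [h] at h1 h2
  rw [Nat.succ_eq_add_one, pow_succ] at h2 h4
  constructor <;> omega

lemma kap_W (S : Finset ℕ) (hS : ∀ q ∈ S, 0 < q) :
    (4 : ℝ) ^ S.card ≤ (kap (PP S) : ℝ) * W S := by
  classical
  have hPP : ∀ Y ∈ S.powerset, 0 < PP Y := fun Y hY =>
    Finset.prod_pos fun q hq => hS q (Finset.mem_powerset.mp hY hq)
  set K := (PP S).divisors.image (Nat.log 2) with hK
  have hmaps : ∀ Y ∈ S.powerset, Nat.log 2 (PP Y) ∈ K := by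
    intro Y hY
    rw [hK, Finset.mem_image]
    refine ⟨PP Y, ?_, rfl⟩
    rw [Nat.mem_divisors]
    exact ⟨Finset.prod_dvd_prod_of_subset _ _ _ (Finset.mem_powerset.mp hY),
      (hPP S (Finset.mem_powerset_self S)).ne'⟩
  have h1 : (4 : ℝ) ^ S.card = (∑ Y ∈ S.powerset, (1 : ℝ)) ^ 2 := by
    rw [Finset.sum_const, Finset.card_powerset, nsmul_eq_mul, mul_one]
    push_cast
    rw [← pow_mul, mul_comm, pow_mul]
    norm_num
  have h2 : (∑ Y ∈ S.powerset, (1 : ℝ)) =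
      ∑ k ∈ K, ∑ Y ∈ S.powerset.filter (fun Y => Nat.log 2 (PP Y) = k), (1 : ℝ) :=
    (Finset.sum_fiberwise_of_maps_to hmaps _).symm
  have h3 := sq_sum_le_card_mul_sum_sq (s := K)
    (f := fun k => ∑ Y ∈ S.powerset.filter (fun Y => Nat.log 2 (PP Y) = k), (1 : ℝ))
  have h4 : ∑ k ∈ K, (∑ Y ∈ S.powerset.filter (fun Y => Nat.log 2 (PP Y) = k), (1 : ℝ)) ^ 2 =
      ∑ Y ∈ S.powerset, ∑ Z ∈ S.powerset.filter (fun Z => Nat.log 2 (PP Z) = Nat.log 2 (PP Y)),
        (1 : ℝ) := by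
    rw [← Finset.sum_fiberwise_of_maps_to hmaps (fun Y =>
      ∑ Z ∈ S.powerset.filter (fun Z => Nat.log 2 (PP Z) = Nat.log 2 (PP Y)), (1 : ℝ))]
    apply Finset.sum_congr rfl
    intro k _
    rw [sq, Finset.sum_mul]
    apply Finset.sum_congr rfl
    intro Y hY
    rw [Finset.mem_filter] at hY
    rw [hY.2, one_mul]
  have h5 : ∑ Y ∈ S.powerset,
      ∑ Z ∈ S.powerset.filter (fun Z => Nat.log 2 (PP Z) = Nat.log 2 (PP Y)), (1 : ℝ) ≤ W S := by
    unfold W
    apply Finset.sum_le_sum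
    intro Y hY
    rw [Finset.sum_filter]
    apply Finset.sum_le_sum
    intro Z hZ
    split_ifs with ha hb
    · exact le_rfl
    · exact absurd (Rel_of_log (hPP Y hY) (hPP Z hZ) ha.symm) hb
    · norm_num
    · exact le_rfl
  rw [h1, h2]
  refine le_trans h3 ?_
  rw [h4]
  have h6 : (K.card : ℝ) = (kap (PP S) : ℝ) := rfl
  rw [h6]
  exact mul_le_mul_of_nonneg_left h5 (by positivity)

section sets

variable {D : ℕ → Finset ℕ} {J : ℕ}

lemma Sf_pos (hpos : ∀ i, ∀ q ∈ D i, 0 < q) {b : ℕ → ℕ} {S : Finset ℕ} (hS : S ∈ Sf D J b) :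
    ∀ q ∈ S, 0 < q := by
  intro q hq
  rw [mem_Sf] at hS
  have := hS.1 hq
  rw [Finset.mem_biUnion] at this
  obtain ⟨i, _, hi⟩ := this
  exact hpos i q hi

lemma kap_sum_ge (hD : ∀ i j, i ≠ j → Disjoint (D i) (D j)) (hpos : ∀ i, ∀ q ∈ D i, 0 < q)
    (b : ℕ → ℕ) : (4 : ℝ) ^ (∑ i ∈ range J, b i) * sig D J b ^ 2 ≤
      (∑ S ∈ Sf D J b, (kap (PP S) : ℝ) / (PP S : ℝ)) * UU D J b := by
  have h1 : (2 ^ (∑ i ∈ range J, b i) * sig D J b) ^ 2 ≤
      (∑ S ∈ Sf D J b, (kap (PP S) : ℝ) / (PP S : ℝ)) * UU D J b := by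
    unfold sig UU
    rw [Finset.mul_sum]
    apply Finset.sum_sq_le_sum_mul_sum_of_sq_le_mul
    · intro S _; positivity
    · intro S _; exact div_nonneg (W_nonneg S) (by positivity)
    · intro S hS
      have h2 := kap_W S (Sf_pos hpos hS)
      rw [card_of_mem hD hS] at h2
      have hP : (0 : ℝ) < (PP S : ℝ) := by
        have : 0 < PP S := Finset.prod_pos fun q hq => Sf_pos hpos hS q hq
        exact_mod_cast this
      have e4 : (2 : ℝ) ^ (∑ i ∈ range J, b i) * 2 ^ (∑ i ∈ range J, b i) =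
          4 ^ (∑ i ∈ range J, b i) := by rw [← mul_pow]; norm_num
      calc (2 ^ (∑ i ∈ range J, b i) * (1 / (PP S : ℝ))) ^ 2
          = (2 ^ (∑ i ∈ range J, b i) * 2 ^ (∑ i ∈ range J, b i)) / ((PP S : ℝ) * PP S) := by
            field_simp
        _ ≤ ((kap (PP S) : ℝ) * W S) / ((PP S : ℝ) * PP S) := by
            rw [e4]; gcongr
        _ = _ := by field_simp
  refine le_trans (le_of_eq ?_) h1
  rw [mul_pow, ← pow_mul, mul_comm _ 2, pow_mul]
  norm_num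

end sets

end Pool.Agent.Helper40.Low
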