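import Mathlib
import Pool.Agent.Helper40.LowKap

/-!
# The boxes of primes
-/

set_option autoImplicit false

namespace Pool.Agent.Helper40.Low

open Finset Pool.Agent.Helper44

/-- End points of the boxes. -/
noncomputable def yy (B : ℝ) (j : ℕ) : ℝ := Real.exp (2 ^ j + B)

/-- The boxes. -/
noncomputable def DD (B : ℝ) (J0 : ℕ) (i : ℕ) : Finset ℕ :=
  (Finset.Ioc ⌊yy B (J0 + i)⌋₊ ⌊yy B (J0 + i + 1)⌋₊).filter Nat.Prime

/-- The property given by Mertens. -/
def Mert (C : ℝ) : Prop := ∀ x y : ℝ, 2 ≤ x → x ≤ y →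
    |∑ q ∈ (Finset.Ioc ⌊x⌋₊ ⌊y⌋₊).filter Nat.Prime, (1:ℝ)/q - Real.log (Real.log y / Real.log x)|
      ≤ C / Real.log x

lemma yy_mono (B : ℝ) {i j : ℕ} (h : i ≤ j) : yy B i ≤ yy B j := by
  unfold yy
  apply Real.exp_le_exp.mpr
  have : (2 : ℝ) ^ i ≤ 2 ^ j := pow_le_pow_right₀ (by norm_num) h
  linarith

lemma log_yy (B : ℝ) (j : ℕ) : Real.log (yy B j) = 2 ^ j + B := Real.log_exp _

lemma two_le_yy {B : ℝ} (hB : 0 ≤ B) (j : ℕ) : 2 ≤ yy B j := by
  unfold yy
  have h1 : (1 : ℝ) ≤ 2 ^ j := one_le_pow₀ (by norm_num)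
  have h2 := Real.add_one_le_exp (2 ^ j + B)
  linarith

lemma mem_DD {B : ℝ} {J0 i q : ℕ} : q ∈ DD B J0 i ↔
    yy B (J0 + i) < q ∧ (q : ℝ) ≤ yy B (J0 + i + 1) ∧ q.Prime := by
  have h0 : ∀ j, 0 ≤ yy B j := fun j => (Real.exp_pos _).le
  unfold DD
  rw [Finset.mem_filter, Finset.mem_Ioc, Nat.floor_lt (h0 _), Nat.le_floor_iff (h0 _)]
  tauto

lemma DD_disjoint (B : ℝ) (J0 : ℕ) (i j : ℕ) (hij : i ≠ j) : Disjoint (DD B J0 i) (DD B J0 j) := by
  rw [Finset.disjoint_left]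
  intro q h1 h2
  rw [mem_DD] at h1 h2
  rcases Nat.lt_or_gt_of_ne hij with h | h
  · have := yy_mono B (show J0 + i + 1 ≤ J0 + j by omega)
    linarith [h1.2.1, h2.1]
  · have := yy_mono B (show J0 + j + 1 ≤ J0 + i by omega)
    linarith [h2.2.1, h1.1]

lemma DD_pos (B : ℝ) (J0 : ℕ) (i : ℕ) : ∀ q ∈ DD B J0 i, 0 < q := fun _ hq =>
  (mem_DD.mp hq).2.2.pos

lemma ss_le {C B : ℝ} (hC : 0 < C) (hB : 2 * C ≤ B) (hM : Mert C) (J0 i : ℕ) :
    ss (DD B J0) i ≤ Real.log 2 := by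
  have hB0 : 0 < B := by linarith
  have h := hM (yy B (J0 + i)) (yy B (J0 + i + 1)) (two_le_yy hB0.le _) (yy_mono B (by omega))
  rw [log_yy, log_yy] at h
  set P : ℝ := 2 ^ (J0 + i) with hP
  have hP0 : 0 < P := by positivity
  have h1 : (2 : ℝ) ^ (J0 + i + 1) = 2 * P := by rw [pow_succ]; ring
  rw [h1] at h
  have h2 : (2 * P + B) / (P + B) = 2 * (1 - B / (2 * (P + B))) := by
    field_simp
    ring
  have h3 : 0 < 1 - B / (2 * (P + B)) := by
    rw [sub_pos, div_lt_one (by positivity)]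
    linarith
  rw [h2, Real.log_mul (by norm_num) h3.ne'] at h
  have h4 := Real.log_le_sub_one_of_pos h3
  have h5 := (abs_le.mp h).2
  have h6 : C / (P + B) ≤ B / (2 * (P + B)) := by
    rw [div_le_div_iff₀ (by positivity) (by positivity)]
    have h7 : 0 ≤ (P + B) * (B - 2 * C) := mul_nonneg (by positivity) (by linarith)
    linarith
  unfold ss DD
  linarith

lemma ss_ge {C B : ℝ} (hC : 0 < C) (hB : 0 < B) (hM : Mert C) (J0 i : ℕ) :
    Real.log 2 - (B + C) / 2 ^ (J0 + i) ≤ ss (DD B J0) i := by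
  have h := hM (yy B (J0 + i)) (yy B (J0 + i + 1)) (two_le_yy hB.le _) (yy_mono B (by omega))
  rw [log_yy, log_yy] at h
  set P : ℝ := 2 ^ (J0 + i) with hP
  have hP0 : 0 < P := by positivity
  have h1 : (2 : ℝ) ^ (J0 + i + 1) = 2 * P := by rw [pow_succ]; ring
  rw [h1] at h
  have h2 : (2 * P + B) / (P + B) = 2 * (1 - B / (2 * (P + B))) := by
    field_simp
    ring
  have h3 : 0 < 1 - B / (2 * (P + B)) := by
    rw [sub_pos, div_lt_one (by positivity)]
    linarith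
  rw [h2, Real.log_mul (by norm_num) h3.ne'] at h
  have h4 := Real.one_sub_inv_le_log_of_pos h3
  have h5 := (abs_le.mp h).1
  have h6 : 1 - (1 - B / (2 * (P + B)))⁻¹ = - (B / (2 * P + B)) := by
    have e1 : 1 - B / (2 * (P + B)) = (2 * P + B) / (2 * (P + B)) := by
      field_simp
      ring
    rw [e1, inv_div]
    field_simp
    ring
  rw [h6] at h4
  have h7 : B / (2 * P + B) ≤ B / P := by
    apply div_le_div_of_nonneg_left hB.le hP0; linarith
  have h8 : C / (P + B) ≤ C / P := by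
    apply div_le_div_of_nonneg_left hC.le hP0; linarith
  rw [add_div]
  unfold ss DD
  linarith

lemma kappa_le {C B : ℝ} (hC : 0 < C) (hB : 0 < B) (hM : Mert C) (J0 i : ℕ) (y z : ℕ)
    (hy : 0 < y) (hz : 0 < z) :
    ∑ q ∈ (DD B J0 i).filter (fun q => Rel (q * y) z), 1 / (q : ℝ) ≤
      (Real.log 4 + C) / 2 ^ (J0 + i) := by
  have hy0 : (0 : ℝ) < y := by exact_mod_cast hy
  have hz0 : (0 : ℝ) < z := by exact_mod_cast hz
  set a : ℝ := z / (2 * y) with ha
  set x : ℝ := max a (yy B (J0 + i)) with hx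
  have hx1 : yy B (J0 + i) ≤ x := le_max_right _ _
  have hx2 : 2 ≤ x := le_trans (two_le_yy hB.le _) hx1
  have hx0 : 0 < x := by linarith
  have hlogx : 2 ^ (J0 + i) ≤ Real.log x := by
    have h1 := Real.log_le_log (by unfold yy; positivity) hx1
    rw [log_yy] at h1
    linarith
  have hP0 : (0 : ℝ) < 2 ^ (J0 + i) := by positivity
  have hlogx0 : 0 < Real.log x := by linarith
  have h := hM x (4 * x) hx2 (by linarith)
  have h1 := (abs_le.mp h).2
  have hsub : (DD B J0 i).filter (fun q => Rel (q * y) z) ⊆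
      (Finset.Ioc ⌊x⌋₊ ⌊4 * x⌋₊).filter Nat.Prime := by
    intro q hq
    rw [Finset.mem_filter, mem_DD] at hq
    obtain ⟨⟨h1, h2, h3⟩, h4, h5⟩ := hq
    rw [Finset.mem_filter, Finset.mem_Ioc, Nat.floor_lt hx0.le, Nat.le_floor_iff (by positivity)]
    have h4' : (q : ℝ) * y < 2 * z := by exact_mod_cast h4
    have h5' : (z : ℝ) < 2 * (q * y) := by exact_mod_cast h5
    refine ⟨⟨?_, ?_⟩, h3⟩
    · rw [hx, max_lt_iff]
      refine ⟨?_, h1⟩
      rw [ha, div_lt_iff₀ (by positivity)]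
      linarith
    · have h6 : (q : ℝ) ≤ 4 * a := by
        rw [ha]
        have : 4 * ((z : ℝ) / (2 * y)) = 2 * z / y := by field_simp; ring
        rw [this, le_div_iff₀ hy0]
        exact h4'.le
      have h7 : a ≤ x := le_max_left _ _
      linarith
  have h2 : ∑ q ∈ (DD B J0 i).filter (fun q => Rel (q * y) z), 1 / (q : ℝ) ≤
      ∑ q ∈ (Finset.Ioc ⌊x⌋₊ ⌊4 * x⌋₊).filter Nat.Prime, (1 : ℝ) / q :=
    Finset.sum_le_sum_of_subset_of_nonneg hsub fun _ _ _ => by positivity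
  have h3 : Real.log (Real.log (4 * x) / Real.log x) ≤ Real.log 4 / Real.log x := by
    rw [Real.log_mul (by norm_num) hx0.ne']
    have h4 : 0 < (Real.log 4 + Real.log x) / Real.log x := by
      have : 0 < Real.log 4 := Real.log_pos (by norm_num)
      positivity
    have h5 := Real.log_le_sub_one_of_pos h4
    have h6 : (Real.log 4 + Real.log x) / Real.log x - 1 = Real.log 4 / Real.log x := by
      field_simp
      ring
    rw [h6] at h5
    exact h5
  have h4 : Real.log 4 / Real.log x + C / Real.log x ≤ (Real.log 4 + C) / 2 ^ (J0 + i) := by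
    rw [← add_div]
    have : 0 < Real.log 4 := Real.log_pos (by norm_num)
    apply div_le_div_of_nonneg_left (by positivity) hP0 hlogx
  linarith

lemma mu_le {B : ℝ} (hB : 0 ≤ B) (J0 i : ℕ) :
    ∀ q ∈ DD B J0 i, 1 / (q : ℝ) ≤ 2 / (2 ^ (J0 + i) * 2 ^ (J0 + i)) := by
  intro q hq
  rw [mem_DD] at hq
  have h1 := hq.1
  unfold yy at h1
  have hP0 : (0 : ℝ) < 2 ^ (J0 + i) := by positivity
  have h2 := Real.quadratic_le_exp_of_nonneg (x := 2 ^ (J0 + i) + B) (by positivity)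
  have h3 : ((2 : ℝ) ^ (J0 + i)) * 2 ^ (J0 + i) / 2 ≤ q := by
    set P : ℝ := 2 ^ (J0 + i) with hP
    have : P ^ 2 ≤ (P + B) ^ 2 := by gcongr; linarith
    nlinarith
  have h4 : (0 : ℝ) < q := by
    have : (0 : ℝ) < ((2 : ℝ) ^ (J0 + i)) * 2 ^ (J0 + i) / 2 := by positivity
    linarith
  rw [div_le_div_iff₀ h4 (by positivity)]
  linarith

lemma PP_le {B : ℝ} {J0 J : ℕ} {b : ℕ → ℕ} {S : Finset ℕ} (hS : S ∈ Sf (DD B J0) J b) :
    (PP S : ℝ) ≤ Real.exp (∑ i ∈ range J, b i * (2 ^ (J0 + i + 1) + B)) := by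
  have hS2 := mem_Sf.mp hS
  have hD := DD_disjoint B J0
  have h1 : S = (range J).biUnion (fun i => S ∩ DD B J0 i) := by
    ext x
    rw [Finset.mem_biUnion]
    constructor
    · intro hx
      have := hS2.1 hx
      rw [Finset.mem_biUnion] at this
      obtain ⟨i, hi, hx2⟩ := this
      exact ⟨i, hi, Finset.mem_inter.mpr ⟨hx, hx2⟩⟩
    · rintro ⟨i, _, hx⟩
      exact (Finset.mem_inter.mp hx).1
  unfold PP
  conv_lhs => rw [h1]
  rw [Finset.prod_biUnion]
  · rw [Real.exp_sum]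
    push_cast
    apply Finset.prod_le_prod
    · intro i _; positivity
    · intro i hi
      calc ∏ q ∈ S ∩ DD B J0 i, (q : ℝ) ≤ ∏ _q ∈ S ∩ DD B J0 i, yy B (J0 + i + 1) := by
            apply Finset.prod_le_prod
            · intro q _; positivity
            · intro q hq
              exact (mem_DD.mp (Finset.mem_inter.mp hq).2).2.1
        _ = Real.exp (b i * (2 ^ (J0 + i + 1) + B)) := by
            rw [Finset.prod_const, hS2.2 i (Finset.mem_range.mp hi), Real.exp_nat_mul]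
            rfl
  · intro i _ j _ hij
    exact Finset.disjoint_of_subset_left Finset.inter_subset_right
      (Finset.disjoint_of_subset_right Finset.inter_subset_right (hD i j hij))

lemma primes_of_mem {B : ℝ} {J0 J : ℕ} {b : ℕ → ℕ} {S : Finset ℕ} (hS : S ∈ Sf (DD B J0) J b) :
    ∀ q ∈ S, q.Prime := by
  intro q hq
  rw [mem_Sf] at hS
  have := hS.1 hq
  rw [Finset.mem_biUnion] at this
  obtain ⟨i, _, hi⟩ := this
  exact (mem_DD.mp hi).2.2

end Pool.Agent.Helper40.Low
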