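import Mathlib
import Pool.Agent.Helper40.LowPrimes
import Pool.Agent.Helper40.LowCyc
import Pool.Agent.Helper40.Ballot
import Pool.Agent.Helper44.MertensInterval

/-!
# The lower bound
-/

set_option autoImplicit false

namespace Pool.Agent.Helper40.Low

open Finset Pool.Agent.Helper44

/-- The function on `ℕ` attached to a periodic function. -/
def lift {J : ℕ} (b : ZMod J → ℕ) : ℕ → ℕ := fun i => b (i : ZMod J)

lemma sum_lift {J : ℕ} [NeZero J] (b : ZMod J → ℕ) : ∑ i ∈ range J, lift b i = ∑ x, b x :=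
  psum_full b

lemma fac_lift {J : ℕ} [NeZero J] (b : ZMod J → ℕ) : 1 / fac (lift b) J 0 = wt b := by
  have h : ∏ i ∈ range J, ((b (i : ZMod J)).factorial : ℝ) = ∏ x, ((b x).factorial : ℝ) := by
    apply Finset.prod_bij (fun (i : ℕ) _ => (i : ZMod J))
    · intro i _; simp
    · intro i hi j hj hij
      rw [Finset.mem_range] at hi hj
      have := congrArg ZMod.val hij
      rwa [ZMod.val_natCast_of_lt hi, ZMod.val_natCast_of_lt hj] at this
    · intro x _
      exact ⟨x.val, by simpa using ZMod.val_lt x, by simp⟩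
    · intro i _; rfl
  unfold fac wt lift
  rw [h, Finset.prod_div_distrib, Finset.prod_const_one]
  simp

lemma F_lift {J : ℕ} (b : ZMod J → ℕ) :
    ∑ i ∈ range J, (2 : ℝ) ^ (∑ l ∈ range (i + 1), lift b l) / 2 ^ i = 2 * F b := by
  unfold F Q psum lift
  rw [Finset.mul_sum]
  apply Finset.sum_congr rfl
  intro i _
  rw [pow_succ]
  field_simp

lemma mem_good {J : ℕ} [NeZero J] {b : ZMod J → ℕ} : b ∈ good J ↔
    (∑ x, b x = J) ∧ ∑ i ∈ range J, (lift b i : ℝ) * theta J i ≤ 12 := by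
  unfold good
  rw [Finset.mem_filter, mem_piAntidiag]
  constructor
  · rintro ⟨⟨h1, _⟩, h2⟩; exact ⟨h1, h2⟩
  · rintro ⟨h1, h2⟩; exact ⟨⟨h1, fun i _ => mem_univ i⟩, h2⟩

lemma good_low {J : ℕ} [NeZero J] {b : ZMod J → ℕ} (hb : b ∈ good J) :
    ∑ i ∈ range J, (lift b i : ℝ) / 2 ^ i ≤ 12 := by
  refine le_trans (Finset.sum_le_sum ?_) (mem_good.mp hb).2
  intro i _
  unfold theta
  rw [mul_add, mul_one_div]
  have : 0 ≤ (lift b i : ℝ) * (2 ^ i / 2 ^ J) := by positivity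
  linarith

lemma good_high {J : ℕ} [NeZero J] {b : ZMod J → ℕ} (hb : b ∈ good J) :
    ∑ i ∈ range J, (lift b i : ℝ) * 2 ^ i ≤ 12 * 2 ^ J := by
  have h : (∑ i ∈ range J, (lift b i : ℝ) * 2 ^ i) / 2 ^ J ≤ 12 := by
    rw [Finset.sum_div]
    refine le_trans (Finset.sum_le_sum ?_) (mem_good.mp hb).2
    intro i _
    unfold theta
    rw [mul_add, mul_div_assoc]
    have : 0 ≤ (lift b i : ℝ) * (1 / 2 ^ i) := by positivity
    linarith
  rwa [div_le_iff₀ (by positivity)] at h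

lemma good_each {J : ℕ} [NeZero J] {b : ZMod J → ℕ} (hb : b ∈ good J) {i : ℕ} (hi : i < J) :
    (lift b i : ℝ) ≤ 12 * 2 ^ i := by
  have h1 : (lift b i : ℝ) / 2 ^ i ≤ ∑ i ∈ range J, (lift b i : ℝ) / 2 ^ i :=
    Finset.single_le_sum (f := fun i => (lift b i : ℝ) / 2 ^ i) (fun j _ => by positivity)
      (Finset.mem_range.mpr hi)
  have h2 := le_trans h1 (good_low hb)
  rwa [div_le_iff₀ (by positivity)] at h2

/-- The contribution of one vector `b`. -/
lemma one_b {C B K1 : ℝ} (hC : 0 < C) (hB : 2 * C ≤ B) (hM : Mert C) {J0 : ℕ}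
    (hK1 : K1 = (B + C + 24) / Real.log 2) (hJ0 : 24 * K1 ≤ 2 ^ J0)
    {J : ℕ} [NeZero J] {b : ZMod J → ℕ} (hb : b ∈ good J) :
    (2 * Real.log 2) ^ J / (4 * (1 + 2 * ((Real.log 4 + C) / Real.log 2))) * (wt b / F b) ≤
      ∑ S ∈ Sf (DD B J0) J (lift b), (kap (PP S) : ℝ) / (PP S : ℝ) := by
  have hB0 : 0 < B := by linarith
  have hl : 0 < Real.log 2 := Real.log_pos (by norm_num)
  have hl4 : 0 < Real.log 4 := Real.log_pos (by norm_num)
  have hD := DD_disjoint B J0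
  have hpos := DD_pos B J0
  have hK10 : 0 < K1 := by rw [hK1]; positivity
  have hbsum : ∑ i ∈ range J, lift b i = J := by rw [sum_lift]; exact (mem_good.mp hb).1
  have hP : ∀ i : ℕ, (2 : ℝ) ^ (J0 + i) = 2 ^ J0 * 2 ^ i := fun i => pow_add _ _ _
  have h2J0 : (0 : ℝ) < 2 ^ J0 := by positivity
  -- lower bound for sig
  have hsig := sig_bb_ge (J := J) hD hl (a := fun i => K1 / 2 ^ (J0 + i))
    (fun i => by positivity) (fun i => by
      rw [div_le_one (by positivity), hP]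
      have h1 : (1 : ℝ) ≤ 2 ^ i := one_le_pow₀ (by norm_num)
      nlinarith) (mu_le hB0.le J0) (lift b) (by
      intro j hj r hr
      have h1 := ss_ge hC hB0 hM J0 j
      have h2 : (r : ℝ) ≤ 12 * 2 ^ j := by
        have h3 := good_each hb hj
        have h4 : (r : ℝ) ≤ (lift b j : ℝ) := by exact_mod_cast hr.le
        linarith
      have h3 : (r : ℝ) * (2 / (2 ^ (J0 + j) * 2 ^ (J0 + j))) ≤ 24 / 2 ^ (J0 + j) := by
        have h4 : (1 : ℝ) ≤ 2 ^ J0 := one_le_pow₀ (by norm_num)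
        calc (r : ℝ) * (2 / (2 ^ (J0 + j) * 2 ^ (J0 + j)))
            ≤ (12 * 2 ^ j) * (2 / (2 ^ (J0 + j) * 2 ^ (J0 + j))) := by gcongr
          _ ≤ (12 * 2 ^ (J0 + j)) * (2 / (2 ^ (J0 + j) * 2 ^ (J0 + j))) := by
              have : (2 : ℝ) ^ j ≤ 2 ^ (J0 + j) := pow_le_pow_right₀ (by norm_num) (by omega)
              gcongr
          _ = 24 / 2 ^ (J0 + j) := by field_simp; ring
      have h4 : Real.log 2 * (1 - K1 / 2 ^ (J0 + j)) =
          Real.log 2 - (B + C) / 2 ^ (J0 + j) - 24 / 2 ^ (J0 + j) := by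
        rw [hK1]
        field_simp
        ring
      rw [h4]
      linarith)
  rw [hbsum] at hsig
  have hsum1 : ∑ i ∈ range J, (lift b i : ℝ) * (K1 / 2 ^ (J0 + i)) ≤ 1 / 2 := by
    have h1 : ∑ i ∈ range J, (lift b i : ℝ) * (K1 / 2 ^ (J0 + i)) =
        K1 / 2 ^ J0 * ∑ i ∈ range J, (lift b i : ℝ) / 2 ^ i := by
      rw [Finset.mul_sum]
      apply Finset.sum_congr rfl
      intro i _
      rw [hP]
      field_simp
    rw [h1]
    have h2 := good_low hb
    have h3 : K1 / 2 ^ J0 ≤ 1 / 24 := by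
      rw [div_le_div_iff₀ h2J0 (by norm_num)]
      linarith
    have h4 : 0 ≤ ∑ i ∈ range J, (lift b i : ℝ) / 2 ^ i := Finset.sum_nonneg fun i _ => by positivity
    calc K1 / 2 ^ J0 * ∑ i ∈ range J, (lift b i : ℝ) / 2 ^ i ≤ 1 / 24 * 12 := by gcongr
      _ = 1 / 2 := by norm_num
  have hfac := fac_pos (lift b) J 0
  set fc := fac (lift b) J 0 with hfc
  have hsig2 : Real.log 2 ^ J / fc * (1 / 2) ≤ sig (DD B J0) J (lift b) := by
    refine le_trans ?_ hsig
    apply mul_le_mul_of_nonneg_left _ (by positivity)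
    linarith
  -- upper bound for UU
  have hUU := UU_bound (J := J) hD hpos hl (ss_le hC hB hM J0)
    (κ := fun i => (Real.log 4 + C) / 2 ^ (J0 + i)) (fun i => by positivity)
    (fun j y z hy hz => kappa_le hC hB0 hM J0 j y z hy hz) (lift b)
  rw [hbsum] at hUU
  have hF1 : 1 ≤ F b := one_le_F b (mem_good.mp hb).1
  have hFpos := F_pos b
  set K2 := 1 + 2 * ((Real.log 4 + C) / Real.log 2) with hK2
  have hK20 : 0 < K2 := by positivity
  have hsum2 : 1 + ∑ i ∈ range J, (Real.log 4 + C) / 2 ^ (J0 + i) / Real.log 2 *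
      2 ^ (∑ l ∈ range (i + 1), lift b l) ≤ K2 * F b := by
    have h1 : ∑ i ∈ range J, (Real.log 4 + C) / 2 ^ (J0 + i) / Real.log 2 *
        2 ^ (∑ l ∈ range (i + 1), lift b l) ≤
        (Real.log 4 + C) / Real.log 2 * (2 * F b) := by
      rw [← F_lift, Finset.mul_sum]
      apply Finset.sum_le_sum
      intro i _
      have h2 : (2 : ℝ) ^ i ≤ 2 ^ (J0 + i) := pow_le_pow_right₀ (by norm_num) (by omega)
      calc (Real.log 4 + C) / 2 ^ (J0 + i) / Real.log 2 * 2 ^ (∑ l ∈ range (i + 1), lift b l)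
          ≤ (Real.log 4 + C) / 2 ^ i / Real.log 2 * 2 ^ (∑ l ∈ range (i + 1), lift b l) := by
            gcongr
        _ = _ := by field_simp
    have h2 : K2 * F b = F b + (Real.log 4 + C) / Real.log 2 * (2 * F b) := by
      rw [hK2]; ring
    rw [h2]
    linarith
  have hUU2 : UU (DD B J0) J (lift b) ≤ (2 * Real.log 2) ^ J / fc * (K2 * F b) := by
    refine le_trans hUU ?_
    apply mul_le_mul_of_nonneg_left hsum2 (by positivity)
  have hkap := kap_sum_ge (J := J) hD hpos (lift b)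
  rw [hbsum] at hkap
  set A := ∑ S ∈ Sf (DD B J0) J (lift b), (kap (PP S) : ℝ) / (PP S : ℝ) with hA
  have hA0 : 0 ≤ A := Finset.sum_nonneg fun S _ => by positivity
  have h1 : (4 : ℝ) ^ J * (Real.log 2 ^ J / fc * (1 / 2)) ^ 2 ≤
      A * ((2 * Real.log 2) ^ J / fc * (K2 * F b)) := by
    calc (4 : ℝ) ^ J * (Real.log 2 ^ J / fc * (1 / 2)) ^ 2
        ≤ (4 : ℝ) ^ J * sig (DD B J0) J (lift b) ^ 2 := by gcongr
      _ ≤ A * UU (DD B J0) J (lift b) := hkap
      _ ≤ _ := by gcongr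
  rw [← fac_lift, ← hfc]
  have h2 : (4 : ℝ) ^ J * (Real.log 2 ^ J / fc * (1 / 2)) ^ 2 =
      ((2 * Real.log 2) ^ J / (4 * K2) * (1 / fc / F b)) *
        ((2 * Real.log 2) ^ J / fc * (K2 * F b)) := by
    have e4 : (4 : ℝ) ^ J = 2 ^ J * 2 ^ J := by rw [← mul_pow]; norm_num
    rw [e4, mul_pow 2 (Real.log 2) J]
    field_simp
    ring
  rw [h2] at h1
  exact le_of_mul_le_mul_right h1 (by positivity)

/-- Total contribution of all good vectors. -/
lemma all_b {C B : ℝ} {J0 : ℕ} (hB : 0 ≤ B) {J : ℕ} [NeZero J] {t : ℝ} (ht : 0 < t)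
    (hJt : (24 * 2 ^ J0 + B) * 2 ^ J ≤ Real.log t)
    (h : ∀ b ∈ good J, C * (wt b / F b) ≤
      ∑ S ∈ Sf (DD B J0) J (lift b), (kap (PP S) : ℝ) / (PP S : ℝ)) :
    C * ∑ b ∈ good J, wt b / F b ≤ ∑ M ∈ Finset.Icc 1 ⌊t⌋₊, (kap M : ℝ) / M := by
  classical
  rw [Finset.mul_sum]
  refine le_trans (Finset.sum_le_sum h) ?_
  rw [Finset.sum_sigma']
  have hinj : Set.InjOn (fun x : (_ : ZMod J → ℕ) × Finset ℕ => PP x.2)
      ((good J).sigma (fun b => Sf (DD B J0) J (lift b))) := by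
    rintro ⟨b, S⟩ hx ⟨c, S'⟩ hy hxy
    rw [Finset.mem_coe, Finset.mem_sigma] at hx hy
    simp only at hx hy hxy
    have h1 : S = S' := by
      have e1 := Nat.primeFactors_prod (primes_of_mem hx.2)
      have e2 := Nat.primeFactors_prod (primes_of_mem hy.2)
      unfold PP at hxy
      rw [hxy, e2] at e1
      exact e1.symm
    subst h1
    have h2 : b = c := by
      funext x
      have hx2 := (mem_Sf.mp hx.2).2 x.val (ZMod.val_lt x)
      have hy2 := (mem_Sf.mp hy.2).2 x.val (ZMod.val_lt x)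
      rw [hx2] at hy2
      simpa [lift] using hy2
    subst h2
    rfl
  have himg : ((good J).sigma (fun b => Sf (DD B J0) J (lift b))).image
      (fun x : (_ : ZMod J → ℕ) × Finset ℕ => PP x.2) ⊆ Finset.Icc 1 ⌊t⌋₊ := by
    intro M hM
    rw [Finset.mem_image] at hM
    obtain ⟨⟨b, S⟩, hx, rfl⟩ := hM
    rw [Finset.mem_sigma] at hx
    simp only at hx ⊢
    rw [Finset.mem_Icc, Nat.le_floor_iff ht.le]
    refine ⟨?_, ?_⟩
    · have : 0 < PP S := Finset.prod_pos fun q hq => (primes_of_mem hx.2 q hq).pos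
      omega
    · refine le_trans (PP_le hx.2) ?_
      rw [← Real.le_log_iff_exp_le ht]
      refine le_trans ?_ hJt
      have h1 := good_high hx.1
      have h2 : ∑ i ∈ range J, (lift b i : ℝ) = J := by
        have := sum_lift b
        rw [(mem_good.mp hx.1).1] at this
        exact_mod_cast this
      have h3 : ∑ i ∈ range J, (lift b i : ℝ) * (2 ^ (J0 + i + 1) + B) =
          2 * 2 ^ J0 * (∑ i ∈ range J, (lift b i : ℝ) * 2 ^ i) + B * ∑ i ∈ range J, (lift b i : ℝ) := by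
        rw [Finset.mul_sum, Finset.mul_sum, ← Finset.sum_add_distrib]
        apply Finset.sum_congr rfl
        intro i _
        rw [pow_succ, pow_add]
        ring
      rw [h3, h2]
      have h4 : (J : ℝ) ≤ 2 ^ J := by exact_mod_cast Nat.lt_two_pow_self.le
      have h5 : B * (J : ℝ) ≤ B * 2 ^ J := by gcongr
      have h6 : 2 * 2 ^ J0 * (∑ i ∈ range J, (lift b i : ℝ) * 2 ^ i) ≤
          2 * 2 ^ J0 * (12 * 2 ^ J) := by gcongr
      linarith
  calc ∑ x ∈ (good J).sigma (fun b => Sf (DD B J0) J (lift b)), (kap (PP x.2) : ℝ) / (PP x.2 : ℝ)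
      = ∑ M ∈ ((good J).sigma (fun b => Sf (DD B J0) J (lift b))).image
          (fun x : (_ : ZMod J → ℕ) × Finset ℕ => PP x.2), (kap M : ℝ) / M := by
        rw [Finset.sum_image hinj]
    _ ≤ _ := Finset.sum_le_sum_of_subset_of_nonneg himg fun _ _ _ => by positivity

lemma two_rpow : (2 : ℝ) ^ (2 - del) = 2 * Real.exp 1 * Real.log 2 := by
  have hl : 0 < Real.log 2 := Real.log_pos (by norm_num)
  rw [Real.rpow_def_of_pos (by norm_num)]
  have : Real.log 2 * (2 - del) = Real.log 2 + 1 + Real.log (Real.log 2) := by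
    unfold del
    field_simp
    ring
  rw [this, Real.exp_add, Real.exp_add, Real.exp_log hl, Real.exp_log (by norm_num)]

/-- The lower bound for the weighted sum of `kap`. -/
theorem kap_lower : ∃ c > (0:ℝ), ∃ t₀ : ℝ, ∀ t : ℝ, t₀ ≤ t →
    c * (Real.log t)^(2 - del) / (Real.log (Real.log t))^(3/2:ℝ) ≤
      ∑ M ∈ Finset.Icc 1 ⌊t⌋₊, (kap M : ℝ) / M := by
  obtain ⟨C, hC, hM⟩ := mertens_interval
  have hMert : Mert C := hM
  have hl : 0 < Real.log 2 := Real.log_pos (by norm_num)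
  have hl4 : 0 < Real.log 4 := Real.log_pos (by norm_num)
  set B := 2 * C with hB
  have hB0 : 0 < B := by positivity
  set K1 := (B + C + 24) / Real.log 2 with hK1
  obtain ⟨J0, hJ0⟩ := pow_unbounded_of_one_lt (24 * K1) (by norm_num : (1 : ℝ) < 2)
  set K := 24 * 2 ^ J0 + B with hK
  have h2J0 : (1 : ℝ) ≤ 2 ^ J0 := one_le_pow₀ (by norm_num)
  have hK0 : 1 ≤ K := by rw [hK]; linarith
  set K2 := 1 + 2 * ((Real.log 4 + C) / Real.log 2) with hK2
  have hK20 : 0 < K2 := by positivity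
  have hdel : 0 < 2 - del := by
    by_contra hneg
    push Not at hneg
    have h1 : (2 : ℝ) ^ (2 - del) ≤ 1 := Real.rpow_le_one_of_one_le_of_nonpos (by norm_num) hneg
    rw [two_rpow] at h1
    have h2 : 2 ≤ Real.exp 1 := by have := Real.add_one_le_exp 1; linarith
    have h3 : 0.69 < Real.log 2 := by have := Real.log_two_gt_d9; linarith
    nlinarith
  set c := Real.log 2 ^ (3/2 : ℝ) / ((2 * K) ^ (2 - del) * (8 * K2 * Real.exp 1)) with hc
  have he : 0 < Real.exp 1 := Real.exp_pos 1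
  refine ⟨c, by positivity, Real.exp (2 * K * Real.exp 1), ?_⟩
  intro t ht
  have ht0 : 0 < t := lt_of_lt_of_le (Real.exp_pos _) ht
  have hlt : 2 * K * Real.exp 1 ≤ Real.log t := by rwa [Real.le_log_iff_exp_le ht0]
  have he2 : 2 ≤ Real.exp 1 := by have := Real.add_one_le_exp 1; linarith
  set L := Real.log t with hL
  have hL0 : 0 < L := lt_of_lt_of_le (by positivity) hlt
  have hLK : 2 ≤ L / K := by
    rw [le_div_iff₀ (by positivity)]
    nlinarith
  -- choice of J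
  obtain ⟨J, hJ1, hJ2⟩ := exists_nat_pow_near (show (1 : ℝ) ≤ L / K by linarith)
    (by norm_num : (1 : ℝ) < 2)
  have hJpos : J ≠ 0 := by
    rintro rfl
    norm_num at hJ2
    linarith
  have : NeZero J := ⟨hJpos⟩
  have hJt : K * 2 ^ J ≤ L := by
    rw [le_div_iff₀ (by positivity)] at hJ1
    linarith
  have hJt2 : L / (2 * K) ≤ 2 ^ J := by
    rw [pow_succ, div_lt_iff₀ (by positivity)] at hJ2
    rw [div_le_iff₀ (by positivity)]
    linarith
  have hgood := good_sum (J := J)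
  have hmain := all_b (C := (2 * Real.log 2) ^ J / (4 * K2)) (J0 := J0) hB0.le ht0 hJt
    (fun b hb => one_b hC le_rfl hMert hK1 hJ0.le hb)
  refine le_trans ?_ hmain
  have hJr : (0 : ℝ) < J := by exact_mod_cast Nat.pos_of_ne_zero hJpos
  -- Stirling
  have hst := Ballot.factorial_le J (Nat.one_le_iff_ne_zero.mpr hJpos)
  have hsq : 0 < Real.sqrt J := Real.sqrt_pos.mpr hJr
  have h1 : Real.exp 1 ^ J / (Real.exp 1 * Real.sqrt J) ≤ (J : ℝ) ^ J / J.factorial := by
    rw [div_le_div_iff₀ (by positivity) (by positivity)]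
    calc Real.exp 1 ^ J * (J.factorial : ℝ)
        ≤ Real.exp 1 ^ J * (Real.exp 1 * Real.sqrt J * (J / Real.exp 1) ^ J) := by gcongr
      _ = (J : ℝ) ^ J * (Real.exp 1 * Real.sqrt J) := by
          rw [div_pow]; field_simp
  have h2 : (2 * Real.log 2) ^ J / (4 * K2) *
      (Real.exp 1 ^ J / (Real.exp 1 * Real.sqrt J) / J / 2) ≤
      (2 * Real.log 2) ^ J / (4 * K2) * ∑ b ∈ good J, wt b / F b := by
    apply mul_le_mul_of_nonneg_left _ (by positivity)
    refine le_trans ?_ hgood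
    gcongr
  refine le_trans ?_ h2
  have h3 : (2 * Real.log 2) ^ J / (4 * K2) *
      (Real.exp 1 ^ J / (Real.exp 1 * Real.sqrt J) / J / 2) =
      ((2 : ℝ) ^ J) ^ (2 - del) / (8 * K2 * Real.exp 1) / (J * Real.sqrt J) := by
    rw [← Real.rpow_natCast 2 J, ← Real.rpow_mul (by norm_num), mul_comm (J : ℝ) (2 - del),
      Real.rpow_mul (by norm_num), two_rpow, Real.rpow_natCast]
    have : (2 * Real.exp 1 * Real.log 2) ^ J = (2 * Real.log 2) ^ J * Real.exp 1 ^ J := by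
      rw [← mul_pow]; congr 1; ring
    rw [this]
    field_simp
    ring
  rw [h3]
  have h4 : L ^ (2 - del) / (2 * K) ^ (2 - del) ≤ ((2 : ℝ) ^ J) ^ (2 - del) := by
    rw [← Real.div_rpow hL0.le (by positivity)]
    exact Real.rpow_le_rpow (by positivity) hJt2 hdel.le
  have h5 : (J : ℝ) ≤ Real.log L / Real.log 2 := by
    rw [le_div_iff₀ hl]
    have h6 : (2 : ℝ) ^ J ≤ L := by
      have : (2 : ℝ) ^ J ≤ K * 2 ^ J := by
        have : (0 : ℝ) < 2 ^ J := by positivity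
        nlinarith
      linarith
    have h7 := Real.log_le_log (by positivity) h6
    rwa [Real.log_pow] at h7
  have hLL : 0 < Real.log L := by
    have : 0 < Real.log L / Real.log 2 := lt_of_lt_of_le hJr h5
    exact (div_pos_iff_of_pos_right hl).mp this
  have h6 : (J : ℝ) * Real.sqrt J = (J : ℝ) ^ (3/2 : ℝ) := by
    rw [Real.sqrt_eq_rpow]
    nth_rewrite 1 [← Real.rpow_one (J : ℝ)]
    rw [← Real.rpow_add hJr]
    norm_num
  have h7 : (J : ℝ) ^ (3/2 : ℝ) ≤ Real.log L ^ (3/2 : ℝ) / Real.log 2 ^ (3/2 : ℝ) := by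
    rw [← Real.div_rpow hLL.le hl.le]
    exact Real.rpow_le_rpow hJr.le h5 (by norm_num)
  rw [h6]
  have hl32 : 0 < Real.log 2 ^ (3/2 : ℝ) := by positivity
  have hLL32 : 0 < Real.log L ^ (3/2 : ℝ) := by positivity
  have hJ32 : 0 < (J : ℝ) ^ (3/2 : ℝ) := by positivity
  calc c * L ^ (2 - del) / Real.log L ^ (3/2 : ℝ)
      = (L ^ (2 - del) / (2 * K) ^ (2 - del)) / (8 * K2 * Real.exp 1) /
        (Real.log L ^ (3/2 : ℝ) / Real.log 2 ^ (3/2 : ℝ)) := by
        rw [hc]; field_simp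
    _ ≤ ((2 : ℝ) ^ J) ^ (2 - del) / (8 * K2 * Real.exp 1) /
        (Real.log L ^ (3/2 : ℝ) / Real.log 2 ^ (3/2 : ℝ)) := by gcongr
    _ ≤ _ := by gcongr

end Pool.Agent.Helper40.Low
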