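import Pool.Agent.Helper40.NSCountB

set_option autoImplicit false

namespace NS57

/-- The number of pairs in the bound from differences of degree at most two. -/
def NT (k : ℕ) : ℕ := (k + 2).choose 2 + k * (k - 1 + 2).choose 2 + k * (k - 1 + 2).choose 2 +
  k.choose 2 * (k - 2 + 2).choose 2

section cases_

variable {e m d : ℕ}

theorem case_h2 (he : 3 ≤ e) (hde : d + 1 ≤ e)
    (h1 : (e + 2 + 1).choose (2 + 1) + (d + 2 + 1).choose (2 + 2) ≤ m)
    (h2 : m < (e + 2 + 1).choose (2 + 1) + (d + 2 + 2).choose (2 + 2))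
    (b1 : NN e 2 ≤ m) (b2 : NN d (2 + 1) ≤ m) (b5 : NT d ≤ m) :
    (e = 3 ∧ d = 2 ∧ 28 ≤ m ∧ m ≤ 34) ∨ (e = 4 ∧ d = 3 ∧ 55 ≤ m ∧ m ≤ 69) := by
  by_cases he8 : 8 ≤ e
  · exfalso
    refine no_II he hde h2 b1 b2 (by nlinarith) ?_
    intro _ hPQ
    have hP : (8 + 2 + 1).choose (2 + 1) ≤ (e + 2 + 1).choose (2 + 1) :=
      Nat.choose_le_choose _ (by omega)
    have hd6 : 6 ≤ d := by
      by_contra hd
      have hQ : (d + 2 + 2).choose (2 + 2) ≤ (5 + 2 + 2).choose (2 + 2) :=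
        Nat.choose_le_choose _ (by omega)
      have e1 : (8 + 2 + 1).choose (2 + 1) = 165 := by decide
      have e2 : (5 + 2 + 2).choose (2 + 2) = 126 := by decide
      omega
    nlinarith
  · have he7 : e ≤ 7 := by omega
    have hd6 : d ≤ 6 := by omega
    interval_cases e <;> interval_cases d <;>
      simp [NN, NT, Nat.choose] at hde h1 h2 b1 b2 b5 ⊢ <;> omega

theorem case_h3 (he : 3 ≤ e) (hde : d + 1 ≤ e)
    (h1 : (e + 3 + 1).choose (3 + 1) + (d + 3 + 1).choose (3 + 2) ≤ m)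
    (h2 : m < (e + 3 + 1).choose (3 + 1) + (d + 3 + 2).choose (3 + 2))
    (b1 : NN e 3 ≤ m) (b2 : NN d (3 + 1) ≤ m) (b4 : NT e ≤ m) :
    e = 3 ∧ d = 2 ∧ 50 ≤ m ∧ m ≤ 55 := by
  by_cases he6 : 6 ≤ e
  · exfalso
    by_cases hd5 : d = 5
    · subst hd5
      by_cases he7 : 7 ≤ e
      · refine no_II he hde h2 b1 b2 (by nlinarith) ?_
        intro _ hPQ
        have hP : (7 + 3 + 1).choose (3 + 1) ≤ (e + 3 + 1).choose (3 + 1) :=
          Nat.choose_le_choose _ (by omega)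
        have e1 : (7 + 3 + 1).choose (3 + 1) = 330 := by decide
        have e2 : (5 + 3 + 2).choose (3 + 2) = 252 := by decide
        omega
      · have : e = 6 := by omega
        subst this
        simp [NN, Nat.choose] at h2 b2
        omega
    · refine no_II he hde h2 b1 b2 (by nlinarith) ?_
      intro hd hPQ
      have hd6 : 6 ≤ d := by omega
      nlinarith
  · have he5 : e ≤ 5 := by omega
    have hd4 : d ≤ 4 := by omega
    interval_cases e <;> interval_cases d <;>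
      simp [NN, NT, Nat.choose] at hde h1 h2 b1 b2 b4 ⊢ <;> omega

theorem case_h4 (he : 3 ≤ e) (hde : d + 1 ≤ e)
    (h1 : (e + 4 + 1).choose (4 + 1) + (d + 4 + 1).choose (4 + 2) ≤ m)
    (h2 : m < (e + 4 + 1).choose (4 + 1) + (d + 4 + 2).choose (4 + 2))
    (b1 : NN e 4 ≤ m) (b2 : NN d (4 + 1) ≤ m) :
    e = 3 ∧ d = 2 ∧ 80 ≤ m ∧ m ≤ 83 := by
  by_cases he4 : 4 ≤ e
  · exfalso
    by_cases he12 : 12 ≤ e
    · exact no_II he hde h2 b1 b2 (by nlinarith) (fun hd _ => cond_D (by norm_num) hd)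
    · refine no_I he hde h2 b1 ?_
      interval_cases e <;> norm_num
  · have : e = 3 := by omega
    subst this
    have hd2 : d ≤ 2 := by omega
    interval_cases d <;> simp [NN, Nat.choose] at h1 h2 b1 b2 ⊢ <;> omega

theorem case_h5 (he : 3 ≤ e) (hde : d + 1 ≤ e)
    (h1 : (e + 5 + 1).choose (5 + 1) + (d + 5 + 1).choose (5 + 2) ≤ m)
    (h2 : m < (e + 5 + 1).choose (5 + 1) + (d + 5 + 2).choose (5 + 2))
    (b1 : NN e 5 ≤ m) (b2 : NN d (5 + 1) ≤ m) :
    e = 3 ∧ d = 2 ∧ m = 119 := by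
  by_cases he4 : 4 ≤ e
  · exfalso
    by_cases he21 : 21 ≤ e
    · exact no_II he hde h2 b1 b2 (by nlinarith) (fun hd _ => cond_D (by norm_num) hd)
    · refine no_I he hde h2 b1 ?_
      interval_cases e <;> norm_num
  · have : e = 3 := by omega
    subst this
    have hd2 : d ≤ 2 := by omega
    interval_cases d <;> simp [NN, Nat.choose] at h1 h2 b1 b2 ⊢ <;> omega

end cases_

end NS57
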