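import Pool.Agent.Helper40.NSCountA
import Pool.Agent.Helper40.NSCountC

set_option autoImplicit false

namespace NS57

theorem count_reduction {e m r d : ℕ} (he : 3 ≤ e) (hr : 3 ≤ r) (hde : d + 1 ≤ e)
    (h1 : (e+r-1).choose (r-1) + (d+r-1).choose r ≤ m)
    (h2 : m < (e+r-1).choose (r-1) + (d+r).choose r)
    (D : Finset (Fin e)) (hD : D.card = d) (a : Fin e → ZMod m) (h : Dist r m D a) :
    (r = 3 ∧ ((e = 3 ∧ d = 1 ∧ m = 13) ∨ (e = 3 ∧ d = 2 ∧ 15 ≤ m ∧ m ≤ 19) ∨ (e = 4 ∧ d = 2 ∧ 21 ≤ m ∧ m ≤ 24) ∨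
       (e = 4 ∧ d = 3 ∧ 32 ≤ m ∧ m ≤ 34) ∨ (e = 5 ∧ d = 3 ∧ 36 ≤ m ∧ m ≤ 40) ∨ (e = 6 ∧ d = 3 ∧ 43 ≤ m ∧ m ≤ 47) ∨
       (e = 7 ∧ d = 4 ∧ m = 70) ∨ (e = 8 ∧ d = 4 ∧ 75 ≤ m ∧ m ≤ 79) ∨ (e = 11 ∧ d = 5 ∧ m = 133))) ∨
    (r = 4 ∧ ((e = 3 ∧ d = 2 ∧ 28 ≤ m ∧ m ≤ 34) ∨ (e = 4 ∧ d = 3 ∧ 55 ≤ m ∧ m ≤ 69))) ∨
    (r = 5 ∧ e = 3 ∧ d = 2 ∧ 50 ≤ m ∧ m ≤ 55) ∨ (r = 6 ∧ e = 3 ∧ d = 2 ∧ 80 ≤ m ∧ m ≤ 83) ∨
    (r = 7 ∧ e = 3 ∧ d = 2 ∧ m = 119) := by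
  have hm : 0 < m := by
    have : 0 < (e + r - 1).choose (r - 1) := Nat.choose_pos (by omega)
    omega
  obtain ⟨h', rfl⟩ : ∃ h', r = h' + 2 := ⟨r - 2, by omega⟩
  have e1 : e + (h' + 2) - 1 = e + h' + 1 := by omega
  have e2 : h' + 2 - 1 = h' + 1 := by omega
  have e3 : d + (h' + 2) - 1 = d + h' + 1 := by omega
  have e4 : d + (h' + 2) = d + h' + 2 := by omega
  rw [e1, e2, e3] at h1
  rw [e1, e2, e4] at h2
  have hcardV : (Finset.univ : Finset (Fin e)).card = e := by simp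
  have b1 : NN e h' ≤ m := by
    have := bound_one hm h (Finset.univ : Finset (Fin e)) h'
      (fun M hM _ => Or.inl (by omega))
    rw [hcardV] at this
    exact this
  have b2 : NN d (h' + 1) ≤ m := by
    have := bound_one hm h D (h' + 1) (fun M hM hM' => Or.inr ⟨by omega, hM'⟩)
    rw [hD] at this
    exact this
  have b5 : 2 ≤ h' → NT d ≤ m := by
    intro hh
    have := bound_two hm h D (fun M hM hM' => Or.inr ⟨by omega, hM'⟩)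
    rw [hD] at this
    exact this
  have b4 : 3 ≤ h' → NT e ≤ m := by
    intro hh
    have := bound_two hm h (Finset.univ : Finset (Fin e)) (fun M hM _ => Or.inl (by omega))
    rw [hcardV] at this
    exact this
  by_cases hh1 : h' = 1
  · subst hh1
    left
    refine ⟨rfl, ?_⟩
    have b3 := bound_three hm h
    rw [hD, pred_two] at b3
    refine case_three he hde h1 h2 ?_ b3
    have e5 : e - 1 + 1 = e := by omega
    unfold NN at b1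
    rw [Nat.choose_one_right, Nat.choose_one_right, e5] at b1
    exact b1
  right
  by_cases hh2 : h' = 2
  · subst hh2
    exact Or.inl ⟨rfl, case_h2 he hde h1 h2 b1 b2 (b5 le_rfl)⟩
  right
  by_cases hh3 : h' = 3
  · subst hh3
    exact Or.inl ⟨rfl, case_h3 he hde h1 h2 b1 b2 (b4 le_rfl)⟩
  right
  by_cases hh4 : h' = 4
  · subst hh4
    exact Or.inl ⟨rfl, case_h4 he hde h1 h2 b1 b2⟩
  right
  by_cases hh5 : h' = 5
  · subst hh5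
    exact ⟨rfl, case_h5 he hde h1 h2 b1 b2⟩
  exfalso
  exact large (by omega) he hde h2 b1 b2

end NS57
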