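import Pool.Agent.Helper57.NS.Base

set_option autoImplicit false

/-!
Lower bounds on `m` for Sidon-type sets of monomials in `ℤ/m`.
-/

namespace NS57

/-- A family of `C(k + h, h)` multisets of size at most `h` with letters in a set of size `k`. -/
theorem exists_fam {α : Type} [DecidableEq α] (A : Finset α) :
    ∀ h : ℕ, ∃ F : Finset (Multiset α), F.card = (A.card + h).choose h ∧
      ∀ M ∈ F, M.card ≤ h ∧ ∀ x ∈ M, x ∈ A := by
  induction A using Finset.induction_on with
  | empty =>
    intro h
    refine ⟨{0}, by simp, ?_⟩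
    intro M hM
    rw [Finset.mem_singleton] at hM
    subst hM
    simp
  | insert a A ha ihA =>
    intro h
    induction h with
    | zero =>
      refine ⟨{0}, by simp, ?_⟩
      intro M hM
      rw [Finset.mem_singleton] at hM
      subst hM
      simp
    | succ h ih =>
      obtain ⟨F1, h1, h1'⟩ := ihA (h + 1)
      obtain ⟨F2, h2, h2'⟩ := ih
      refine ⟨F1 ∪ F2.image (a ::ₘ ·), ?_, ?_⟩
      · rw [Finset.card_union_of_disjoint, Finset.card_image_of_injective, h1, h2,
          Finset.card_insert_of_notMem ha]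
        · have e1 : A.card + 1 + (h + 1) = (A.card + (h + 1)) + 1 := by ring
          have e2 : A.card + 1 + h = A.card + (h + 1) := by ring
          rw [e1, e2, Nat.choose_succ_succ, add_comm]
        · exact fun M N h => (Multiset.cons_inj_right a).1 h
        · rw [Finset.disjoint_left]
          intro M hM hM'
          obtain ⟨N, -, rfl⟩ := Finset.mem_image.1 hM'
          exact ha ((h1' _ hM).2 a (Multiset.mem_cons_self a N))
      · intro M hM
        rcases Finset.mem_union.1 hM with hM | hM
        · exact ⟨(h1' M hM).1, fun x hx => Finset.mem_insert_of_mem ((h1' M hM).2 x hx)⟩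
        · obtain ⟨N, hN, rfl⟩ := Finset.mem_image.1 hM
          refine ⟨by rw [Multiset.card_cons]; exact Nat.succ_le_succ (h2' N hN).1, ?_⟩
          intro x hx
          rcases Multiset.mem_cons.1 hx with rfl | hx
          · exact Finset.mem_insert_self _ _
          · exact (h2' N hN).2 x hx

/-- The difference lemma. -/
theorem diff_bound {e m r : ℕ} (hm : 0 < m) {D : Finset (Fin e)} {a : Fin e → ZMod m}
    (h : Dist r m D a) (𝒴 : Finset (Multiset (Fin e)))
    (𝒳 : Multiset (Fin e) → Finset (Multiset (Fin e)))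
    (hdis : ∀ Y ∈ 𝒴, ∀ X ∈ 𝒳 Y, ∀ x ∈ X, x ∉ Y)
    (hgood : ∀ Y ∈ 𝒴, ∀ X ∈ 𝒳 Y, ∀ Y' ∈ 𝒴, Good r D (X + Y')) :
    ∑ Y ∈ 𝒴, (𝒳 Y).card ≤ m := by
  haveI : NeZero m := ⟨hm.ne'⟩
  rw [← Finset.card_sigma]
  have h1 : (Finset.univ : Finset (ZMod m)).card = m := by
    rw [Finset.card_univ, ZMod.card]
  rw [← h1]
  refine Finset.card_le_card_of_injOn
    (fun p : (Σ _ : Multiset (Fin e), Multiset (Fin e)) => (p.2.map a).sum - (p.1.map a).sum)
    (fun _ _ => by simp) ?_
  rintro ⟨Y, X⟩ hp ⟨Y', X'⟩ hp' heq
  simp only [Finset.coe_sigma, Set.mem_sigma_iff, Finset.mem_coe] at hp hp'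
  obtain ⟨hY, hX⟩ := hp
  obtain ⟨hY', hX'⟩ := hp'
  simp only at heq
  have h2 : ((X + Y').map a).sum = ((X' + Y).map a).sum := by
    rw [Multiset.map_add, Multiset.map_add, Multiset.sum_add, Multiset.sum_add]
    linear_combination heq
  have h3 := h _ _ (hgood Y hY X hX Y' hY') (hgood Y' hY' X' hX' Y hY) h2
  have h4 : ∀ i, Multiset.count i X = Multiset.count i X' ∧
      Multiset.count i Y = Multiset.count i Y' := by
    intro i
    have h5 := congrArg (Multiset.count i) h3
    rw [Multiset.count_add, Multiset.count_add] at h5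
    have h6 : Multiset.count i X = 0 ∨ Multiset.count i Y = 0 := by
      by_contra hcon
      push Not at hcon
      exact hdis Y hY X hX i (Multiset.count_ne_zero.1 hcon.1) (Multiset.count_ne_zero.1 hcon.2)
    have h7 : Multiset.count i X' = 0 ∨ Multiset.count i Y' = 0 := by
      by_contra hcon
      push Not at hcon
      exact hdis Y' hY' X' hX' i (Multiset.count_ne_zero.1 hcon.1)
        (Multiset.count_ne_zero.1 hcon.2)
    omega
  have h8 : X = X' := Multiset.ext.2 fun i => (h4 i).1
  have h9 : Y = Y' := Multiset.ext.2 fun i => (h4 i).2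
  rw [h8, h9]

theorem singleton_inj' {e : ℕ} : Function.Injective (fun i : Fin e => ({i} : Multiset (Fin e))) :=
  fun _ _ h => Multiset.singleton_inj.1 h

section bounds

variable {e m r : ℕ} {D : Finset (Fin e)} {a : Fin e → ZMod m}

/-- The basic bound. -/
theorem bound_one (hm : 0 < m) (h : Dist r m D a) (A : Finset (Fin e)) (n : ℕ)
    (hgood : ∀ M : Multiset (Fin e), M.card ≤ n + 1 → (∀ x ∈ M, x ∈ A) → Good r D M) :
    (A.card + n).choose n + A.card * (A.card - 1 + n).choose n ≤ m := by
  choose Fam hcard hmem using fun B : Finset (Fin e) => exists_fam B n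
  have key := diff_bound hm h (insert 0 (A.image fun i => ({i} : Multiset (Fin e))))
    (fun Y => Fam (A \ Y.toFinset)) ?_ ?_
  · rw [Finset.sum_insert, Finset.sum_image (fun i _ j _ hij => singleton_inj' hij)] at key
    · simp only [hcard, Multiset.toFinset_zero, Finset.sdiff_empty,
        Multiset.toFinset_singleton] at key
      have h1 : ∀ i ∈ A, ((A \ {i}).card + n).choose n = (A.card - 1 + n).choose n := by
        intro i hi
        rw [Finset.card_sdiff_of_subset (Finset.singleton_subset_iff.2 hi), Finset.card_singleton]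
      rw [Finset.sum_congr rfl h1, Finset.sum_const, smul_eq_mul] at key
      exact key
    · simp
  · intro Y _ X hX x hx hxY
    have := (hmem _ X hX).2 x hx
    simp [hxY] at this
  · intro Y _ X hX Y' hY'
    have h1 := hmem _ X hX
    apply hgood
    · rw [Multiset.card_add]
      have : Y'.card ≤ 1 := by
        rcases Finset.mem_insert.1 hY' with rfl | hY'
        · simp
        · obtain ⟨i, -, rfl⟩ := Finset.mem_image.1 hY'
          simp
      omega
    · intro x hx
      rcases Multiset.mem_add.1 hx with hx | hx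
      · exact (Finset.mem_sdiff.1 (h1.2 x hx)).1
      · rcases Finset.mem_insert.1 hY' with rfl | hY'
        · simp at hx
        · obtain ⟨i, hi, rfl⟩ := Finset.mem_image.1 hY'
          rw [Multiset.mem_singleton.1 hx]
          exact hi

/-- The improved bound for `r = 3`. -/
theorem bound_three (hm : 0 < m) (h : Dist 3 m D a) :
    (D.card + 2).choose 2 + D.card * (D.card - 1 + 2).choose 2 +
      (D.card + 1) * (e - D.card) ≤ m := by
  classical
  choose Fam hcard hmem using fun B : Finset (Fin e) => exists_fam B 2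
  have hcompl : ∀ B : Finset (Fin e), B ⊆ D →
      (Fam B ∪ Dᶜ.image (fun i => ({i} : Multiset (Fin e)))).card =
        (B.card + 2).choose 2 + (e - D.card) := by
    intro B hB
    rw [Finset.card_union_of_disjoint, hcard, Finset.card_image_of_injective _ singleton_inj',
      Finset.card_compl, Fintype.card_fin]
    rw [Finset.disjoint_left]
    intro M hM hM'
    obtain ⟨i, hi, rfl⟩ := Finset.mem_image.1 hM'
    have := (hmem _ _ hM).2 i (by simp)
    exact (Finset.mem_compl.1 hi) (hB this)
  have key := diff_bound hm h (insert 0 (D.image fun i => ({i} : Multiset (Fin e))))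
    (fun Y => Fam (D \ Y.toFinset) ∪ Dᶜ.image (fun i => ({i} : Multiset (Fin e)))) ?_ ?_
  · rw [Finset.sum_insert, Finset.sum_image (fun i _ j _ hij => singleton_inj' hij)] at key
    · have h1 : ∀ i ∈ D, (Fam (D \ ({i} : Multiset (Fin e)).toFinset) ∪
          Dᶜ.image (fun i => ({i} : Multiset (Fin e)))).card =
          (D.card - 1 + 2).choose 2 + (e - D.card) := by
        intro i hi
        rw [hcompl _ Finset.sdiff_subset, Multiset.toFinset_singleton,
          Finset.card_sdiff_of_subset (Finset.singleton_subset_iff.2 hi), Finset.card_singleton]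
      rw [Finset.sum_congr rfl h1, Finset.sum_const, smul_eq_mul, hcompl _ Finset.sdiff_subset,
        Multiset.toFinset_zero, Finset.sdiff_empty] at key
      calc _ = _ := by ring
        _ ≤ m := key
    · simp
  · intro Y hY X hX x hx hxY
    rcases Finset.mem_union.1 hX with hX | hX
    · have := (hmem _ X hX).2 x hx
      simp [hxY] at this
    · obtain ⟨i, hi, rfl⟩ := Finset.mem_image.1 hX
      rw [Multiset.mem_singleton] at hx
      subst hx
      rcases Finset.mem_insert.1 hY with rfl | hY
      · simp at hxY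
      · obtain ⟨j, hj, rfl⟩ := Finset.mem_image.1 hY
        rw [Multiset.mem_singleton] at hxY
        subst hxY
        exact (Finset.mem_compl.1 hi) hj
  · intro Y _ X hX Y' hY'
    have hY1 : Y'.card ≤ 1 ∧ ∀ x ∈ Y', x ∈ D := by
      rcases Finset.mem_insert.1 hY' with rfl | hY'
      · simp
      · obtain ⟨i, hi, rfl⟩ := Finset.mem_image.1 hY'
        simpa using hi
    rcases Finset.mem_union.1 hX with hX | hX
    · right
      have h1 := hmem _ X hX
      refine ⟨by rw [Multiset.card_add]; omega, fun x hx => ?_⟩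
      rcases Multiset.mem_add.1 hx with hx | hx
      · exact (Finset.mem_sdiff.1 (h1.2 x hx)).1
      · exact hY1.2 x hx
    · left
      obtain ⟨i, hi, rfl⟩ := Finset.mem_image.1 hX
      rw [Multiset.card_add, Multiset.card_singleton]
      omega

/-- The bound from differences of monomials of degree at most two. -/
theorem bound_two (hm : 0 < m) (h : Dist r m D a) (A : Finset (Fin e))
    (hgood : ∀ M : Multiset (Fin e), M.card ≤ 4 → (∀ x ∈ M, x ∈ A) → Good r D M) :
    (A.card + 2).choose 2 + A.card * (A.card - 1 + 2).choose 2 +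
      A.card * (A.card - 1 + 2).choose 2 + A.card.choose 2 * (A.card - 2 + 2).choose 2 ≤ m := by
  classical
  choose Fam hcard hmem using fun B : Finset (Fin e) => exists_fam B 2
  set Y1 : Finset (Multiset (Fin e)) := A.image fun i => ({i} : Multiset (Fin e)) with hY1
  set Y2 : Finset (Multiset (Fin e)) := A.image fun i => ({i, i} : Multiset (Fin e)) with hY2
  set Y3 : Finset (Multiset (Fin e)) := (A.powersetCard 2).image Finset.val with hY3
  have hinj2 : Function.Injective (fun i : Fin e => ({i, i} : Multiset (Fin e))) := by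
    intro i j hij
    have h1 : i ∈ ({j, j} : Multiset (Fin e)) := by
      rw [← show ({i, i} : Multiset (Fin e)) = {j, j} from hij]
      simp
    simpa using h1
  have hc1 : ∀ Y ∈ Y1, Y.card = 1 ∧ ∀ x ∈ Y, x ∈ A := by
    intro Y hY
    obtain ⟨i, hi, rfl⟩ := Finset.mem_image.1 hY
    simpa using hi
  have hc2 : ∀ Y ∈ Y2, Y.card = 2 ∧ ∀ x ∈ Y, x ∈ A := by
    intro Y hY
    obtain ⟨i, hi, rfl⟩ := Finset.mem_image.1 hY
    simpa using hi
  have hc3 : ∀ Y ∈ Y3, Y.card = 2 ∧ ∀ x ∈ Y, x ∈ A := by
    intro Y hY
    obtain ⟨s, hs, rfl⟩ := Finset.mem_image.1 hY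
    rw [Finset.mem_powersetCard] at hs
    exact ⟨hs.2, fun x hx => hs.1 hx⟩
  have hd23 : Disjoint Y2 Y3 := by
    rw [Finset.disjoint_left]
    intro Y hY hY'
    obtain ⟨i, hi, rfl⟩ := Finset.mem_image.1 hY
    obtain ⟨s, hs, hs'⟩ := Finset.mem_image.1 hY'
    have h1 := s.nodup
    rw [hs'] at h1
    simp at h1
  have hd1 : Disjoint Y1 (Y2 ∪ Y3) := by
    rw [Finset.disjoint_left]
    intro Y hY hY'
    have h1 := (hc1 Y hY).1
    rcases Finset.mem_union.1 hY' with h2 | h2
    · have := (hc2 Y h2).1
      omega
    · have := (hc3 Y h2).1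
      omega
  have hc : ∀ Y ∈ insert 0 (Y1 ∪ (Y2 ∪ Y3)), Y.card ≤ 2 ∧ ∀ x ∈ Y, x ∈ A := by
    intro Y hY
    rcases Finset.mem_insert.1 hY with rfl | hY
    · simp
    rcases Finset.mem_union.1 hY with hY | hY
    · exact ⟨by rw [(hc1 Y hY).1]; norm_num, (hc1 Y hY).2⟩
    rcases Finset.mem_union.1 hY with hY | hY
    · exact ⟨by rw [(hc2 Y hY).1], (hc2 Y hY).2⟩
    · exact ⟨by rw [(hc3 Y hY).1], (hc3 Y hY).2⟩
  have key := diff_bound hm h (insert 0 (Y1 ∪ (Y2 ∪ Y3))) (fun Y => Fam (A \ Y.toFinset)) ?_ ?_
  · rw [Finset.sum_insert, Finset.sum_union hd1, Finset.sum_union hd23,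
      hY1, Finset.sum_image (fun i _ j _ hij => singleton_inj' hij),
      hY2, Finset.sum_image (fun i _ j _ hij => hinj2 hij),
      hY3, Finset.sum_image (fun s _ t _ hst => Finset.val_injective hst)] at key
    · simp only [hcard] at key
      have h1 : ∀ i ∈ A, ((A \ ({i} : Multiset (Fin e)).toFinset).card + 2).choose 2 =
          (A.card - 1 + 2).choose 2 := by
        intro i hi
        rw [Multiset.toFinset_singleton,
          Finset.card_sdiff_of_subset (Finset.singleton_subset_iff.2 hi), Finset.card_singleton]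
      have h2 : ∀ i ∈ A, ((A \ ({i, i} : Multiset (Fin e)).toFinset).card + 2).choose 2 =
          (A.card - 1 + 2).choose 2 := by
        intro i hi
        have h3 : ({i, i} : Multiset (Fin e)).toFinset = {i} := by
          ext x
          simp
        rw [h3, Finset.card_sdiff_of_subset (Finset.singleton_subset_iff.2 hi),
          Finset.card_singleton]
      have h3 : ∀ s ∈ A.powersetCard 2, ((A \ s.val.toFinset).card + 2).choose 2 =
          (A.card - 2 + 2).choose 2 := by
        intro s hs
        rw [Finset.mem_powersetCard] at hs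
        rw [Finset.val_toFinset, Finset.card_sdiff_of_subset hs.1, hs.2]
      rw [Finset.sum_congr rfl h1, Finset.sum_congr rfl h2, Finset.sum_congr rfl h3,
        Finset.sum_const, Finset.sum_const, smul_eq_mul, smul_eq_mul, Finset.card_powersetCard,
        Multiset.toFinset_zero, Finset.sdiff_empty] at key
      calc _ = _ := by ring
        _ ≤ m := key
    · intro h0
      rcases Finset.mem_union.1 h0 with h0 | h0
      · have := (hc1 0 h0).1
        simp at this
      rcases Finset.mem_union.1 h0 with h0 | h0
      · have := (hc2 0 h0).1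
        simp at this
      · have := (hc3 0 h0).1
        simp at this
  · intro Y _ X hX x hx hxY
    have := (hmem _ X hX).2 x hx
    simp [hxY] at this
  · intro Y _ X hX Y' hY'
    have h1 := hmem _ X hX
    have h2 := hc Y' hY'
    apply hgood
    · rw [Multiset.card_add]
      omega
    · intro x hx
      rcases Multiset.mem_add.1 hx with hx | hx
      · exact (Finset.mem_sdiff.1 (h1.2 x hx)).1
      · exact h2.2 x hx

end bounds

end NS57
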