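import Mathlib

set_option autoImplicit false

/-!
The numerical part of the counting argument.
-/

namespace NS57

theorem two_choose (n : ℕ) : 2 * (n + 1).choose 2 = (n + 1) * n := by
  induction n with
  | zero => rfl
  | succ n ih =>
    rw [Nat.choose_succ_succ' (n + 1) 1, Nat.choose_one_right, mul_add, ih]
    ring

theorem six_choose (n : ℕ) : 6 * (n + 2).choose 3 = (n + 2) * (n + 1) * n := by
  induction n with
  | zero => rfl
  | succ n ih =>
    rw [Nat.choose_succ_succ' (n + 2) 2, mul_add, ih]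
    have := two_choose (n + 1)
    nlinarith

/-- The number of pairs in the basic bound. -/
def NN (k h : ℕ) : ℕ := (k + h).choose h + k * (k - 1 + h).choose h

theorem NN_mul (k h : ℕ) (hk : 1 ≤ k) :
    (k + h) * NN k h = (k + h).choose h * (k * k + k + h) := by
  obtain ⟨k, rfl⟩ : ∃ k', k = k' + 1 := ⟨k - 1, by omega⟩
  unfold NN
  have h1 := Nat.choose_mul_succ_eq (k + h) h
  have e1 : k + h + 1 - h = k + 1 := by omega
  rw [e1] at h1
  have e2 : k + 1 - 1 + h = k + h := by omega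
  have e3 : k + 1 + h = k + h + 1 := by ring
  rw [e2, e3]
  calc (k + h + 1) * ((k + h + 1).choose h + (k + 1) * (k + h).choose h)
      = (k + h + 1) * (k + h + 1).choose h + (k + 1) * ((k + h).choose h * (k + h + 1)) := by ring
    _ = _ := by rw [h1]; ring

theorem P_mul (k h : ℕ) : (h + 1) * (k + h + 1).choose (h + 1) = (k + h + 1) * (k + h).choose h := by
  have := Nat.add_one_mul_choose_eq (k + h) h
  rw [this, mul_comm]

/-- Bound (I). -/
theorem bound_I (k h : ℕ) (hk : 1 ≤ k) (hc : k * k + k + 3 * h + 2 * (h * h) ≤ k * (h * h)) :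
    (k + h + 2).choose (h + 2) ≤ NN k h := by
  have h1 := NN_mul k h hk
  have h2 := P_mul k h
  have h3 := P_mul k (h + 1)
  have e1 : k + (h + 1) + 1 = k + h + 2 := by ring
  have e2 : h + 1 + 1 = h + 2 := by ring
  have e3 : k + (h + 1) = k + h + 1 := by ring
  rw [e1, e2, e3] at h3
  set c := (k + h).choose h
  have key : (k + h) * (h + 1) * (h + 2) * (k + h + 2).choose (h + 2) ≤
      (k + h) * (h + 1) * (h + 2) * NN k h := by
    calc (k + h) * (h + 1) * (h + 2) * (k + h + 2).choose (h + 2)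
        = (k + h) * (h + 1) * ((h + 2) * (k + h + 2).choose (h + 2)) := by ring
      _ = (k + h) * (k + h + 2) * ((h + 1) * (k + h + 1).choose (h + 1)) := by rw [h3]; ring
      _ = c * ((k + h) * (k + h + 1) * (k + h + 2)) := by rw [h2]; ring
      _ ≤ c * ((k * k + k + h) * (h + 1) * (h + 2)) := by
          apply Nat.mul_le_mul_left
          have := Nat.mul_le_mul_left k hc
          nlinarith
      _ = (h + 1) * (h + 2) * (c * (k * k + k + h)) := by ring
      _ = (h + 1) * (h + 2) * ((k + h) * NN k h) := by rw [h1]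
      _ = _ := by ring
  exact Nat.le_of_mul_le_mul_left key (by positivity)

/-- Bound (II). -/
theorem bound_II (k h : ℕ) (hk : 1 ≤ k) (hc : (3 * h + 1) * k + h * h + h + k * k ≤ h * (k * k)) :
    2 * (k + h + 1).choose (h + 1) ≤ NN k h := by
  have h1 := NN_mul k h hk
  have h2 := P_mul k h
  set c := (k + h).choose h
  have key : (k + h) * (h + 1) * (2 * (k + h + 1).choose (h + 1)) ≤
      (k + h) * (h + 1) * NN k h := by
    calc (k + h) * (h + 1) * (2 * (k + h + 1).choose (h + 1))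
        = (k + h) * 2 * ((h + 1) * (k + h + 1).choose (h + 1)) := by ring
      _ = c * (2 * (k + h) * (k + h + 1)) := by rw [h2]; ring
      _ ≤ c * ((k * k + k + h) * (h + 1)) := by
          apply Nat.mul_le_mul_left
          nlinarith
      _ = (h + 1) * (c * (k * k + k + h)) := by ring
      _ = (h + 1) * ((k + h) * NN k h) := by rw [h1]
      _ = _ := by ring
  exact Nat.le_of_mul_le_mul_left key (by positivity)

/-- If `P < Q` then `d` is large. -/
theorem d_large (e d h : ℕ) (hde : d + 1 ≤ e)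
    (h1 : (e + h + 1).choose (h + 1) < (d + h + 2).choose (h + 2)) : h + 2 ≤ d := by
  by_contra hd
  have hd' : d + 1 ≤ h + 2 := by omega
  have h2 := Nat.choose_succ_right_eq (d + h + 2) (h + 1)
  have e1 : d + h + 2 - (h + 1) = d + 1 := by omega
  rw [e1] at h2
  have h3 : (d + h + 2).choose (h + 2) * (h + 2) ≤ (d + h + 2).choose (h + 1) * (h + 2) := by
    calc _ = (d + h + 2).choose (h + 1) * (d + 1) := h2
      _ ≤ _ := Nat.mul_le_mul_left _ hd'
  have h4 := Nat.le_of_mul_le_mul_right h3 (by positivity)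
  have h5 : (d + h + 2).choose (h + 1) ≤ (e + h + 1).choose (h + 1) :=
    Nat.choose_le_choose _ (by omega)
  omega

/-- `P + Q ≤ R`. -/
theorem PQ_le (e d h : ℕ) (hde : d + 1 ≤ e) :
    (e + h + 1).choose (h + 1) + (d + h + 2).choose (h + 2) ≤ (e + h + 2).choose (h + 2) := by
  rw [Nat.choose_succ_succ' (e + h + 1) (h + 1)]
  exact Nat.add_le_add_left (Nat.choose_le_choose _ (by omega)) _

section cases_

variable {e m h d : ℕ}

theorem no_I (he : 3 ≤ e) (hde : d + 1 ≤ e)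
    (h2 : m < (e + h + 1).choose (h + 1) + (d + h + 2).choose (h + 2))
    (b1 : NN e h ≤ m) (hc : e * e + e + 3 * h + 2 * (h * h) ≤ e * (h * h)) : False := by
  have h3 := bound_I e h (by omega) hc
  have h4 := PQ_le e d h hde
  omega

theorem no_II (he : 3 ≤ e) (hde : d + 1 ≤ e)
    (h2 : m < (e + h + 1).choose (h + 1) + (d + h + 2).choose (h + 2))
    (b1 : NN e h ≤ m) (b2 : NN d (h + 1) ≤ m)
    (hc : (3 * h + 1) * e + h * h + h + e * e ≤ h * (e * e))
    (hc' : h + 2 ≤ d → (e + h + 1).choose (h + 1) < (d + h + 2).choose (h + 2) →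
      (3 * (h + 1) + 1) * d + (h + 1) * (h + 1) + (h + 1) + d * d ≤ (h + 1) * (d * d)) :
    False := by
  have h3 := bound_II e h (by omega) hc
  have h4 : (e + h + 1).choose (h + 1) < (d + h + 2).choose (h + 2) := by omega
  have h5 := d_large e d h hde h4
  have h6 := bound_II d (h + 1) (by omega) (hc' h5 h4)
  have e1 : d + (h + 1) + 1 = d + h + 2 := by ring
  have e2 : h + 1 + 1 = h + 2 := by ring
  rw [e1, e2] at h6
  omega

theorem cond_D (hh : 4 ≤ h) (hd : h + 2 ≤ d) :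
    (3 * (h + 1) + 1) * d + (h + 1) * (h + 1) + (h + 1) + d * d ≤ (h + 1) * (d * d) := by
  obtain ⟨u, rfl⟩ := Nat.exists_eq_add_of_le hh
  obtain ⟨t, rfl⟩ := Nat.exists_eq_add_of_le hd
  nlinarith [Nat.zero_le (u * t), Nat.zero_le (u * u), Nat.zero_le (u * u * t),
    Nat.zero_le (u * (t * t)), Nat.zero_le (u * u * u), Nat.zero_le (t * t)]

theorem large (hh : 6 ≤ h) (he : 3 ≤ e) (hde : d + 1 ≤ e)
    (h2 : m < (e + h + 1).choose (h + 1) + (d + h + 2).choose (h + 2))
    (b1 : NN e h ≤ m) (b2 : NN d (h + 1) ≤ m) : False := by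
  by_cases hc : e + 4 ≤ h * h
  · apply no_I he hde h2 b1
    obtain ⟨u, hu⟩ := Nat.exists_eq_add_of_le hc
    obtain ⟨v, rfl⟩ := Nat.exists_eq_add_of_le he
    obtain ⟨w, rfl⟩ := Nat.exists_eq_add_of_le hh
    rw [hu]
    nlinarith [Nat.zero_le (u * v), Nat.zero_le (w * w)]
  · apply no_II he hde h2 b1 b2
    · have he' : 33 ≤ e := by nlinarith
      obtain ⟨v, rfl⟩ := Nat.exists_eq_add_of_le he'
      obtain ⟨w, rfl⟩ := Nat.exists_eq_add_of_le hh
      nlinarith [Nat.zero_le (w * v), Nat.zero_le (v * v), Nat.zero_le (w * (v * v))]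
    · exact fun hd _ => cond_D (by omega) hd

end cases_

/-- `d * (d - 1 + 2) = d * (d + 1)` inside binomials. -/
theorem pred_two (d : ℕ) : d * (d - 1 + 2).choose 2 = d * (d + 1).choose 2 := by
  rcases d with _ | d
  · simp
  · rfl

theorem case_three {e m d : ℕ} (he : 3 ≤ e) (hde : d + 1 ≤ e)
    (h1 : (e + 2).choose 2 + (d + 2).choose 3 ≤ m)
    (h2 : m < (e + 2).choose 2 + (d + 3).choose 3)
    (b1 : (e + 1) + e * e ≤ m)
    (b3 : (d + 2).choose 2 + d * (d + 1).choose 2 + (d + 1) * (e - d) ≤ m) :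
    (e = 3 ∧ d = 1 ∧ m = 13) ∨ (e = 3 ∧ d = 2 ∧ 15 ≤ m ∧ m ≤ 19) ∨
      (e = 4 ∧ d = 2 ∧ 21 ≤ m ∧ m ≤ 24) ∨ (e = 4 ∧ d = 3 ∧ 32 ≤ m ∧ m ≤ 34) ∨
      (e = 5 ∧ d = 3 ∧ 36 ≤ m ∧ m ≤ 40) ∨ (e = 6 ∧ d = 3 ∧ 43 ≤ m ∧ m ≤ 47) ∨
      (e = 7 ∧ d = 4 ∧ m = 70) ∨ (e = 8 ∧ d = 4 ∧ 75 ≤ m ∧ m ≤ 79) ∨
      (e = 11 ∧ d = 5 ∧ m = 133) := by
  obtain ⟨k, rfl⟩ := Nat.exists_eq_add_of_le hde
  have e1 : d + 1 + k - d = k + 1 := by omega
  rw [e1] at b3
  have c1 := two_choose (d + 1 + k + 1)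
  have c2 := two_choose (d + 1)
  have c3 := two_choose d
  have c4 := six_choose (d + 1)
  have c5 := six_choose d
  have e2 : d + 1 + k + 1 + 1 = d + 1 + k + 2 := by ring
  have e3 : d + 1 + 1 = d + 2 := by ring
  have e4 : d + 1 + 2 = d + 3 := by ring
  rw [e2] at c1
  rw [e3] at c2 c4
  rw [e4] at c4
  have hb3 : (d + 2) * (d + 1) + d * ((d + 1) * d) + 2 * ((d + 1) * (k + 1)) ≤ 2 * m := by
    rw [← c2, ← c3]
    linarith
  have hh2 : 6 * m < 3 * ((d + 1 + k + 2) * (d + 1 + k + 1)) + (d + 3) * (d + 2) * (d + 1) := by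
    rw [← c1, ← c4]
    linarith
  have hh1 : 3 * ((d + 1 + k + 2) * (d + 1 + k + 1)) + (d + 2) * (d + 1) * d ≤ 6 * m := by
    rw [← c1, ← c5]
    linarith
  have hd8 : d ≤ 8 := by
    by_contra hd
    push Not at hd
    obtain ⟨j, rfl⟩ := Nat.exists_eq_add_of_le (Nat.succ_le_of_lt hd)
    nlinarith [Nat.zero_le (j * k), Nat.zero_le (j * j), Nat.zero_le (j * j * j),
      Nat.zero_le (k * k)]
  have hk : k ≤ 16 := by
    by_contra hk
    push Not at hk
    interval_cases d <;> nlinarith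
  clear h1 h2 c1 c2 c3 c4 c5
  interval_cases d <;> interval_cases k <;> omega

end NS57
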