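import Mathlib
import Pool.Agent.Helper39.Rot.Defs

/-!
# Closing identity (hyperbolic rhombus) for Moebius lifts (MP_707bda_al)
-/

set_option autoImplicit false

namespace Pool.Agent.Helper40.RotB

open Pool.Agent.Helper39.Rot Complex ComplexConjugate

/-- The point of the unit circle over `x`. -/
noncomputable def e (x : ℝ) : ℂ := exp (2 * Real.pi * x * I)

/-- `F` is a lift of the Moebius map with matrix `(a, b; conj b, conj a)`. -/
def Mob (F : ℝ → ℝ) (a b : ℂ) : Prop :=
  ∀ x, e (F x) * (conj b * e x + conj a) = a * e x + b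

theorem e_add (x y : ℝ) : e (x + y) = e x * e y := by
  unfold e
  rw [← exp_add]
  congr 1
  push_cast
  ring

theorem conj_e (x : ℝ) : conj (e x) = e (-x) := by
  unfold e
  rw [← exp_conj]
  congr 1
  simp only [map_mul, conj_ofReal, conj_I, map_ofNat]
  push_cast
  ring

theorem e_zero : e 0 = 1 := by simp [e]

theorem e_mul_conj (x : ℝ) : e x * conj (e x) = 1 := by
  rw [conj_e, ← e_add, add_neg_cancel, e_zero]

theorem mob_X (r : ℝ) : Mob (X r) 1 r := by
  intro x
  set w : ℂ := 1 + r * e x with hw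
  have h1 : (‖w‖ : ℂ) * exp (arg w * I) = w := norm_mul_exp_arg_mul_I w
  have h2 : (‖w‖ : ℂ) * exp (-(arg w * I)) = conj w := by
    conv_rhs => rw [← h1]
    rw [map_mul, conj_ofReal, ← exp_conj, map_mul, conj_ofReal, conj_I, mul_neg]
  have h3 : e (X r x) = e x * exp (-(2 * (arg w * I))) := by
    have hX : X r x = x + -(arg w / Real.pi) := by
      rw [hw]; rfl
    rw [hX, e_add]
    congr 1
    unfold e
    congr 1
    push_cast
    field_simp
  have h4 : e (X r x) * w = e x * conj w := by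
    rw [h3, ← h2]
    have h5 : exp (-(2 * (arg w * I))) * exp (arg w * I) = exp (-(arg w * I)) := by
      rw [← exp_add]; congr 1; ring
    linear_combination (-(e x * exp (-(2 * (arg w * I))))) * h1 + e x * ‖w‖ * h5
  have h6 : e x * conj w = e x + r := by
    rw [hw, map_add, map_one, map_mul, conj_ofReal, mul_add, mul_one]
    have := e_mul_conj x
    linear_combination (r : ℂ) * this
  rw [conj_ofReal, map_one, one_mul, ← h6, ← h4, hw]
  ring

theorem mob_T (s : ℝ) : Mob (fun x => x + s) (exp (Real.pi * s * I)) 0 := by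
  intro x
  rw [e_add, map_zero, zero_mul, zero_add, add_zero, ← exp_conj]
  have h : e s * exp (conj (Real.pi * s * I : ℂ)) = exp (Real.pi * s * I) := by
    unfold e
    rw [← exp_add]
    congr 1
    simp only [map_mul, conj_ofReal, conj_I]
    ring
  rw [mul_assoc, h, mul_comm]

theorem mob_comp {F G : ℝ → ℝ} {a b c d : ℂ} (hF : Mob F a b) (hG : Mob G c d) :
    Mob (fun x => F (G x)) (a * c + b * conj d) (a * d + b * conj c) := by
  intro x
  have h1 := hF (G x)
  have h2 := hG x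
  simp only [map_add, map_mul, conj_conj]
  linear_combination (conj d * e x + conj c) * h1 + (a - e (F (G x)) * conj b) * h2

/-- The angle of the closing rhombus. -/
noncomputable def gg (r a : ℝ) : ℝ := (2 / Real.pi) * arg (1 - r ^ 2 * e (-a))

theorem norm_e (x : ℝ) : ‖e x‖ = 1 := by
  have : e x = exp ((2 * Real.pi * x : ℝ) * I) := by
    unfold e; push_cast; rfl
  rw [this, norm_exp_ofReal_mul_I]

theorem re_pos (r : ℝ) (h0 : 0 < r) (h1 : r < 1 / 4) (a : ℝ) : 0 < (1 - r ^ 2 * e (-a) : ℂ).re := by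
  have h2 : ‖(r ^ 2 * e (-a) : ℂ)‖ ≤ 1 / 2 := by
    rw [norm_mul, norm_e, mul_one, norm_pow, norm_real, Real.norm_of_nonneg h0.le]
    nlinarith
  have h3 := (abs_le.1 ((abs_re_le_norm _).trans h2)).2
  rw [sub_re, one_re]
  linarith

theorem gg_cont (r : ℝ) (h0 : 0 < r) (h1 : r < 1 / 4) : Continuous (gg r) := by
  unfold gg
  refine continuous_const.mul ?_
  rw [continuous_iff_continuousAt]
  intro a
  have h2 : ContinuousAt (fun a : ℝ => (1 - r ^ 2 * e (-a) : ℂ)) a := by
    unfold e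
    fun_prop
  exact ContinuousAt.comp (g := arg) (f := fun a : ℝ => (1 - r ^ 2 * e (-a) : ℂ))
    (continuousAt_arg (Or.inl (re_pos r h0 h1 a))) h2

theorem e_quarter : e (1 / 4) = I := by
  have : e (1 / 4) = exp ((Real.pi / 2 : ℝ) * I) := by
    unfold e; push_cast; congr 1; ring
  rw [this, exp_mul_I, ← ofReal_cos, ← ofReal_sin]
  simp

theorem gg_pos (r : ℝ) (h0 : 0 < r) : 0 < gg r (1 / 4) := by
  unfold gg
  refine mul_pos (by positivity) ?_
  rw [← conj_e, e_quarter, conj_I]
  have h2 : 0 < (1 - r ^ 2 * -I : ℂ).im := by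
    have : (1 - r ^ 2 * -I : ℂ) = 1 + (r ^ 2 : ℝ) * I := by push_cast; ring
    rw [this]
    simp only [add_im, one_im, zero_add, im_ofReal_mul, I_im, mul_one]
    positivity
  by_contra hcon
  push Not at hcon
  rcases hcon.lt_or_eq with h | h
  · exact absurd (arg_neg_iff.1 h) (not_lt.2 h2.le)
  · have := (arg_eq_zero_iff_zero_le.1 h)
    have h3 := (Complex.le_def.1 this).2
    simp only [zero_im] at h3
    exact h2.ne h3

theorem gg_neg (r : ℝ) (h0 : 0 < r) (h1 : r < 1 / 4) : gg r (-(1 / 4)) = -gg r (1 / 4) := by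
  unfold gg
  have h2 : (1 - r ^ 2 * e (- -(1 / 4)) : ℂ) = conj (1 - r ^ 2 * e (-(1 / 4))) := by
    rw [map_sub, map_one, map_mul, conj_e, map_pow, conj_ofReal]
  rw [h2, arg_conj, if_neg]
  · ring
  · intro h
    have := re_pos r h0 h1 (1 / 4)
    exact absurd (arg_eq_pi_iff.1 h).1 (not_lt.2 this.le)

theorem abs_X_sub (r : ℝ) (h1 : |r| < 1 / 4) (x : ℝ) : |X r x - x| ≤ 1 / 8 := by
  have h2 : X r x - x = -(arg (1 + r * e x) / Real.pi) := by
    unfold X e; ring
  have h3 : ‖(r * e x : ℂ)‖ ≤ 1 / 4 := by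
    rw [norm_mul, norm_e, mul_one, norm_real]
    exact h1.le
  have h4 : ‖log (1 + r * e x)‖ ≤ 3 / 2 * ‖(r * e x : ℂ)‖ :=
    norm_log_one_add_half_le_self (h3.trans (by norm_num))
  have h5 : |arg (1 + r * e x)| ≤ 3 / 8 := by
    rw [← log_im]
    refine (abs_im_le_norm _).trans (h4.trans ?_)
    linarith
  rw [h2, abs_neg, abs_div, abs_of_pos Real.pi_pos, div_le_iff₀ Real.pi_pos]
  have := Real.pi_gt_three
  linarith

/-- The closing identity. -/
theorem closing (r : ℝ) (h0 : 0 < r) (h1 : r < 1 / 4) :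
    ∃ ε : ℝ, 0 < ε ∧ ∀ c : ℝ, |c| ≤ ε → ∃ a b : ℝ, ∀ x,
      X r (X (-r) (X r (X (-r) (x - 2 * a - b) + a) + b) + a) = x + c := by
  refine ⟨min (gg r (1 / 4)) (1 / 4), lt_min (gg_pos r h0) (by norm_num), fun c hc => ?_⟩
  have hc1 : |c| ≤ gg r (1 / 4) := hc.trans (min_le_left _ _)
  have hc2 : |c| ≤ 1 / 4 := hc.trans (min_le_right _ _)
  obtain ⟨a, -, ha⟩ : c ∈ gg r '' Set.Icc (-(1 / 4)) (1 / 4) := by
    apply intermediate_value_Icc (by norm_num) (gg_cont r h0 h1).continuousOn
    rw [gg_neg r h0 h1]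
    exact abs_le.1 hc1
  -- the angle and the matrix
  set κ : ℝ := a + c / 2 with hκ
  set b : ℝ := 1 / 2 - κ with hb
  refine ⟨a, b, fun x => ?_⟩
  set t : ℂ := exp (Real.pi * a * I) with ht
  set E : ℂ := exp (Real.pi * κ * I) with hE
  set s : ℂ := exp (Real.pi * b * I) with hs
  have htt : t * conj t = 1 := by
    rw [ht, ← exp_conj, ← exp_add]
    simp only [map_mul, conj_ofReal, conj_I, mul_neg, add_neg_cancel, exp_zero]
  have hEE : E * conj E = 1 := by
    rw [hE, ← exp_conj, ← exp_add]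
    simp only [map_mul, conj_ofReal, conj_I, mul_neg, add_neg_cancel, exp_zero]
  have hsE : s = I * conj E := by
    have hI : (I : ℂ) = exp ((Real.pi / 2 : ℝ) * I) := by
      rw [exp_mul_I, ← ofReal_cos, ← ofReal_sin]
      simp
    rw [hs, hE, ← exp_conj]
    have hI2 : exp (Real.pi * b * I) = exp ((Real.pi / 2 : ℝ) * I) *
        exp (conj (Real.pi * κ * I : ℂ)) := by
      rw [← exp_add]
      congr 1
      simp only [map_mul, conj_ofReal, conj_I]
      rw [hb]
      push_cast
      ring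
    rw [hI2, ← hI]
  obtain ⟨ρ, hρ⟩ : ∃ ρ : ℝ, t - r ^ 2 * conj t = ρ * E := by
    refine ⟨‖(1 - r ^ 2 * e (-a) : ℂ)‖, ?_⟩
    have h2 : t - r ^ 2 * conj t = t * (1 - r ^ 2 * e (-a)) := by
      have h3 : conj t = t * e (-a) := by
        rw [ht, ← exp_conj]
        unfold e
        rw [← exp_add]
        congr 1
        simp only [map_mul, conj_ofReal, conj_I]
        push_cast
        ring
      rw [h3]; ring
    have h4 : arg (1 - r ^ 2 * e (-a)) = Real.pi * (c / 2) := by
      have h5 : gg r a = c := ha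
      unfold gg at h5
      field_simp at h5
      linarith
    have h6 := norm_mul_exp_arg_mul_I (1 - r ^ 2 * e (-a))
    rw [h2]
    conv_lhs => rw [← h6, h4]
    have h7 : t * exp ((Real.pi * (c / 2) : ℝ) * I) = E := by
      rw [ht, hE, ← exp_add]
      congr 1
      rw [hκ]
      push_cast
      ring
    rw [← h7]; ring
  -- composition
  have hM : Mob (fun x => X r (X (-r) x + a)) (ρ * E) (-(r * t) + r * conj t) := by
    have h2 := mob_comp (mob_X r) (mob_comp (mob_T a) (mob_X (-r)))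
    have h3 : (fun x => X r ((fun x => (fun x => x + a) (X (-r) x)) x)) =
      (fun x => X r (X (-r) x + a)) := rfl
    rw [h3] at h2
    rw [← ht] at h2
    convert h2 using 1
    · rw [← hρ]
      simp only [map_add, map_mul, map_zero, conj_ofReal, ofReal_neg, map_neg, map_one]
      ring
    · simp only [map_add, map_mul, map_zero, conj_ofReal, ofReal_neg, map_neg, map_one]
      ring
  have hMM : Mob (fun x => X r (X (-r) (X r (X (-r) x + a) + b) + a))
      (I * E * (1 - r ^ 2) ^ 2) 0 := by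
    have h2 := mob_comp hM (mob_comp (mob_T b) hM)
    have h3 : (fun x => (fun x => X r (X (-r) x + a)) ((fun x => (fun x => x + b)
      ((fun x => X r (X (-r) x + a)) x)) x)) =
      (fun x => X r (X (-r) (X r (X (-r) x + a) + b) + a)) := rfl
    rw [h3] at h2
    rw [← hs, hsE] at h2
    have hρ' : conj t - r ^ 2 * t = ρ * conj E := by
      have := congrArg conj hρ
      simpa only [map_sub, map_mul, map_pow, conj_ofReal, conj_conj] using this
    convert h2 using 1
    · simp only [map_add, map_mul, map_zero, map_neg, conj_ofReal, conj_conj, conj_I]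
      have h4 : (ρ : ℂ) ^ 2 = (t - r ^ 2 * conj t) * (conj t - r ^ 2 * t) := by
        rw [hρ, hρ']
        linear_combination -(ρ : ℂ) ^ 2 * hEE
      have h5 : (1 - (r : ℂ) ^ 2) ^ 2 = (ρ : ℂ) ^ 2 -
          (-(r * t) + r * conj t) * (-(r * conj t) + r * t) := by
        rw [h4]
        linear_combination (-(1 : ℂ) - (r : ℂ) ^ 4 + 2 * (r : ℂ) ^ 2) * htt
      rw [h5]
      linear_combination (-(I : ℂ) * (ρ : ℂ) ^ 2 * E) * hEE
    · simp only [map_add, map_mul, map_zero, map_neg, conj_ofReal, conj_conj, conj_I]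
      ring
  have hD : (1 - (r : ℂ) ^ 2) ^ 2 ≠ 0 := by
    have h2 : (1 - r ^ 2 : ℝ) ≠ 0 := by nlinarith
    have h3 : ((1 - r ^ 2 : ℝ) : ℂ) ≠ 0 := ofReal_ne_zero.2 h2
    push_cast at h3
    exact pow_ne_zero 2 h3
  have hrot : ∀ y, e (X r (X (-r) (X r (X (-r) y + a) + b) + a)) = -E ^ 2 * e y := by
    intro y
    have h2 := hMM y
    simp only [map_zero, zero_mul, zero_add, add_zero, map_mul, map_pow, map_sub, map_one,
      conj_ofReal, conj_I] at h2
    have h3 : e (X r (X (-r) (X r (X (-r) y + a) + b) + a)) * (1 - (r : ℂ) ^ 2) ^ 2 =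
        (-E ^ 2 * e y) * (1 - (r : ℂ) ^ 2) ^ 2 := by
      have hII : (I : ℂ) * I = -1 := I_mul_I
      linear_combination (I * E) * h2 +
        (-(e (X r (X (-r) (X r (X (-r) y + a) + b) + a)) * (1 - (r : ℂ) ^ 2) ^ 2)) * hEE +
        (e (X r (X (-r) (X r (X (-r) y + a) + b) + a)) * (1 - (r : ℂ) ^ 2) ^ 2 * E * conj E +
          E ^ 2 * (1 - (r : ℂ) ^ 2) ^ 2 * e y) * hII
    exact mul_right_cancel₀ hD h3
  set W : ℝ := X r (X (-r) (X r (X (-r) (x - 2 * a - b) + a) + b) + a) with hW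
  have hWe : e W = e (x + c) := by
    rw [hW, hrot]
    have h2 : (-1 : ℂ) = exp (Real.pi * I) := exp_pi_mul_I.symm
    have h3 : -E ^ 2 * e (x - 2 * a - b) = (-1) * (E * E) * e (x - 2 * a - b) := by ring
    rw [h3, h2, hE]
    unfold e
    rw [← exp_add, ← exp_add, ← exp_add]
    congr 1
    rw [hb, hκ]
    push_cast
    ring
  obtain ⟨n, hn⟩ := exp_eq_exp_iff_exists_int.1 hWe
  have hn' : W = x + c + n := by
    have h2 : ((W : ℂ) - (x + c + n)) * (2 * Real.pi * I) = 0 := by
      push_cast at hn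
      linear_combination hn
    rcases mul_eq_zero.1 h2 with h3 | h3
    · have h4 : ((W - (x + c + n) : ℝ) : ℂ) = 0 := by push_cast; exact h3
      have h5 := ofReal_eq_zero.1 h4
      linarith
    · exact absurd h3 two_pi_I_ne_zero
  have hrr : |r| < 1 / 4 := by rw [abs_of_pos h0]; exact h1
  have hrr' : |(-r)| < 1 / 4 := by rw [abs_neg]; exact hrr
  have d1 := abs_le.1 (abs_X_sub (-r) hrr' (x - 2 * a - b))
  have d2 := abs_le.1 (abs_X_sub r hrr (X (-r) (x - 2 * a - b) + a))
  have d3 := abs_le.1 (abs_X_sub (-r) hrr' (X r (X (-r) (x - 2 * a - b) + a) + b))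
  have d4 := abs_le.1 (abs_X_sub r hrr (X (-r) (X r (X (-r) (x - 2 * a - b) + a) + b) + a))
  rw [← hW] at d4
  have hc3 := abs_le.1 hc2
  have hn1 : (n : ℝ) < 1 := by linarith [d1.1, d1.2, d2.1, d2.2, d3.1, d3.2, d4.1, d4.2]
  have hn2 : (-1 : ℝ) < n := by linarith [d1.1, d1.2, d2.1, d2.2, d3.1, d3.2, d4.1, d4.2]
  have hn3 : n < 1 := by exact_mod_cast hn1
  have hn4 : -1 < n := by exact_mod_cast hn2
  have hn5 : n = 0 := by omega
  rw [hn', hn5, Int.cast_zero, add_zero]

end Pool.Agent.Helper40.RotB
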